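import Pool.Agent.Lib.MP_186ff7_lc.PCP.Defs

/-!
# The PCP theorem: sums over words and walks
-/

set_option linter.unusedSectionVars false

namespace Pool.Agent.Lib.MP_186ff7_lc.PCP

open Finset

section wsum

variable {D : Type} [Fintype D]

theorem wsum_add (a b : ℕ) (φ : List D → ℝ) :
    wsum (a + b) φ = wsum a fun x => wsum b fun y => φ (x ++ y) := by
  induction a generalizing φ with
  | zero => simp [wsum]
  | succ a ih =>
    rw [Nat.add_right_comm]
    simp only [wsum, List.cons_append]
    exact Finset.sum_congr rfl fun j _ => ih _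

theorem wsum_succ' (k : ℕ) (φ : List D → ℝ) :
    wsum (k + 1) φ = wsum k fun x => ∑ j, φ (x ++ [j]) := by
  rw [wsum_add]
  rfl

/-- Only the words of length `k` matter. -/
theorem wsum_congr {k : ℕ} {φ ψ : List D → ℝ} (h : ∀ w : List D, w.length = k → φ w = ψ w) :
    wsum k φ = wsum k ψ := by
  induction k generalizing φ ψ with
  | zero => exact h [] rfl
  | succ k ih =>
    simp only [wsum]
    exact Finset.sum_congr rfl fun j _ => ih fun w hw => h _ (by simp [hw])

theorem wsum_le_wsum {k : ℕ} {φ ψ : List D → ℝ} (h : ∀ w : List D, w.length = k → φ w ≤ ψ w) :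
    wsum k φ ≤ wsum k ψ := by
  induction k generalizing φ ψ with
  | zero => exact h [] rfl
  | succ k ih =>
    simp only [wsum]
    exact Finset.sum_le_sum fun j _ => ih fun w hw => h _ (by simp [hw])

theorem wsum_const (k : ℕ) (c : ℝ) : wsum k (fun _ : List D => c) = (Fintype.card D) ^ k * c := by
  induction k with
  | zero => simp [wsum]
  | succ k ih =>
    simp only [wsum, ih, Finset.sum_const, Finset.card_univ, nsmul_eq_mul]
    ring

theorem wsum_nonneg {k : ℕ} {φ : List D → ℝ} (h : ∀ w : List D, w.length = k → 0 ≤ φ w) :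
    0 ≤ wsum k φ := by
  have := wsum_le_wsum (φ := fun _ => (0 : ℝ)) h
  rwa [wsum_const, mul_zero] at this

theorem wsum_mul_left (k : ℕ) (c : ℝ) (φ : List D → ℝ) :
    wsum k (fun w => c * φ w) = c * wsum k φ := by
  induction k generalizing φ with
  | zero => rfl
  | succ k ih => simp only [wsum, ih, Finset.mul_sum]

theorem wsum_mul_right (k : ℕ) (c : ℝ) (φ : List D → ℝ) :
    wsum k (fun w => φ w * c) = wsum k φ * c := by
  simp only [mul_comm _ c, wsum_mul_left]

theorem wsum_fun_add (k : ℕ) (φ ψ : List D → ℝ) :
    wsum k (fun w => φ w + ψ w) = wsum k φ + wsum k ψ := by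
  induction k generalizing φ ψ with
  | zero => rfl
  | succ k ih => simp only [wsum, ih, Finset.sum_add_distrib]

theorem wsum_sum {ι : Type*} (s : Finset ι) (k : ℕ) (φ : ι → List D → ℝ) :
    wsum k (fun w => ∑ i ∈ s, φ i w) = ∑ i ∈ s, wsum k (φ i) := by
  induction k generalizing φ with
  | zero => rfl
  | succ k ih =>
    simp only [wsum, ih]
    rw [Finset.sum_comm]

/-- The sum over words as a sum over the subtype of the words of length `k`. -/
theorem wsum_eq_sum (k : ℕ) (φ : List D → ℝ) : ∀ [Fintype {w : List D // w.length = k}],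
    wsum k φ = ∑ w : {w : List D // w.length = k}, φ w.1 := by
  induction k generalizing φ with
  | zero =>
    intro _
    have : Unique {w : List D // w.length = 0} :=
      ⟨⟨⟨[], rfl⟩⟩, fun w => Subtype.ext (List.length_eq_zero_iff.1 w.2)⟩
    rw [Fintype.sum_unique]
    have h : (default : {w : List D // w.length = 0}).1 = [] :=
      List.length_eq_zero_iff.1 (default : {w : List D // w.length = 0}).2
    rw [h]
    rfl
  | succ k ih =>
    intro _
    let e : D × {w : List D // w.length = k} ≃ {w : List D // w.length = k + 1} :=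
      { toFun := fun p => ⟨p.1 :: p.2.1, by simp [p.2.2]⟩
        invFun := fun w => (w.1.head (by intro h; have := w.2; rw [h] at this; simp at this),
          ⟨w.1.tail, by simp [w.2]⟩)
        left_inv := fun p => rfl
        right_inv := fun w => Subtype.ext (by simp) }
    have : Finite D := Finite.of_fintype D
    have : Finite {w : List D // w.length = k} :=
      Set.Finite.to_subtype (List.finite_length_eq D k)
    have : Fintype {w : List D // w.length = k} := Fintype.ofFinite _
    rw [← e.sum_comp, Fintype.sum_prod_type]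
    simp only [wsum]
    exact Finset.sum_congr rfl fun j _ => ih _

end wsum

namespace PG

variable {V D A : Type} (G : PG V D A)

@[simp] theorem go_nil (v : V) : G.go v [] = v := rfl

@[simp] theorem go_cons (v : V) (j : D) (w : List D) : G.go v (j :: w) = G.go (G.nb j v) w := rfl

@[simp] theorem go_append (v : V) (w w' : List D) : G.go v (w ++ w') = G.go (G.go v w) w' :=
  List.foldl_append

@[simp] theorem rv_nil : G.rv [] = [] := rfl

theorem rv_append (w w' : List D) : G.rv (w ++ w') = G.rv w' ++ G.rv w := by simp [rv]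

@[simp] theorem rv_cons (j : D) (w : List D) : G.rv (j :: w) = G.rv w ++ [G.inv j] := by simp [rv]

@[simp] theorem rv_concat (w : List D) (j : D) : G.rv (w ++ [j]) = G.inv j :: G.rv w := by
  simp [rv]

@[simp] theorem length_rv (w : List D) : (G.rv w).length = w.length := by simp [rv]

@[simp] theorem rv_rv (w : List D) : G.rv (G.rv w) = w := by
  simp only [rv, List.map_reverse, List.reverse_reverse, List.map_map]
  refine (List.map_congr_left fun j _ => ?_).trans (List.map_id w)
  exact G.inv_inv j

theorem nb_nb_inv (j : D) (v : V) : G.nb j (G.nb (G.inv j) v) = v := by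
  have := G.nb_inv (G.inv j) v
  rwa [G.inv_inv] at this

/-- Going back. -/
@[simp] theorem go_rv (v : V) (w : List D) : G.go (G.go v w) (G.rv w) = v := by
  induction w generalizing v with
  | nil => rfl
  | cons j w ih => rw [rv_cons, go_append, G.go_cons v, ih, go_cons, go_nil, G.nb_inv]

/-- Every label permutes the vertices. -/
def nbEquiv (j : D) : V ≃ V where
  toFun := G.nb j
  invFun := G.nb (G.inv j)
  left_inv := G.nb_inv j
  right_inv := G.nb_nb_inv j

/-- The inversion of the labels is a permutation. -/
def invEquiv : D ≃ D where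
  toFun := G.inv
  invFun := G.inv
  left_inv := G.inv_inv
  right_inv := G.inv_inv

variable [Fintype V] [Fintype D]

theorem sum_nb (j : D) (f : V → ℝ) : ∑ v, f (G.nb j v) = ∑ v, f v := (G.nbEquiv j).sum_comp f

theorem sum_inv (f : D → ℝ) : ∑ j, f (G.inv j) = ∑ j, f j := G.invEquiv.sum_comp f

/-- The sum over a word and the sum over the reversed word, for a fixed start. -/
theorem wsum_rv (k : ℕ) (φ : List D → ℝ) : wsum k (fun w => φ (G.rv w)) = wsum k φ := by
  induction k generalizing φ with
  | zero => rfl
  | succ k ih =>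
    have h1 : wsum (k + 1) (fun w => φ (G.rv w)) =
        ∑ j, wsum k fun w => (fun x => φ (x ++ [G.inv j])) (G.rv w) := by
      simp only [wsum, rv_cons]
    rw [h1, wsum_succ', wsum_sum]
    simp only [fun j => ih (fun x => φ (x ++ [G.inv j]))]
    exact G.sum_inv fun j => wsum k fun x => φ (x ++ [j])

/-- **Reversal of walks.** -/
theorem reversal (k : ℕ) (Φ : V → List D → V → ℝ) :
    ∑ v, wsum k (fun w => Φ v w (G.go v w)) = ∑ u, wsum k fun w => Φ (G.go u w) (G.rv w) u := by
  classical
  -- both sides are sums over triples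
  have h1 : ∀ w : List D, ∑ v, Φ v w (G.go v w) = ∑ u, Φ (G.go u (G.rv w)) w u := by
    intro w
    let e : V ≃ V :=
      { toFun := fun v => G.go v w
        invFun := fun u => G.go u (G.rv w)
        left_inv := fun v => G.go_rv v w
        right_inv := fun u => by
          have := G.go_rv u (G.rv w)
          rwa [G.rv_rv] at this }
    rw [← e.sum_comp (fun u => Φ (G.go u (G.rv w)) w u)]
    refine Finset.sum_congr rfl fun v _ => ?_
    change Φ v w (G.go v w) = Φ (G.go (G.go v w) (G.rv w)) w (G.go v w)
    rw [G.go_rv]
  rw [← wsum_sum Finset.univ k fun v w => Φ v w (G.go v w),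
    ← wsum_sum Finset.univ k fun u w => Φ (G.go u w) (G.rv w) u]
  rw [show (fun w => ∑ v, Φ v w (G.go v w)) = fun w => ∑ u, Φ (G.go u (G.rv w)) w u from
    funext h1]
  have h2 := G.wsum_rv k fun w => ∑ u, Φ (G.go u (G.rv w)) w u
  rw [← h2]
  simp only [G.rv_rv]

/-- The end of a walk along a fixed word is uniformly distributed. -/
theorem sum_go (w : List D) (f : V → ℝ) : ∑ v, f (G.go v w) = ∑ v, f v := by
  induction w generalizing f with
  | nil => rfl
  | cons j w ih => simp only [go_cons]; rw [G.sum_nb j fun v => f (G.go v w), ih]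

end PG

end Pool.Agent.Lib.MP_186ff7_lc.PCP
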