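import Pool.Agent.Lib.MP_186ff7_lc.PCP.Stmts
import Pool.Agent.Lib.MP_186ff7_lc.PCP.Words

/-!
# The PCP theorem: one round doubles the gap
-/

namespace Pool.Agent.Lib.MP_186ff7_lc.PCP

theorem card_Lb : Fintype.card Lb = 34 := by
  simp [Lb]

theorem card_words (D : Type) [Fintype D] (k : ℕ) [Fintype {w : List D // w.length = k}] :
    Fintype.card {w : List D // w.length = k} = Fintype.card D ^ k := by
  have h1 := wsum_eq_sum k (fun _ : List D => (1 : ℝ))
  rw [wsum_const] at h1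
  simp only [mul_one, Finset.sum_const, Finset.card_univ, nsmul_eq_mul] at h1
  exact_mod_cast h1.symm

theorem card_Wd (T : ℕ) : Fintype.card (Wd T) = 34 ^ (2 * T - 1) * (2 * T - 1) := by
  rw [Fintype.card_prod, card_words, card_Lb, Fintype.card_fin]

theorem gap_comp (h1 : StPow) (h2 : StContr) (h3 : StSize) (h6 : StPreGap)
    (h7 : StCompLen) (h9 : StCompGap) : ∃ c κ : ℝ, 0 < c ∧ 0 < κ ∧ κ ≤ 1 ∧
    ∀ (T : ℕ), 1 ≤ T → ∀ (I : Inst) (G : PG (Fin (nV I)) Lb Al), I ≠ [] → Agree I G →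
    ∀ δ : ℝ, 0 ≤ δ → Gap δ I → Gap (κ / 768 * min (T * (c * δ)) 1) (comp T I) := by
  obtain ⟨ρ, hρ0, hρ1, hC⟩ := h2
  obtain ⟨κ, hκ0, hκ1, hP⟩ := h1 ρ hρ0 hρ1
  obtain ⟨h, hh0, hh⟩ := h6
  refine ⟨h / 1088, κ, by positivity, hκ0, hκ1, ?_⟩
  intro T hT I G hI hG δ hδ hgap σ
  obtain ⟨hn0, hn1⟩ := h3 I hI
  have : Nonempty (Fin (nV I)) := ⟨⟨0, hn0⟩⟩
  have : Nonempty Lb := ⟨.inl ()⟩
  obtain ⟨Ω, hΩ⟩ := h9 T hT I G hG σ
  obtain ⟨σ', hσ'⟩ := hP (Fin (nV I)) Lb G (hC I G hG) T hT Ω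
  obtain ⟨τ, hτ⟩ := hh I G hG σ'
  have hτ2 := hgap τ
  rw [Fintype.card_fin, card_Lb] at hσ'
  rw [h7 T I, card_Wd]
  have hnR : (0 : ℝ) < nV I := by exact_mod_cast hn0
  have hnR1 : (nV I : ℝ) ≤ 32 * I.length := by exact_mod_cast hn1
  have hu : h / 1088 * δ ≤ (G.viol σ' : ℝ) / (nV I * (34 : ℕ)) := by
    rw [le_div_iff₀ (by positivity)]
    have e1 : h * (δ * I.length) ≤ G.viol σ' := le_trans (mul_le_mul_of_nonneg_left hτ2 hh0.le) hτ
    have e2 : h * δ * (nV I : ℝ) ≤ h * δ * (32 * I.length) :=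
      mul_le_mul_of_nonneg_left hnR1 (by positivity)
    push_cast
    linarith
  have hmin : min ((T : ℝ) * (h / 1088 * δ)) 1 ≤
      min ((T : ℝ) * ((G.viol σ' : ℝ) / (nV I * (34 : ℕ)))) 1 :=
    min_le_min (mul_le_mul_of_nonneg_left hu (by positivity)) le_rfl
  have hT1 : (0 : ℝ) ≤ ((2 * T - 1 : ℕ) : ℝ) := by positivity
  have hN : (0 : ℝ) ≤ (nV I : ℝ) * ((34 : ℕ) : ℝ) ^ (2 * T - 1) * ((2 * T - 1 : ℕ) : ℝ) := by
    positivity
  have key : κ * min ((T : ℝ) * (h / 1088 * δ)) 1 *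
      ((nV I : ℝ) * ((34 : ℕ) : ℝ) ^ (2 * T - 1) * ((2 * T - 1 : ℕ) : ℝ)) *
      Fintype.card (Tst (Sg T)) ≤ 192 * viol (comp T I) σ := by
    refine le_trans (mul_le_mul_of_nonneg_right ?_ (by positivity)) hΩ
    refine le_trans ?_ hσ'
    exact mul_le_mul_of_nonneg_right (mul_le_mul_of_nonneg_left hmin hκ0.le) hN
  push_cast at key ⊢
  nlinarith [key]

theorem amp_ok (h1 : StPow) (h2 : StContr) (h3 : StSize) (h4 : StPG) (h5 : StPreSat)
    (h6 : StPreGap) (h7 : StCompLen) (h8 : StCompSat) (h9 : StCompGap) (h10 : StRenum) :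
    StAmp := by
  obtain ⟨c, κ, hc, hκ0, hκ1, hgap⟩ := gap_comp h1 h2 h3 h6 h7 h9
  obtain ⟨T, hT⟩ := exists_nat_ge (2 * 768 / (κ * c) + 1)
  have hT1 : 1 ≤ T := by
    have : (1 : ℝ) ≤ T := le_trans (by linarith [show (0 : ℝ) ≤ 2 * 768 / (κ * c) by positivity]) hT
    exact_mod_cast this
  have hTst : 0 < Fintype.card (Tst (Sg T)) := Fintype.card_pos_iff.2
    ⟨(0, fun _ => false, fun _ => false, fun _ => false, fun _ => false)⟩
  have hWd : 0 < Fintype.card (Wd T) := by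
    rw [card_Wd]
    exact Nat.mul_pos (by positivity) (by omega)
  refine ⟨T, κ / 768, 32 * (Fintype.card (Wd T) * (Fintype.card (Tst (Sg T)) * 4)), hT1,
    by positivity, by linarith, ?_, ?_⟩
  · have : 0 < Fintype.card (Wd T) * (Fintype.card (Tst (Sg T)) * 4) := by positivity
    omega
  · intro I hI
    obtain ⟨hn0, hn1⟩ := h3 I hI
    obtain ⟨G, hG⟩ := h4 I
    obtain ⟨r1, r2, r3, r4⟩ := @h10 (Nm T) (Classical.decEq _) (comp T I)
    have hamp : amp T I = @renum (Nm T) (Classical.decEq _) (comp T I) := by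
      unfold amp
      congr!
    rw [hamp]
    have hlen := h7 T I
    have hpos : 0 < (comp T I).length := by
      rw [hlen]
      positivity
    refine ⟨?_, ?_, ?_, ?_, ?_⟩
    · intro hnil
      rw [hnil] at r1
      simp at r1
      omega
    · rw [r1, hlen]
      calc nV I * (Fintype.card (Wd T) * (Fintype.card (Tst (Sg T)) * 4))
          ≤ (32 * I.length) * (Fintype.card (Wd T) * (Fintype.card (Tst (Sg T)) * 4)) :=
            Nat.mul_le_mul_right _ hn1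
        _ = _ := by ring
    · intro hs
      exact r3 (h8 T hT1 I G hG (h5 I G hG hs))
    · intro δ hδ
      apply r4
      rcases lt_or_ge δ 0 with hneg | hpos'
      · intro σ
        refine le_trans ?_ (Nat.cast_nonneg _)
        refine mul_nonpos_of_nonpos_of_nonneg ?_ (Nat.cast_nonneg _)
        exact le_trans (min_le_left _ _) (by linarith)
      · have g1 := hgap T hT1 I G hI hG δ hpos' hδ
        intro σ
        refine le_trans (mul_le_mul_of_nonneg_right ?_ (Nat.cast_nonneg _)) (g1 σ)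
        rw [mul_min_of_nonneg _ _ (by positivity : (0 : ℝ) ≤ κ / 768)]
        rw [mul_one]
        refine min_le_min ?_ le_rfl
        have e1 : 2 * 768 / (κ * c) ≤ T := by linarith
        rw [div_le_iff₀ (by positivity)] at e1
        nlinarith [mul_le_mul_of_nonneg_right e1 hpos']
    · intro d hd
      rw [r1]
      exact r2 d hd

end Pool.Agent.Lib.MP_186ff7_lc.PCP
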