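import Pool.Agent.Lib.MP_186ff7_lc.PCP.Stmts

/-!
# The linearity test (module BLR)
-/

namespace Pool.Agent.Lib.MP_186ff7_lc.PCP

namespace BLR

open Finset

set_option linter.unusedSectionVars false

variable {X : Type} [Fintype X] [DecidableEq X]

/-- The sign of a bit. -/
def sg (b : Bool) : ℤ := if b then -1 else 1

theorem sg_xor (b c : Bool) : sg (b ^^ c) = sg b * sg c := by
  cases b <;> cases c <;> simp [sg]

theorem sg_mul_self (b : Bool) : sg b * sg b = 1 := by
  cases b <;> simp [sg]

/-- The sum of two functions. -/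
def xo (f g : X → Bool) : X → Bool := fun x => f x ^^ g x

theorem xo_self (f : X → Bool) : xo f f = fun _ => false := by
  funext x
  simp [xo]

theorem xo_xo (f g : X → Bool) : xo f (xo f g) = g := by
  funext x
  simp [xo]

theorem xo_comm (f g : X → Bool) : xo f g = xo g f := by
  funext x
  simp only [xo]
  exact Bool.xor_comm _ _

theorem xo_eq_zero (f g : X → Bool) : (xo f g = fun _ => false) ↔ f = g := by
  constructor
  · intro h
    funext x
    have := congrFun h x
    simp only [xo] at this
    revert this
    cases f x <;> cases g x <;> simp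
  · rintro rfl
    exact xo_self f

/-- The character. -/
def ch (s : Finset X) (f : X → Bool) : ℤ := ∏ x ∈ s, sg (f x)

theorem sg_chi (s : Finset X) (f : X → Bool) : sg (chi s f) = ch s f := by
  have h : ch s f = (-1) ^ (s.filter fun x => f x = true).card := by
    unfold ch sg
    rw [Finset.prod_ite]
    simp
  rw [h]
  unfold chi sg
  by_cases hc : Odd (s.filter fun x => f x = true).card
  · simp [hc]
  · have he := Nat.not_odd_iff_even.1 hc
    simp [hc, he.neg_one_pow]

theorem ch_xo (s : Finset X) (f g : X → Bool) : ch s (xo f g) = ch s f * ch s g := by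
  unfold ch
  rw [← Finset.prod_mul_distrib]
  exact Finset.prod_congr rfl fun x _ => sg_xor _ _

/-- The number of functions. -/
def N (X : Type) [Fintype X] [DecidableEq X] : ℤ := (Fintype.card (X → Bool) : ℤ)

theorem N_eq : N X = 2 ^ Fintype.card X := by
  unfold N
  simp

theorem N_pos : 0 < N X := by
  rw [N_eq]
  positivity

theorem sum_ch (f : X → Bool) : ∑ s : Finset X, ch s f = if f = fun _ => false then N X else 0 := by
  have h : ∑ s : Finset X, ch s f = ∏ x : X, (1 + sg (f x)) := by
    rw [Finset.prod_one_add, Finset.powerset_univ]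
    rfl
  rw [h]
  split_ifs with h0
  · subst h0
    simp only [sg]
    rw [N_eq]
    simp [Finset.prod_const]
  · have : ∃ x, f x = true := by
      by_contra hc
      push Not at hc
      apply h0
      funext x
      simpa using hc x
    obtain ⟨x, hx⟩ := this
    refine Finset.prod_eq_zero (Finset.mem_univ x) ?_
    simp [hx, sg]

/-- The transform. -/
def hat (u : (X → Bool) → ℤ) (s : Finset X) : ℤ := ∑ f, u f * ch s f

theorem parseval (u v : (X → Bool) → ℤ) :
    ∑ s : Finset X, hat u s * hat v s = N X * ∑ f, u f * v f := by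
  have h1 : ∀ s : Finset X, hat u s * hat v s = ∑ f, ∑ g, u f * v g * ch s (xo f g) := by
    intro s
    unfold hat
    rw [Finset.sum_mul_sum]
    refine Finset.sum_congr rfl fun f _ => Finset.sum_congr rfl fun g _ => ?_
    rw [ch_xo]
    ring
  simp only [h1]
  rw [Finset.sum_comm]
  rw [Finset.mul_sum]
  refine Finset.sum_congr rfl fun f _ => ?_
  rw [Finset.sum_comm]
  have h2 : ∀ g : X → Bool, ∑ s : Finset X, u f * v g * ch s (xo f g) =
      if f = g then u f * v g * N X else 0 := by
    intro g
    rw [← Finset.mul_sum, sum_ch]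
    by_cases hfg : f = g
    · rw [if_pos ((xo_eq_zero f g).2 hfg), if_pos hfg]
    · rw [if_neg fun h => hfg ((xo_eq_zero f g).1 h), if_neg hfg, mul_zero]
  simp only [h2]
  rw [Finset.sum_ite_eq]
  simp only [Finset.mem_univ, if_true]
  ring

theorem conv (u v : (X → Bool) → ℤ) (s : Finset X) :
    hat u s * hat v s = hat (fun k => ∑ f, u f * v (xo f k)) s := by
  unfold hat
  rw [Finset.sum_mul_sum]
  have h1 : ∀ f : X → Bool, ∑ g, u f * ch s f * (v g * ch s g) =
      ∑ k, u f * v (xo f k) * ch s k := by
    intro f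
    refine Finset.sum_bij' (fun g _ => xo f g) (fun k _ => xo f k) (fun _ _ => Finset.mem_univ _)
      (fun _ _ => Finset.mem_univ _) (fun g _ => xo_xo f g) (fun k _ => xo_xo f k) ?_
    intro g _
    rw [xo_xo, ch_xo]
    ring
  simp only [h1]
  rw [Finset.sum_comm]
  refine Finset.sum_congr rfl fun k _ => ?_
  rw [Finset.sum_mul]

theorem hat_eq (A : (X → Bool) → Bool) (s : Finset X) :
    hat (fun f => sg (A f)) s = N X - 2 * (Finset.univ.filter fun f => A f ≠ chi s f).card := by
  have h1 : hat (fun f => sg (A f)) s = ∑ f, (1 - 2 * (if A f ≠ chi s f then (1 : ℤ) else 0)) := by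
    unfold hat
    refine Finset.sum_congr rfl fun f _ => ?_
    rw [← sg_chi]
    show sg (A f) * sg (chi s f) = 1 - 2 * (if A f ≠ chi s f then (1 : ℤ) else 0)
    generalize A f = b
    generalize chi s f = c
    cases b <;> cases c <;> simp [sg]
  rw [h1, Finset.sum_sub_distrib, ← Finset.mul_sum, Finset.sum_boole]
  simp [N]

end BLR

open BLR in
theorem blr : StBLR := by
  intro X _ _ A
  set a : (X → Bool) → ℤ := fun f => sg (A f) with ha
  obtain ⟨s, _, hs⟩ := Finset.exists_max_image (Finset.univ : Finset (Finset X)) (hat a)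
    ⟨∅, Finset.mem_univ _⟩
  refine ⟨s, ?_⟩
  set R := (Finset.univ.filter fun p : (X → Bool) × (X → Bool) =>
      (A p.1 ^^ A p.2) ≠ A fun x => p.1 x ^^ p.2 x).card with hR
  set d := (Finset.univ.filter fun f => A f ≠ chi s f).card with hd
  -- the sum of the squares
  have h2 : ∑ t : Finset X, hat a t * hat a t = N X * N X := by
    rw [parseval]
    congr 1
    simp only [ha, sg_mul_self]
    simp [N]
  -- the sum of the cubes
  have h3 : ∑ t : Finset X, hat a t * (hat a t * hat a t) = N X * (N X * N X - 2 * R) := by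
    have e1 : ∀ t : Finset X, hat a t * (hat a t * hat a t) =
        hat a t * hat (fun k => ∑ f, a f * a (xo f k)) t := by
      intro t
      rw [conv]
    simp only [e1]
    rw [parseval]
    congr 1
    have e2 : ∀ p : (X → Bool) × (X → Bool), a p.1 * (a p.2 * a (xo p.2 p.1)) =
        1 - 2 * (if (A p.1 ^^ A p.2) ≠ (A fun x => p.1 x ^^ p.2 x) then (1 : ℤ) else 0) := by
      intro p
      have e3 : (fun x => p.1 x ^^ p.2 x) = xo p.2 p.1 := by
        rw [xo_comm]
        rfl
      rw [e3]
      simp only [ha]
      cases A p.1 <;> cases A p.2 <;> cases A (xo p.2 p.1) <;> simp [sg]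
    calc ∑ f, a f * ∑ g, a g * a (xo g f)
        = ∑ p : (X → Bool) × (X → Bool), a p.1 * (a p.2 * a (xo p.2 p.1)) := by
          rw [Fintype.sum_prod_type]
          exact Finset.sum_congr rfl fun f _ => Finset.mul_sum _ _ _
      _ = ∑ p : (X → Bool) × (X → Bool),
          (1 - 2 * (if (A p.1 ^^ A p.2) ≠ (A fun x => p.1 x ^^ p.2 x) then (1 : ℤ) else 0)) :=
          Finset.sum_congr rfl fun p _ => e2 p
      _ = N X * N X - 2 * R := by
          rw [Finset.sum_sub_distrib, ← Finset.mul_sum, Finset.sum_boole]
          rw [hR]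
          congr 1
          rw [Finset.sum_const, Finset.card_univ, Fintype.card_prod]
          simp only [nsmul_eq_mul, mul_one, N]
          push_cast
          ring
  have h4 : ∑ t : Finset X, hat a t * (hat a t * hat a t) ≤ hat a s * (N X * N X) := by
    rw [← h2, Finset.mul_sum]
    exact Finset.sum_le_sum fun t ht => mul_le_mul_of_nonneg_right (hs t ht) (mul_self_nonneg _)
  rw [h3, hat_eq] at h4
  have hN := N_pos (X := X)
  have h5 : N X * N X - 2 * R ≤ (N X - 2 * d) * N X := by
    have : N X * (N X * N X - 2 * R) ≤ N X * ((N X - 2 * d) * N X) := by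
      calc N X * (N X * N X - 2 * R) ≤ (N X - 2 * d) * (N X * N X) := h4
        _ = N X * ((N X - 2 * d) * N X) := by ring
    exact le_of_mul_le_mul_left this hN
  have h6 : (d : ℤ) * N X ≤ R := by
    nlinarith
  unfold N at h6
  exact_mod_cast h6

end Pool.Agent.Lib.MP_186ff7_lc.PCP
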