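import Pool.Agent.Lib.MP_186ff7_lc.PCP.Stmts

/-!
# The PCP theorem: formulas and their constraint lists
-/

namespace Pool.Agent.Lib.MP_186ff7_lc.PCP

open MP_c85d9c_lc

theorem viol_eq_zero_iff {α : Type} (I : GInst α) (σ : α → Al) :
    viol I σ = 0 ↔ ∀ c ∈ I, c.2.2 (σ c.1) (σ c.2.1) = true := by
  unfold viol
  rw [List.countP_eq_zero]
  simp

/-- The letter with the given three bits. -/
def ltr (a b c : Bool) : Al := ⟨a.toNat + 2 * b.toNat + 4 * c.toNat, by
  cases a <;> cases b <;> cases c <;> decide⟩

theorem ltr_zero (a b c : Bool) : (ltr a b c).val.testBit 0 = a := by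
  cases a <;> cases b <;> cases c <;> decide

theorem ltr_one (a b c : Bool) : (ltr a b c).val.testBit 1 = b := by
  cases a <;> cases b <;> cases c <;> decide

theorem ltr_two (a b c : Bool) : (ltr a b c).val.testBit 2 = c := by
  cases a <;> cases b <;> cases c <;> decide

/-- The constraints of a clause, one by one. -/
theorem cnfC_iff (i : ℕ) (C : List (Bool × Bool × ℕ)) (σ : Nc → Al) :
    (∀ c ∈ cnfC i C, c.2.2 (σ c.1) (σ c.2.1) = true) ↔
      C.length ≠ 0 ∧ ∀ k < C.length,
        rlit (decide (k = 0)) (decide (k + 1 = C.length)) (C.getD k (false, false, 0)).2.1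
          (σ (.inr (i, k)))
          (σ (.inl ((C.getD k (false, false, 0)).1, (C.getD k (false, false, 0)).2.2))) = true ∧
        (k + 1 < C.length → rlink (σ (.inr (i, k))) (σ (.inr (i, k + 1))) = true) := by
  unfold cnfC
  by_cases h0 : C.length = 0
  · rw [if_pos h0]
    simp only [List.mem_singleton, forall_eq, Bool.false_eq_true, false_iff]
    exact fun h => h.1 h0
  · rw [if_neg h0]
    simp only [List.mem_flatMap, List.mem_range, List.mem_cons, List.not_mem_nil, or_false]
    constructor
    · intro h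
      refine ⟨h0, fun k hk => ⟨h _ ⟨k, hk, Or.inl rfl⟩, fun hk1 => ?_⟩⟩
      have h1 := h _ ⟨k, hk, Or.inr rfl⟩
      rw [if_pos hk1] at h1
      exact h1
    · rintro ⟨-, h⟩ c ⟨k, hk, rfl | rfl⟩
      · exact (h k hk).1
      · dsimp only
        split_ifs with hk1
        · exact (h k hk).2 hk1
        · rfl

theorem rlit_iff (first last sign : Bool) (z b : Al) : rlit first last sign z b = true ↔
    z.val.testBit 2 = b.val.testBit 0 ∧
      z.val.testBit 1 = (z.val.testBit 0 || decide (z.val.testBit 2 = sign)) ∧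
      (first = true → z.val.testBit 0 = false) ∧ (last = true → z.val.testBit 1 = true) := by
  unfold rlit
  simp only [Bool.and_eq_true, decide_eq_true_eq, Bool.or_eq_true, Bool.not_eq_true']
  constructor
  · rintro ⟨⟨⟨h1, h2⟩, h3⟩, h4⟩
    exact ⟨h1, h2, fun h => h3.resolve_left (by simp [h]), fun h => h4.resolve_left (by simp [h])⟩
  · rintro ⟨h1, h2, h3, h4⟩
    refine ⟨⟨⟨h1, h2⟩, ?_⟩, ?_⟩
    · cases first
      · exact Or.inl rfl
      · exact Or.inr (h3 rfl)
    · cases last
      · exact Or.inl rfl
      · exact Or.inr (h4 rfl)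

theorem rlink_iff (z z' : Al) : rlink z z' = true ↔ z.val.testBit 1 = z'.val.testBit 0 := by
  unfold rlink
  rw [decide_eq_true_eq]

theorem cnf : StCNF := by
  intro φ
  unfold Sat Formula.Satisfiable
  constructor
  · rintro ⟨σ, hσ⟩
    rw [viol_eq_zero_iff] at hσ
    refine ⟨fun x => (σ (.inl (false, x))).val.testBit 0,
      fun x => (σ (.inl (true, x))).val.testBit 0, fun C hC => ?_⟩
    obtain ⟨i, hi, rfl⟩ := List.mem_iff_getElem.1 hC
    have h1 : ∀ c ∈ cnfC i (φ.getD i []), c.2.2 (σ c.1) (σ c.2.1) = true := fun c hc =>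
      hσ c (List.mem_cons_of_mem _ (List.mem_flatMap.2 ⟨i, List.mem_range.2 hi, hc⟩))
    rw [cnfC_iff] at h1
    rw [List.getD_eq_getElem _ _ hi] at h1
    set C := φ[i] with hCdef
    obtain ⟨hne, h⟩ := h1
    by_contra hcon
    push Not at hcon
    have key : ∀ k < C.length, (σ (.inr (i, k))).val.testBit 1 = false := by
      intro k
      induction k with
      | zero =>
        intro hk
        obtain ⟨a1, a2, a3, -⟩ := (rlit_iff _ _ _ _ _).1 (h 0 hk).1
        rw [a2, a3 (by simp), Bool.false_or, decide_eq_false_iff_not]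
        have hl := hcon _ (List.getElem_mem hk)
        rw [a1, List.getD_eq_getElem _ _ hk]
        unfold Lit.Holds at hl
        intro heq
        apply hl
        rw [← heq]
        split_ifs with hu <;> simp [hu]
      | succ k ih =>
        intro hk
        have hk' : k < C.length := by omega
        obtain ⟨a1, a2, -, -⟩ := (rlit_iff _ _ _ _ _).1 (h (k + 1) hk).1
        have hlink := (rlink_iff _ _).1 ((h k hk').2 hk)
        rw [a2, ← hlink, ih hk', Bool.false_or, decide_eq_false_iff_not]
        have hl := hcon _ (List.getElem_mem hk)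
        rw [a1, List.getD_eq_getElem _ _ hk]
        unfold Lit.Holds at hl
        intro heq
        apply hl
        rw [← heq]
        split_ifs with hu <;> simp [hu]
    have hlast : C.length - 1 < C.length := by omega
    obtain ⟨-, -, -, a4⟩ := (rlit_iff _ _ _ _ _).1 (h _ hlast).1
    have := a4 (by rw [decide_eq_true_eq]; omega)
    rw [key _ hlast] at this
    exact Bool.false_ne_true this
  · rintro ⟨α, β, h⟩
    let val : Bool × ℕ → Bool := fun p => if p.1 then β p.2 else α p.2
    let lit : ℕ → ℕ → Bool × Bool × ℕ := fun i k => (φ.getD i []).getD k (false, false, 0)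
    let ev : ℕ → ℕ → Bool := fun i k => decide (val ((lit i k).1, (lit i k).2.2) = (lit i k).2.1)
    let ear : ℕ → ℕ → Bool := fun i k => decide (∃ j < k, ev i j = true)
    obtain ⟨σ, hσ1, hσ2⟩ : ∃ σ : Nc → Al, (∀ p, σ (.inl p) = ltr (val p) false false) ∧
        ∀ i k, σ (.inr (i, k)) = ltr (ear i k) (ear i k || ev i k)
          (val ((lit i k).1, (lit i k).2.2)) :=
      ⟨Sum.elim (fun p => ltr (val p) false false) fun q => ltr (ear q.1 q.2)
        (ear q.1 q.2 || ev q.1 q.2) (val ((lit q.1 q.2).1, (lit q.1 q.2).2.2)),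
        fun _ => rfl, fun _ _ => rfl⟩
    refine ⟨σ, ?_⟩
    rw [viol_eq_zero_iff]
    intro c hc
    rcases List.mem_cons.1 hc with rfl | hc
    · rfl
    obtain ⟨i, hi, hc⟩ := List.mem_flatMap.1 hc
    rw [List.mem_range] at hi
    suffices hs : ∀ c ∈ cnfC i (φ.getD i []), c.2.2 (σ c.1) (σ c.2.1) = true from hs c hc
    rw [cnfC_iff]
    have hmem : φ.getD i [] ∈ φ := by
      rw [List.getD_eq_getElem _ _ hi]
      exact List.getElem_mem hi
    obtain ⟨l, hl, hholds⟩ := h _ hmem
    obtain ⟨j, hj, rfl⟩ := List.mem_iff_getElem.1 hl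
    have hevj : ev i j = true := by
      simp only [ev, decide_eq_true_eq]
      have e1 : lit i j = (φ.getD i [])[j] := by
        simp only [lit]
        rw [List.getD_eq_getElem _ _ hj]
      rw [e1]
      exact hholds
    refine ⟨by omega, fun k hk => ⟨?_, fun hk1 => ?_⟩⟩
    · rw [rlit_iff, hσ1, hσ2, ltr_zero, ltr_one, ltr_two, ltr_zero]
      refine ⟨rfl, rfl, fun h0 => ?_, fun hlast => ?_⟩
      · rw [decide_eq_true_eq] at h0
        subst h0
        simp [ear]
      · rw [decide_eq_true_eq] at hlast
        rw [Bool.or_eq_true]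
        rcases Nat.lt_or_ge j k with hjk | hjk
        · left
          simp only [ear, decide_eq_true_eq]
          exact ⟨j, hjk, hevj⟩
        · right
          have : j = k := by omega
          rw [← this]
          exact hevj
    · rw [rlink_iff, hσ2, hσ2, ltr_zero, ltr_one, Bool.eq_iff_iff, Bool.or_eq_true]
      simp only [ear, decide_eq_true_eq]
      constructor
      · rintro (⟨j', hj', hev⟩ | hev)
        · exact ⟨j', by omega, hev⟩
        · exact ⟨k, by omega, hev⟩
      · rintro ⟨j', hj', hev⟩
        rcases Nat.lt_or_ge j' k with h2 | h2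
        · exact Or.inl ⟨j', h2, hev⟩
        · have : j' = k := by omega
          exact Or.inr (this ▸ hev)

end Pool.Agent.Lib.MP_186ff7_lc.PCP
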