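import Pool.Agent.Lib.MP_186ff7_lc.PCP.Stmts
import Pool.Agent.Lib.MP_186ff7_lc.PCP.Words

/-!
The composition: its length and its completeness.
-/

namespace Pool.Agent.Lib.MP_186ff7_lc.PCP

namespace CompM

lemma length_flatMap_const {α β : Type*} (l : List α) (f : α → List β) (c : ℕ)
    (h : ∀ x ∈ l, (f x).length = c) : (l.flatMap f).length = l.length * c := by
  induction l with
  | nil => simp
  | cons a l ih =>
    rw [List.flatMap_cons, List.length_append, ih (fun x hx => h x (List.mem_cons_of_mem _ hx)),
      h a List.mem_cons_self, List.length_cons]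
    ring

lemma length_allOf (α : Type) [Fintype α] : (allOf α).length = Fintype.card α := by
  simp [allOf]

end CompM

open CompM in
theorem compLen : StCompLen := by
  intro T I
  unfold comp
  rw [length_flatMap_const _ _ (Fintype.card (Wd T) * (Fintype.card (Tst (Sg T)) * 4)),
    List.length_range]
  intro v _
  rw [length_flatMap_const _ _ (Fintype.card (Tst (Sg T)) * 4), length_allOf]
  intro w _
  rw [length_flatMap_const _ _ 4, length_allOf]
  intro t _
  simp

namespace CompM

/-- The letter with the given bits. -/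
lemma exists_bits (b : Fin 4 → Bool) : ∃ z : Al, bits z = b := by
  revert b
  unfold bits
  decide

noncomputable def enc (b : Fin 4 → Bool) : Al := (exists_bits b).choose

lemma bits_enc (b : Fin 4 → Bool) : bits (enc b) = b := (exists_bits b).choose_spec

/-- The letter of a bit. -/
def lt (b : Bool) : Al := if b then 1 else 0

lemma lt_bit (b : Bool) : (lt b).val.testBit 0 = b := by cases b <;> rfl

/-- The predicate of a test holds for the codes of a pair that satisfies the constraint. -/
lemma prd_ans {S : Type} (C : S → S → Bool) (x y : S) (h : C x y = true) (t : Tst S) :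
    prd t.1 (fun i => ans (fun e => e x) (fun e => e y) (fun f => f (x, y)) (qry C t i))
      = true := by
  obtain ⟨k, f, g, h', e⟩ := t
  fin_cases k
  · simp only [prd, qry, ans]
    simp
  · simp only [prd, qry, ans]
    simp
  · simp only [prd, qry, ans]
    simp
  · simp only [prd, qry, ans]
    simp [h]
  · simp only [prd, qry, ans]
    simp
  · simp only [prd, qry, ans]
    simp

section
variable {I : Inst} {G : PG (Fin (nV I)) Lb Al} (hG : Agree I G)
include hG

lemma goN_eq (v : Fin (nV I)) (w : List Lb) : goN I v w = ((G.go v w : Fin (nV I)) : ℕ) := by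
  induction w generalizing v with
  | nil => rfl
  | cons j w ih =>
    rw [PG.go_cons, ← ih (G.nb j v), hG.nb]
    rfl

lemma rv_eq (w : List Lb) : (w.map linv).reverse = G.rv w := by
  rw [PG.rv, hG.inv]

end

end CompM

open CompM in
theorem compSat : StCompSat := by
  intro T hT I G hG hsat
  obtain ⟨σ, hσ⟩ := hsat
  have hR : ∀ v j, G.R v j (σ v) (σ (G.nb j v)) = true := by
    intro v j
    by_contra h
    rw [PG.viol, Finset.card_eq_zero] at hσ
    have : (v, j) ∈ (Finset.univ.filter fun p : Fin (nV I) × Lb =>
        G.R p.1 p.2 (σ p.1) (σ (G.nb p.2 p.1)) = false) := by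
      simp only [Finset.mem_filter, Finset.mem_univ, true_and]
      simpa using h
    rw [hσ] at this
    simp at this
  -- the assignment for numbers
  set σN : ℕ → Al := fun v => if h : v < nV I then σ ⟨v, h⟩ else 0 with hσN
  have hσN' : ∀ v : Fin (nV I), σN v = σ v := by
    intro v
    simp only [hσN]
    rw [dif_pos v.isLt]
  -- the opinions
  set τ : ℕ → Sg T := fun v => (fun w : {w : List Lb // w.length < T} => σN (goN I v w.1)) with hτ
  have hget : ∀ (v : ℕ) (w : List Lb), w.length < T → (τ v).get w = σN (goN I v w) := by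
    intro v w hw
    unfold Sg.get
    rw [dif_pos hw]
  have hcst : ∀ (v : ℕ), v < nV I → ∀ (w : Wd T),
      cst w (rels I v w) (τ v) (τ (goN I v w.used)) = true := by
    intro v hv w
    unfold cst
    rw [decide_eq_true_eq]
    intro i hi hiT hwi
    have hlen : w.1.1.length = 2 * T - 1 := w.1.2
    have hw2 : (w.2 : ℕ) < 2 * T - 1 := w.2.isLt
    have hi2 : (i : ℕ) < 2 * T - 1 := i.isLt
    have hused : w.used.length = w.2 + 1 := by
      rw [Wd.used, List.length_take, hlen]
      omega
    rw [hget _ _ (by rw [List.length_take, hlen]; omega)]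
    rw [hget _ _ (by
      rw [List.length_reverse, List.length_map, List.length_drop, hused]
      omega)]
    rw [rv_eq hG]
    have e1 : goN I v w.used = ((G.go ⟨v, hv⟩ w.used : Fin (nV I)) : ℕ) :=
      goN_eq hG ⟨v, hv⟩ w.used
    rw [e1, goN_eq hG]
    have e2 : G.go ⟨v, hv⟩ w.used
        = G.go (G.go ⟨v, hv⟩ (w.used.take (i + 1))) (w.used.drop (i + 1)) := by
      rw [← PG.go_append, List.take_append_drop]
    rw [e2, PG.go_rv]
    have e3 : w.used.take (i + 1) = w.1.1.take i ++ [w.1.1.get (i.cast w.1.2.symm)] := by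
      rw [Wd.used, List.take_take, min_eq_left (by omega)]
      rw [List.take_succ_eq_append_getElem (by rw [hlen]; exact hi2)]
      rfl
    rw [e3, PG.go_append]
    have e4 : goN I v (w.1.1.take i) = ((G.go ⟨v, hv⟩ (w.1.1.take i) : Fin (nV I)) : ℕ) :=
      goN_eq hG ⟨v, hv⟩ _
    simp only [rels]
    rw [e4, hσN', hσN', ← hG.rl]
    exact hR _ _
  -- the assignment
  refine ⟨fun n => match n with
    | (v, .inl e) => lt (e (τ v))
    | (v, .inr (.inl (w, f))) => lt (f (τ v, τ (goN I v w.used)))
    | (v, .inr (.inr (w, t))) => enc fun i =>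
        ans (fun e => e (τ v)) (fun e => e (τ (goN I v w.used)))
          (fun f => f (τ v, τ (goN I v w.used))) (qry (cst w (rels I v w)) t i), ?_⟩
  unfold viol
  rw [List.countP_eq_zero]
  intro c hc
  unfold comp at hc
  rw [List.mem_flatMap] at hc
  obtain ⟨v, hv, hc⟩ := hc
  rw [List.mem_range] at hv
  rw [List.mem_flatMap] at hc
  obtain ⟨w, -, hc⟩ := hc
  rw [List.mem_flatMap] at hc
  obtain ⟨t, -, hc⟩ := hc
  rw [List.mem_map] at hc
  obtain ⟨i, -, rfl⟩ := hc
  simp only [zrel, bits_enc, Bool.not_eq_true', Bool.not_eq_false, Bool.and_eq_true, beq_iff_eq]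
  refine ⟨prd_ans _ _ _ (hcst v hv w) t, ?_⟩
  generalize qry (cst w (rels I v w)) t i = qq
  rcases qq with e | e | f
  · simp only [ans, qnm, lt_bit]
  · simp only [ans, qnm, lt_bit]
  · simp only [ans, qnm, lt_bit]

end Pool.Agent.Lib.MP_186ff7_lc.PCP
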