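import Pool.Agent.Lib.MP_186ff7_lc.PCP.Stmts
import Pool.Agent.Lib.MP_186ff7_lc.PCP.Words

/-!
# The PCP theorem: soundness of the composition
-/

set_option linter.unusedSectionVars false

namespace Pool.Agent.Lib.MP_186ff7_lc.PCP

open Finset

namespace CompGapAux

variable {T : ℕ}

/-- The table of a vertex. -/
def aw (σ : Nm T → Al) (v : ℕ) (e : Sg T → Bool) : Bool := (σ (v, .inl e)).val.testBit 0

/-- The table of a walk. -/
def aA (σ : Nm T → Al) (v : ℕ) (w : Wd T) (f : Sg T × Sg T → Bool) : Bool :=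
  (σ (v, .inr (.inl (w, f)))).val.testBit 0

lemma ans_eq (σ : Nm T → Al) (I : Inst) (v : ℕ) (w : Wd T) (q : Qy (Sg T)) :
    ans (aw σ v) (aw σ (goN I v w.used)) (aA σ v w) q =
      (σ (qnm I v w q)).val.testBit 0 := by
  rcases q with e | e | f <;> rfl

/-- The constraints of one test. -/
noncomputable def blk (I : Inst) (v : ℕ) (w : Wd T) (t : Tst (Sg T)) : GInst (Nm T) :=
  (List.finRange 4).map fun i =>
      ((v, .inr (.inr (w, t))), qnm I v w (qry (cst w (rels I v w)) t i), zrel t.1 i)

lemma blk_pos (σ : Nm T → Al) (I : Inst) (v : ℕ) (w : Wd T) (t : Tst (Sg T))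
    (h : accept (cst w (rels I v w)) (aw σ v) (aw σ (goN I v w.used)) (aA σ v w) t = false) :
    1 ≤ viol (blk I v w t) σ := by
  by_contra hcon
  have h0 : viol (blk I v w t) σ = 0 := by omega
  unfold viol blk at h0
  rw [List.countP_eq_zero] at h0
  have h1 : ∀ i : Fin 4, zrel t.1 i (σ (v, .inr (.inr (w, t))))
      (σ (qnm I v w (qry (cst w (rels I v w)) t i))) = true := by
    intro i
    have := h0 _ (List.mem_map.mpr ⟨i, List.mem_finRange i, rfl⟩)
    simpa using this
  have h2 : ∀ i : Fin 4, prd t.1 (bits (σ (v, .inr (.inr (w, t))))) = true ∧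
      bits (σ (v, .inr (.inr (w, t)))) i =
        (σ (qnm I v w (qry (cst w (rels I v w)) t i))).val.testBit 0 := by
    intro i
    have := h1 i
    unfold zrel at this
    rw [Bool.and_eq_true, beq_iff_eq] at this
    exact this
  have h3 : (fun i => ans (aw σ v) (aw σ (goN I v w.used)) (aA σ v w)
      (qry (cst w (rels I v w)) t i)) = bits (σ (v, .inr (.inr (w, t)))) := by
    funext i
    rw [ans_eq, (h2 i).2]
  unfold accept at h
  rw [h3, (h2 0).1] at h
  exact absurd h (by decide)

lemma viol_flatMap {α β : Type} (l : List β) (f : β → GInst α) (σ : α → Al) :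
    viol (l.flatMap f) σ = (l.map fun b => viol (f b) σ).sum := by
  unfold viol
  rw [List.countP_flatMap]
  rfl

lemma sum_allOf {α : Type} [Fintype α] (f : α → ℕ) : ((allOf α).map f).sum = ∑ x, f x := by
  unfold allOf
  exact Finset.sum_map_toList _ _

lemma sum_range_list (n : ℕ) (f : ℕ → ℕ) : ((List.range n).map f).sum = ∑ v : Fin n, f v := by
  rw [← Finset.sum_range f]
  rfl

lemma viol_comp (T : ℕ) (I : Inst) (σ : Nm T → Al) :
    viol (comp T I) σ = ∑ v : Fin (nV I), ∑ w : Wd T, ∑ t : Tst (Sg T), viol (blk I v w t) σ := by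
  unfold comp
  rw [viol_flatMap, sum_range_list]
  refine Finset.sum_congr rfl fun v _ => ?_
  rw [viol_flatMap, sum_allOf]
  refine Finset.sum_congr rfl fun w _ => ?_
  rw [viol_flatMap, sum_allOf]
  rfl

lemma reject_le (T : ℕ) (I : Inst) (σ : Nm T → Al) (v : ℕ) (w : Wd T) :
    (Finset.univ.filter fun t : Tst (Sg T) =>
      accept (cst w (rels I v w)) (aw σ v) (aw σ (goN I v w.used)) (aA σ v w) t = false).card ≤
      ∑ t : Tst (Sg T), viol (blk I v w t) σ := by
  rw [Finset.card_filter]
  refine Finset.sum_le_sum fun t _ => ?_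
  split_ifs with h
  · exact blk_pos σ I v w t h
  · exact Nat.zero_le _

open Classical in
/-- The decoding of a table. -/
noncomputable def dec (a : (Sg T → Bool) → Bool) : Sg T :=
  if h : ∃ x, Near a x then h.choose else default

lemma dec_eq (h1 : StNear) {a : (Sg T → Bool) → Bool} {x : Sg T} (h : Near a x) : dec a = x := by
  have hex : ∃ x, Near a x := ⟨x, h⟩
  unfold dec
  rw [dif_pos hex]
  exact h1 (Sg T) a _ _ hex.choose_spec h

lemma go_agree {I : Inst} {G : PG (Fin (nV I)) Lb Al} (hG : Agree I G) (v : Fin (nV I))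
    (w : List Lb) : ((G.go v w : Fin (nV I)) : ℕ) = goN I v w := by
  induction w generalizing v with
  | nil => rfl
  | cons j w ih =>
    rw [PG.go_cons, ih]
    unfold goN
    rw [List.foldl_cons, hG.nb]

lemma wbad_cst {I : Inst} {G : PG (Fin (nV I)) Lb Al} (hG : Agree I G) (σ : Nm T → Al)
    (v : Fin (nV I)) (w : Wd T)
    (h : G.Wbad T (fun u x => (dec (aw σ (u : ℕ))).get x) v w.1.1 w.2) :
    cst w (rels I v w) (dec (aw σ (v : ℕ))) (dec (aw σ (goN I v w.used))) = false := by
  obtain ⟨i, j, hj, hil, hiT, hlT, hR⟩ := h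
  unfold cst
  rw [decide_eq_false_iff_not]
  intro hall
  have hlen := w.1.2
  have hi : i < 2 * T - 1 := by
    have := w.2.2
    omega
  have h1 := hall ⟨i, hi⟩ hil hiT hlT
  have h2 : rels I v w ⟨i, hi⟩ = G.R (G.go v (w.1.1.take i)) j := by
    unfold rels
    have h3 : w.1.1.get ((⟨i, hi⟩ : Fin (2 * T - 1)).cast w.1.2.symm) = j := by
      rw [List.get_eq_getElem]
      have h4 : i < w.1.1.length := by omega
      have h5 := List.getElem?_eq_getElem h4
      rw [hj] at h5
      exact (Option.some.inj h5).symm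
    rw [h3, hG.rl, go_agree hG]
  rw [h2] at h1
  have h3 : G.go v (w.1.1.take ((w.2 : ℕ) + 1)) = G.go v w.used := rfl
  have h4 : G.rv ((w.1.1.take ((w.2 : ℕ) + 1)).drop (i + 1)) =
      ((w.used.drop (i + 1)).map linv).reverse := by
    unfold PG.rv Wd.used
    rw [hG.inv]
  rw [h3, h4] at hR
  simp only [go_agree hG] at hR
  have h5 : G.R (G.go v (w.1.1.take i)) j
      ((dec (aw σ (v : ℕ))).get (w.1.1.take i))
      ((dec (aw σ (goN I v w.used))).get (((w.used.drop (i + 1)).map linv).reverse)) = true := h1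
  rw [hR] at h5
  exact absurd h5 (by decide)

end CompGapAux

open CompGapAux in
open Classical in
theorem compGap (h1 : StNear) (h2 : StTest) : StCompGap := by
  intro T hT I G hG σ
  refine ⟨fun u x => (dec (aw σ (u : ℕ))).get x, ?_⟩
  have hkey : ∀ (v : Fin (nV I)) (w : Wd T),
      (if G.Wbad T (fun u x => (dec (aw σ (u : ℕ))).get x) v w.1.1 w.2 then (1 : ℝ) else 0) *
        Fintype.card (Tst (Sg T)) ≤ 192 * ((∑ t : Tst (Sg T), viol (blk I v w t) σ : ℕ) : ℝ) := by
    intro v w
    split_ifs with h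
    · rw [one_mul]
      have hc := wbad_cst hG σ v w h
      have h3 : Fintype.card (Tst (Sg T)) ≤ 192 * (Finset.univ.filter fun t : Tst (Sg T) =>
        accept (cst w (rels I v w)) (aw σ v) (aw σ (goN I v w.used)) (aA σ v w) t = false).card := by
        by_contra hcon
        push Not at hcon
        obtain ⟨x, y, hxy, hx, hy⟩ := h2 (Sg T) _ _ _ _ hcon
        rw [dec_eq h1 hx, dec_eq h1 hy, hxy] at hc
        exact absurd hc (by decide)
      have h4 := h3.trans (Nat.mul_le_mul_left 192 (reject_le T I σ v w))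
      exact_mod_cast h4
    · rw [zero_mul]
      positivity
  have hsum : (∑ v, wsum (2 * T - 1) fun w => ∑ l ∈ Finset.range (2 * T - 1),
      if G.Wbad T (fun u x => (dec (aw σ (u : ℕ))).get x) v w l then (1 : ℝ) else 0) =
      ∑ v, ∑ w : Wd T,
        if G.Wbad T (fun u x => (dec (aw σ (u : ℕ))).get x) v w.1.1 w.2 then (1 : ℝ) else 0 := by
    refine Finset.sum_congr rfl fun v _ => ?_
    rw [wsum_eq_sum, Fintype.sum_prod_type]
    refine Finset.sum_congr rfl fun w _ => ?_
    rw [Finset.sum_range]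
  rw [hsum, Finset.sum_mul, viol_comp]
  push_cast
  rw [Finset.mul_sum]
  refine Finset.sum_le_sum fun v _ => ?_
  rw [Finset.sum_mul, Finset.mul_sum]
  refine Finset.sum_le_sum fun w _ => ?_
  have := hkey v w
  push_cast at this
  exact this

end Pool.Agent.Lib.MP_186ff7_lc.PCP
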