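import Pool.Agent.Lib.MP_186ff7_lc.PCP.Defs

/-!
# The PCP theorem: lists of points, the torus
-/

namespace Pool.Agent.Lib.MP_186ff7_lc.PCP

/-! ### Roots -/

theorem rt_mem (n : ℕ) : n ≤ rt n * rt n ∧ rt n ≤ n ∧ ∀ m, m < rt n → ¬ n ≤ m * m := by
  unfold rt
  have hne : ((List.range (n + 1)).filter fun m => decide (n ≤ m * m)) ≠ [] := by
    intro h
    have : n ∈ (List.range (n + 1)).filter fun m => decide (n ≤ m * m) := by
      rw [List.mem_filter]
      refine ⟨List.mem_range.2 (by omega), ?_⟩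
      simp only [decide_eq_true_eq]
      exact Nat.le_mul_self n
    rw [h] at this
    exact absurd this List.not_mem_nil
  obtain ⟨a, t, ht⟩ := List.exists_cons_of_ne_nil hne
  rw [ht, List.headD_cons]
  have ha : a ∈ (List.range (n + 1)).filter fun m => decide (n ≤ m * m) := by
    rw [ht]; exact List.mem_cons_self
  have ha' := ha
  rw [List.mem_filter, List.mem_range] at ha
  refine ⟨by simpa using ha.2, by omega, ?_⟩
  intro m hm hnm
  have h1 : m ∈ (List.range (n + 1)).filter fun m => decide (n ≤ m * m) := by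
    rw [List.mem_filter, List.mem_range]
    exact ⟨by omega, by simpa using hnm⟩
  have hs : ((List.range (n + 1)).filter fun m => decide (n ≤ m * m)).Pairwise (· < ·) :=
    List.Pairwise.filter _ List.pairwise_lt_range
  rw [ht] at h1 hs
  rcases List.mem_cons.1 h1 with h | h
  · omega
  · have := (List.pairwise_cons.1 hs).1 m h
    omega

theorem le_rt (n : ℕ) : n ≤ rt n * rt n := (rt_mem n).1

@[simp] theorem rt_zero : rt 0 = 0 := by
  have := (rt_mem 0).2.1
  omega

theorem rt_pos {n : ℕ} (h : 0 < n) : 0 < rt n := by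
  rcases Nat.eq_zero_or_pos (rt n) with h0 | h0
  · have := le_rt n
    rw [h0] at this
    omega
  · exact h0

theorem rt_le (n : ℕ) : rt n * rt n ≤ 4 * n := by
  rcases Nat.eq_zero_or_pos n with h | h
  · subst h; simp
  obtain ⟨m, hm⟩ : ∃ m, rt n = m + 1 := ⟨rt n - 1, by have := rt_pos h; omega⟩
  have h1 := (rt_mem n).2.2 m (by omega)
  rw [hm]
  rcases Nat.eq_zero_or_pos m with h0 | h0
  · subst h0; omega
  nlinarith

/-! ### Positions in a list -/

theorem idxOf_getD {α : Type} [BEq α] [LawfulBEq α] {l : List α} (hl : l.Nodup) {i : ℕ}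
    (hi : i < l.length) (d : α) : l.idxOf (l.getD i d) = i := by
  rw [List.getD_eq_getElem _ _ hi]
  exact List.Nodup.idxOf_getElem hl i hi

theorem getD_idxOf {α : Type} [BEq α] [LawfulBEq α] {l : List α} {x : α} (hx : x ∈ l) (d : α) :
    l.getD (l.idxOf x) d = x := by
  rw [List.getD_eq_getElem _ _ (List.idxOf_lt_length_of_mem hx)]
  exact List.getElem_idxOf _

theorem getD_mem {α : Type} {l : List α} {i : ℕ} (hi : i < l.length) (d : α) : l.getD i d ∈ l := by
  rw [List.getD_eq_getElem _ _ hi]
  exact List.getElem_mem _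

/-! ### Slots -/

@[simp] theorem mem_slots {m : ℕ} {x : ℕ × ℕ} : x ∈ slots m ↔ x.1 < m ∧ x.2 < m := by
  unfold slots
  simp only [List.mem_flatMap, List.mem_range, List.mem_map]
  constructor
  · rintro ⟨p, hp, q, hq, rfl⟩
    exact ⟨hp, hq⟩
  · rintro ⟨h1, h2⟩
    exact ⟨x.1, h1, x.2, h2, rfl⟩

@[simp] theorem length_slots (m : ℕ) : (slots m).length = m * m := by
  unfold slots
  simp

theorem nodup_slots (m : ℕ) : (slots m).Nodup := by
  unfold slots
  rw [List.nodup_flatMap]
  refine ⟨fun p _ => ?_, ?_⟩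
  · exact (List.nodup_range).map fun a b h => (Prod.mk.inj h).2
  · refine (List.nodup_range (n := m)).imp_of_mem ?_
    intro a b _ _ hab
    rw [Function.onFun, List.disjoint_left]
    intro x hx hx'
    rw [List.mem_map] at hx hx'
    obtain ⟨_, _, rfl⟩ := hx
    obtain ⟨_, _, h⟩ := hx'
    exact hab (Prod.mk.inj h).1.symm

/-! ### The torus -/

@[simp] theorem torInv_torInv (j : Fin 8) : torInv (torInv j) = j := by
  fin_cases j <;> rfl

theorem tor_torInv (m : ℕ) (j : Fin 8) (x : ZMod m × ZMod m) :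
    tor m (torInv j) (tor m j x) = x := by
  fin_cases j <;> simp [tor, torInv]

/-- The step `j` is a permutation of the torus. -/
def torEquiv (m : ℕ) (j : Fin 8) : ZMod m × ZMod m ≃ ZMod m × ZMod m where
  toFun := tor m j
  invFun := tor m (torInv j)
  left_inv := tor_torInv m j
  right_inv x := by
    have := tor_torInv m (torInv j) x
    rwa [torInv_torInv] at this

@[simp] theorem linv_linv (j : Lb) : linv (linv j) = j := by
  rcases j with _ | j | j | j <;> simp [linv]

/-- A pair of numbers as a point of the torus. -/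
def castT (m : ℕ) (x : ℕ × ℕ) : ZMod m × ZMod m := (x.1, x.2)

/-- A point of the torus as a pair of numbers. -/
def unT (m : ℕ) (y : ZMod m × ZMod m) : ℕ × ℕ := (y.1.val, y.2.val)

theorem castT_unT (m : ℕ) [NeZero m] (y : ZMod m × ZMod m) : castT m (unT m y) = y := by
  simp [castT, unT]

theorem unT_castT {m : ℕ} {x : ℕ × ℕ} (hx : x ∈ slots m) : unT m (castT m x) = x := by
  rw [mem_slots] at hx
  have : NeZero m := ⟨by omega⟩
  simp only [unT, castT, ZMod.val_natCast]
  rw [Nat.mod_eq_of_lt hx.1, Nat.mod_eq_of_lt hx.2]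

theorem unT_mem (m : ℕ) [NeZero m] (y : ZMod m × ZMod m) : unT m y ∈ slots m := by
  rw [mem_slots]
  exact ⟨ZMod.val_lt _, ZMod.val_lt _⟩

theorem castT_injOn {m : ℕ} {x y : ℕ × ℕ} (hx : x ∈ slots m) (hy : y ∈ slots m)
    (h : castT m x = castT m y) : x = y := by
  rw [← unT_castT hx, ← unT_castT hy, h]

theorem torN_mem {m : ℕ} (j : Fin 8) {x : ℕ × ℕ} (hx : x ∈ slots m) : torN m j x ∈ slots m := by
  rw [mem_slots] at hx
  have h0 : 0 < m := by omega
  rw [mem_slots]
  fin_cases j <;> simp only [torN] <;>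
    first
      | exact ⟨Nat.mod_lt _ h0, hx.2⟩
      | exact ⟨hx.1, Nat.mod_lt _ h0⟩

theorem castT_torN {m : ℕ} (j : Fin 8) {x : ℕ × ℕ} (hx : x ∈ slots m) :
    castT m (torN m j x) = tor m j (castT m x) := by
  rw [mem_slots] at hx
  have h0 : 0 < m := by omega
  have h1 : ((m - x.1 : ℕ) : ZMod m) = -(x.1 : ZMod m) := by
    rw [Nat.cast_sub hx.1.le]; simp
  have h2 : ((m - x.2 : ℕ) : ZMod m) = -(x.2 : ZMod m) := by
    rw [Nat.cast_sub hx.2.le]; simp
  have h3 : ((m - 1 : ℕ) : ZMod m) = -1 := by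
    rw [Nat.cast_sub h0]; simp
  fin_cases j <;> simp only [torN, tor, castT, Prod.mk.injEq, ZMod.natCast_mod, Nat.cast_add,
    Nat.cast_mul, h1, h2, h3, Nat.cast_ofNat, Nat.cast_one, and_true, true_and] <;> ring

theorem torN_torInv {m : ℕ} (j : Fin 8) {x : ℕ × ℕ} (hx : x ∈ slots m) :
    torN m (torInv j) (torN m j x) = x := by
  refine castT_injOn (torN_mem _ (torN_mem _ hx)) hx ?_
  rw [castT_torN _ (torN_mem _ hx), castT_torN _ hx, tor_torInv]

/-- The numbers less than `m * m` are the points of the torus. -/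
def numT (m : ℕ) [NeZero m] : Fin (m * m) ≃ ZMod m × ZMod m where
  toFun v := castT m ((slots m).getD v (0, 0))
  invFun y := ⟨(slots m).idxOf (unT m y), by
    have := List.idxOf_lt_length_of_mem (unT_mem m y)
    rwa [length_slots] at this⟩
  left_inv v := by
    have hv : (v : ℕ) < (slots m).length := by rw [length_slots]; exact v.2
    refine Fin.ext ?_
    change (slots m).idxOf (unT m (castT m ((slots m).getD v (0, 0)))) = v
    rw [unT_castT (getD_mem hv _), idxOf_getD (nodup_slots m) hv]
  right_inv y := by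
    change castT m ((slots m).getD ((slots m).idxOf (unT m y)) (0, 0)) = y
    rw [getD_idxOf (unT_mem m y), castT_unT]

/-! ### The clouds -/

theorem nodup_pts (I : Inst) : (pts I).Nodup := by
  unfold pts
  rw [List.nodup_flatMap]
  refine ⟨fun x _ => (nodup_slots _).map fun a b h => (Prod.mk.inj h).2, ?_⟩
  refine (List.nodup_dedup (sides I)).imp_of_mem ?_
  intro a b _ _ hab
  rw [Function.onFun, List.disjoint_left]
  intro x hx hx'
  rw [List.mem_map] at hx hx'
  obtain ⟨_, _, rfl⟩ := hx
  obtain ⟨_, _, h⟩ := hx'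
  exact hab (Prod.mk.inj h).1.symm

theorem mem_pts {I : Inst} {u : ℕ × ℕ × ℕ} : u ∈ pts I ↔ u.1 ∈ sides I ∧ u.2 ∈ slots (csz I u.1) := by
  unfold pts
  simp only [List.mem_flatMap, List.mem_dedup, List.mem_map]
  constructor
  · rintro ⟨x, hx, p, hp, rfl⟩
    exact ⟨hx, hp⟩
  · rintro ⟨h1, h2⟩
    exact ⟨u.1, h1, u.2, h2, rfl⟩

theorem length_pts_le (I : Inst) : (pts I).length ≤ nV I := le_rt _

theorem nodup_occ (I : Inst) (x : ℕ) : (occ I x).Nodup := List.nodup_range.filter _

theorem mem_occ {I : Inst} {x s : ℕ} :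
    s ∈ occ I x ↔ s < (sides I).length ∧ (sides I).getD s 0 = x := by
  unfold occ
  rw [List.mem_filter, List.mem_range]
  simp

theorem occ_length_le (I : Inst) (x : ℕ) : (occ I x).length ≤ (slots (csz I x)).length := by
  rw [length_slots]
  exact le_rt _

theorem length_sides (I : Inst) : (sides I).length = 2 * I.length := by
  unfold sides
  induction I with
  | nil => rfl
  | cons c I ih => rw [List.flatMap_cons, List.length_append, ih]; simp; omega

theorem length_srel (I : Inst) : (srel I).length = 2 * I.length := by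
  unfold srel
  induction I with
  | nil => rfl
  | cons c I ih => rw [List.flatMap_cons, List.length_append, ih]; simp; omega

theorem length_spar (I : Inst) : (spar I).length = 2 * I.length := by
  unfold spar
  rw [List.length_flatMap]
  simp
  omega

/-! The two sides of the constraint number `i`. -/

theorem flatMap_pair_getElem? {α β : Type} (l : List α) (f g : α → β) (i : ℕ) :
    (l.flatMap fun c => [f c, g c])[2 * i]? = (l[i]?).map f ∧
    (l.flatMap fun c => [f c, g c])[2 * i + 1]? = (l[i]?).map g := by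
  induction l generalizing i with
  | nil => simp
  | cons c l ih =>
    cases i with
    | zero => simp
    | succ i =>
      have h := ih i
      rw [List.flatMap_cons]
      constructor
      · rw [show 2 * (i + 1) = 2 * i + 1 + 1 by ring]
        simpa using h.1
      · rw [show 2 * (i + 1) + 1 = (2 * i + 1) + 1 + 1 by ring]
        simpa using h.2

theorem sides_getD (I : Inst) {i : ℕ} {c : ℕ × ℕ × Rel} (h : I[i]? = some c) :
    (sides I).getD (2 * i) 0 = c.1 ∧ (sides I).getD (2 * i + 1) 0 = c.2.1 := by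
  have h1 := flatMap_pair_getElem? I (fun c => c.1) (fun c => c.2.1) i
  rw [h] at h1
  constructor
  · rw [List.getD_eq_getElem?_getD]
    change ((I.flatMap fun c => [c.1, c.2.1])[2 * i]?).getD 0 = c.1
    rw [h1.1]; rfl
  · rw [List.getD_eq_getElem?_getD]
    change ((I.flatMap fun c => [c.1, c.2.1])[2 * i + 1]?).getD 0 = c.2.1
    rw [h1.2]; rfl

theorem srel_getD (I : Inst) {i : ℕ} {c : ℕ × ℕ × Rel} (h : I[i]? = some c) :
    (srel I).getD (2 * i) top = c.2.2 ∧ (srel I).getD (2 * i + 1) top = fun a b => c.2.2 b a := by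
  have h1 := flatMap_pair_getElem? I (fun c => c.2.2) (fun c => (fun a b => c.2.2 b a : Rel)) i
  rw [h] at h1
  constructor
  · rw [List.getD_eq_getElem?_getD]
    change ((I.flatMap fun c => [c.2.2, (fun a b => c.2.2 b a : Rel)])[2 * i]?).getD top = c.2.2
    rw [h1.1]; rfl
  · rw [List.getD_eq_getElem?_getD]
    change ((I.flatMap fun c => [c.2.2, (fun a b => c.2.2 b a : Rel)])[2 * i + 1]?).getD top = _
    rw [h1.2]; rfl

theorem spar_getD (I : Inst) {i : ℕ} (h : i < I.length) :
    (spar I).getD (2 * i) 0 = 2 * i + 1 ∧ (spar I).getD (2 * i + 1) 0 = 2 * i := by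
  have h1 := flatMap_pair_getElem? (List.range I.length) (fun i => 2 * i + 1) (fun i => 2 * i) i
  rw [List.getElem?_range h] at h1
  constructor
  · rw [List.getD_eq_getElem?_getD]
    change (((List.range I.length).flatMap fun i => [2 * i + 1, 2 * i])[2 * i]?).getD 0 = _
    rw [h1.1]; rfl
  · rw [List.getD_eq_getElem?_getD]
    change (((List.range I.length).flatMap fun i => [2 * i + 1, 2 * i])[2 * i + 1]?).getD 0 = _
    rw [h1.2]; rfl

/-! Sides and points. -/

theorem sidePt_mem {I : Inst} {s : ℕ} (hs : s < (sides I).length) : sidePt I s ∈ pts I := by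
  rw [mem_pts]
  have h1 : s ∈ occ I ((sides I).getD s 0) := mem_occ.2 ⟨hs, rfl⟩
  refine ⟨getD_mem hs _, ?_⟩
  change (slots (csz I ((sides I).getD s 0))).getD ((occ I ((sides I).getD s 0)).idxOf s) (0, 0) ∈ _
  exact getD_mem ((List.idxOf_lt_length_of_mem h1).trans_le (occ_length_le _ _)) _

theorem ptSide_sidePt {I : Inst} {s : ℕ} (hs : s < (sides I).length) :
    ptSide I (sidePt I s) = [s] := by
  have h1 : s ∈ occ I ((sides I).getD s 0) := mem_occ.2 ⟨hs, rfl⟩
  have h2 := List.idxOf_lt_length_of_mem h1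
  have h3 := idxOf_getD (nodup_slots (csz I ((sides I).getD s 0)))
    (h2.trans_le (occ_length_le _ _)) (0, 0)
  change ((occ I ((sides I).getD s 0)).drop ((slots (csz I ((sides I).getD s 0))).idxOf
    ((slots (csz I ((sides I).getD s 0))).getD
      ((occ I ((sides I).getD s 0)).idxOf s) (0, 0)))).take 1 = [s]
  rw [h3, List.drop_eq_getElem_cons h2, List.getElem_idxOf, List.take_succ_cons, List.take_zero]

theorem ptSide_eq {I : Inst} {u : ℕ × ℕ × ℕ} {s : ℕ} {l : List ℕ} (hu : u.2 ∈ slots (csz I u.1))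
    (h : ptSide I u = s :: l) : s < (sides I).length ∧ (sides I).getD s 0 = u.1 ∧
      sidePt I s = u ∧ l = [] := by
  unfold ptSide at h
  have h0 : (slots (csz I u.1)).idxOf u.2 < (occ I u.1).length := by
    by_contra hc
    rw [List.drop_eq_nil_of_le (not_lt.1 hc)] at h
    simp at h
  rw [List.drop_eq_getElem_cons h0, List.take_succ_cons, List.take_zero] at h
  obtain ⟨h1, h2⟩ := List.cons.inj h
  have h3 : s ∈ occ I u.1 := by rw [← h1]; exact List.getElem_mem _
  rw [mem_occ] at h3
  refine ⟨h3.1, h3.2, ?_, h2.symm⟩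
  unfold sidePt
  rw [h3.2]
  refine Prod.ext rfl ?_
  change (slots (csz I u.1)).getD ((occ I u.1).idxOf s) (0, 0) = u.2
  have h4 : (occ I u.1).idxOf s = (slots (csz I u.1)).idxOf u.2 := by
    rw [← h1]
    exact List.Nodup.idxOf_getElem (nodup_occ _ _) _ _
  rw [h4]
  exact getD_idxOf hu _

end Pool.Agent.Lib.MP_186ff7_lc.PCP
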