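import Pool.Agent.Lib.MP_186ff7_lc.PCP.Stmts
import Pool.Agent.Lib.MP_186ff7_lc.PCP.Slots

/-!
# The PCP theorem: the spectral gap of the graph of a constraint list
-/

namespace Pool.Agent.Lib.MP_186ff7_lc.PCP

open Finset

/-- the label of the step `j` in the large torus -/
def lg (j : Fin 8) : Lb := .inr (.inr (.inl j))

/-- the label of a loop -/
def ll (j : Fin 17) : Lb := .inr (.inr (.inr j))

theorem sum_pairs {D : Type} [Fintype D] (a : D → ℝ) :
    2 * (∑ j, a j) ^ 2 + ∑ j, ∑ k, (a j - a k) ^ 2 = 2 * Fintype.card D * ∑ j, a j ^ 2 := by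
  have h1 : ∑ j, ∑ k, (a j - a k) ^ 2 =
      ∑ j, ∑ k, (a j ^ 2 + a k ^ 2 - 2 * (a j * a k)) := by
    refine Finset.sum_congr rfl fun j _ => Finset.sum_congr rfl fun k _ => ?_
    ring
  have h2 : ∑ j, ∑ k, (a j ^ 2 + a k ^ 2 - 2 * (a j * a k)) =
      2 * Fintype.card D * ∑ j, a j ^ 2 - 2 * (∑ j, a j) ^ 2 := by
    simp only [Finset.sum_sub_distrib, Finset.sum_add_distrib, ← Finset.mul_sum,
      Finset.sum_const, Finset.card_univ, nsmul_eq_mul, ← Finset.sum_mul, sq (∑ j, a j)]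
    ring
  rw [h1, h2]
  ring

theorem pairs_ge (a : Lb → ℝ) (b : ℝ) (hb : ∀ j, a (ll j) = b) :
    34 * ∑ k, (b - a (lg k)) ^ 2 ≤ ∑ j, ∑ k, (a j - a k) ^ 2 := by
  have hnn : ∀ j k, 0 ≤ (a j - a k) ^ 2 := fun j k => sq_nonneg _
  have h1 : ∀ (F : Lb → ℝ), ∑ j, F j = F (.inl ()) + (∑ j : Fin 8, F (.inr (.inl j)) +
      (∑ j, F (lg j) + ∑ j, F (ll j))) := by
    intro F
    rw [Fintype.sum_sum_type, Fintype.sum_sum_type, Fintype.sum_sum_type]
    simp [lg, ll]
  have hpos : ∀ (F : Lb → ℝ), (∀ j, 0 ≤ F j) → ∑ j, F (lg j) + ∑ j, F (ll j) ≤ ∑ j, F j := by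
    intro F hF
    rw [h1 F]
    have e1 := hF (.inl ())
    have e2 : 0 ≤ ∑ j : Fin 8, F (.inr (.inl j)) := Finset.sum_nonneg fun j _ => hF _
    linarith
  have h2 := hpos (fun j => ∑ k, (a j - a k) ^ 2) (fun j => Finset.sum_nonneg fun k _ => hnn j k)
  have h3 : ∑ j, 17 * (b - a (lg j)) ^ 2 ≤ ∑ j, ∑ k, (a (lg j) - a k) ^ 2 := by
    refine Finset.sum_le_sum fun j _ => ?_
    have h4 := hpos (fun k => (a (lg j) - a k) ^ 2) (fun k => hnn _ _)
    have h5 : ∑ k, (a (lg j) - a (ll k)) ^ 2 = 17 * (b - a (lg j)) ^ 2 := by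
      simp only [hb, Finset.sum_const, Finset.card_univ, Fintype.card_fin, nsmul_eq_mul]
      push_cast
      ring
    have h6 : 0 ≤ ∑ k, (a (lg j) - a (lg k)) ^ 2 := Finset.sum_nonneg fun k _ => hnn _ _
    rw [← h5]
    linarith
  have h7 : ∑ j : Fin 17, ∑ k, (b - a (lg k)) ^ 2 ≤ ∑ j, ∑ k, (a (ll j) - a k) ^ 2 := by
    refine Finset.sum_le_sum fun j _ => ?_
    have h4 := hpos (fun k => (a (ll j) - a k) ^ 2) (fun k => hnn _ _)
    have h6 : 0 ≤ ∑ k, (a (ll j) - a (ll k)) ^ 2 := Finset.sum_nonneg fun k _ => hnn _ _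
    simp only [hb] at h4 h6 ⊢
    linarith
  rw [← Finset.mul_sum] at h3
  rw [Finset.sum_const, Finset.card_univ, Fintype.card_fin, nsmul_eq_mul] at h7
  push_cast at h7
  linarith

theorem card_Lb : Fintype.card Lb = 34 := by
  simp [Lb]

theorem contr (h : StTorus) : StContr := by
  obtain ⟨η, hη, hT⟩ := h
  refine ⟨Real.sqrt (max 0 (1 - η / 68)), Real.sqrt_nonneg _, ?_, ?_⟩
  · rw [Real.sqrt_lt' one_pos]
    rw [one_pow, max_lt_iff]
    exact ⟨one_pos, by linarith⟩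
  intro I G hG f hf
  rw [Real.sq_sqrt (le_max_left _ _)]
  -- trivial case
  rcases Nat.eq_zero_or_pos (bsz I) with hm | hm
  · have hn : nV I = 0 := by unfold nV; rw [hm]
    have he : IsEmpty (Fin (nV I)) := by rw [hn]; infer_instance
    simp
  have : NeZero (bsz I) := ⟨hm.ne'⟩
  have hf2 : 0 ≤ ∑ v, f v ^ 2 := Finset.sum_nonneg fun v _ => sq_nonneg _
  -- permutations
  have hperm : ∀ j, ∑ v, f (G.nb j v) ^ 2 = ∑ v, f v ^ 2 := by
    intro j
    have hbij : Function.Bijective (G.nb j) := by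
      constructor
      · intro v w hvw
        rw [← G.nb_inv j v, ← G.nb_inv j w, hvw]
      · intro v
        refine ⟨G.nb (G.inv j) v, ?_⟩
        have := G.nb_inv (G.inv j) v
        rwa [G.inv_inv] at this
    exact Function.Bijective.sum_comp hbij fun v => f v ^ 2
  -- loops
  have hloop : ∀ j v, G.nb (ll j) v = v := by
    intro j v
    apply Fin.ext
    rw [hG.nb]
    rfl
  -- pointwise inequality
  have hpt : ∀ v, 34 ^ 2 * G.avg f v ^ 2 + 17 * ∑ k, (f v - f (G.nb (lg k) v)) ^ 2 ≤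
      34 * ∑ j, f (G.nb j v) ^ 2 := by
    intro v
    have h1 := sum_pairs fun j => f (G.nb j v)
    have h2 := pairs_ge (fun j => f (G.nb j v)) (f v) (fun j => by simp only [hloop])
    rw [card_Lb] at h1
    have h3 : 34 ^ 2 * G.avg f v ^ 2 = (∑ j, f (G.nb j v)) ^ 2 := by
      unfold PG.avg
      rw [card_Lb]
      push_cast
      ring
    rw [h3]
    push_cast at h1
    linarith
  have hsum : 34 ^ 2 * ∑ v, G.avg f v ^ 2 +
      17 * ∑ k, ∑ v, (f v - f (G.nb (lg k) v)) ^ 2 ≤ 34 ^ 2 * ∑ v, f v ^ 2 := by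
    have h1 := Finset.sum_le_sum fun v (_ : v ∈ (Finset.univ : Finset (Fin (nV I)))) => hpt v
    rw [Finset.sum_add_distrib, ← Finset.mul_sum, ← Finset.mul_sum, ← Finset.mul_sum,
      Finset.sum_comm (f := fun v k => (f v - f (G.nb (lg k) v)) ^ 2),
      Finset.sum_comm (f := fun v j => f (G.nb j v) ^ 2)] at h1
    have h2 : ∑ j, ∑ v, f (G.nb j v) ^ 2 = 34 * ∑ v, f v ^ 2 := by
      rw [Finset.sum_congr rfl fun j _ => hperm j, Finset.sum_const, Finset.card_univ, card_Lb,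
        nsmul_eq_mul]
      push_cast
      ring
    rw [h2] at h1
    linarith
  -- the torus
  have htor : η * ∑ v, f v ^ 2 ≤ ∑ k, ∑ v, (f v - f (G.nb (lg k) v)) ^ 2 := by
    let e : Fin (nV I) ≃ ZMod (bsz I) × ZMod (bsz I) := numT (bsz I)
    have hnb : ∀ k v, e (G.nb (lg k) v) = tor (bsz I) k (e v) := by
      intro k v
      have hv : (v : ℕ) < (slots (bsz I)).length := by rw [length_slots]; exact v.2
      have hmem : (slots (bsz I)).getD v (0, 0) ∈ slots (bsz I) := getD_mem hv _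
      have h1 : ((G.nb (lg k) v : Fin (nV I)) : ℕ) =
          (slots (bsz I)).idxOf (torN (bsz I) k ((slots (bsz I)).getD v (0, 0))) := by
        rw [hG.nb]
        rfl
      change castT (bsz I) ((slots (bsz I)).getD ((G.nb (lg k) v : Fin (nV I)) : ℕ) (0, 0)) =
        tor (bsz I) k (castT (bsz I) ((slots (bsz I)).getD v (0, 0)))
      rw [h1, getD_idxOf (torN_mem k hmem), castT_torN k hmem]
    have h0 : ∑ x, f (e.symm x) = 0 := by
      rw [← hf]
      exact Equiv.sum_comp e.symm f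
    have h1 := hT (bsz I) (fun x => f (e.symm x)) h0
    have h2 : ∑ x, f (e.symm x) ^ 2 = ∑ v, f v ^ 2 :=
      Equiv.sum_comp e.symm fun v => f v ^ 2
    have h3 : ∀ k, ∑ x, (f (e.symm x) - f (e.symm (tor (bsz I) k x))) ^ 2 =
        ∑ v, (f v - f (G.nb (lg k) v)) ^ 2 := by
      intro k
      rw [← Equiv.sum_comp e fun x => (f (e.symm x) - f (e.symm (tor (bsz I) k x))) ^ 2]
      refine Finset.sum_congr rfl fun v _ => ?_
      rw [← hnb, e.symm_apply_apply, e.symm_apply_apply]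
    rw [h2, Finset.sum_congr rfl fun k _ => h3 k] at h1
    exact h1
  have hfin : ∑ v, G.avg f v ^ 2 ≤ (1 - η / 68) * ∑ v, f v ^ 2 := by
    linarith
  exact hfin.trans (mul_le_mul_of_nonneg_right (le_max_right _ _) hf2)

end Pool.Agent.Lib.MP_186ff7_lc.PCP
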