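import Pool.Agent.Lib.MP_186ff7_lc.PCP.PTStmts

/-!
# The PCP theorem: the final decision is made in polynomial time
-/

namespace Pool.Agent.Lib.MP_186ff7_lc.PCP

open Turing Pool.Agent.Lib.PT Function

/-- The decision from the word. -/
def decW (w : List (Option Sym)) : List Bool :=
  [decide ((w.filter fun x => !(Option.isSome x)).length ≤ (w.filter fun x => Option.isSome x).length)]

theorem ptime_decW : PTime decW := by
  have h1 : PTime fun w : List (Option Sym) => w.filter fun x => !(Option.isSome x) :=
    PTime.filter (l := fun w : List (Option Sym) => w) (f := fun _ x => !(Option.isSome x))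
      (by fun_prop) (by fun_prop)
  have h2 : PTime fun w : List (Option Sym) => w.filter fun x => Option.isSome x :=
    PTime.filter (l := fun w : List (Option Sym) => w) (f := fun _ x => Option.isSome x)
      (by fun_prop) (by fun_prop)
  unfold decW
  fun_prop

theorem decide_ok : StDecide := by
  refine ptime_tm' (F := decW) (fun a b h => EncInj.inj (α := Bool) h) ptime_decW ?_
  rintro ⟨n, k⟩
  simp [decW, frE, tally, Computability.encodeBool]

end Pool.Agent.Lib.MP_186ff7_lc.PCP
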