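import Pool.Agent.Lib.MP_186ff7_lc.PCP.Stmts
import Pool.Agent.Lib.MP_186ff7_lc.PCP.Words
import Pool.Agent.Lib.MP_186ff7_lc.PCP.Slots

/-!
# The PCP theorem: independent sets of the graph of walks
-/

namespace Pool.Agent.Lib.MP_186ff7_lc.PCP

open Finset

namespace FGGapAux

/-! ### The graph of the torus with loops -/

/-- The torus as a permutation graph with sixteen labels. -/
def torPG (m : ℕ) : PG (ZMod m × ZMod m) Lw Al where
  nb j v := match j with
    | .inl j => tor m j v
    | .inr _ => v
  inv := Sum.map torInv id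
  R _ _ _ _ := true
  inv_inv j := by rcases j with j | j <;> simp
  nb_inv j v := by
    rcases j with j | j
    · exact tor_torInv m j v
    · rfl
  R_inv _ _ _ _ := rfl

theorem torPG_contr {η : ℝ} (_hη0 : 0 < η) (hη : η ≤ 32) {m : ℕ} [NeZero m]
    (H : ∀ (f : ZMod m × ZMod m → ℝ), ∑ x, f x = 0 →
      η * ∑ x, f x ^ 2 ≤ ∑ j, ∑ x, (f x - f (tor m j x)) ^ 2) :
    (torPG m).Contr (Real.sqrt (1 - η / 32)) := by
  intro f hf
  have hnn : (0 : ℝ) ≤ 1 - η / 32 := by linarith
  rw [Real.sq_sqrt hnn]
  have h1 := H f hf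
  set B : ZMod m × ZMod m → ℝ := fun v => (∑ j, f (tor m j v)) / 8 with hB
  have havg : ∀ v, (torPG m).avg f v = (f v + B v) / 2 := by
    intro v
    unfold PG.avg
    rw [Fintype.sum_sum_type]
    have e1 : ∑ j : Fin 8, f ((torPG m).nb (Sum.inl j) v) = ∑ j, f (tor m j v) := rfl
    have e2 : ∑ j : Fin 8, f ((torPG m).nb (Sum.inr j) v) = 8 * f v := by
      have : ∀ j : Fin 8, f ((torPG m).nb (Sum.inr j) v) = f v := fun j => rfl
      simp only [this, Finset.sum_const, Finset.card_univ, Fintype.card_fin, nsmul_eq_mul]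
      norm_num
    rw [e1, e2]
    have e3 : (Fintype.card Lw : ℝ) = 16 := by
      simp [Lw]
    rw [e3, hB]
    ring
  -- the sum of the squares of a shifted function
  have hshift : ∀ j : Fin 8, ∑ v, f (tor m j v) ^ 2 = ∑ v, f v ^ 2 := fun j =>
    (torEquiv m j).sum_comp fun v => f v ^ 2
  have hBsq : ∑ v, B v ^ 2 ≤ ∑ v, f v ^ 2 := by
    calc ∑ v, B v ^ 2 ≤ ∑ v, (∑ j : Fin 8, f (tor m j v) ^ 2) / 8 := by
          refine Finset.sum_le_sum fun v _ => ?_
          have := sq_sum_le_card_mul_sum_sq (s := (Finset.univ : Finset (Fin 8)))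
            (f := fun j => f (tor m j v))
          rw [Finset.card_univ, Fintype.card_fin] at this
          rw [hB]
          push_cast at this
          have h8 : ((∑ j : Fin 8, f (tor m j v)) / 8) ^ 2 =
            (∑ j : Fin 8, f (tor m j v)) ^ 2 / 64 := by ring
          change ((∑ j : Fin 8, f (tor m j v)) / 8) ^ 2 ≤ _
          rw [h8]
          linarith
      _ = ∑ v, f v ^ 2 := by
          rw [← Finset.sum_div, Finset.sum_comm]
          simp only [hshift, Finset.sum_const, Finset.card_univ, Fintype.card_fin, nsmul_eq_mul]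
          push_cast
          ring
  have hfB : ∑ v, f v * B v ≤ (1 - η / 16) * ∑ v, f v ^ 2 := by
    have e1 : ∑ j : Fin 8, ∑ x, (f x - f (tor m j x)) ^ 2 =
        16 * ∑ v, f v ^ 2 - 16 * ∑ v, f v * B v := by
      have : ∀ j : Fin 8, ∑ x, (f x - f (tor m j x)) ^ 2 =
          2 * ∑ v, f v ^ 2 - 2 * ∑ v, f v * f (tor m j v) := by
        intro j
        have h2 : ∀ x, (f x - f (tor m j x)) ^ 2 =
          f x ^ 2 + f (tor m j x) ^ 2 - 2 * (f x * f (tor m j x)) := fun x => by ring
        simp only [h2]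
        rw [Finset.sum_sub_distrib, Finset.sum_add_distrib, hshift, ← Finset.mul_sum]
        ring
      simp only [this]
      rw [Finset.sum_sub_distrib, ← Finset.mul_sum, ← Finset.mul_sum]
      simp only [Finset.sum_const, Finset.card_univ, Fintype.card_fin, nsmul_eq_mul]
      have h3 : ∑ j : Fin 8, ∑ v, f v * f (tor m j v) = 8 * ∑ v, f v * B v := by
        rw [Finset.sum_comm, Finset.mul_sum]
        refine Finset.sum_congr rfl fun v _ => ?_
        rw [← Finset.mul_sum, hB]
        ring
      rw [h3]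
      push_cast
      ring
    rw [e1] at h1
    linarith
  simp only [havg]
  have e4 : ∀ v, ((f v + B v) / 2) ^ 2 = (f v ^ 2 + 2 * (f v * B v) + B v ^ 2) / 4 := fun v => by
    ring
  simp only [e4]
  rw [← Finset.sum_div, Finset.sum_add_distrib, Finset.sum_add_distrib, ← Finset.mul_sum]
  linarith

/-! ### Points and steps -/

theorem unT_nb {m : ℕ} [NeZero m] (j : Lw) (y : ZMod m × ZMod m) :
    unT m ((torPG m).nb j y) = stW m j (unT m y) := by
  rcases j with j | j
  · change unT m (tor m j y) = torN m j (unT m y)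
    conv_lhs => rw [← castT_unT m y]
    rw [← castT_torN j (unT_mem m y), unT_castT (torN_mem j (unT_mem m y))]
  · rfl

/-! ### Lists without repetitions -/

theorem nodup_ents (I : Inst) (p : ℕ × ℕ) (j : Lw) : (ents I p j).Nodup := by
  unfold ents
  rw [List.nodup_flatMap]
  refine ⟨fun a _ => ?_, ?_⟩
  · refine ((List.nodup_finRange 16).filter _).map ?_
    intro b b' h
    simp only [Prod.mk.injEq, true_and] at h
    exact h
  · refine (List.nodup_finRange 16).imp_of_mem ?_
    intro a b _ _ hab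
    rw [Function.onFun, List.disjoint_left]
    intro x hx hx'
    rw [List.mem_map] at hx hx'
    obtain ⟨_, _, rfl⟩ := hx
    obtain ⟨_, _, h⟩ := hx'
    simp only [Prod.mk.injEq, true_and] at h
    exact hab h.1.symm

theorem mem_ents {I : Inst} {p : ℕ × ℕ} {j : Lw} {e : Ent} (h : e ∈ ents I p j) :
    e.1 = p ∧ e.2.1 = j ∧ (conAt I p).2.2 e.2.2.1 e.2.2.2 = true := by
  unfold ents at h
  simp only [List.mem_flatMap, List.mem_map, List.mem_filter] at h
  obtain ⟨a, _, b, ⟨_, hb⟩, rfl⟩ := h
  exact ⟨rfl, rfl, hb⟩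

theorem nodup_start (I : Inst) : (start I).Nodup := by
  unfold start
  rw [List.nodup_flatMap]
  refine ⟨fun p _ => (nodup_ents I p _).map fun a b h => (List.cons.inj h).1, ?_⟩
  refine (nodup_slots (ksz I)).imp_of_mem ?_
  intro a b _ _ hab
  rw [Function.onFun, List.disjoint_left]
  intro x hx hx'
  rw [List.mem_map] at hx hx'
  obtain ⟨e, he, rfl⟩ := hx
  obtain ⟨e', he', h⟩ := hx'
  have h1 := (List.cons.inj h).1
  rw [h1] at he'
  exact hab ((mem_ents he).1.symm.trans (mem_ents he').1)

theorem nodup_allLw : (ext.allLw).Nodup := by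
  unfold ext.allLw
  rw [List.nodup_append']
  refine ⟨(List.nodup_finRange 8).map fun a b h => Sum.inl.inj h,
    (List.nodup_finRange 8).map fun a b h => Sum.inr.inj h, ?_⟩
  rw [List.disjoint_left]
  intro x hx hx'
  rw [List.mem_map] at hx hx'
  obtain ⟨_, _, rfl⟩ := hx
  obtain ⟨_, _, h⟩ := hx'
  exact absurd h (by simp)

theorem nodup_ext (I : Inst) {L : List (List Ent)} (hL : L.Nodup) : (ext I L).Nodup := by
  unfold ext
  rw [List.nodup_flatMap]
  refine ⟨fun x _ => ?_, ?_⟩
  · rw [List.nodup_flatMap]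
    refine ⟨fun j _ => (nodup_ents I _ _).map fun a b h => (List.cons.inj h).1, ?_⟩
    refine nodup_allLw.imp_of_mem ?_
    intro a b _ _ hab
    rw [Function.onFun, List.disjoint_left]
    intro y hy hy'
    rw [List.mem_map] at hy hy'
    obtain ⟨e, he, rfl⟩ := hy
    obtain ⟨e', he', h⟩ := hy'
    have h1 := (List.cons.inj h).1
    rw [h1] at he'
    exact hab ((mem_ents he).2.1.symm.trans (mem_ents he').2.1)
  · refine hL.imp_of_mem ?_
    intro a b _ _ hab
    rw [Function.onFun, List.disjoint_left]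
    intro y hy hy'
    simp only [List.mem_flatMap, List.mem_map] at hy hy'
    obtain ⟨_, _, _, _, rfl⟩ := hy
    obtain ⟨_, _, _, _, h⟩ := hy'
    exact hab (List.cons.inj h).2.symm

theorem nodup_iter (I : Inst) (k : ℕ) : ((ext I)^[k] (start I)).Nodup := by
  induction k with
  | zero => exact nodup_start I
  | succ k ih =>
    rw [Function.iterate_succ_apply']
    exact nodup_ext I ih

theorem nodup_fgV (I : Inst) (k : ℕ) : (fgV I k).Nodup := (nodup_iter I k).filter _

/-! ### The walk of a vertex -/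

/-- The entry at the point `p` with the label `j` and the letters of `σ`. -/
def entry (I : Inst) (σ : ℕ → Al) (p : ℕ × ℕ) (j : Lw) : Ent :=
  (p, j, σ (conAt I p).1, σ (conAt I p).2.1)

/-- The list of a walk. The labels are given in reversed order. -/
def bld (I : Inst) (σ : ℕ → Al) (y : ZMod (ksz I) × ZMod (ksz I)) : List Lw → List Ent
  | [] => [entry I σ (unT (ksz I) y) (.inr 0)]
  | j :: r => entry I σ (unT (ksz I) ((torPG (ksz I)).go y (j :: r).reverse)) j :: bld I σ y r

/-- The points whose constraint is satisfied by `σ`. -/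
def good (I : Inst) (σ : ℕ → Al) (p : ℕ × ℕ) : Prop :=
  (conAt I p).2.2 (σ (conAt I p).1) (σ (conAt I p).2.1) = true

theorem entry_of_mem {I : Inst} {σ : ℕ → Al} {p : ℕ × ℕ} {j : Lw} {e : Ent} {x : List Ent}
    (he : e ∈ ents I p j) (hσ : ∀ u ∈ vals I (e :: x), σ u.1 = u.2) :
    e = entry I σ p j ∧ good I σ p := by
  obtain ⟨h1, h2, h3⟩ := mem_ents he
  have h4 : σ (conAt I e.1).1 = e.2.2.1 := hσ ((conAt I e.1).1, e.2.2.1) (by
    unfold vals
    rw [List.flatMap_cons]
    simp)
  have h5 : σ (conAt I e.1).2.1 = e.2.2.2 := hσ ((conAt I e.1).2.1, e.2.2.2) (by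
    unfold vals
    rw [List.flatMap_cons]
    simp)
  rw [h1] at h4 h5
  constructor
  · unfold entry
    rw [h4, h5]
    refine Prod.ext h1 (Prod.ext h2 rfl)
  · unfold good
    rw [h4, h5]
    exact h3

theorem walk_of_mem (I : Inst) [NeZero (ksz I)] (σ : ℕ → Al) (k : ℕ) :
    ∀ x ∈ (ext I)^[k] (start I), (∀ u ∈ vals I x, σ u.1 = u.2) →
    ∃ (y : ZMod (ksz I) × ZMod (ksz I)) (r : List Lw), r.length = k ∧ x = bld I σ y r ∧
      (∀ i ≤ k, good I σ (unT (ksz I) ((torPG (ksz I)).go y (r.reverse.take i)))) ∧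
      (x.headD ((0, 0), .inr 0, 0, 0)).1 = unT (ksz I) ((torPG (ksz I)).go y r.reverse) := by
  induction k with
  | zero =>
    intro x hx hσ
    rw [Function.iterate_zero_apply] at hx
    unfold start at hx
    simp only [List.mem_flatMap, List.mem_map] at hx
    obtain ⟨p, hp, e, he, rfl⟩ := hx
    obtain ⟨h1, h2⟩ := entry_of_mem he hσ
    have hp' : unT (ksz I) (castT (ksz I) p) = p := unT_castT hp
    refine ⟨castT (ksz I) p, [], rfl, ?_, ?_, ?_⟩
    · rw [h1]
      unfold bld
      rw [hp']
    · intro i _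
      simp only [List.reverse_nil, List.take_nil, PG.go_nil]
      rw [hp']
      exact h2
    · simp only [List.reverse_nil, PG.go_nil, List.headD_cons]
      rw [hp', h1]
      rfl
  | succ k ih =>
    intro x hx hσ
    rw [Function.iterate_succ_apply'] at hx
    unfold ext at hx
    simp only [List.mem_flatMap, List.mem_map] at hx
    obtain ⟨x', hx', j, _, e, he, rfl⟩ := hx
    have hσ' : ∀ u ∈ vals I x', σ u.1 = u.2 := by
      intro u hu
      refine hσ u ?_
      unfold vals at hu ⊢
      rw [List.flatMap_cons]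
      exact List.mem_append_right _ hu
    obtain ⟨y, r, hr, hxr, hg, hhd⟩ := ih x' hx' hσ'
    rw [hhd, ← unT_nb] at he
    have hgo : (torPG (ksz I)).go y (j :: r).reverse =
        (torPG (ksz I)).nb j ((torPG (ksz I)).go y r.reverse) := by
      rw [List.reverse_cons, PG.go_append, PG.go_cons, PG.go_nil]
    rw [← hgo] at he
    obtain ⟨h1, h2⟩ := entry_of_mem he hσ
    refine ⟨y, j :: r, by simp [hr], ?_, ?_, ?_⟩
    · rw [h1, hxr]
      rfl
    · intro i hi
      rcases Nat.lt_or_ge k i with h | h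
      · have : i = k + 1 := by omega
        subst this
        rw [List.take_of_length_le (by simp [hr])]
        exact h2
      · rw [List.reverse_cons, List.take_append_of_le_length (by simp [hr, h])]
        exact hg i h
    · rw [List.headD_cons, h1]
      rfl

/-! ### The number of violated points -/

theorem card_good (I : Inst) [NeZero (ksz I)] (hI : I ≠ []) (σ : ℕ → Al) (ε : ℝ) (hε : 0 ≤ ε)
    (hG : Gap ε I) [DecidablePred fun y : ZMod (ksz I) × ZMod (ksz I) =>
      good I σ (unT (ksz I) y)] :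
    ((Finset.univ.filter fun y : ZMod (ksz I) × ZMod (ksz I) =>
      good I σ (unT (ksz I) y)).card : ℝ) ≤
      (1 - ε / 4) * Fintype.card (ZMod (ksz I) × ZMod (ksz I)) := by
  classical
  have hlen : 0 < I.length := List.length_pos_of_ne_nil hI
  -- the violated constraints
  have h1 : viol I σ ≤ (Finset.univ.filter fun y : ZMod (ksz I) × ZMod (ksz I) =>
      ¬ good I σ (unT (ksz I) y)).card := by
    have h2 : viol I σ = ((Finset.range I.length).filter fun i =>
        (!((I.getD i (0, 0, top)).2.2 (σ (I.getD i (0, 0, top)).1)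
          (σ (I.getD i (0, 0, top)).2.1))) = true).card := by
      unfold viol
      have h3 : I = (List.range I.length).map fun i => I.getD i (0, 0, top) := by
        refine List.ext_getElem (by simp) fun i h h' => ?_
        rw [List.getElem_map, List.getElem_range, List.getD_eq_getElem _ _ h]
      conv_lhs => rw [h3]
      rw [List.countP_map, List.countP_eq_length_filter]
      rw [Finset.card_def, Finset.filter_val, Finset.range_val, Multiset.range,
        Multiset.filter_coe, Multiset.coe_card]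
      congr 1
      refine List.filter_congr fun i _ => ?_
      simp
    rw [h2]
    refine Finset.card_le_card_of_injOn
      (fun i => castT (ksz I) ((slots (ksz I)).getD i (0, 0))) ?_ ?_
    · intro i hi
      rw [Finset.mem_coe, Finset.mem_filter, Finset.mem_range] at hi
      have hi2 : i < (slots (ksz I)).length := by
        rw [length_slots]
        exact hi.1.trans_le (le_rt _)
      rw [Finset.mem_coe, Finset.mem_filter]
      refine ⟨Finset.mem_univ _, ?_⟩
      rw [unT_castT (getD_mem hi2 _)]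
      unfold good conAt
      rw [idxOf_getD (nodup_slots _) hi2, Nat.mod_eq_of_lt hi.1]
      intro hcon
      rw [hcon] at hi
      simp at hi
    · intro i hi i' hi' h
      rw [Finset.mem_coe, Finset.mem_filter, Finset.mem_range] at hi hi'
      have hi2 : i < (slots (ksz I)).length := by
        rw [length_slots]
        exact hi.1.trans_le (le_rt _)
      have hi2' : i' < (slots (ksz I)).length := by
        rw [length_slots]
        exact hi'.1.trans_le (le_rt _)
      have h3 := castT_injOn (getD_mem hi2 _) (getD_mem hi2' _) h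
      rw [← idxOf_getD (nodup_slots _) hi2 (0, 0), h3, idxOf_getD (nodup_slots _) hi2']
  have h2 := Finset.card_filter_add_card_filter_not (s := Finset.univ)
    (fun y : ZMod (ksz I) × ZMod (ksz I) => good I σ (unT (ksz I) y))
  rw [Finset.card_univ] at h2
  have h3 : Fintype.card (ZMod (ksz I) × ZMod (ksz I)) = ksz I * ksz I := by
    rw [Fintype.card_prod, ZMod.card]
  have h4 : ksz I * ksz I ≤ 4 * I.length := rt_le _
  have h5 := hG σ
  have h6 : ((viol I σ : ℕ) : ℝ) ≤ ((Finset.univ.filter fun y : ZMod (ksz I) × ZMod (ksz I) =>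
      ¬ good I σ (unT (ksz I) y)).card : ℝ) := by exact_mod_cast h1
  have h7 : ((Finset.univ.filter fun y : ZMod (ksz I) × ZMod (ksz I) =>
      good I σ (unT (ksz I) y)).card : ℝ) + ((Finset.univ.filter
      fun y : ZMod (ksz I) × ZMod (ksz I) => ¬ good I σ (unT (ksz I) y)).card : ℝ) =
      Fintype.card (ZMod (ksz I) × ZMod (ksz I)) := by exact_mod_cast h2
  have h8 : (Fintype.card (ZMod (ksz I) × ZMod (ksz I)) : ℝ) ≤ 4 * I.length := by
    rw [h3]
    exact_mod_cast h4
  nlinarith

end FGGapAux

open FGGapAux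

/-- Soundness of the graph of walks. -/
theorem fgGap (h1 : StTorus) (h2 : StStay) : StFGGap := by
  classical
  obtain ⟨η₀, hη₀, H₀⟩ := h1
  set η : ℝ := min η₀ 32 with hη
  have hη0 : 0 < η := lt_min hη₀ (by norm_num)
  have hη32 : η ≤ 32 := min_le_right _ _
  refine ⟨η / 128, by positivity, by linarith, fun I ε k hI hε0 hε1 hG => ?_⟩
  have hlen : 0 < I.length := List.length_pos_of_ne_nil hI
  have hm : 0 < ksz I := rt_pos hlen
  have : NeZero (ksz I) := ⟨hm.ne'⟩
  set G := torPG (ksz I) with hGdef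
  set ρ : ℝ := Real.sqrt (1 - η / 32) with hρ
  have hρ0 : 0 ≤ ρ := Real.sqrt_nonneg _
  have hρsq : ρ ^ 2 = 1 - η / 32 := Real.sq_sqrt (by linarith)
  have hρ1 : ρ < 1 := by
    rw [hρ, Real.sqrt_lt' one_pos]
    linarith
  have hC : G.Contr ρ := torPG_contr hη0 hη32 fun f hf => by
    refine le_trans ?_ (H₀ (ksz I) f hf)
    exact mul_le_mul_of_nonneg_right (min_le_left _ _) (Finset.sum_nonneg fun x _ => sq_nonneg _)
  -- a largest independent set
  obtain ⟨J, hJ⟩ := (fg I k).graph.exists_isNIndepSet_indepNum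
  have hJc : J.card = (fg I k).graph.indepNum := hJ.card_eq
  have hind : ∀ i ∈ J, ∀ j ∈ J,
      clash (vals I ((fgV I k).get i)) (vals I ((fgV I k).get j)) = false := by
    intro i hi j hj
    by_cases hij : i = j
    · subst hij
      have h3 : (fgV I k).get i ∈ fgV I k := List.get_mem _ _
      have h4 : (fgV I k).get i ∈ ((ext I)^[k] (start I)).filter
        fun x => !clash (vals I x) (vals I x) := h3
      rw [List.mem_filter] at h4
      simpa using h4.2
    · have h3 := hJ.isIndepSet hi hj hij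
      by_contra hcon
      have h4 : clash (vals I ((fgV I k).get i)) (vals I ((fgV I k).get j)) = true := by
        simpa using hcon
      exact h3 h4
  -- the letters
  have hσ : ∃ σ : ℕ → Al, ∀ i ∈ J, ∀ u ∈ vals I ((fgV I k).get i), σ u.1 = u.2 := by
    refine ⟨fun v => if h : ∃ a, ∃ i ∈ J, (v, a) ∈ vals I ((fgV I k).get i) then h.choose else 0,
      ?_⟩
    intro i hi u hu
    have hex : ∃ a, ∃ i ∈ J, (u.1, a) ∈ vals I ((fgV I k).get i) := ⟨u.2, i, hi, hu⟩
    have h3 : (if h : ∃ a, ∃ i ∈ J, (u.1, a) ∈ vals I ((fgV I k).get i) then h.choose else 0)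
      = hex.choose := dif_pos hex
    change (if h : ∃ a, ∃ i ∈ J, (u.1, a) ∈ vals I ((fgV I k).get i) then h.choose else 0) = u.2
    rw [h3]
    obtain ⟨i', hi', hu'⟩ := hex.choose_spec
    by_contra hne
    have h4 := hind i' hi' i hi
    have h5 : clash (vals I ((fgV I k).get i')) (vals I ((fgV I k).get i)) = true := by
      unfold clash
      rw [List.any_eq_true]
      refine ⟨_, hu', ?_⟩
      rw [List.any_eq_true]
      refine ⟨u, hu, ?_⟩
      simp only [Bool.and_eq_true, decide_eq_true_eq, Bool.not_eq_true', decide_eq_false_iff_not]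
      exact ⟨trivial, hne⟩
    rw [h4] at h5
    exact absurd h5 (by decide)
  obtain ⟨σ, hσ⟩ := hσ
  -- the walks
  have hw : ∀ i ∈ J, ∃ q : (ZMod (ksz I) × ZMod (ksz I)) × {w : List Lw // w.length = k},
      (fgV I k).get i = bld I σ q.1 q.2.1.reverse ∧
      ∀ l ≤ k, good I σ (unT (ksz I) (G.go q.1 (q.2.1.take l))) := by
    intro i hi
    have h3 : (fgV I k).get i ∈ fgV I k := List.get_mem _ _
    have h4 : (fgV I k).get i ∈ ((ext I)^[k] (start I)).filter
      fun x => !clash (vals I x) (vals I x) := h3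
    rw [List.mem_filter] at h4
    obtain ⟨y, r, hr, h5, h6, -⟩ := walk_of_mem I σ k _ h4.1 (hσ i hi)
    refine ⟨(y, ⟨r.reverse, by simp [hr]⟩), ?_, ?_⟩
    · simp only [List.reverse_reverse]
      exact h5
    · exact h6
  have : Nonempty {w : List Lw // w.length = k} := ⟨⟨List.replicate k (.inr 0), by simp⟩⟩
  choose! q hq1 hq2 using hw
  have : Finite {w : List Lw // w.length = k} := Set.Finite.to_subtype (List.finite_length_eq Lw k)
  let _ : Fintype {w : List Lw // w.length = k} := Fintype.ofFinite _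
  set S : Finset (ZMod (ksz I) × ZMod (ksz I)) :=
    Finset.univ.filter fun y => good I σ (unT (ksz I) y) with hS
  have hcard : J.card ≤ (Finset.univ.filter
      fun p : (ZMod (ksz I) × ZMod (ksz I)) × {w : List Lw // w.length = k} =>
        ∀ l ≤ k, G.go p.1 (p.2.1.take l) ∈ S).card := by
    refine Finset.card_le_card_of_injOn q ?_ ?_
    · intro i hi
      rw [Finset.mem_coe, Finset.mem_filter]
      refine ⟨Finset.mem_univ _, fun l hl => ?_⟩
      rw [hS, Finset.mem_filter]
      exact ⟨Finset.mem_univ _, hq2 i hi l hl⟩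
    · intro i hi i' hi' h
      have h3 : (fgV I k).get i = (fgV I k).get i' := by
        rw [hq1 i hi, hq1 i' hi', h]
      exact (List.nodup_iff_injective_get.1 (nodup_fgV I k)) h3
  have hsum : ((Finset.univ.filter
      fun p : (ZMod (ksz I) × ZMod (ksz I)) × {w : List Lw // w.length = k} =>
        ∀ l ≤ k, G.go p.1 (p.2.1.take l) ∈ S).card : ℝ) =
      ∑ v, wsum k fun w => if ∀ i ≤ k, G.go v (w.take i) ∈ S then (1 : ℝ) else 0 := by
    rw [← Finset.sum_boole, Fintype.sum_prod_type]
    refine Finset.sum_congr rfl fun v _ => ?_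
    rw [wsum_eq_sum]
  have hstay := h2 (ZMod (ksz I) × ZMod (ksz I)) Lw Al G ρ hρ0 hρ1 hC S (ε / 4)
    (by positivity) (by
      rw [hS]
      exact card_good I hI σ ε hε0 hG) k
  have hthr : ((thr I k : ℕ) : ℝ) = Fintype.card (ZMod (ksz I) × ZMod (ksz I)) *
      (Fintype.card Lw : ℝ) ^ k := by
    have e3 : Fintype.card Lw = 16 := by
      simp [Lw]
    have e4 : Fintype.card (ZMod (ksz I) × ZMod (ksz I)) = ksz I * ksz I := by
      rw [Fintype.card_prod, ZMod.card]
    rw [e3, e4]
    unfold thr
    push_cast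
    ring
  rw [hthr, ← hJc]
  have h9 : (1 : ℝ) - ε / 4 * (1 - ρ ^ 2) = 1 - η / 128 * ε := by
    rw [hρsq]
    ring
  rw [h9] at hstay
  have h11 : ((Finset.univ.filter
      fun p : (ZMod (ksz I) × ZMod (ksz I)) × {w : List Lw // w.length = k} =>
        ∀ l ≤ k, G.go p.1 (p.2.1.take l) ∈ S).card : ℝ) ^ 2 ≤
      (Fintype.card (ZMod (ksz I) × ZMod (ksz I)) * (Fintype.card Lw : ℝ) ^ k) ^ 2 *
        (1 - η / 128 * ε) ^ k := by
    rw [hsum]
    convert hstay
  refine le_trans ?_ h11
  have h10 : (J.card : ℝ) ≤ ((Finset.univ.filter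
      fun p : (ZMod (ksz I) × ZMod (ksz I)) × {w : List Lw // w.length = k} =>
        ∀ l ≤ k, G.go p.1 (p.2.1.take l) ∈ S).card : ℝ) := by exact_mod_cast hcard
  exact pow_le_pow_left₀ (Nat.cast_nonneg _) h10 2

end Pool.Agent.Lib.MP_186ff7_lc.PCP
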