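import Pool.Agent.Lib.MP_186ff7_lc.PCP.Stmts
import Pool.Agent.Lib.MP_186ff7_lc.PCP.Slots

/-!
# The PCP theorem: the graph of the walks, number of vertices and completeness
-/

namespace Pool.Agent.Lib.MP_186ff7_lc.PCP

theorem length_flatMap_le {α β : Type} (l : List α) (f : α → List β) (c : ℕ)
    (h : ∀ x ∈ l, (f x).length ≤ c) : (l.flatMap f).length ≤ l.length * c := by
  induction l with
  | nil => simp
  | cons a l ih =>
    rw [List.flatMap_cons, List.length_append, List.length_cons, add_mul, one_mul, add_comm]
    have h1 := h a List.mem_cons_self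
    have h2 := ih fun x hx => h x (List.mem_cons_of_mem _ hx)
    omega

theorem length_flatMap_eq {α β : Type} (l : List α) (f : α → List β) (c : ℕ)
    (h : ∀ x ∈ l, (f x).length = c) : (l.flatMap f).length = l.length * c := by
  induction l with
  | nil => simp
  | cons a l ih =>
    rw [List.flatMap_cons, List.length_append, List.length_cons, add_mul, one_mul, add_comm,
      h a List.mem_cons_self, ih fun x hx => h x (List.mem_cons_of_mem _ hx)]

theorem length_ents (I : Inst) (p : ℕ × ℕ) (j : Lw) : (ents I p j).length ≤ 256 := by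
  unfold ents
  refine (length_flatMap_le _ _ 16 fun a _ => ?_).trans (by simp)
  rw [List.length_map]
  refine (List.length_filter_le _ _).trans (by simp)

theorem length_allLw : ext.allLw.length = 16 := rfl

theorem nodup_allLw : ext.allLw.Nodup := by decide

theorem length_ext (I : Inst) (L : List (List Ent)) : (ext I L).length ≤ L.length * (16 * 256) := by
  unfold ext
  refine length_flatMap_le _ _ _ fun x _ => ?_
  refine (length_flatMap_le _ _ 256 fun j _ => ?_).trans (by rw [length_allLw])
  rw [List.length_map]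
  exact length_ents _ _ _

theorem length_start (I : Inst) : (start I).length ≤ ksz I * ksz I * 256 := by
  unfold start
  refine (length_flatMap_le _ _ 256 fun p _ => ?_).trans (by rw [length_slots])
  rw [List.length_map]
  exact length_ents _ _ _

theorem fgLen : StFGLen := by
  intro I k
  unfold thr
  induction k with
  | zero =>
    rw [Function.iterate_zero, id]
    refine (length_start I).trans (le_of_eq (by ring))
  | succ k ih =>
    rw [Function.iterate_succ_apply']
    refine (length_ext I _).trans ?_
    refine (Nat.mul_le_mul_right _ ih).trans (le_of_eq (by ring))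

/-! ### Completeness -/

section

variable (I : Inst) (σ : ℕ → Al)

/-- The entry with the letters of `σ`. -/
def eS (p : ℕ × ℕ) (j : Lw) : Ent := (p, j, σ (conAt I p).1, σ (conAt I p).2.1)

/-- The walks with the letters of `σ`. -/
def wS : ℕ → List (List Ent)
  | 0 => (slots (ksz I)).map fun p => [eS I σ p (.inr 0)]
  | k + 1 => (wS k).flatMap fun x => ext.allLw.map fun j =>
      eS I σ (stW (ksz I) j (x.headD ((0, 0), .inr 0, 0, 0)).1) j :: x

theorem length_wS (k : ℕ) : (wS I σ k).length = thr I k := by
  unfold thr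
  induction k with
  | zero => simp [wS]
  | succ k ih =>
    rw [wS, length_flatMap_eq _ _ 16 fun x _ => by rw [List.length_map, length_allLw], ih]
    ring

theorem nodup_wS (k : ℕ) : (wS I σ k).Nodup := by
  induction k with
  | zero =>
    rw [wS]
    refine (nodup_slots _).map fun a b h => ?_
    have h1 := (List.cons.inj h).1
    exact (Prod.mk.inj h1).1
  | succ k ih =>
    rw [wS, List.nodup_flatMap]
    refine ⟨fun x _ => nodup_allLw.map fun a b h => ?_, ?_⟩
    · have h1 := (List.cons.inj h).1
      exact (Prod.mk.inj (Prod.mk.inj h1).2).1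
    · refine ih.imp_of_mem ?_
      intro a b _ _ hab
      rw [Function.onFun, List.disjoint_left]
      intro x hx hx'
      rw [List.mem_map] at hx hx'
      obtain ⟨_, _, rfl⟩ := hx
      obtain ⟨_, _, h⟩ := hx'
      exact hab (List.cons.inj h).2.symm

variable {I σ}

theorem conAt_mem (hI : I ≠ []) (p : ℕ × ℕ) : conAt I p ∈ I := by
  unfold conAt
  exact getD_mem (Nat.mod_lt _ (List.length_pos_iff.2 hI)) _

theorem eS_mem (hI : I ≠ []) (hσ : viol I σ = 0) (p : ℕ × ℕ) (j : Lw) :
    eS I σ p j ∈ ents I p j := by
  unfold eS ents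
  simp only [List.mem_flatMap, List.mem_map, List.mem_filter, List.mem_finRange, true_and]
  refine ⟨_, _, ?_, rfl⟩
  unfold viol at hσ
  rw [List.countP_eq_zero] at hσ
  have := hσ _ (conAt_mem hI p)
  simpa using this

theorem wS_mem (hI : I ≠ []) (hσ : viol I σ = 0) (k : ℕ) :
    ∀ x ∈ wS I σ k, x ∈ (ext I)^[k] (start I) := by
  induction k with
  | zero =>
    intro x hx
    rw [wS, List.mem_map] at hx
    obtain ⟨p, hp, rfl⟩ := hx
    rw [Function.iterate_zero, id]
    unfold start
    rw [List.mem_flatMap]
    exact ⟨p, hp, List.mem_map_of_mem (f := fun e => [e]) (eS_mem hI hσ p _)⟩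
  | succ k ih =>
    intro x hx
    rw [wS, List.mem_flatMap] at hx
    obtain ⟨y, hy, hx⟩ := hx
    rw [List.mem_map] at hx
    obtain ⟨j, hj, rfl⟩ := hx
    rw [Function.iterate_succ_apply']
    unfold ext
    rw [List.mem_flatMap]
    refine ⟨y, ih y hy, ?_⟩
    rw [List.mem_flatMap]
    exact ⟨j, hj, List.mem_map_of_mem (f := fun e => e :: y) (eS_mem hI hσ _ _)⟩

/-- All letters are those of `σ`. -/
theorem wS_good (k : ℕ) : ∀ x ∈ wS I σ k, ∀ e ∈ x, e = eS I σ e.1 e.2.1 := by
  induction k with
  | zero =>
    intro x hx e he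
    rw [wS, List.mem_map] at hx
    obtain ⟨p, hp, rfl⟩ := hx
    rw [List.mem_singleton] at he
    rw [he]
    rfl
  | succ k ih =>
    intro x hx e he
    rw [wS, List.mem_flatMap] at hx
    obtain ⟨y, hy, hx⟩ := hx
    rw [List.mem_map] at hx
    obtain ⟨j, hj, rfl⟩ := hx
    rcases List.mem_cons.1 he with h | h
    · rw [h]
      rfl
    · exact ih y hy e h

theorem vals_good {k : ℕ} {x : List Ent} (hx : x ∈ wS I σ k) :
    ∀ u ∈ vals I x, u.2 = σ u.1 := by
  intro u hu
  unfold vals at hu
  rw [List.mem_flatMap] at hu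
  obtain ⟨e, he, hu⟩ := hu
  have h := wS_good k x hx e he
  have h1 : e.2.2.1 = σ (conAt I e.1).1 := by
    conv_lhs => rw [h]
    rfl
  have h2 : e.2.2.2 = σ (conAt I e.1).2.1 := by
    conv_lhs => rw [h]
    rfl
  rcases List.mem_cons.1 hu with h' | h'
  · rw [h']
    exact h1
  · rw [List.mem_singleton] at h'
    rw [h']
    exact h2

theorem no_clash {k : ℕ} {x y : List Ent} (hx : x ∈ wS I σ k) (hy : y ∈ wS I σ k) :
    clash (vals I x) (vals I y) = false := by
  rw [Bool.eq_false_iff]
  intro h
  simp only [clash, List.any_eq_true, Bool.and_eq_true, decide_eq_true_eq, Bool.not_eq_true',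
    decide_eq_false_iff_not] at h
  obtain ⟨u, hu, v, hv, h1, h2⟩ := h
  apply h2
  rw [vals_good hx u hu, vals_good hy v hv, h1]

end

theorem fgSat : StFGSat := by
  intro I k hI ⟨σ, hσ⟩
  rw [← length_wS I σ k]
  have hmem : ∀ x ∈ wS I σ k, x ∈ fgV I k := by
    intro x hx
    unfold fgV
    rw [List.mem_filter]
    refine ⟨wS_mem hI hσ k x hx, ?_⟩
    rw [no_clash hx hx]
    rfl
  classical
  let s : Finset (Fin (fg I k).n) :=
    Finset.univ.filter fun i => (fgV I k).get i ∈ wS I σ k
  have hs : (fg I k).graph.IsIndepSet (s : Set (Fin (fg I k).n)) := by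
    intro i hi j hj _ hadj
    have hi' : (fgV I k).get i ∈ wS I σ k := by
      have := Finset.mem_coe.1 hi
      exact (Finset.mem_filter.1 this).2
    have hj' : (fgV I k).get j ∈ wS I σ k := by
      have := Finset.mem_coe.1 hj
      exact (Finset.mem_filter.1 this).2
    have h1 : clash (vals I ((fgV I k).get i)) (vals I ((fgV I k).get j)) = true := hadj
    rw [no_clash hi' hj'] at h1
    exact absurd h1 (by decide)
  have hc : (wS I σ k).length ≤ s.card := by
    rw [← List.toFinset_card_of_nodup (nodup_wS I σ k)]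
    refine (Finset.card_le_card (t := s.image fun i => (fgV I k).get i) ?_).trans
      Finset.card_image_le
    intro x hx
    rw [List.mem_toFinset] at hx
    rw [Finset.mem_image]
    obtain ⟨i, hi⟩ := List.mem_iff_get.1 (hmem x hx)
    have hx' : (fgV I k).get i ∈ wS I σ k := by rw [hi]; exact hx
    exact ⟨i, Finset.mem_filter.2 ⟨Finset.mem_univ _, hx'⟩, hi⟩
  exact hc.trans hs.card_le_indepNum

end Pool.Agent.Lib.MP_186ff7_lc.PCP
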