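import Pool.Agent.Lib.MP_186ff7_lc.PCP.Stmts

/-!
Module Fou of the PCP theorem: the absolute values of the Fourier transform on the torus.
-/

namespace Pool.Agent.Lib.MP_186ff7_lc.PCP

open Finset ZMod

namespace Fou

variable {m : ℕ} [NeZero m]

/-- the character of frequency `p` at the point `x` -/
noncomputable def ch (p x : ZMod m × ZMod m) : ℂ := stdAddChar (p.1 * x.1 + p.2 * x.2)

/-- the Fourier transform -/
noncomputable def ft (f : ZMod m × ZMod m → ℝ) (p : ZMod m × ZMod m) : ℂ := ∑ x, (f x : ℂ) * ch p x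

lemma norm_std (a : ZMod m) : ‖(stdAddChar a : ℂ)‖ = 1 := by
  rw [stdAddChar_apply]; exact Circle.norm_coe _

lemma conj_std (a : ZMod m) : (starRingEnd ℂ) (stdAddChar a : ℂ) = stdAddChar (-a) := by
  rw [AddChar.map_neg_eq_inv, Complex.inv_eq_conj (norm_std a)]

lemma sum_ch (x : ZMod m × ZMod m) : ∑ p : ZMod m × ZMod m, ch p x = if x = 0 then (m : ℂ) ^ 2 else 0 := by
  have h1 : ∀ b : ZMod m, ∑ a : ZMod m, (stdAddChar (a * b) : ℂ) = if b = 0 then (m : ℂ) else 0 := by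
    intro b
    have := AddChar.sum_mulShift b (isPrimitive_stdAddChar m)
    rw [this, ZMod.card]
    split_ifs <;> simp
  rw [Fintype.sum_prod_type]
  have h2 : ∀ a b : ZMod m, ch (a, b) x = stdAddChar (a * x.1) * stdAddChar (b * x.2) := by
    intro a b
    rw [ch, AddChar.map_add_eq_mul]
  simp_rw [h2, ← Finset.mul_sum, h1, ← Finset.sum_mul, h1]
  by_cases hx1 : x.1 = 0 <;> by_cases hx2 : x.2 = 0
  · rw [if_pos hx1, if_pos hx2, if_pos (Prod.ext hx1 hx2)]; ring
  · rw [if_pos hx1, if_neg hx2, if_neg (fun h => hx2 (by rw [h]; rfl))]; ring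
  · rw [if_neg hx1, if_pos hx2, if_neg (fun h : x = 0 => hx1 (by rw [h]; rfl))]; ring
  · rw [if_neg hx1, if_neg hx2, if_neg (fun h : x = 0 => hx1 (by rw [h]; rfl))]; ring

lemma ch_mul_conj (p x y : ZMod m × ZMod m) :
    ch p x * (starRingEnd ℂ) (ch p y) = ch p (x - y) := by
  rw [ch, ch, ch, conj_std, ← AddChar.map_add_eq_mul]
  congr 1
  simp only [Prod.fst_sub, Prod.snd_sub]
  ring

/-- Parseval's identity -/
lemma parseval (f : ZMod m × ZMod m → ℝ) : ∑ p, ‖ft f p‖ ^ 2 = (m : ℝ) ^ 2 * ∑ x, f x ^ 2 := by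
  have h : ((∑ p, ‖ft f p‖ ^ 2 : ℝ) : ℂ) = (((m : ℝ) ^ 2 * ∑ x, f x ^ 2 : ℝ) : ℂ) := by
    push_cast
    have h1 : ∀ p : ZMod m × ZMod m, ((‖ft f p‖ : ℂ)) ^ 2 =
        ∑ x, ∑ y, (f x : ℂ) * (f y : ℂ) * ch p (x - y) := by
      intro p
      rw [← Complex.mul_conj' (ft f p), ft, map_sum, Finset.sum_mul_sum]
      refine Finset.sum_congr rfl fun x _ => Finset.sum_congr rfl fun y _ => ?_
      rw [map_mul, Complex.conj_ofReal, ← ch_mul_conj]
      ring
    simp_rw [h1]
    rw [Finset.sum_comm, Finset.mul_sum]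
    refine Finset.sum_congr rfl fun x _ => ?_
    rw [Finset.sum_comm]
    simp_rw [← Finset.mul_sum, sum_ch, sub_eq_zero]
    rw [Finset.sum_eq_single x]
    · rw [if_pos rfl]; ring
    · intro y _ hy
      rw [if_neg (fun h => hy h.symm), mul_zero]
    · intro h; exact absurd (Finset.mem_univ x) h
  exact_mod_cast h

lemma ft_sub (f g : ZMod m × ZMod m → ℝ) (p : ZMod m × ZMod m) :
    ft (fun x => f x - g x) p = ft f p - ft g p := by
  rw [ft, ft, ft, ← Finset.sum_sub_distrib]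
  refine Finset.sum_congr rfl fun x _ => ?_
  push_cast; ring

/-- the Fourier transform of a composition -/
lemma ft_comp (f : ZMod m × ZMod m → ℝ) (T S : ZMod m × ZMod m → ZMod m × ZMod m)
    (hTS : ∀ x, T (S x) = x) (hST : ∀ x, S (T x) = x) (p : ZMod m × ZMod m) :
    ft (fun x => f (T x)) p = ∑ y, (f y : ℂ) * ch p (S y) := by
  let e : (ZMod m × ZMod m) ≃ (ZMod m × ZMod m) := ⟨T, S, hST, hTS⟩
  rw [ft]
  refine Fintype.sum_equiv e _ _ fun x => ?_
  change _ = (f (T x) : ℂ) * ch p (S (T x))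
  rw [hST]

lemma ft_tor0 (f : ZMod m × ZMod m → ℝ) (p : ZMod m × ZMod m) :
    ft (fun x => f (tor m 0 x)) p = ft f (p.1, p.2 - 2 * p.1) := by
  rw [ft_comp f (tor m 0) (tor m 1) (fun x => by simp [tor]) (fun x => by simp [tor]), ft]
  refine Finset.sum_congr rfl fun y _ => ?_
  congr 1
  rw [ch, ch]
  congr 1
  simp only [tor]
  ring

lemma ft_tor2 (f : ZMod m × ZMod m → ℝ) (p : ZMod m × ZMod m) :
    ft (fun x => f (tor m 2 x)) p = ft f (p.1 - 2 * p.2, p.2) := by
  rw [ft_comp f (tor m 2) (tor m 3) (fun x => by simp [tor]) (fun x => by simp [tor]), ft]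
  refine Finset.sum_congr rfl fun y _ => ?_
  congr 1
  rw [ch, ch]
  congr 1
  simp only [tor]
  ring

lemma ft_tor4 (f : ZMod m × ZMod m → ℝ) (p : ZMod m × ZMod m) :
    ft (fun x => f (tor m 4 x)) p = ft f p * stdAddChar (-p.1) := by
  rw [ft_comp f (tor m 4) (tor m 5) (fun x => by simp [tor]) (fun x => by simp [tor]), ft,
    Finset.sum_mul]
  refine Finset.sum_congr rfl fun y _ => ?_
  rw [mul_assoc]
  congr 1
  rw [ch, ch, ← AddChar.map_add_eq_mul]
  congr 1
  simp only [tor]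
  ring

lemma ft_tor6 (f : ZMod m × ZMod m → ℝ) (p : ZMod m × ZMod m) :
    ft (fun x => f (tor m 6 x)) p = ft f p * stdAddChar (-p.2) := by
  rw [ft_comp f (tor m 6) (tor m 7) (fun x => by simp [tor]) (fun x => by simp [tor]), ft,
    Finset.sum_mul]
  refine Finset.sum_congr rfl fun y _ => ?_
  rw [mul_assoc]
  congr 1
  rw [ch, ch, ← AddChar.map_add_eq_mul]
  congr 1
  simp only [tor]
  ring

/-- the weight is bounded by the change under a unit step -/
lemma wt_le (a : ZMod m) : wt a ≤ ‖1 - (stdAddChar (-a) : ℂ)‖ ^ 2 := by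
  rw [wt]
  split_ifs with h
  · have hm : (0 : ℝ) < m := Nat.cast_pos.2 (NeZero.pos m)
    set v : ℤ := a.valMinAbs with hv
    have ha : a = ((v : ℤ) : ZMod m) := (ZMod.coe_valMinAbs a).symm
    have h1 : (stdAddChar (-a) : ℂ) = Complex.exp ((-(2 * Real.pi * v / m) : ℝ) * Complex.I) := by
      have h2 : -a = (((-v : ℤ)) : ZMod m) := by rw [ha]; push_cast; rfl
      rw [h2, stdAddChar_coe]
      congr 1
      push_cast
      ring
    set θ : ℝ := 2 * Real.pi * v / m with hθ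
    have h3 : ‖1 - (stdAddChar (-a) : ℂ)‖ ^ 2 = 2 - 2 * Real.cos θ := by
      rw [h1, ← Complex.normSq_eq_norm_sq, Complex.normSq_apply]
      rw [Complex.sub_re, Complex.sub_im, Complex.exp_ofReal_mul_I_re,
        Complex.exp_ofReal_mul_I_im, Complex.one_re, Complex.one_im, Real.cos_neg, Real.sin_neg]
      have := Real.sin_sq_add_cos_sq θ
      nlinarith
    rw [h3]
    have h4 : Real.cos θ ≤ 1 / 2 := by
      rw [← Real.cos_abs, ← Real.cos_pi_div_three]
      have h5 : |θ| = 2 * Real.pi * (v.natAbs : ℝ) / m := by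
        rw [hθ, abs_div, abs_mul, abs_of_pos (by positivity), Nat.abs_cast, Nat.cast_natAbs]
        push_cast; rfl
      have h6 : (v.natAbs : ℝ) * 2 ≤ m := by
        have := ZMod.natAbs_valMinAbs_le a
        have h7 : v.natAbs * 2 ≤ m := by omega
        exact_mod_cast h7
      have h8 : (m : ℝ) ≤ 6 * (v.natAbs : ℝ) := by exact_mod_cast h
      have hpi := Real.pi_pos
      apply Real.cos_le_cos_of_nonneg_of_le_pi
      · positivity
      · rw [h5, div_le_iff₀ hm]; nlinarith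
      · rw [h5, le_div_iff₀ hm]; nlinarith
    linarith
  · positivity

end Fou

/-- The absolute values of the Fourier transform. -/
theorem fou : StFou := by
  intro m _ f hf
  have hm : (0 : ℝ) < m := Nat.cast_pos.2 (NeZero.pos m)
  have hm2 : (0 : ℝ) < (m : ℝ) ^ 2 := by positivity
  have key : ∀ (h : ZMod m × ZMod m → ℝ) (u : ZMod m × ZMod m → ℝ),
      (∀ p, u p ≤ ‖Fou.ft h p‖ ^ 2 / (m : ℝ) ^ 2) → ∑ p, u p ≤ ∑ x, h x ^ 2 := by
    intro h u hu
    calc ∑ p, u p ≤ ∑ p, ‖Fou.ft h p‖ ^ 2 / (m : ℝ) ^ 2 := Finset.sum_le_sum fun p _ => hu p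
      _ = ∑ x, h x ^ 2 := by
        rw [← Finset.sum_div, Fou.parseval, mul_div_assoc, mul_comm, div_mul_cancel₀ _ hm2.ne']
  have diff : ∀ z w : ℂ, (‖z‖ / m - ‖w‖ / m) ^ 2 ≤ ‖z - w‖ ^ 2 / (m : ℝ) ^ 2 := by
    intro z w
    rw [← sub_div, div_pow]
    have := abs_norm_sub_norm_le z w
    have h2 : (‖z‖ - ‖w‖) ^ 2 ≤ ‖z - w‖ ^ 2 := by
      rw [← sq_abs (‖z‖ - ‖w‖)]
      exact pow_le_pow_left₀ (abs_nonneg _) this 2
    gcongr
  refine ⟨fun p => ‖Fou.ft f p‖ / m, fun p => by positivity, ?_, ?_, ?_, ?_, ?_⟩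
  · have : Fou.ft f 0 = 0 := by
      rw [Fou.ft]
      have h1 : ∀ x : ZMod m × ZMod m, Fou.ch 0 x = 1 := by
        intro x; rw [Fou.ch]; simp
      simp_rw [h1, mul_one]
      exact_mod_cast hf
    simp [this]
  · have : ∀ p : ZMod m × ZMod m, (‖Fou.ft f p‖ / m) ^ 2 = ‖Fou.ft f p‖ ^ 2 / (m : ℝ) ^ 2 :=
      fun p => div_pow _ _ _
    simp_rw [this]
    rw [← Finset.sum_div, Fou.parseval, mul_div_assoc, mul_comm, div_mul_cancel₀ _ hm2.ne']
  · apply key
    intro p
    rw [Fou.ft_sub, Fou.ft_tor0]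
    exact diff _ _
  · apply key
    intro p
    rw [Fou.ft_sub, Fou.ft_tor2]
    exact diff _ _
  · simp_rw [mul_add, Finset.sum_add_distrib]
    apply add_le_add
    · apply key
      intro p
      rw [Fou.ft_sub, Fou.ft_tor4, div_pow, div_mul_eq_mul_div]
      have : Fou.ft f p - Fou.ft f p * (stdAddChar (-p.1) : ℂ) =
        Fou.ft f p * (1 - (stdAddChar (-p.1) : ℂ)) := by ring
      rw [this, norm_mul, mul_pow]
      have := Fou.wt_le p.1
      gcongr
    · apply key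
      intro p
      rw [Fou.ft_sub, Fou.ft_tor6, div_pow, div_mul_eq_mul_div]
      have : Fou.ft f p - Fou.ft f p * (stdAddChar (-p.2) : ℂ) =
        Fou.ft f p * (1 - (stdAddChar (-p.2) : ℂ)) := by ring
      rw [this, norm_mul, mul_pow]
      have := Fou.wt_le p.2
      gcongr

end Pool.Agent.Lib.MP_186ff7_lc.PCP
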