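import Pool.Agent.Lib.MP_186ff7_lc.PCP.Stmts
import Pool.Agent.Lib.CookLevin.Comp2

/-!
# A machine can keep a number

The new machine has all stacks of the old one, with the alphabets `Option (Γ k)`, and one stack of
ticks.  First it moves the letters `none` of the input to the stack of ticks, then it runs the old
machine on the letters `some x`, and then it puts the ticks on the output stack.
-/

set_option linter.unusedSectionVars false

namespace Pool.Agent.Lib.MP_186ff7_lc.PCP

open Function Turing StateTransition Pool.Agent.Lib.CookLevin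

namespace Frame

variable {K : Type} [DecidableEq K] {Γ : K → Type} {Λ σ : Type}

/-- The alphabets. -/
abbrev FΓ (Γ : K → Type) : K ⊕ Unit → Type
  | Sum.inl k => Option (Γ k)
  | Sum.inr _ => Unit

/-- The stacks. -/
def stf (S : ∀ k, List (Option (Γ k))) (A : List Unit) : ∀ k, List (FΓ Γ k)
  | Sum.inl k => S k
  | Sum.inr _ => A

theorem stf_upd1 (S : ∀ k, List (Option (Γ k))) (A : List Unit) (k : K)
    (l : List (Option (Γ k))) :
    update (stf S A) (Sum.inl k) l = stf (update S k l) A := by
  funext j
  rcases j with j | j
  · by_cases h : j = k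
    · subst h; rw [update_self]; show l = update S j l j; rw [update_self]
    · rw [update_of_ne (by simpa using h)]
      show S j = update S k l j
      rw [update_of_ne h]
  · rw [update_of_ne (by simp)]; rfl

theorem stf_upd2 (S : ∀ k, List (Option (Γ k))) (A l : List Unit) :
    update (stf S A) (Sum.inr ()) l = stf S l := by
  funext j
  rcases j with j | j
  · rw [update_of_ne (by simp)]; rfl
  · cases j; rw [update_self]; rfl

/-- The old stacks. -/
def sm (S : ∀ k, List (Γ k)) : ∀ k, List (Option (Γ k)) := fun k => (S k).map some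

theorem sm_upd (S : ∀ k, List (Γ k)) (k : K) (l : List (Γ k)) :
    update (sm S) k (l.map some) = sm (update S k l) := by
  funext j
  by_cases h : j = k
  · subst h; rw [update_self]; unfold sm; rw [update_self]
  · rw [update_of_ne h]; unfold sm; rw [update_of_ne h]

/-- The labels. -/
abbrev FΛ (Λ : Type) : Type := Λ ⊕ Bool

/-- The states. -/
abbrev Fσ (σ : Type) : Type := σ × Bool

/-- The statements of the old machine. -/
def mapF : TM2.Stmt Γ Λ σ → TM2.Stmt (FΓ Γ) (FΛ Λ) (Fσ σ)
  | .push k f q => .push (Sum.inl k) (fun v => (some (f v.1) : Option (Γ k))) (mapF q)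
  | .peek k f q => .peek (Sum.inl k) (fun v (o : Option (Option (Γ k))) => (f v.1 o.join, v.2))
      (mapF q)
  | .pop k f q => .pop (Sum.inl k) (fun v (o : Option (Option (Γ k))) => (f v.1 o.join, v.2))
      (mapF q)
  | .load a q => .load (fun v => (a v.1, v.2)) (mapF q)
  | .branch p q₁ q₂ => .branch (fun v => p v.1) (mapF q₁) (mapF q₂)
  | .goto l => .goto fun v => Sum.inl (l v.1)
  | .halt => .goto fun _ => Sum.inr true

/-- The configurations while the old machine runs. -/
def convF (w : Bool) (A : List Unit) (c : TM2.Cfg Γ Λ σ) : TM2.Cfg (FΓ Γ) (FΛ Λ) (Fσ σ) :=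
  ⟨some (c.l.elim (Sum.inr true) Sum.inl), (c.var, w), stf (sm c.stk) A⟩

theorem stepAux_mapF (w : Bool) (A : List Unit) (q : TM2.Stmt Γ Λ σ) :
    ∀ (v : σ) (S : ∀ k, List (Γ k)),
    TM2.stepAux (mapF q) (v, w) (stf (sm S) A) = convF w A (TM2.stepAux q v S) := by
  induction q with
  | push k f q ih =>
    intro v S
    simp only [mapF, TM2.stepAux]
    rw [stf_upd1]
    have e : (some (f v) :: stf (sm S) A (Sum.inl k) : List (Option (Γ k))) =
        (f v :: S k).map some := rfl
    rw [e, sm_upd]
    exact ih v (update S k (f v :: S k))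
  | peek k f q ih =>
    intro v S
    simp only [mapF, TM2.stepAux]
    have e : (Option.join (stf (sm S) A (Sum.inl k)).head? : Option (Γ k)) = (S k).head? := by
      show (Option.join ((S k).map some).head? : Option (Γ k)) = (S k).head?
      cases S k <;> rfl
    rw [e]
    exact ih (f v (S k).head?) S
  | pop k f q ih =>
    intro v S
    simp only [mapF, TM2.stepAux]
    rw [stf_upd1]
    have e : (Option.join (stf (sm S) A (Sum.inl k)).head? : Option (Γ k)) = (S k).head? := by
      show (Option.join ((S k).map some).head? : Option (Γ k)) = (S k).head?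
      cases S k <;> rfl
    have e2 : ((stf (sm S) A (Sum.inl k)).tail : List (Option (Γ k))) =
        (S k).tail.map some := by
      show (((S k).map some).tail : List (Option (Γ k))) = _
      cases S k <;> rfl
    rw [e, e2, sm_upd]
    exact ih (f v (S k).head?) (update S k (S k).tail)
  | load a q ih => intro v S; exact ih (a v) S
  | branch p q₁ q₂ ih₁ ih₂ =>
    intro v S
    simp only [mapF, TM2.stepAux]
    cases p v
    · exact ih₂ v S
    · exact ih₁ v S
  | goto l => intro v S; rfl
  | halt => intro v S; rfl

/-- The two loops. -/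
def loops (k₀ k₁ : K) (l : Λ) : Bool → TM2.Stmt (FΓ Γ) (FΛ Λ) (Fσ σ)
  | false => .peek (Sum.inl k₀) (fun v (o : Option (Option (Γ k₀))) =>
        (v.1, o.elim false fun x => x.isNone))
      (.branch (fun v => v.2)
        (.pop (Sum.inl k₀) (fun v _ => v)
          (.push (Sum.inr ()) (fun _ => ()) (.goto fun _ => Sum.inr false)))
        (.goto fun _ => Sum.inl l))
  | true => .pop (Sum.inr ()) (fun v (o : Option Unit) => (v.1, o.isSome))
      (.branch (fun v => v.2)
        (.push (Sum.inl k₁) (fun _ => (none : Option (Γ k₁))) (.goto fun _ => Sum.inr true))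
        .halt)

/-- The program. -/
def frM (m : Λ → TM2.Stmt Γ Λ σ) (k₀ k₁ : K) (l : Λ) :
    FΛ Λ → TM2.Stmt (FΓ Γ) (FΛ Λ) (Fσ σ)
  | Sum.inl l => mapF (m l)
  | Sum.inr b => loops k₀ k₁ l b

variable {m : Λ → TM2.Stmt Γ Λ σ} {k₀ k₁ : K} {l : Λ}

theorem steps_mapF (w : Bool) (A : List Unit) {n : ℕ} :
    ∀ {c c' : TM2.Cfg Γ Λ σ}, Steps m n c c' →
    Steps (frM m k₀ k₁ l) n (convF w A c) (convF w A c') := by
  induction n with
  | zero =>
    intro c c' hs
    obtain rfl : c = c' := by simpa [Steps] using hs
    exact Steps.zero _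
  | succ n ih =>
    intro c c' hs
    obtain ⟨b, h1, h2⟩ := hs.succ_inv
    refine Steps.cons ?_ (ih h2)
    obtain ⟨l, v, S⟩ := c
    cases l with
    | none => simp [TM2.step] at h1
    | some l =>
      simp only [TM2.step, Option.some.injEq] at h1
      subst h1
      exact congrArg some (stepAux_mapF w A (m l) v S)

theorem steps_in (v : σ) (L : List (Γ k₀)) : ∀ (n : ℕ) (w : Bool)
    (S : ∀ k, List (Option (Γ k))) (A : List Unit),
    S k₀ = List.replicate n none ++ L.map some →
    Steps (frM m k₀ k₁ l) (n + 1)
      ⟨some (Sum.inr false), (v, w), stf S A⟩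
      ⟨some (Sum.inl l), (v, false), stf (update S k₀ (L.map some))
        (List.replicate n () ++ A)⟩ := by
  intro n
  induction n with
  | zero =>
    intro w S A hS
    refine Steps.one ?_
    rw [List.replicate_zero, List.nil_append] at hS
    have e : (stf S A (Sum.inl k₀) : List (Option (Γ k₀))) = L.map some := hS
    simp only [TM2.step, frM, loops, TM2.stepAux]
    rw [e]
    have e2 : ((L.map some).head?.elim false fun x => x.isNone) = false := by
      cases L <;> rfl
    rw [e2, cond_false, List.replicate_zero, List.nil_append]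
    congr 2
    rw [← hS, update_eq_self]
  | succ n ih =>
    intro w S A hS
    rw [List.replicate_succ, List.cons_append] at hS
    have h1 := ih true (update S k₀ (List.replicate n none ++ L.map some)) (() :: A)
      (by rw [update_self])
    rw [update_idem] at h1
    have e3 : List.replicate n () ++ () :: A = List.replicate (n + 1) () ++ A := by
      rw [List.replicate_succ', List.append_assoc]; rfl
    rw [e3] at h1
    refine Steps.cons ?_ h1
    have e : (stf S A (Sum.inl k₀) : List (Option (Γ k₀))) =
      none :: (List.replicate n none ++ L.map some) := hS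
    simp only [TM2.step, frM, loops, TM2.stepAux]
    rw [e]
    simp only [List.head?_cons, Option.elim_some, Option.isNone_none, cond_true, List.tail_cons]
    rw [stf_upd1]
    have e2 : stf (update S k₀ (List.replicate n none ++ L.map some)) A (Sum.inr ()) = A := rfl
    rw [e2, stf_upd2]

theorem steps_out (v : σ) : ∀ (n : ℕ) (w : Bool) (S : ∀ k, List (Option (Γ k))),
    Steps (frM m k₀ k₁ l) (n + 1)
      ⟨some (Sum.inr true), (v, w), stf S (List.replicate n ())⟩
      ⟨none, (v, false), stf (update S k₁ (List.replicate n none ++ S k₁)) []⟩ := by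
  intro n
  induction n with
  | zero =>
    intro w S
    refine Steps.one ?_
    have e : stf S ([] : List Unit) (Sum.inr ()) = ([] : List Unit) := rfl
    simp only [TM2.step, frM, loops, TM2.stepAux, List.replicate_zero]
    rw [e]
    simp only [List.head?_nil, Option.isSome_none, cond_false, List.tail_nil, List.nil_append]
    rw [stf_upd2, update_eq_self]
  | succ n ih =>
    intro w S
    have h1 := ih true (update S k₁ (none :: S k₁))
    rw [update_idem, update_self] at h1
    have e3 : List.replicate n none ++ none :: S k₁ = List.replicate (n + 1) none ++ S k₁ := by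
      rw [List.replicate_succ', List.append_assoc]; rfl
    rw [e3] at h1
    refine Steps.cons ?_ h1
    have e : stf S (List.replicate (n + 1) ()) (Sum.inr ()) =
      (() :: List.replicate n () : List Unit) := List.replicate_succ
    simp only [TM2.step, frM, loops, TM2.stepAux]
    rw [e]
    simp only [List.head?_cons, Option.isSome_some, cond_true, List.tail_cons]
    rw [stf_upd2]
    have e2 : (stf S (List.replicate n ()) (Sum.inl k₁) : List (Option (Γ k₁))) = S k₁ := rfl
    rw [e2, stf_upd1]

theorem transport {tm : FinTM2} {a a' : List (tm.Γ tm.k₀)} {b b' : List (tm.Γ tm.k₁)}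
    {t t' : ℕ} (h : Nonempty (TM2OutputsInTime tm a (some b) t)) (e1 : a' = a) (e2 : b' = b)
    (e3 : t ≤ t') : Nonempty (TM2OutputsInTime tm a' (some b') t') := by
  subst e1 e2
  obtain ⟨n, hn, hs⟩ := outputs_iff.1 h
  exact outputs_iff.2 ⟨n, hn.trans e3, hs⟩

/-- The machine. -/
def frTM (M : FinTM2) : FinTM2 where
  K := M.K ⊕ Unit
  kDecidableEq := have := M.kDecidableEq; inferInstance
  kFin := have := M.kFin; inferInstance
  k₀ := Sum.inl M.k₀
  k₁ := Sum.inl M.k₁
  Γ := FΓ M.Γ
  Λ := FΛ M.Λ
  main := Sum.inr false
  ΛFin := have := M.ΛFin; inferInstance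
  σ := Fσ M.σ
  initialState := (M.initialState, false)
  σFin := have := M.σFin; inferInstance
  Γk₀Fin := have := M.Γk₀Fin; inferInstanceAs (Fintype (Option (M.Γ M.k₀)))
  m := frM M.m M.k₀ M.k₁ M.main

theorem stf_single (k : K) (L : List (Option (Γ k))) :
    stf (update (fun _ => []) k L) [] = (single (Γ := FΓ Γ) (Sum.inl k) L) := by
  unfold single
  rw [← stf_upd1]
  congr 1
  funext j
  rcases j with j | j <;> rfl

theorem sm_single (k : K) (L : List (Γ k)) :
    sm (single k L) = (update (fun _ => []) k (L.map some) : ∀ k, List (Option (Γ k))) := by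
  unfold single
  rw [← sm_upd]
  congr 1

theorem frTM_outputs {M : FinTM2} {L : List (M.Γ M.k₀)} {L' : List (M.Γ M.k₁)} {t : ℕ} (n : ℕ)
    (h : Nonempty (TM2OutputsInTime M L (some L') t)) :
    Nonempty (TM2OutputsInTime (frTM M) (List.replicate n none ++ L.map some)
      (some (List.replicate n none ++ L'.map some)) (n + 1 + t + (n + 1))) := by
  obtain ⟨s, hs, h1⟩ := outputs_iff.1 h
  refine outputs_iff.2 ⟨n + 1 + s + (n + 1), by omega, ?_⟩
  have s₁ := steps_in (m := M.m) (k₀ := M.k₀) (k₁ := M.k₁) (l := M.main) M.initialState L n false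
    (update (fun _ => []) M.k₀ (List.replicate n none ++ L.map some)) []
    (by rw [update_self])
  rw [update_idem, stf_single, List.append_nil] at s₁
  have s₂ := steps_mapF (m := M.m) (k₀ := M.k₀) (k₁ := M.k₁) (l := M.main) false
    (List.replicate n ()) h1
  unfold convF at s₂
  simp only [Option.elim_some, Option.elim_none] at s₂
  rw [sm_single, sm_single] at s₂
  have s₃ := steps_out (m := M.m) (k₀ := M.k₀) (k₁ := M.k₁) (l := M.main) M.initialState n false
    (update (fun _ => []) M.k₁ (L'.map some))
  rw [update_idem, update_self, stf_single] at s₃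
  exact (s₁.trans s₂).trans s₃

end Frame

/-- A machine can keep a number. -/
theorem frame : StFrame := by
  rintro β γ βΓ γΓ eb ec g ⟨h⟩
  refine ⟨{
    tm := Frame.frTM h.tm
    inputAlphabet := Equiv.optionCongr h.inputAlphabet
    outputAlphabet := Equiv.optionCongr h.outputAlphabet
    time := 2 * Polynomial.X + 2 + h.time
    outputsFun := fun p => ?_ }⟩
  have o : Nonempty (TM2OutputsInTime h.tm _ _ _) := ⟨h.outputsFun p.2⟩
  have o2 := Frame.frTM_outputs p.1 o
  have e1 : List.map (Equiv.optionCongr h.inputAlphabet).invFun (frE eb p) =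
      List.replicate p.1 none ++ ((eb p.2).map h.inputAlphabet.invFun).map some := by
    unfold frE
    rw [List.map_append, List.map_replicate, List.map_map, List.map_map]
    rfl
  have e2 : List.map (Equiv.optionCongr h.outputAlphabet).invFun (frE ec (p.1, g p.2)) =
      List.replicate p.1 none ++ ((ec (g p.2)).map h.outputAlphabet.invFun).map some := by
    unfold frE
    rw [List.map_append, List.map_replicate, List.map_map, List.map_map]
    rfl
  have hl : (frE eb p).length = p.1 + (eb p.2).length := by
    unfold frE; simp
  have e3 : p.1 + 1 + h.time.eval (eb p.2).length + (p.1 + 1) ≤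
      (2 * Polynomial.X + 2 + h.time).eval (frE eb p).length := by
    have h4 : (2 * Polynomial.X + 2 + h.time).eval (frE eb p).length =
        2 * (frE eb p).length + 2 + h.time.eval (frE eb p).length := by
      simp
    have h5 : h.time.eval (eb p.2).length ≤ h.time.eval (frE eb p).length :=
      eval_mono _ (by omega)
    rw [h4]
    omega
  exact (Frame.transport o2 e1 e2 e3).some

end Pool.Agent.Lib.MP_186ff7_lc.PCP
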