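import Pool.Agent.Lib.MP_186ff7_lc.PCP.Stmts

/-!
Linear functions on words of bits: different ones differ in half of all places, and those with at
least two terms are far from multiplicative.
-/

namespace Pool.Agent.Lib.MP_186ff7_lc.PCP

namespace HalfM

/-- An involution that exchanges a set and its complement. -/
lemma two_mul_card {Y : Type} [Fintype Y] (φ : Y → Y) (hφ : ∀ y, φ (φ y) = y) (P : Y → Prop)
    [DecidablePred P] (hP : ∀ y, P (φ y) ↔ ¬ P y) :
    2 * (Finset.univ.filter P).card = Fintype.card Y := by
  have h1 : (Finset.univ.filter P).card = (Finset.univ.filter fun y => ¬ P y).card := by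
    apply Finset.card_nbij' φ φ
    · intro y hy
      simp only [Finset.coe_filter, Finset.mem_univ, true_and, Set.mem_setOf_eq] at hy ⊢
      rw [hP]
      exact not_not.mpr hy
    · intro y hy
      simp only [Finset.coe_filter, Finset.mem_univ, true_and, Set.mem_setOf_eq] at hy ⊢
      rw [hP]
      exact hy
    · intro y _
      exact hφ y
    · intro y _
      exact hφ y
  have h2 := Finset.card_filter_add_card_filter_not (s := (Finset.univ : Finset Y)) P
  rw [Finset.card_univ] at h2
  omega

/-- The word with the bit at `x` flipped. -/
def flp {X : Type} [DecidableEq X] (x : X) (f : X → Bool) : X → Bool :=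
  Function.update f x (!f x)

lemma flp_flp {X : Type} [DecidableEq X] (x : X) (f : X → Bool) : flp x (flp x f) = f := by
  funext y
  by_cases h : y = x
  · subst h
    simp [flp]
  · simp [flp, h]

lemma card_split {X : Type} [DecidableEq X] (s : Finset X) (x : X) (hx : x ∈ s)
    (f : X → Bool) : (s.filter fun y => f y = true).card
      = (f x).toNat + ((s.erase x).filter fun y => f y = true).card := by
  conv_lhs => rw [← Finset.insert_erase hx]
  rw [Finset.filter_insert]
  cases h : f x
  · simp
  · simp only [if_true, Bool.toNat_true]
    rw [Finset.card_insert_of_notMem (by simp)]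
    omega

lemma chi_flp_mem {X : Type} [DecidableEq X] (s : Finset X) (x : X) (hx : x ∈ s)
    (f : X → Bool) : chi s (flp x f) = !chi s f := by
  have h1 := card_split s x hx f
  have h2 := card_split s x hx (flp x f)
  have h3 : ((s.erase x).filter fun y => flp x f y = true)
      = ((s.erase x).filter fun y => f y = true) := by
    apply Finset.filter_congr
    intro y hy
    have : y ≠ x := Finset.ne_of_mem_erase hy
    simp [flp, this]
  rw [h3] at h2
  have h4 : flp x f x = !f x := by simp [flp]
  rw [h4] at h2
  simp only [chi]
  rw [h1, h2]
  generalize ((s.erase x).filter fun y => f y = true).card = n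
  have h5 : Odd (1 + n) ↔ ¬ Odd n := by
    rw [add_comm, Nat.odd_add_one]
  cases f x
  · simp only [Bool.toNat_false, zero_add, Bool.not_false, Bool.toNat_true]
    by_cases h : Odd n
    · simp [h5, h]
    · simp [h5, h]
  · simp only [Bool.toNat_false, zero_add, Bool.not_true, Bool.toNat_true]
    by_cases h : Odd n
    · simp [h5, h]
    · simp [h5, h]

lemma chi_flp_not_mem {X : Type} [DecidableEq X] (s : Finset X) (x : X) (hx : x ∉ s)
    (f : X → Bool) : chi s (flp x f) = chi s f := by
  simp only [chi]
  have h3 : (s.filter fun y => flp x f y = true) = (s.filter fun y => f y = true) := by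
    apply Finset.filter_congr
    intro y hy
    have : y ≠ x := by
      rintro rfl
      exact hx hy
    simp [flp, this]
  rw [h3]

end HalfM

open HalfM in
theorem half : StHalf := by
  intro X _ _ s t hst
  obtain ⟨x, hx⟩ : ∃ x, ¬ (x ∈ s ↔ x ∈ t) := by
    by_contra h
    push Not at h
    exact hst (Finset.ext h)
  apply two_mul_card (flp x) (flp_flp x)
  intro f
  by_cases h1 : x ∈ s
  · have h2 : x ∉ t := fun h => hx ⟨fun _ => h, fun _ => h1⟩
    rw [chi_flp_mem s x h1, chi_flp_not_mem t x h2]
    cases chi s f <;> cases chi t f <;> simp
  · have h2 : x ∈ t := by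
      by_contra h
      exact hx ⟨fun h' => absurd h' h1, fun h' => absurd h' h⟩
    rw [chi_flp_not_mem s x h1, chi_flp_mem t x h2]
    cases chi s f <;> cases chi t f <;> simp

open HalfM in
theorem prod : StProd := by
  intro X _ _ s hs
  obtain ⟨s0, hs0, t0, ht0, hne⟩ := Finset.one_lt_card.mp (by omega : 1 < s.card)
  -- half of all `f` are good
  have h1 : 2 * (Finset.univ.filter fun f : X → Bool => chi s f ≠ f s0).card
      = Fintype.card (X → Bool) := by
    apply two_mul_card (flp t0) (flp_flp t0)
    intro f
    rw [chi_flp_mem s t0 ht0]
    have : flp t0 f s0 = f s0 := by simp [flp, hne]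
    rw [this]
    cases chi s f <;> cases f s0 <;> simp
  -- for a good `f` half of all `g` are bad
  have h2 : ∀ f : X → Bool, chi s f ≠ f s0 →
      2 * (Finset.univ.filter fun g : X → Bool =>
        (chi s f && chi s g) ≠ chi s fun x => f x && g x).card = Fintype.card (X → Bool) := by
    intro f hf
    apply two_mul_card (flp s0) (flp_flp s0)
    intro g
    rw [chi_flp_mem s s0 hs0]
    cases hfs : f s0
    · have h3 : (fun x => f x && flp s0 g x) = fun x => f x && g x := by
        funext y
        by_cases h : y = s0
        · subst h
          simp [hfs]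
        · simp [flp, h]
      rw [h3]
      have h4 : chi s f = true := by
        cases h5 : chi s f
        · exact absurd (h5.trans hfs.symm) hf
        · rfl
      rw [h4]
      cases chi s g <;> cases (chi s fun x => f x && g x) <;> simp
    · have h3 : (fun x => f x && flp s0 g x) = flp s0 (fun x => f x && g x) := by
        funext y
        by_cases h : y = s0
        · subst h
          simp [flp, hfs]
        · simp [flp, h]
      rw [h3, chi_flp_mem s s0 hs0]
      have h4 : chi s f = false := by
        cases h5 : chi s f
        · rfl
        · exact absurd (h5.trans hfs.symm) hf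
      rw [h4]
      cases chi s g <;> cases (chi s fun x => f x && g x) <;> simp
  have h5 : (Finset.univ.filter fun p : (X → Bool) × (X → Bool) =>
      (chi s p.1 && chi s p.2) ≠ chi s fun x => p.1 x && p.2 x).card
      = ∑ f : X → Bool, (Finset.univ.filter fun g : X → Bool =>
        (chi s f && chi s g) ≠ chi s fun x => f x && g x).card := by
    rw [Finset.card_filter, ← Finset.univ_product_univ, Finset.sum_product]
    apply Finset.sum_congr rfl
    intro f _
    rw [Finset.card_filter]
  rw [h5, Finset.mul_sum]
  calc Fintype.card (X → Bool) * Fintype.card (X → Bool)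
      = ∑ _f ∈ (Finset.univ.filter fun f : X → Bool => chi s f ≠ f s0),
          2 * Fintype.card (X → Bool) := by
        rw [Finset.sum_const, smul_eq_mul]
        conv_lhs => rw [← h1]
        rw [← h1]
        ring
    _ = ∑ f ∈ (Finset.univ.filter fun f : X → Bool => chi s f ≠ f s0),
          4 * (Finset.univ.filter fun g : X → Bool =>
            (chi s f && chi s g) ≠ chi s fun x => f x && g x).card := by
        apply Finset.sum_congr rfl
        intro f hf
        have := h2 f (Finset.mem_filter.mp hf).2
        omega
    _ ≤ _ := Finset.sum_le_sum_of_subset (Finset.subset_univ _)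

end Pool.Agent.Lib.MP_186ff7_lc.PCP
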