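import Pool.Agent.Lib.MP_186ff7_lc.PCP.Stmts

/-!
Module Num of the PCP theorem: the choice of the length of the walks.
-/

namespace Pool.Agent.Lib.MP_186ff7_lc.PCP

/-- The choice of the length of the walks. -/
theorem num : StNum := by
  intro C θ hθ0 hθ1
  -- the choice of `K`
  have hlim := tendsto_pow_const_mul_const_pow_of_abs_lt_one 6 (r := θ)
    (by rw [abs_of_nonneg hθ0]; exact hθ1)
  set B : ℝ := ((C : ℝ) ^ 2 + 1) * 20 ^ 6 * 64 with hB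
  have hBpos : 0 < B := by positivity
  have hev := (hlim.const_mul B).eventually_lt_const (u := 1) (by simp)
  obtain ⟨K, hK, hK1⟩ := (hev.and (Filter.eventually_ge_atTop 1)).exists
  refine ⟨K, ?_⟩
  intro M n k hM hk hn
  have hKr : (1 : ℝ) ≤ K := by exact_mod_cast hK1
  set L := Nat.log 2 M with hL
  set u := Nat.log 2 (L + 2) + 1 with hu
  have hM2 : M < 2 ^ (L + 1) := Nat.lt_pow_succ_log_self (by norm_num) M
  have hL2 : L + 2 < 2 ^ u := Nat.lt_pow_succ_log_self (by norm_num) (L + 2)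
  have hu1 : 1 ≤ u := by omega
  -- the logarithm of `n`
  have hn2 : n < 2 ^ (L + 9 + 12 * k) := by
    calc n ≤ M * 16 ^ k * 256 ^ (k + 1) := hn
      _ < 2 ^ (L + 1) * 16 ^ k * 256 ^ (k + 1) := by
        have h1 : 0 < 16 ^ k := by positivity
        have h2 : 0 < 256 ^ (k + 1) := by positivity
        exact Nat.mul_lt_mul_of_pos_right (Nat.mul_lt_mul_of_pos_right hM2 h1) h2
      _ = 2 ^ (L + 9 + 12 * k) := by
        rw [show (16 : ℕ) = 2 ^ 4 by norm_num, show (256 : ℕ) = 2 ^ 8 by norm_num, ← pow_mul,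
          ← pow_mul, ← pow_add, ← pow_add]
        congr 1
        ring
  have hlog : 1 + Nat.log 2 n ≤ L + 9 + 12 * k := by
    have := Nat.log_lt_of_lt_pow' (b := 2) (by omega) hn2
    omega
  have hup : u ≤ 2 ^ u := Nat.lt_two_pow_self.le
  have hup1 : 1 ≤ 2 ^ u := Nat.one_le_two_pow
  have hb : 1 + Nat.log 2 n ≤ 20 * K * 2 ^ u := by
    calc 1 + Nat.log 2 n ≤ L + 9 + 12 * k := hlog
      _ ≤ 2 ^ u + 7 * 2 ^ u + 12 * K * 2 ^ u := by
        have h1 : 12 * k ≤ 12 * K * 2 ^ u := by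
          rw [hk, mul_assoc]
          exact Nat.mul_le_mul_left _ (Nat.mul_le_mul_left _ hup)
        omega
      _ ≤ 20 * K * 2 ^ u := by
        have h1 : 8 * 2 ^ u ≤ 8 * K * 2 ^ u := by
          calc 8 * 2 ^ u = 8 * 1 * 2 ^ u := by ring
            _ ≤ 8 * K * 2 ^ u := Nat.mul_le_mul_right _ (Nat.mul_le_mul_left _ hK1)
        nlinarith
  have hbr : (1 + (Nat.log 2 n : ℝ)) ≤ 20 * K * 2 ^ u := by exact_mod_cast hb
  have h64 : 64 * θ ^ K ≤ 1 := by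
    have h1 : (0 : ℝ) ≤ θ ^ K := by positivity
    have h2 : (1 : ℝ) ≤ (K : ℝ) ^ 6 := one_le_pow₀ hKr
    have h3 : 64 * θ ^ K ≤ B * ((K : ℝ) ^ 6 * θ ^ K) := by
      have h4 : (64 : ℝ) ≤ B := by
        rw [hB]
        have : (0 : ℝ) ≤ (C : ℝ) ^ 2 := by positivity
        nlinarith
      calc 64 * θ ^ K = 64 * (1 * θ ^ K) := by ring
        _ ≤ B * ((K : ℝ) ^ 6 * θ ^ K) := by gcongr
    linarith
  have hpw : (64 * θ ^ K) ^ u ≤ 64 * θ ^ K := by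
    have h0 : (0 : ℝ) ≤ 64 * θ ^ K := by positivity
    calc (64 * θ ^ K) ^ u ≤ (64 * θ ^ K) ^ 1 := pow_le_pow_of_le_one h0 h64 hu1
      _ = 64 * θ ^ K := pow_one _
  have hfin : ((C * (1 + Nat.log 2 n) ^ 3 : ℕ) : ℝ) ^ 2 * θ ^ k ≤ B * ((K : ℝ) ^ 6 * θ ^ K) := by
    push_cast
    calc ((C : ℝ) * (1 + (Nat.log 2 n : ℝ)) ^ 3) ^ 2 * θ ^ k
        ≤ ((C : ℝ) * (20 * K * 2 ^ u) ^ 3) ^ 2 * θ ^ k := by gcongr
      _ = (C : ℝ) ^ 2 * 20 ^ 6 * (K : ℝ) ^ 6 * (64 * θ ^ K) ^ u := by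
        rw [hk, mul_pow (64 : ℝ), ← pow_mul θ K u]
        have : (64 : ℝ) ^ u = (2 ^ u) ^ 6 := by
          rw [← pow_mul, show (64 : ℝ) = 2 ^ 6 by norm_num, ← pow_mul, mul_comm]
        rw [this]
        ring
      _ ≤ (C : ℝ) ^ 2 * 20 ^ 6 * (K : ℝ) ^ 6 * (64 * θ ^ K) := by gcongr
      _ ≤ B * ((K : ℝ) ^ 6 * θ ^ K) := by
        rw [hB]
        have h1 : (0 : ℝ) ≤ θ ^ K := by positivity
        have h2 : (0 : ℝ) ≤ (K : ℝ) ^ 6 * θ ^ K := by positivity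
        nlinarith
  linarith

end Pool.Agent.Lib.MP_186ff7_lc.PCP
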