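import Pool.Agent.Lib.MP_186ff7_lc.PCP.Defs

/-!
# The PCP theorem: the statements of the modules
-/

namespace Pool.Agent.Lib.MP_186ff7_lc.PCP

open Turing

/-! ### The torus -/

/-- The weight of a frequency: `1` if its absolute value is at least `m / 6`. -/
def wt {m : ℕ} (a : ZMod m) : ℝ := if m ≤ 6 * a.valMinAbs.natAbs then 1 else 0

/-- The ping-pong estimate. -/
def StPing : Prop := ∃ c : ℝ, 0 < c ∧ ∀ (m : ℕ) [NeZero m] (g : ZMod m × ZMod m → ℝ),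
  (∀ x, 0 ≤ g x) → g 0 = 0 →
  c * ∑ x, g x ^ 2 ≤ ∑ x : ZMod m × ZMod m, (g x - g (x.1, x.2 - 2 * x.1)) ^ 2 +
    ∑ x : ZMod m × ZMod m, (g x - g (x.1 - 2 * x.2, x.2)) ^ 2 +
    ∑ x : ZMod m × ZMod m, g x ^ 2 * (wt x.1 + wt x.2)

/-- The absolute values of the Fourier transform. -/
def StFou : Prop := ∀ (m : ℕ) [NeZero m] (f : ZMod m × ZMod m → ℝ), ∑ x, f x = 0 →
  ∃ g : ZMod m × ZMod m → ℝ, (∀ x, 0 ≤ g x) ∧ g 0 = 0 ∧ ∑ x, g x ^ 2 = ∑ x, f x ^ 2 ∧
    ∑ x : ZMod m × ZMod m, (g x - g (x.1, x.2 - 2 * x.1)) ^ 2 ≤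
      ∑ x : ZMod m × ZMod m, (f x - f (tor m 0 x)) ^ 2 ∧
    ∑ x : ZMod m × ZMod m, (g x - g (x.1 - 2 * x.2, x.2)) ^ 2 ≤
      ∑ x : ZMod m × ZMod m, (f x - f (tor m 2 x)) ^ 2 ∧
    ∑ x : ZMod m × ZMod m, g x ^ 2 * (wt x.1 + wt x.2) ≤
      ∑ x : ZMod m × ZMod m, (f x - f (tor m 4 x)) ^ 2 +
      ∑ x : ZMod m × ZMod m, (f x - f (tor m 6 x)) ^ 2

/-- The spectral gap of the torus. -/
def StTorus : Prop := ∃ η : ℝ, 0 < η ∧ ∀ (m : ℕ) [NeZero m] (f : ZMod m × ZMod m → ℝ),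
  ∑ x, f x = 0 → η * ∑ x, f x ^ 2 ≤ ∑ j, ∑ x, (f x - f (tor m j x)) ^ 2

/-- The edge expansion of the torus: every assignment of letters is constant up to a multiple of
the number of edges whose ends have different letters. -/
def StTorEdge : Prop := ∃ h : ℝ, 0 < h ∧ h ≤ 1 ∧
  ∀ (m : ℕ) [NeZero m] (σ : ZMod m × ZMod m → Al), ∃ a : Al,
    h * (Finset.univ.filter fun x => σ x ≠ a).card ≤
      (Finset.univ.filter fun p : (ZMod m × ZMod m) × Fin 8 => σ p.1 ≠ σ (tor m p.2 p.1)).card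

/-! ### The powering -/

/-- The second moment of the number of edges of `F` on a random walk. -/
def StSecond : Prop := ∀ (V D A : Type) [Fintype V] [Fintype D] [Nonempty V] [Nonempty D]
  (G : PG V D A) (ρ : ℝ), 0 ≤ ρ → ρ < 1 → G.Contr ρ → ∀ (F : V → D → Bool),
  (∀ v j, F (G.nb j v) (G.inv j) = F v j) → ∀ (L : ℕ) (f : ℝ),
  f = (Finset.univ.filter fun p : V × D => F p.1 p.2 = true).card /
    (Fintype.card V * Fintype.card D) →
  ∑ v, wsum L (fun w => (G.cnt F v w : ℝ) ^ 2) ≤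
    Fintype.card V * Fintype.card D ^ L * (L * f + L ^ 2 * f ^ 2 + 2 * L * f / (1 - ρ))

/-- The first moment of the number of hits, for the plurality assignment. -/
def StFirst : Prop := ∀ (V D : Type) [Fintype V] [Fintype D] [Nonempty V] [Nonempty D]
  (G : PG V D Al) (T : ℕ), 1 ≤ T → ∀ Ω : V → List D → Al, ∃ σ : V → Al, ∀ F : V → D → Bool,
  ((Finset.univ.filter fun p : V × D => F p.1 p.2 = true).card : ℝ) *
      Fintype.card D ^ (2 * T - 2) * ((T : ℝ) / 16) ^ 2 ≤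
    ∑ v, wsum (2 * T - 1) fun w => ∑ l ∈ Finset.range (2 * T - 1), (G.hits T F σ Ω v w l : ℝ)

open Classical in
/-- The powering theorem. -/
def StPow : Prop := ∀ ρ : ℝ, 0 ≤ ρ → ρ < 1 → ∃ κ : ℝ, 0 < κ ∧ κ ≤ 1 ∧
  ∀ (V D : Type) [Fintype V] [Fintype D] [Nonempty V] [Nonempty D]
  (G : PG V D Al), G.Contr ρ → ∀ T : ℕ, 1 ≤ T → ∀ Ω : V → List D → Al, ∃ σ : V → Al,
  κ * min ((T : ℝ) * (G.viol σ / (Fintype.card V * Fintype.card D))) 1 *
      (Fintype.card V * Fintype.card D ^ (2 * T - 1) * (2 * T - 1 : ℕ)) ≤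
    ∑ v, wsum (2 * T - 1) fun w => ∑ l ∈ Finset.range (2 * T - 1),
      if G.Wbad T Ω v w l then (1 : ℝ) else 0

open Classical in
/-- The random walks leave a set. -/
def StStay : Prop := ∀ (V D A : Type) [Fintype V] [Fintype D] [Nonempty V] [Nonempty D]
  (G : PG V D A) (ρ : ℝ), 0 ≤ ρ → ρ < 1 → G.Contr ρ → ∀ (S : Finset V) (ε : ℝ), 0 ≤ ε →
  (S.card : ℝ) ≤ (1 - ε) * Fintype.card V → ∀ k : ℕ,
  (∑ v, wsum k fun w => if ∀ i ≤ k, G.go v (w.take i) ∈ S then (1 : ℝ) else 0) ^ 2 ≤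
    (Fintype.card V * Fintype.card D ^ k) ^ 2 * (1 - ε * (1 - ρ ^ 2)) ^ k

/-! ### The tests -/

/-- The linearity test. -/
def StBLR : Prop := ∀ (X : Type) [Fintype X] [DecidableEq X] (A : (X → Bool) → Bool),
  ∃ s : Finset X, (Finset.univ.filter fun f => A f ≠ chi s f).card * Fintype.card (X → Bool) ≤
    (Finset.univ.filter fun p : (X → Bool) × (X → Bool) =>
      (A p.1 ^^ A p.2) ≠ A fun x => p.1 x ^^ p.2 x).card

/-- Different linear functions differ in half of all places. -/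
def StHalf : Prop := ∀ (X : Type) [Fintype X] [DecidableEq X] (s t : Finset X), s ≠ t →
  2 * (Finset.univ.filter fun f => chi s f ≠ chi t f).card = Fintype.card (X → Bool)

/-- A linear function with at least two terms is not multiplicative. -/
def StProd : Prop := ∀ (X : Type) [Fintype X] [DecidableEq X] (s : Finset X), 2 ≤ s.card →
  Fintype.card (X → Bool) * Fintype.card (X → Bool) ≤
    4 * (Finset.univ.filter fun p : (X → Bool) × (X → Bool) =>
      (chi s p.1 && chi s p.2) ≠ chi s fun x => p.1 x && p.2 x).card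

/-- At most one code word is near. -/
def StNear : Prop := ∀ (S : Type) [Fintype S] [DecidableEq S] (a : (S → Bool) → Bool) (x y : S),
  Near a x → Near a y → x = y

/-- If almost all tests accept, then the tables are near the codes of two elements that satisfy the
constraint. -/
def StTest : Prop := ∀ (S : Type) [Fintype S] [DecidableEq S] [Nonempty S] (C : S → S → Bool)
  (au av : (S → Bool) → Bool) (A : (S × S → Bool) → Bool),
  192 * (Finset.univ.filter fun t : Tst S => accept C au av A t = false).card <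
    Fintype.card (Tst S) →
  ∃ x y, C x y = true ∧ Near au x ∧ Near av y

/-! ### The graph of a constraint list -/

/-- The graph exists. -/
def StPG : Prop := ∀ I : Inst, ∃ G : PG (Fin (nV I)) Lb Al, Agree I G

/-- The spectral gap of the graph. -/
def StContr : Prop := ∃ ρ : ℝ, 0 ≤ ρ ∧ ρ < 1 ∧ ∀ (I : Inst) (G : PG (Fin (nV I)) Lb Al),
  Agree I G → G.Contr ρ

/-- The number of vertices. -/
def StSize : Prop := ∀ I : Inst, I ≠ [] → 0 < nV I ∧ nV I ≤ 32 * I.length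

/-- Completeness. -/
def StPreSat : Prop := ∀ (I : Inst) (G : PG (Fin (nV I)) Lb Al), Agree I G → Sat I →
  ∃ σ, G.viol σ = 0

/-- Soundness. -/
def StPreGap : Prop := ∃ h : ℝ, 0 < h ∧ ∀ (I : Inst) (G : PG (Fin (nV I)) Lb Al), Agree I G →
  ∀ σ : Fin (nV I) → Al, ∃ τ : ℕ → Al, h * viol I τ ≤ G.viol σ

/-! ### The composition -/

/-- The number of constraints of the composition. -/
def StCompLen : Prop := ∀ (T : ℕ) (I : Inst),
  (comp T I).length = nV I * (Fintype.card (Wd T) * (Fintype.card (Tst (Sg T)) * 4))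

/-- Completeness of the composition. -/
def StCompSat : Prop := ∀ (T : ℕ), 1 ≤ T → ∀ (I : Inst) (G : PG (Fin (nV I)) Lb Al), Agree I G →
  (∃ σ, G.viol σ = 0) → Sat (comp T I)

open Classical in
/-- Soundness of the composition. -/
def StCompGap : Prop := ∀ (T : ℕ), 1 ≤ T → ∀ (I : Inst) (G : PG (Fin (nV I)) Lb Al), Agree I G →
  ∀ σ : Nm T → Al, ∃ Ω : Fin (nV I) → List Lb → Al,
    (∑ v, wsum (2 * T - 1) fun w => ∑ l ∈ Finset.range (2 * T - 1),
      if G.Wbad T Ω v w l then (1 : ℝ) else 0) * Fintype.card (Tst (Sg T)) ≤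
    192 * viol (comp T I) σ

/-- Numbering the variables. -/
def StRenum : Prop := ∀ (α : Type) [DecidableEq α] (I : GInst α),
  (renum I).length = I.length ∧
  (∀ c ∈ renum I, c.1 < 2 * I.length ∧ c.2.1 < 2 * I.length) ∧
  (Sat I → Sat (renum I)) ∧ ∀ δ : ℝ, Gap δ I → Gap δ (renum I)

/-- One round. -/
def AmpOK (T : ℕ) (ε₀ : ℝ) (C : ℕ) : Prop := ∀ I : Inst, I ≠ [] →
  (amp T I) ≠ [] ∧ (amp T I).length ≤ C * I.length ∧ (Sat I → Sat (amp T I)) ∧
  (∀ δ : ℝ, Gap δ I → Gap (min (2 * δ) ε₀) (amp T I)) ∧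
  ∀ c ∈ amp T I, c.1 < 2 * (amp T I).length ∧ c.2.1 < 2 * (amp T I).length

/-- One round. -/
def StAmp : Prop := ∃ (T : ℕ) (ε₀ : ℝ) (C : ℕ), 1 ≤ T ∧ 0 < ε₀ ∧ ε₀ ≤ 1 ∧ 1 ≤ C ∧ AmpOK T ε₀ C

/-- All rounds. -/
def StRounds : Prop := ∀ (T : ℕ) (ε₀ : ℝ) (C : ℕ), 0 < ε₀ → ε₀ ≤ 1 → 1 ≤ C → AmpOK T ε₀ C →
  ∀ I : Inst, I ≠ [] → rounds T I ≠ [] ∧ (Sat I → Sat (rounds T I)) ∧
    (¬ Sat I → Gap ε₀ (rounds T I)) ∧
    ∀ i ≤ Nat.log 2 I.length + 1, ((amp T)^[i] I).length ≤ I.length * (2 * I.length) ^ C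

/-! ### The graph of the walks -/

/-- Completeness. -/
def StFGSat : Prop := ∀ (I : Inst) (k : ℕ), I ≠ [] → Sat I → thr I k ≤ (fg I k).graph.indepNum

/-- Soundness. -/
def StFGGap : Prop := ∃ c : ℝ, 0 < c ∧ c ≤ 1 ∧ ∀ (I : Inst) (ε : ℝ) (k : ℕ), I ≠ [] → 0 ≤ ε →
  ε ≤ 1 → Gap ε I →
  ((fg I k).graph.indepNum : ℝ) ^ 2 ≤ (thr I k : ℝ) ^ 2 * (1 - c * ε) ^ k

/-- The number of vertices. -/
def StFGLen : Prop := ∀ (I : Inst) (k : ℕ), ((ext I)^[k] (start I)).length ≤ thr I k * 256 ^ (k + 1)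

/-- The choice of the length of the walks. -/
def StNum : Prop := ∀ (C : ℕ) (θ : ℝ), 0 ≤ θ → θ < 1 → ∃ K : ℕ, ∀ (M n k : ℕ), 1 ≤ M →
  k = K * (Nat.log 2 (Nat.log 2 M + 2) + 1) → n ≤ M * 16 ^ k * 256 ^ (k + 1) →
  ((C * (1 + Nat.log 2 n) ^ 3 : ℕ) : ℝ) ^ 2 * θ ^ k < 1

/-! ### Formulas -/

/-- The constraints of a formula. -/
def StCNF : Prop := ∀ φ : List (List (Bool × Bool × ℕ)),
  Sat (ofCNF φ) ↔ MP_c85d9c_lc.Formula.Satisfiable φ

/-! ### Machines -/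

/-- A machine can keep a number. -/
def StFrame : Prop := ∀ (β γ βΓ γΓ : Type) (eb : β → List βΓ) (ec : γ → List γΓ) (g : β → γ),
  Nonempty (TM2ComputableInPolyTime eb ec g) →
  Nonempty (TM2ComputableInPolyTime (frE eb) (frE ec) fun p : ℕ × β => (p.1, g p.2))

/-- The decision. -/
def StDecide : Prop := Nonempty (TM2ComputableInPolyTime (frE tally) Computability.encodeBool
  fun p : ℕ × ℕ => decide (p.1 ≤ p.2))

/-- The map from formulas to graphs is computable in polynomial time. -/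
def StPoly : Prop := ∀ (T : ℕ) (ε₀ : ℝ) (C : ℕ), 0 < ε₀ → ε₀ ≤ 1 → 1 ≤ C → AmpOK T ε₀ C →
  ∀ K : ℕ, Nonempty (TM2ComputableInPolyTime MP_c85d9c_lc.Formula.encode (frE Graph.encode)
    fun φ => (thr (final T φ) (klen K (final T φ)), fg (final T φ) (klen K (final T φ))))

/-- The main theorem. -/
def StMain : Prop := PolylogApproximation → PeqNP

end Pool.Agent.Lib.MP_186ff7_lc.PCP
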