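import Pool.Agent.Lib.MP_186ff7_lc.PCP.Slots
import Pool.Agent.Lib.MP_186ff7_lc.PCP.Stmts

/-!
# The PCP theorem: the graph of a constraint list is a permutation graph
-/

namespace Pool.Agent.Lib.MP_186ff7_lc.PCP

theorem spar_spec {I : Inst} {s : ℕ} (hs : s < (sides I).length) :
    (spar I).getD s 0 < (sides I).length ∧ (spar I).getD ((spar I).getD s 0) 0 = s ∧
      ∀ a b, (srel I).getD ((spar I).getD s 0) top b a = (srel I).getD s top a b := by
  rw [length_sides] at hs ⊢
  obtain ⟨i, hi⟩ : ∃ i, s = 2 * i ∨ s = 2 * i + 1 := ⟨s / 2, by omega⟩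
  have hil : i < I.length := by omega
  obtain ⟨h1, h2⟩ := spar_getD I hil
  obtain ⟨h3, h4⟩ := srel_getD I (List.getElem?_eq_getElem hil)
  rcases hi with rfl | rfl
  · rw [h1, h2, h3, h4]
    exact ⟨by omega, rfl, fun _ _ => rfl⟩
  · rw [h2, h1, h3, h4]
    exact ⟨by omega, rfl, fun _ _ => rfl⟩

/-- The first label at a vertex without side. -/
theorem nb_inl_nil {I : Inst} {v : ℕ} (x : Unit)
    (h : ¬ v < (pts I).length ∨ ptSide I ((pts I).getD v (0, 0, 0)) = []) :
    nb I (.inl x) v = v ∧ rl I (.inl x) v = top := by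
  unfold nb rl
  by_cases hv : v < (pts I).length
  · have h' : ptSide I ((pts I).getD v (0, 0, 0)) = [] := by
      rcases h with h | h
      · exact absurd hv h
      · exact h
    simp only [hv, if_true, h', and_self]
  · simp only [hv, if_false, and_self]

/-- The first label at the point of the side `s`. -/
theorem nb_inl_side {I : Inst} {v s : ℕ} (x : Unit) (hv : v < (pts I).length)
    (h : (pts I).getD v (0, 0, 0) = sidePt I s) (hs : s < (sides I).length) :
    nb I (.inl x) v = (pts I).idxOf (sidePt I ((spar I).getD s 0)) ∧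
      rl I (.inl x) v = (srel I).getD s top := by
  unfold nb rl
  have h' : ptSide I ((pts I).getD v (0, 0, 0)) = [s] := by rw [h, ptSide_sidePt hs]
  simp only [hv, if_true, h', and_self]

theorem nb_cloud {I : Inst} {v : ℕ} (j : Fin 8) :
    (v < (pts I).length → nb I (.inr (.inl j)) v < (pts I).length ∧
      (pts I).getD (nb I (.inr (.inl j)) v) (0, 0, 0) = (((pts I).getD v (0, 0, 0)).1,
        torN (csz I ((pts I).getD v (0, 0, 0)).1) j ((pts I).getD v (0, 0, 0)).2)) ∧
    (¬ v < (pts I).length → nb I (.inr (.inl j)) v = v) := by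
  constructor
  · intro hv
    have hu := getD_mem hv ((0, 0, 0) : ℕ × ℕ × ℕ)
    have hu' := mem_pts.1 hu
    have hm : (((pts I).getD v (0, 0, 0)).1,
        torN (csz I ((pts I).getD v (0, 0, 0)).1) j ((pts I).getD v (0, 0, 0)).2) ∈ pts I :=
      mem_pts.2 ⟨hu'.1, torN_mem j hu'.2⟩
    have he : nb I (.inr (.inl j)) v = (pts I).idxOf (((pts I).getD v (0, 0, 0)).1,
        torN (csz I ((pts I).getD v (0, 0, 0)).1) j ((pts I).getD v (0, 0, 0)).2) := by
      change (if v < (pts I).length then _ else v) = _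
      rw [if_pos hv]
    rw [he]
    exact ⟨List.idxOf_lt_length_of_mem hm, getD_idxOf hm _⟩
  · intro hv
    change (if v < (pts I).length then _ else v) = _
    rw [if_neg hv]

theorem nb_big {I : Inst} {v : ℕ} (j : Fin 8) (hv : v < nV I) :
    nb I (.inr (.inr (.inl j))) v < nV I ∧
      (slots (bsz I)).getD (nb I (.inr (.inr (.inl j))) v) (0, 0) =
        torN (bsz I) j ((slots (bsz I)).getD v (0, 0)) := by
  have hv' : v < (slots (bsz I)).length := by rw [length_slots]; exact hv
  have hm := torN_mem j (getD_mem hv' ((0, 0) : ℕ × ℕ))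
  have h1 : nb I (.inr (.inr (.inl j))) v =
    (slots (bsz I)).idxOf (torN (bsz I) j ((slots (bsz I)).getD v (0, 0))) := rfl
  rw [h1]
  refine ⟨?_, getD_idxOf hm _⟩
  have := List.idxOf_lt_length_of_mem hm
  rwa [length_slots] at this

theorem side_cases (I : Inst) (v : ℕ) :
    (¬ v < (pts I).length ∨ ptSide I ((pts I).getD v (0, 0, 0)) = []) ∨
    (v < (pts I).length ∧ ∃ s, s < (sides I).length ∧
      (pts I).getD v (0, 0, 0) = sidePt I s) := by
  by_cases hv : v < (pts I).length
  · rcases hp : ptSide I ((pts I).getD v (0, 0, 0)) with _ | ⟨s, l⟩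
    · exact Or.inl (Or.inr rfl)
    · obtain ⟨h1, -, h3, -⟩ := ptSide_eq (mem_pts.1 (getD_mem hv _)).2 hp
      exact Or.inr ⟨hv, s, h1, h3.symm⟩
  · exact Or.inl (Or.inl hv)

theorem nb_lt {I : Inst} {v : ℕ} (hv : v < nV I) : ∀ j, nb I j v < nV I := by
  intro j
  rcases j with x | j | j | j
  · rcases side_cases I v with h | ⟨hv', s, hs, h⟩
    · rw [(nb_inl_nil x h).1]; exact hv
    · rw [(nb_inl_side x hv' h hs).1]
      exact (List.idxOf_lt_length_of_mem (sidePt_mem (spar_spec hs).1)).trans_le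
        (length_pts_le I)
  · by_cases hv' : v < (pts I).length
    · exact ((nb_cloud j).1 hv').1.trans_le (length_pts_le I)
    · rw [(nb_cloud j).2 hv']; exact hv
  · exact (nb_big j hv).1
  · exact hv

theorem nb_linv {I : Inst} {v : ℕ} (hv : v < nV I) : ∀ j, nb I (linv j) (nb I j v) = v ∧
    ∀ a b, rl I (linv j) (nb I j v) b a = rl I j v a b := by
  intro j
  rcases j with x | j | j | j
  · change nb I (.inl x) (nb I (.inl x) v) = v ∧
      ∀ a b, rl I (.inl x) (nb I (.inl x) v) b a = rl I (.inl x) v a b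
    rcases side_cases I v with h | ⟨hv', s, hs, h⟩
    · obtain ⟨h1, h2⟩ := nb_inl_nil x h
      rw [h1, h1, h2]
      exact ⟨rfl, fun _ _ => rfl⟩
    · obtain ⟨h1, h2⟩ := nb_inl_side x hv' h hs
      obtain ⟨s1, s2, s3⟩ := spar_spec hs
      have hm := sidePt_mem s1
      obtain ⟨h3, h4⟩ := nb_inl_side x (List.idxOf_lt_length_of_mem hm)
        (getD_idxOf hm (0, 0, 0)) s1
      rw [h1, h2, h3, h4, s2, ← h, idxOf_getD (nodup_pts I) hv']
      exact ⟨rfl, s3⟩
  · change nb I (.inr (.inl (torInv j))) (nb I (.inr (.inl j)) v) = v ∧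
      ∀ a b, rl I (.inr (.inl (torInv j))) (nb I (.inr (.inl j)) v) b a =
        rl I (.inr (.inl j)) v a b
    refine ⟨?_, fun a b => ?_⟩
    · by_cases hv' : v < (pts I).length
      · obtain ⟨h1, h2⟩ := (nb_cloud j).1 hv'
        obtain ⟨h3, h4⟩ := (nb_cloud (torInv j)).1 h1
        have hu := mem_pts.1 (getD_mem hv' ((0, 0, 0) : ℕ × ℕ × ℕ))
        rw [h2] at h4
        rw [torN_torInv j hu.2] at h4
        change _ = (pts I).getD v (0, 0, 0) at h4
        rw [← idxOf_getD (nodup_pts I) h3 (0, 0, 0), h4, idxOf_getD (nodup_pts I) hv']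
      · rw [(nb_cloud j).2 hv', (nb_cloud (torInv j)).2 hv']
    · change decide (b = a) = decide (a = b)
      exact decide_eq_decide.2 eq_comm
  · change nb I (.inr (.inr (.inl (torInv j)))) (nb I (.inr (.inr (.inl j))) v) = v ∧
      ∀ a b, rl I (.inr (.inr (.inl (torInv j)))) (nb I (.inr (.inr (.inl j))) v) b a =
        rl I (.inr (.inr (.inl j))) v a b
    refine ⟨?_, fun a b => rfl⟩
    obtain ⟨h1, h2⟩ := nb_big j hv
    obtain ⟨h3, h4⟩ := nb_big (torInv j) h1
    have hl : ∀ w, w < nV I → w < (slots (bsz I)).length := fun w hw => by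
      rw [length_slots]; exact hw
    rw [h2, torN_torInv j (getD_mem (hl v hv) _)] at h4
    rw [← idxOf_getD (nodup_slots (bsz I)) (hl _ h3) (0, 0), h4,
      idxOf_getD (nodup_slots (bsz I)) (hl v hv)]
  · exact ⟨rfl, fun _ _ => rfl⟩

/-- The graph of a constraint list. -/
theorem pg : StPG := by
  intro I
  refine ⟨{ nb := fun j v => ⟨nb I j v, nb_lt v.2 j⟩
            inv := linv
            R := fun v j => rl I j v
            inv_inv := linv_linv
            nb_inv := fun j v => Fin.ext (nb_linv v.2 j).1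
            R_inv := fun v j a b => (nb_linv v.2 j).2 a b }, ?_⟩
  exact ⟨fun _ _ => rfl, fun _ _ => rfl, rfl⟩

end Pool.Agent.Lib.MP_186ff7_lc.PCP
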