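import Pool.Agent.Lib.MP_186ff7_lc.PCP.PTRenum

/-!
# The constraint list of a formula is computable in polynomial time
-/

namespace Pool.Agent.Lib.MP_186ff7_lc.PCP

open Turing Pool.Agent.Lib.PT
open MP_c85d9c_lc (Lit encL encC)

/-! ### Reading the formula -/

/-- One step of reading a formula. -/
def stepF (s : ℕ × List Lit × List (List Lit)) : MP_c85d9c_lc.Sym → ℕ × List Lit × List (List Lit)
  | .tick => (s.1 + 1, s.2.1, s.2.2)
  | .lit u b => (0, (u, b, s.1) :: s.2.1, s.2.2)
  | .stop => (0, [], s.2.1.reverse :: s.2.2)
  | _ => s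

/-- The formula that is described by a word. -/
def parseF (w : List MP_c85d9c_lc.Sym) : List (List Lit) :=
  (w.foldl stepF (0, [], [])).2.2.reverse

theorem parseF_aux_ticks (k : ℕ) (c : ℕ) (r : List Lit) (R : List (List Lit)) :
    (List.replicate k MP_c85d9c_lc.Sym.tick).foldl stepF (c, r, R) = (c + k, r, R) := by
  induction k generalizing c with
  | zero => rfl
  | succ k ih =>
    rw [List.replicate_succ, List.foldl_cons]
    have : stepF (c, r, R) MP_c85d9c_lc.Sym.tick = (c + 1, r, R) := rfl
    rw [this, ih]
    congr 1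
    omega

theorem parseF_aux_lit (l : Lit) (r : List Lit) (R : List (List Lit)) :
    (encL l).foldl stepF (0, r, R) = (0, l :: r, R) := by
  rw [encL, List.foldl_append, parseF_aux_ticks, Nat.zero_add]
  rfl

theorem parseF_aux_lits (l r : List Lit) (R : List (List Lit)) :
    (l.flatMap encL).foldl stepF (0, r, R) = (0, l.reverse ++ r, R) := by
  induction l generalizing r with
  | nil => rfl
  | cons k l ih =>
    rw [List.flatMap_cons, List.foldl_append, parseF_aux_lit, ih]
    simp

theorem parseF_aux (L R : List (List Lit)) :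
    (MP_c85d9c_lc.Formula.encode L).foldl stepF (0, [], R) = (0, [], L.reverse ++ R) := by
  induction L generalizing R with
  | nil => rfl
  | cons l L ih =>
    have : MP_c85d9c_lc.Formula.encode (l :: L) =
        (l.flatMap encL ++ [MP_c85d9c_lc.Sym.stop]) ++ MP_c85d9c_lc.Formula.encode L := rfl
    rw [this, List.foldl_append, List.foldl_append, parseF_aux_lits, List.append_nil]
    have : [MP_c85d9c_lc.Sym.stop].foldl stepF (0, l.reverse, R) =
        (0, [], l.reverse.reverse :: R) := rfl
    rw [this, List.reverse_reverse, ih]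
    simp

theorem parseF_encode (φ : MP_c85d9c_lc.Formula) :
    parseF (MP_c85d9c_lc.Formula.encode φ) = φ := by
  unfold parseF
  rw [parseF_aux]
  simp

theorem ptime_parseF : PTime parseF := by
  have h1 : PTime fun p : List MP_c85d9c_lc.Sym × (ℕ × List Lit × List (List Lit)) ×
      MP_c85d9c_lc.Sym => stepF p.2.1 p.2.2 := by
    refine PTime.finCases (g := fun p : List MP_c85d9c_lc.Sym × (ℕ × List Lit × List (List Lit)) ×
      MP_c85d9c_lc.Sym => p.2.2) (h := fun p x => stepF p.2.1 x) (by fun_prop) ?_
    intro x
    cases x <;> simp only [stepF] <;> fun_prop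
  have key : ∀ (l : List MP_c85d9c_lc.Sym) (s : ℕ × List Lit × List (List Lit)),
      sz (l.foldl stepF s) ≤ sz s + 10 * l.length := by
    intro l
    induction l with
    | nil => intro s; simp
    | cons x l ih =>
      intro s
      rw [List.foldl_cons, List.length_cons]
      refine (ih _).trans ?_
      have : sz (stepF s x) ≤ sz s + 10 := by
        obtain ⟨c, r, R⟩ := s
        cases x with
        | tick => simp only [stepF, sz_mk, sz_nat]; omega
        | lit u b =>
          have h1 := sz_bool u
          have h2 := sz_bool b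
          simp only [stepF, sz_mk, sz_nat, sz_cons]; omega
        | stop => simp only [stepF, sz_mk, sz_nat, sz_cons, sz_nil, sz_reverse]; omega
        | bit b => simp only [stepF]; omega
        | vert => simp only [stepF]; omega
        | edge => simp only [stepF]; omega
      omega
  have h2 : PTime fun w : List MP_c85d9c_lc.Sym => w.foldl stepF (0, [], []) := by
    refine PTime.foldl (l := fun w : List MP_c85d9c_lc.Sym => w) (s := fun _ => (0, [], []))
      (f := fun _ => stepF) (by fun_prop) (by fun_prop) h1
      (B := fun w => 5 + 10 * sz w) ((PB.const 5).add ((PB.const 10).mul PB.sz)) ?_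
    intro w l₁ l₂ e
    refine (key _ _).trans ?_
    have := length_le_sz w
    rw [e, List.length_append] at this
    simp only [sz_mk, sz_nat, sz_nil]
    rw [e]
    omega
  exact h2.snd'.snd'.reverse

/-! ### The constraints -/

/-- The relation of a literal as a function of three truth values. -/
def rlit3 (t : Bool × Bool × Bool) : Rel := rlit t.1 t.2.1 t.2.2

theorem ptime_cnfC : PTime fun p : ℕ × List Lit => cnfC p.1 p.2 := by
  unfold cnfC
  refine PTime.ite (p := fun p : ℕ × List Lit => p.2.length = 0) (by fun_prop)
    (PTime.const _) ?_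
  refine PTime.flatMap (l := fun p : ℕ × List Lit => List.range p.2.length)
    (f := fun (p : ℕ × List Lit) (k : ℕ) =>
      [((.inr (p.1, k), .inl ((p.2.getD k (false, false, 0)).1,
          (p.2.getD k (false, false, 0)).2.2),
        rlit (decide (k = 0)) (decide (k + 1 = p.2.length))
          (p.2.getD k (false, false, 0)).2.1) : Nc × Nc × Rel),
       (.inr (p.1, k), .inr (p.1, k + 1), if k + 1 < p.2.length then rlink else top)])
    (by fun_prop) ?_
  have h1 : PTime fun q : (ℕ × List Lit) × ℕ => rlit (decide (q.2 = 0))
      (decide (q.2 + 1 = q.1.2.length)) (q.1.2.getD q.2 (false, false, 0)).2.1 :=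
    PTime.ofFinite (g := fun q : (ℕ × List Lit) × ℕ => (decide (q.2 = 0),
      decide (q.2 + 1 = q.1.2.length), (q.1.2.getD q.2 (false, false, 0)).2.1))
      (by fun_prop) rlit3
  have h2 : PTime fun q : (ℕ × List Lit) × ℕ =>
      (if q.2 + 1 < q.1.2.length then rlink else top : Rel) :=
    PTime.ite (p := fun q : (ℕ × List Lit) × ℕ => q.2 + 1 < q.1.2.length) (by fun_prop)
      (PTime.const _) (PTime.const _)
  fun_prop

theorem ptime_ofCNF : PTime ofCNF := by
  unfold ofCNF
  refine PTime.cons (PTime.const _) ?_
  refine PTime.flatMap (l := fun φ : List (List (Bool × Bool × ℕ)) => List.range φ.length)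
    (f := fun φ i => cnfC i (φ.getD i [])) (by fun_prop) ?_
  exact ptime_cnfC.comp (g := fun p : List (List (Bool × Bool × ℕ)) × ℕ =>
    (p.2, p.1.getD p.2 [])) (by fun_prop)

theorem ptcnf : StPTcnf := by
  refine ⟨fun w => renum (ofCNF (parseF w)), ?_, fun φ => ?_⟩
  · exact ptime_renum.comp (ptime_ofCNF.comp ptime_parseF)
  · show renum (ofCNF (parseF (MP_c85d9c_lc.Formula.encode φ))) = _
    rw [parseF_encode]

end Pool.Agent.Lib.MP_186ff7_lc.PCP
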