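import Pool.Agent.Lib.MP_186ff7_lc.PCP.PTStmts
import Pool.Agent.Lib.MP_186ff7_lc.PCP.FGSat

/-!
# The PCP theorem: the graph of the walks is computable in polynomial time
-/

namespace Pool.Agent.Lib.MP_186ff7_lc.PCP

open Function Pool.Agent.Lib.PT

namespace PTfgAux

variable {α : Type} [Enc α]

/-! ### Tori -/

theorem ptime_rt {n : α → ℕ} (hn : PTime n) : PTime fun a => rt (n a) := by
  unfold rt
  refine PTime.headD ?_ (PTime.const 0)
  refine PTime.filter (l := fun a => List.range (n a + 1)) (f := fun a m => decide (n a ≤ m * m))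
    (by fun_prop) ?_
  have h1 : PTime fun p : α × ℕ => n p.1 := hn.comp (by fun_prop)
  fun_prop

theorem ptime_slots {m : α → ℕ} (hm : PTime m) : PTime fun a => slots (m a) := by
  unfold slots
  refine PTime.flatMap (l := fun a => List.range (m a))
    (f := fun a p => (List.range (m a)).map fun q => (p, q)) (by fun_prop) ?_
  have h1 : PTime fun p : α × ℕ => m p.1 := hm.comp (by fun_prop)
  exact PTime.map (l := fun p : α × ℕ => List.range (m p.1)) (f := fun p q => (p.2, q))
    (by fun_prop) (by fun_prop)

theorem ptime_torN (j : Fin 8) {m : α → ℕ} {x : α → ℕ × ℕ} (hm : PTime m) (hx : PTime x) :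
    PTime fun a => torN (m a) j (x a) := by
  fin_cases j <;> (simp only [torN]; fun_prop)

theorem ptime_stW (j : Lw) {m : α → ℕ} {x : α → ℕ × ℕ} (hm : PTime m) (hx : PTime x) :
    PTime fun a => stW (m a) j (x a) := by
  cases j with
  | inl j => exact ptime_torN j hm hx
  | inr j => exact hx

/-! ### Constraints -/

theorem ptime_ksz {I : α → Inst} (hI : PTime I) : PTime fun a => ksz (I a) := by
  unfold ksz
  exact ptime_rt (by fun_prop)

theorem ptime_conAt {I : α → Inst} {p : α → ℕ × ℕ} (hI : PTime I) (hp : PTime p) :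
    PTime fun a => conAt (I a) (p a) := by
  unfold conAt
  have h1 : PTime fun a => (slots (ksz (I a))).idxOf (p a) :=
    PTime.idxOf (ptime_slots (ptime_ksz hI)) hp
  refine PTime.getD hI ?_ (PTime.const _)
  fun_prop

theorem ptime_ents (j : Lw) {I : α → Inst} {p : α → ℕ × ℕ} (hI : PTime I) (hp : PTime p) :
    PTime fun a => ents (I a) (p a) j := by
  unfold ents
  refine PTime.flatMapConst (List.finRange 16) (f := fun x a =>
    ((List.finRange 16).filter fun b => (conAt (I x) (p x)).2.2 a b).map fun b => (p x, j, a, b))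
    fun a => ?_
  have hp' : PTime fun q : α × Al => p q.1 := hp.comp (by fun_prop)
  refine PTime.map (l := fun x => (List.finRange 16).filter fun b => (conAt (I x) (p x)).2.2 a b)
    (f := fun x b => (p x, j, a, b)) ?_ (by fun_prop)
  refine PTime.filter (l := fun _ => List.finRange 16) (f := fun x b => (conAt (I x) (p x)).2.2 a b)
    (PTime.const _) ?_
  have h1 : PTime fun q : α × Al => conAt (I q.1) (p q.1) :=
    (ptime_conAt hI hp).comp (g := fun q : α × Al => q.1) (by fun_prop)
  have h2 : PTime fun q : α × Al => (conAt (I q.1) (p q.1)).2.2 := by fun_prop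
  exact (h2.app a).app' (g := fun q : α × Al => q.2) (by fun_prop)

theorem ptime_ext {I : α → Inst} {L : α → List (List Ent)} (hI : PTime I) (hL : PTime L) :
    PTime fun a => ext (I a) (L a) := by
  unfold ext
  refine PTime.flatMap (l := L) (f := fun a x => (ext.allLw).flatMap fun j =>
    (ents (I a) (stW (ksz (I a)) j (x.headD ((0, 0), .inr 0, 0, 0)).1) j).map fun e => e :: x)
    hL ?_
  refine PTime.flatMapConst ext.allLw (f := fun (q : α × List Ent) j =>
    (ents (I q.1) (stW (ksz (I q.1)) j (q.2.headD ((0, 0), .inr 0, 0, 0)).1) j).map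
      fun e => e :: q.2) fun j => ?_
  have h1 : PTime fun q : α × List Ent => I q.1 := hI.comp (by fun_prop)
  have h2 : PTime fun q : α × List Ent => (q.2.headD ((0, 0), .inr 0, 0, 0)).1 := by fun_prop
  have h3 := ptime_ents j h1 (ptime_stW j (ptime_ksz h1) h2)
  exact PTime.map (f := fun (q : α × List Ent) e => e :: q.2) h3 (by fun_prop)

theorem ptime_start {I : α → Inst} (hI : PTime I) : PTime fun a => start (I a) := by
  unfold start
  refine PTime.flatMap (l := fun a => slots (ksz (I a)))
    (f := fun a p => (ents (I a) p (.inr 0)).map fun e => [e]) (ptime_slots (ptime_ksz hI)) ?_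
  have h1 : PTime fun q : α × ℕ × ℕ => I q.1 := hI.comp (by fun_prop)
  have h3 := ptime_ents (.inr 0) h1 (p := fun q : α × ℕ × ℕ => q.2) (by fun_prop)
  exact PTime.map (f := fun (q : α × ℕ × ℕ) e => [e]) h3 (by fun_prop)

theorem ptime_vals {I : α → Inst} {x : α → List Ent} (hI : PTime I) (hx : PTime x) :
    PTime fun a => vals (I a) (x a) := by
  unfold vals
  refine PTime.flatMap (l := x) (f := fun a e =>
    [((conAt (I a) e.1).1, e.2.2.1), ((conAt (I a) e.1).2.1, e.2.2.2)]) hx ?_
  have h1 : PTime fun q : α × Ent => I q.1 := hI.comp (by fun_prop)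
  have h2 : PTime fun q : α × Ent => conAt (I q.1) q.2.1 := ptime_conAt h1 (by fun_prop)
  fun_prop

theorem ptime_clash {l l' : α → List (ℕ × Al)} (hl : PTime l) (hl' : PTime l') :
    PTime fun a => clash (l a) (l' a) := by
  unfold clash
  refine PTime.any (l := l) (f := fun a u => (l' a).any fun v =>
    decide (u.1 = v.1) && !decide (u.2 = v.2)) hl ?_
  have h1 : PTime fun q : α × ℕ × Al => l' q.1 := hl'.comp (by fun_prop)
  refine PTime.any (l := fun q : α × ℕ × Al => l' q.1) (f := fun q v =>
    decide (q.2.1 = v.1) && !decide (q.2.2 = v.2)) h1 ?_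
  fun_prop

/-! ### The size of the lists of walks -/

/-- The point of the entry belongs to the torus. -/
theorem iterate_inv (I : Inst) (i : ℕ) : ∀ x ∈ (ext I)^[i] (start I),
    x.length = i + 1 ∧ ∀ e ∈ x, e.1 ∈ slots (ksz I) := by
  induction i with
  | zero =>
    intro x hx
    rw [iterate_zero, id, start, List.mem_flatMap] at hx
    obtain ⟨p, hp, hx⟩ := hx
    rw [List.mem_map] at hx
    obtain ⟨e, he, rfl⟩ := hx
    refine ⟨rfl, fun e' he' => ?_⟩
    rw [List.mem_singleton] at he'
    subst he'
    unfold ents at he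
    rw [List.mem_flatMap] at he
    obtain ⟨a, -, he⟩ := he
    rw [List.mem_map] at he
    obtain ⟨b, -, rfl⟩ := he
    exact hp
  | succ i ih =>
    intro x hx
    rw [iterate_succ_apply'] at hx
    unfold ext at hx
    rw [List.mem_flatMap] at hx
    obtain ⟨y, hy, hx⟩ := hx
    rw [List.mem_flatMap] at hx
    obtain ⟨j, -, hx⟩ := hx
    rw [List.mem_map] at hx
    obtain ⟨e, he, rfl⟩ := hx
    obtain ⟨h1, h2⟩ := ih y hy
    refine ⟨by rw [List.length_cons, h1], fun e' he' => ?_⟩
    rw [List.mem_cons] at he'
    rcases he' with rfl | he'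
    · unfold ents at he
      rw [List.mem_flatMap] at he
      obtain ⟨a, -, he⟩ := he
      rw [List.mem_map] at he
      obtain ⟨b, -, rfl⟩ := he
      show stW (ksz I) j (y.headD ((0, 0), .inr 0, 0, 0)).1 ∈ slots (ksz I)
      cases y with
      | nil => simp at h1
      | cons z y =>
        have h3 : z.1 ∈ slots (ksz I) := h2 z List.mem_cons_self
        cases j with
        | inl j => exact torN_mem j h3
        | inr j => exact h3
    · exact h2 e' he'

theorem two_pow_le (M : ℕ) : 2 ^ (Nat.log 2 (Nat.log 2 M + 2) + 1) ≤ 2 * (M + 2) := by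
  rw [pow_succ, mul_comm]
  refine Nat.mul_le_mul_left _ ?_
  refine (Nat.pow_log_le_self 2 (by omega)).trans ?_
  have := Nat.log_le_self 2 M
  omega

theorem pow_klen_le (b K : ℕ) (I : Inst) :
    (2 ^ b) ^ klen K I ≤ (2 * (ksz I * ksz I + 2)) ^ (K * b) := by
  have h := two_pow_le (ksz I * ksz I)
  unfold klen
  calc (2 ^ b) ^ (K * (Nat.log 2 (Nat.log 2 (ksz I * ksz I) + 2) + 1))
      = (2 ^ (Nat.log 2 (Nat.log 2 (ksz I * ksz I) + 2) + 1)) ^ (K * b) := by
        rw [← pow_mul, ← pow_mul]
        congr 1
        ring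
    _ ≤ _ := Nat.pow_le_pow_left h _

theorem ptime_klen (K : ℕ) : PTime fun I : Inst => klen K I := by
  unfold klen
  have h1 : PTime fun I : Inst => ksz I := ptime_ksz PTime.id
  fun_prop

theorem pb_ksz : PB fun I : Inst => ksz I := by
  have h1 : PTime fun I : Inst => ksz I := ptime_ksz PTime.id
  refine h1.sz_le.mono fun I => ?_
  rw [sz_nat]
  omega

theorem pb_pow (b K : ℕ) : PB fun I : Inst => (2 ^ b) ^ klen K I :=
  (((PB.const 2).mul ((pb_ksz.mul pb_ksz).add (PB.const 2))).pow (K * b)).mono
    fun I => pow_klen_le b K I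

theorem ptime_iterate (K : ℕ) : PTime fun I : Inst => (ext I)^[klen K I] (start I) := by
  obtain ⟨M, hM⟩ := exists_sz_le (Lw × Al × Al)
  have hk : PB fun I : Inst => klen K I := by
    refine (ptime_klen K).sz_le.mono fun I => ?_
    rw [sz_nat]
    omega
  refine PTime.iterate (n := fun I : Inst => klen K I) (s := fun I => start I)
    (f := fun I L => ext I L) (ptime_klen K) (ptime_start PTime.id)
    (ptime_ext PTime.fst PTime.snd)
    (B := fun I => (ksz I * ksz I * (2 ^ 4) ^ klen K I * (256 * (2 ^ 8) ^ klen K I)) *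
      (((klen K I + 1) * ((4 * ksz I + 4 + M) + 1) + 1) + 1) + 1) ?_ ?_
  · exact ((((pb_ksz.mul pb_ksz).mul (pb_pow 4 K)).mul ((PB.const 256).mul (pb_pow 8 K))).mul
      ((((hk.add (PB.const 1)).mul (((((PB.const 4).mul pb_ksz).add (PB.const 4)).add
        (PB.const M)).add (PB.const 1))).add (PB.const 1)).add (PB.const 1))).add (PB.const 1)
  · intro I i hi
    have h1 := iterate_inv I i
    have h2 := fgLen I i
    have h3 : ∀ x ∈ (ext I)^[i] (start I),
        sz x ≤ (klen K I + 1) * ((4 * ksz I + 4 + M) + 1) + 1 := by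
      intro x hx
      obtain ⟨h4, h5⟩ := h1 x hx
      have h6 : ∀ e ∈ x, sz e ≤ 4 * ksz I + 4 + M := by
        rintro ⟨⟨p, q⟩, c⟩ he
        have h7 := mem_slots.1 (h5 _ he)
        simp only at h7
        rw [sz_mk, sz_mk, sz_nat, sz_nat]
        have := hM c
        omega
      refine (sz_le_of_forall h6).trans ?_
      rw [h4]
      have : (i + 1) * (4 * ksz I + 4 + M + 1) ≤ (klen K I + 1) * (4 * ksz I + 4 + M + 1) :=
        Nat.mul_le_mul_right _ (by omega)
      omega
    refine (sz_le_of_forall h3).trans ?_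
    refine Nat.add_le_add_right (Nat.mul_le_mul_right _ (h2.trans ?_)) 1
    unfold thr
    refine Nat.mul_le_mul (Nat.mul_le_mul_left _ ?_) ?_
    · exact Nat.pow_le_pow_right (by norm_num) hi
    · rw [pow_succ, mul_comm]
      exact Nat.mul_le_mul_left _ (Nat.pow_le_pow_right (by norm_num) hi)

theorem ptime_thr (K : ℕ) : PTime fun I : Inst => thr I (klen K I) := by
  unfold thr
  have h1 : PTime fun I : Inst => ksz I := ptime_ksz PTime.id
  have h2 : PTime fun I : Inst => 16 ^ klen K I :=
    PTime.pow 16 (by norm_num) (ptime_klen K) (pb_pow 4 K)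
  fun_prop

theorem ptime_fgV (K : ℕ) : PTime fun I : Inst => fgV I (klen K I) := by
  unfold fgV
  refine PTime.filter (l := fun I : Inst => (ext I)^[klen K I] (start I))
    (f := fun I x => !clash (vals I x) (vals I x)) (ptime_iterate K) ?_
  have h1 : PTime fun q : Inst × List Ent => vals q.1 q.2 := ptime_vals PTime.fst PTime.snd
  exact (ptime_clash h1 h1).not

/-! ### The word -/

/-- The neighbours of all vertices. -/
def nbs (I : Inst) (V : List (List Ent)) : List (List ℕ) :=
  (List.range V.length).map fun i => (List.range V.length).filter fun j =>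
    clash (vals I (V.getD i [])) (vals I (V.getD j []))

theorem range_eq (n : ℕ) : List.range n = (List.finRange n).map Fin.val := by
  refine List.ext_getElem (by simp) fun i h1 h2 => ?_
  simp

theorem encode_fg (I : Inst) (k : ℕ) : Graph.encode (fg I k) = word (nbs I (fgV I k)) := by
  have e : nbs I (fgV I k) = (List.range (fg I k).n).map fun i =>
      (List.range (fg I k).n).filter fun j =>
        clash (vals I ((fgV I k).getD i [])) (vals I ((fgV I k).getD j [])) := rfl
  rw [e]
  unfold Graph.encode
  congr 1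
  rw [List.ofFn_eq_map, range_eq, List.map_map]
  refine List.map_congr_left fun v _ => ?_
  rw [comp_apply, List.filter_map]
  congr 1
  refine List.filter_congr fun u _ => ?_
  have h1 : ∀ w : Fin (fg I k).n, (fgV I k).getD w.val [] = (fgV I k).get w := by
    intro w
    rw [List.getD_eq_getElem?_getD, List.getElem?_eq_getElem w.2, Option.getD_some]
    rfl
  rw [comp_apply, h1, h1, Bool.eq_iff_iff]
  refine Iff.trans (b := (fg I k).graph.Adj v u) ?_ Iff.rfl
  exact @decide_eq_true_iff _ (Classical.propDecidable _)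

theorem ptime_nbs : PTime fun p : Inst × List (List Ent) => nbs p.1 p.2 := by
  unfold nbs
  refine PTime.map (l := fun p : Inst × List (List Ent) => List.range p.2.length)
    (f := fun p i => (List.range p.2.length).filter fun j =>
      clash (vals p.1 (p.2.getD i [])) (vals p.1 (p.2.getD j []))) (by fun_prop) ?_
  refine PTime.filter (l := fun q : (Inst × List (List Ent)) × ℕ => List.range q.1.2.length)
    (f := fun q j => clash (vals q.1.1 (q.1.2.getD q.2 [])) (vals q.1.1 (q.1.2.getD j [])))
    (by fun_prop) ?_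
  have h0 : PTime fun r : ((Inst × List (List Ent)) × ℕ) × ℕ => r.1.1.1 := by fun_prop
  have h1 : PTime fun r : ((Inst × List (List Ent)) × ℕ) × ℕ => r.1.1.2.getD r.1.2 [] := by
    fun_prop
  have h2 : PTime fun r : ((Inst × List (List Ent)) × ℕ) × ℕ => r.1.1.2.getD r.2 [] := by
    fun_prop
  exact ptime_clash (ptime_vals h0 h1) (ptime_vals h0 h2)

end PTfgAux

open PTfgAux in
theorem ptfg : StPTfg := by
  intro K
  have h1 := ptime_thr K
  have h2 : PTime fun I : Inst => word (nbs I (fgV I (klen K I))) :=
    ptime_word.comp (ptime_nbs.comp (PTime.id.pair (ptime_fgV K)))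
  have h3 : PTime fun I : Inst => (word (nbs I (fgV I (klen K I)))).map some :=
    PTime.map (f := fun _ x => some x) h2 (by fun_prop)
  have h4 : PTime fun I : Inst => List.replicate (thr I (klen K I)) (none : Option Sym) ++
      (word (nbs I (fgV I (klen K I)))).map some := by fun_prop
  refine h4.of_eq fun I => ?_
  unfold frE
  rw [encode_fg]

end Pool.Agent.Lib.MP_186ff7_lc.PCP
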