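import Pool.Agent.Lib.MP_186ff7_lc.PCP.Stmts

/-!
# The PCP theorem: the ping-pong estimate
-/

namespace Pool.Agent.Lib.MP_186ff7_lc.PCP

namespace PingAux

open Finset

/-- the mass of a predicate -/
noncomputable def M {G : Type*} [Fintype G] (g : G → ℝ) (P : G → Prop) [DecidablePred P] : ℝ :=
  ∑ x, if P x then g x ^ 2 else 0

lemma shift {G : Type*} [Fintype G] (g : G → ℝ) (e : G ≃ G) (W : ℝ) (hW : ∑ x, g x ^ 2 = W)
    (hE : ∑ x, (g x - g (e x)) ^ 2 ≤ W / 10000) (P P' : G → Prop) [DecidablePred P]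
    [DecidablePred P'] (hP : ∀ x, P' x ↔ P (e.symm x)) :
    M g P ≤ M g P' + W / 40 := by
  have h1 : M g P' = ∑ x, if P x then g (e x) ^ 2 else 0 := by
    unfold M
    rw [← Equiv.sum_comp e]
    refine Finset.sum_congr rfl fun x _ => ?_
    simp [hP]
  have h2 : ∑ x, g (e x) ^ 2 = W := by
    rw [← hW]
    exact Equiv.sum_comp e (fun x => g x ^ 2)
  have h3 : M g P ≤ ∑ x, ((if P x then g (e x) ^ 2 else 0) + (50 * (g x - g (e x)) ^ 2 +
      (1 / 100) * (g x ^ 2 + g (e x) ^ 2))) := by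
    unfold M
    refine Finset.sum_le_sum fun x _ => ?_
    split_ifs
    · nlinarith [sq_nonneg (g x - g (e x)), sq_nonneg (g x + g (e x)),
        sq_nonneg (100 * (g x - g (e x)) - (g x + g (e x)))]
    · positivity
  rw [Finset.sum_add_distrib, ← h1, Finset.sum_add_distrib, ← Finset.mul_sum, ← Finset.mul_sum,
    Finset.sum_add_distrib, hW, h2] at h3
  linarith

lemma vadd {m : ℕ} [NeZero m] (a b : ZMod m) (s : ℤ) (hs : |s| ≤ 2)
    (ha : 6 * |a.valMinAbs| < m) (hb : 6 * |b.valMinAbs| < m) :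
    (b + s * a).valMinAbs = b.valMinAbs + s * a.valMinAbs := by
  rw [ZMod.valMinAbs_spec]
  have h1 : |s * a.valMinAbs| ≤ 2 * |a.valMinAbs| := by
    rw [abs_mul]
    exact mul_le_mul_of_nonneg_right hs (abs_nonneg _)
  have h2 := abs_le.mp h1
  have h3 := neg_abs_le b.valMinAbs
  have h4 := le_abs_self b.valMinAbs
  refine ⟨?_, ?_, ?_⟩
  · push_cast
    simp
  · generalize s * a.valMinAbs = t at *
    omega
  · generalize s * a.valMinAbs = t at *
    omega

/-- the region of small frequencies -/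
def Q {m : ℕ} (x : ZMod m × ZMod m) : Prop :=
  6 * |x.1.valMinAbs| < m ∧ 6 * |x.2.valMinAbs| < m

/-- first coordinate dominates -/
def X {m : ℕ} (x : ZMod m × ZMod m) : Prop := |x.2.valMinAbs| < |x.1.valMinAbs|

/-- second coordinate dominates -/
def Y {m : ℕ} (x : ZMod m × ZMod m) : Prop := |x.1.valMinAbs| < |x.2.valMinAbs|

/-- the shear in the second coordinate -/
def e1 (m : ℕ) : ZMod m × ZMod m ≃ ZMod m × ZMod m where
  toFun x := (x.1, x.2 - 2 * x.1)
  invFun x := (x.1, x.2 + 2 * x.1)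
  left_inv x := by ext <;> simp
  right_inv x := by ext <;> simp

/-- the shear in the first coordinate -/
def e2 (m : ℕ) : ZMod m × ZMod m ≃ ZMod m × ZMod m where
  toFun x := (x.1 - 2 * x.2, x.2)
  invFun x := (x.1 + 2 * x.2, x.2)
  left_inv x := by ext <;> simp
  right_inv x := by ext <;> simp

/-- one-dimensional geometry: if `(a, b + 2 a)` is small with dominating `a`, then `b` dominates -/
lemma geo1 {m : ℕ} [NeZero m] (a b : ZMod m) (ha : 6 * |a.valMinAbs| < m)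
    (hb : 6 * |(b + 2 * a).valMinAbs| < m)
    (h : |(b + 2 * a).valMinAbs| < |a.valMinAbs|) :
    |a.valMinAbs| < |b.valMinAbs| ∧ b.valMinAbs = (b + 2 * a).valMinAbs - 2 * a.valMinAbs := by
  have h1 := vadd a (b + 2 * a) (-2) (by norm_num) ha hb
  have h2 : (b + 2 * a) + ((-2 : ℤ) : ZMod m) * a = b := by push_cast; ring
  rw [h2] at h1
  rw [h1]
  generalize (b + 2 * a).valMinAbs = t at *
  generalize a.valMinAbs = s at *
  constructor
  · rcases abs_cases s with ⟨h5, _⟩ | ⟨h5, _⟩ <;> rcases abs_cases t with ⟨h6, _⟩ | ⟨h6, _⟩ <;>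
      rcases abs_cases (t + -2 * s) with ⟨h7, _⟩ | ⟨h7, _⟩ <;> omega
  · ring

lemma geo2 {m : ℕ} [NeZero m] (a b : ZMod m) (ha : 6 * |a.valMinAbs| < m)
    (hb : 6 * |(b - 2 * a).valMinAbs| < m)
    (h : |(b - 2 * a).valMinAbs| < |a.valMinAbs|) :
    |a.valMinAbs| < |b.valMinAbs| ∧ b.valMinAbs = (b - 2 * a).valMinAbs + 2 * a.valMinAbs := by
  have h1 := vadd a (b - 2 * a) 2 (by norm_num) ha hb
  have h2 : (b - 2 * a) + ((2 : ℤ) : ZMod m) * a = b := by push_cast; ring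
  rw [h2] at h1
  rw [h1]
  generalize (b - 2 * a).valMinAbs = t at *
  generalize a.valMinAbs = s at *
  constructor
  · rcases abs_cases s with ⟨h5, _⟩ | ⟨h5, _⟩ <;> rcases abs_cases t with ⟨h6, _⟩ | ⟨h6, _⟩ <;>
      rcases abs_cases (t + 2 * s) with ⟨h7, _⟩ | ⟨h7, _⟩ <;> omega
  · ring

lemma geo3 {m : ℕ} [NeZero m] (a b : ZMod m) (ha : 6 * |a.valMinAbs| < m)
    (hb : 6 * |(b + 2 * a).valMinAbs| < m)
    (h : |(b + 2 * a).valMinAbs| < |a.valMinAbs|) (hb' : 6 * |(b - 2 * a).valMinAbs| < m)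
    (h' : |(b - 2 * a).valMinAbs| < |a.valMinAbs|) : False := by
  have h1 := (geo1 a b ha hb h).2
  have h2 := (geo2 a b ha hb' h').2
  generalize (b + 2 * a).valMinAbs = t at *
  generalize (b - 2 * a).valMinAbs = u at *
  generalize a.valMinAbs = s at *
  rcases abs_cases s with ⟨h5, _⟩ | ⟨h5, _⟩ <;> rcases abs_cases t with ⟨h6, _⟩ | ⟨h6, _⟩ <;>
      rcases abs_cases u with ⟨h7, _⟩ | ⟨h7, _⟩ <;> omega

end PingAux

open PingAux Finset in
theorem ping : StPing := by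
  classical
  refine ⟨1 / 10000, by norm_num, ?_⟩
  intro m _ g hg h0
  by_contra hcon
  push Not at hcon
  obtain ⟨W, hW⟩ : ∃ W, ∑ x, g x ^ 2 = W := ⟨_, rfl⟩
  obtain ⟨E1, hE1⟩ : ∃ W, ∑ x : ZMod m × ZMod m, (g x - g (x.1, x.2 - 2 * x.1)) ^ 2 = W := ⟨_, rfl⟩
  obtain ⟨E2, hE2⟩ : ∃ W, ∑ x : ZMod m × ZMod m, (g x - g (x.1 - 2 * x.2, x.2)) ^ 2 = W := ⟨_, rfl⟩
  obtain ⟨E3, hE3⟩ : ∃ W, ∑ x : ZMod m × ZMod m, g x ^ 2 * (wt x.1 + wt x.2) = W := ⟨_, rfl⟩
  rw [hW, hE1, hE2, hE3] at hcon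
  have wt0 : ∀ a : ZMod m, 0 ≤ wt a := by
    intro a
    unfold wt
    split_ifs <;> norm_num
  have p1 : 0 ≤ E1 := by rw [← hE1]; positivity
  have p2 : 0 ≤ E2 := by rw [← hE2]; positivity
  have p3 : 0 ≤ E3 := by
    rw [← hE3]
    exact Finset.sum_nonneg fun x _ => mul_nonneg (sq_nonneg _) (add_nonneg (wt0 _) (wt0 _))
  -- shifts in both directions
  have s1 : ∀ (P P' : ZMod m × ZMod m → Prop) [DecidablePred P] [DecidablePred P'],
      (∀ x, P' x ↔ P ((e1 m).symm x)) → M g P ≤ M g P' + W / 40 := by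
    intro P P' _ _ h
    refine shift g (e1 m) W hW ?_ P P' h
    have : ∑ x, (g x - g ((e1 m) x)) ^ 2 = E1 := hE1
    linarith
  have s1' : ∀ (P P' : ZMod m × ZMod m → Prop) [DecidablePred P] [DecidablePred P'],
      (∀ x, P' x ↔ P ((e1 m) x)) → M g P ≤ M g P' + W / 40 := by
    intro P P' _ _ h
    refine shift g (e1 m).symm W hW ?_ P P' h
    have : ∑ x, (g x - g ((e1 m).symm x)) ^ 2 = E1 := by
      rw [← hE1, ← Equiv.sum_comp (e1 m)]
      refine Finset.sum_congr rfl fun x _ => ?_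
      rw [Equiv.symm_apply_apply]
      show (g (x.1, x.2 - 2 * x.1) - g x) ^ 2 = _
      ring
    linarith
  have s2 : ∀ (P P' : ZMod m × ZMod m → Prop) [DecidablePred P] [DecidablePred P'],
      (∀ x, P' x ↔ P ((e2 m).symm x)) → M g P ≤ M g P' + W / 40 := by
    intro P P' _ _ h
    refine shift g (e2 m) W hW ?_ P P' h
    have : ∑ x, (g x - g ((e2 m) x)) ^ 2 = E2 := hE2
    linarith
  have s2' : ∀ (P P' : ZMod m × ZMod m → Prop) [DecidablePred P] [DecidablePred P'],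
      (∀ x, P' x ↔ P ((e2 m) x)) → M g P ≤ M g P' + W / 40 := by
    intro P P' _ _ h
    refine shift g (e2 m).symm W hW ?_ P P' h
    have : ∑ x, (g x - g ((e2 m).symm x)) ^ 2 = E2 := by
      rw [← hE2, ← Equiv.sum_comp (e2 m)]
      refine Finset.sum_congr rfl fun x _ => ?_
      rw [Equiv.symm_apply_apply]
      show (g (x.1 - 2 * x.2, x.2) - g x) ^ 2 = _
      ring
    linarith
  -- the mass outside Q
  have hQc : M g (fun x => ¬ Q x) ≤ E3 := by
    rw [← hE3]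
    unfold M
    refine Finset.sum_le_sum fun x _ => ?_
    split_ifs with h
    · have : 1 ≤ wt x.1 + wt x.2 := by
        change ¬(6 * |x.1.valMinAbs| < (m : ℤ) ∧ 6 * |x.2.valMinAbs| < (m : ℤ)) at h
        rw [not_and_or] at h
        rcases h with h | h
        · have : wt x.1 = 1 := by
            unfold wt
            rw [if_pos]
            have h' := not_lt.mp h
            rw [Int.abs_eq_natAbs] at h'
            exact_mod_cast h'
          rw [this]
          linarith [wt0 x.2]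
        · have : wt x.2 = 1 := by
            unfold wt
            rw [if_pos]
            have h' := not_lt.mp h
            rw [Int.abs_eq_natAbs] at h'
            exact_mod_cast h'
          rw [this]
          linarith [wt0 x.1]
      nlinarith [sq_nonneg (g x)]
    · exact mul_nonneg (sq_nonneg _) (add_nonneg (wt0 _) (wt0 _))
  -- X to Y
  have a1 := s1 (fun x => X x ∧ Q x) (fun x => X ((e1 m).symm x) ∧ Q ((e1 m).symm x))
    (fun x => Iff.rfl)
  have a2 := s1' (fun x => X x ∧ Q x) (fun x => X ((e1 m) x) ∧ Q ((e1 m) x)) (fun x => Iff.rfl)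
  have a3 : M g (fun x => X ((e1 m).symm x) ∧ Q ((e1 m).symm x)) +
      M g (fun x => X ((e1 m) x) ∧ Q ((e1 m) x)) ≤ M g Y := by
    unfold M
    rw [← Finset.sum_add_distrib]
    refine Finset.sum_le_sum fun x _ => ?_
    have hsq := sq_nonneg (g x)
    by_cases hA : X ((e1 m).symm x) ∧ Q ((e1 m).symm x)
    · have hY : Y x := (geo1 x.1 x.2 hA.2.1 hA.2.2 hA.1).1
      have hB : ¬ (X ((e1 m) x) ∧ Q ((e1 m) x)) := fun hB =>
        geo3 x.1 x.2 hA.2.1 hA.2.2 hA.1 hB.2.2 hB.1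
      rw [if_pos hA, if_neg hB, if_pos hY, add_zero]
    · by_cases hB : X ((e1 m) x) ∧ Q ((e1 m) x)
      · have hY : Y x := (geo2 x.1 x.2 hB.2.1 hB.2.2 hB.1).1
        rw [if_neg hA, if_pos hB, if_pos hY, zero_add]
      · rw [if_neg hA, if_neg hB]
        split_ifs <;> linarith
  -- Y to X
  have b1 := s2 (fun x => Y x ∧ Q x) (fun x => Y ((e2 m).symm x) ∧ Q ((e2 m).symm x))
    (fun x => Iff.rfl)
  have b2 := s2' (fun x => Y x ∧ Q x) (fun x => Y ((e2 m) x) ∧ Q ((e2 m) x)) (fun x => Iff.rfl)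
  have b3 : M g (fun x => Y ((e2 m).symm x) ∧ Q ((e2 m).symm x)) +
      M g (fun x => Y ((e2 m) x) ∧ Q ((e2 m) x)) ≤ M g X := by
    unfold M
    rw [← Finset.sum_add_distrib]
    refine Finset.sum_le_sum fun x _ => ?_
    have hsq := sq_nonneg (g x)
    by_cases hA : Y ((e2 m).symm x) ∧ Q ((e2 m).symm x)
    · have hX : X x := (geo1 x.2 x.1 hA.2.2 hA.2.1 hA.1).1
      have hB : ¬ (Y ((e2 m) x) ∧ Q ((e2 m) x)) := fun hB =>
        geo3 x.2 x.1 hA.2.2 hA.2.1 hA.1 hB.2.1 hB.1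
      rw [if_pos hA, if_neg hB, if_pos hX, add_zero]
    · by_cases hB : Y ((e2 m) x) ∧ Q ((e2 m) x)
      · have hX : X x := (geo2 x.2 x.1 hB.2.2 hB.2.1 hB.1).1
        rw [if_neg hA, if_pos hB, if_pos hX, zero_add]
      · rw [if_neg hA, if_neg hB]
        split_ifs <;> linarith
  -- X and Y are small
  have c1 : M g X + M g Y ≤ M g (fun x => X x ∧ Q x) + M g (fun x => Y x ∧ Q x) +
      M g (fun x => ¬ Q x) := by
    unfold M
    rw [← Finset.sum_add_distrib, ← Finset.sum_add_distrib, ← Finset.sum_add_distrib]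
    refine Finset.sum_le_sum fun x _ => ?_
    have hsq := sq_nonneg (g x)
    by_cases hQ : Q x
    · simp [hQ]
    · have : ¬ (X x ∧ Y x) := fun h => absurd h.1 (not_lt.mpr (le_of_lt h.2))
      by_cases hX : X x
      · have hY : ¬ Y x := fun h => this ⟨hX, h⟩
        simp [hQ, hX, hY]
      · by_cases hY : Y x
        · simp [hQ, hX, hY]
        · simp [hQ, hX, hY, hsq]
  -- diagonals
  have d1 := s1' (fun x => (x.1.valMinAbs = x.2.valMinAbs ∧ x.1.valMinAbs ≠ 0) ∧ Q x)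
    (fun x => ((((e1 m) x).1.valMinAbs = ((e1 m) x).2.valMinAbs ∧ ((e1 m) x).1.valMinAbs ≠ 0) ∧
      Q ((e1 m) x))) (fun x => Iff.rfl)
  have d2 := s1 (fun x => (x.1.valMinAbs = -x.2.valMinAbs ∧ x.1.valMinAbs ≠ 0) ∧ Q x)
    (fun x => ((((e1 m).symm x).1.valMinAbs = -((e1 m).symm x).2.valMinAbs ∧
      ((e1 m).symm x).1.valMinAbs ≠ 0) ∧ Q ((e1 m).symm x))) (fun x => Iff.rfl)
  have d3 : M g (fun x => ((((e1 m) x).1.valMinAbs = ((e1 m) x).2.valMinAbs ∧
      ((e1 m) x).1.valMinAbs ≠ 0) ∧ Q ((e1 m) x))) ≤ M g Y := by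
    unfold M
    refine Finset.sum_le_sum fun x _ => ?_
    have hsq := sq_nonneg (g x)
    split_ifs with hA hY hY
    · exact le_refl _
    · exfalso
      apply hY
      obtain ⟨⟨h1, h2⟩, h3, h4⟩ := hA
      change x.1.valMinAbs = (x.2 - 2 * x.1).valMinAbs at h1
      change x.1.valMinAbs ≠ 0 at h2
      change 6 * |x.1.valMinAbs| < m at h3
      change 6 * |(x.2 - 2 * x.1).valMinAbs| < m at h4
      have h5 := vadd x.1 (x.2 - 2 * x.1) 2 (by norm_num) h3 h4
      have h6 : (x.2 - 2 * x.1) + ((2 : ℤ) : ZMod m) * x.1 = x.2 := by push_cast; ring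
      rw [h6, ← h1] at h5
      show |x.1.valMinAbs| < |x.2.valMinAbs|
      rw [h5]
      generalize x.1.valMinAbs = s at *
      rcases abs_cases s with ⟨h7, _⟩ | ⟨h7, _⟩ <;>
        rcases abs_cases (s + 2 * s) with ⟨h8, _⟩ | ⟨h8, _⟩ <;> omega
    · exact hsq
    · exact le_refl _
  have d4 : M g (fun x => ((((e1 m).symm x).1.valMinAbs = -((e1 m).symm x).2.valMinAbs ∧
      ((e1 m).symm x).1.valMinAbs ≠ 0) ∧ Q ((e1 m).symm x))) ≤ M g Y := by
    unfold M
    refine Finset.sum_le_sum fun x _ => ?_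
    have hsq := sq_nonneg (g x)
    split_ifs with hA hY hY
    · exact le_refl _
    · exfalso
      apply hY
      obtain ⟨⟨h1, h2⟩, h3, h4⟩ := hA
      change x.1.valMinAbs = -(x.2 + 2 * x.1).valMinAbs at h1
      change x.1.valMinAbs ≠ 0 at h2
      change 6 * |x.1.valMinAbs| < m at h3
      change 6 * |(x.2 + 2 * x.1).valMinAbs| < m at h4
      have h5 := vadd x.1 (x.2 + 2 * x.1) (-2) (by norm_num) h3 h4
      have h6 : (x.2 + 2 * x.1) + ((-2 : ℤ) : ZMod m) * x.1 = x.2 := by push_cast; ring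
      rw [h6] at h5
      show |x.1.valMinAbs| < |x.2.valMinAbs|
      rw [h5]
      generalize x.1.valMinAbs = s at *
      generalize (x.2 + 2 * x.1).valMinAbs = t at *
      rcases abs_cases s with ⟨h7, _⟩ | ⟨h7, _⟩ <;>
        rcases abs_cases (t + -2 * s) with ⟨h8, _⟩ | ⟨h8, _⟩ <;> omega
    · exact hsq
    · exact le_refl _
  -- the total mass
  have t1 : W ≤ M g X + M g Y +
      M g (fun x => (x.1.valMinAbs = x.2.valMinAbs ∧ x.1.valMinAbs ≠ 0) ∧ Q x) +
      M g (fun x => (x.1.valMinAbs = -x.2.valMinAbs ∧ x.1.valMinAbs ≠ 0) ∧ Q x) +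
      M g (fun x => ¬ Q x) := by
    rw [← hW]
    unfold M
    rw [← Finset.sum_add_distrib, ← Finset.sum_add_distrib, ← Finset.sum_add_distrib,
      ← Finset.sum_add_distrib]
    refine Finset.sum_le_sum fun x _ => ?_
    have hsq := sq_nonneg (g x)
    have nn : ∀ (p : Prop) [Decidable p], 0 ≤ (if p then g x ^ 2 else 0) := by
      intro p _
      split_ifs
      · exact hsq
      · exact le_refl _
    by_cases hX : X x
    · rw [if_pos hX]
      linarith [nn (Y x), nn ((x.1.valMinAbs = x.2.valMinAbs ∧ x.1.valMinAbs ≠ 0) ∧ Q x),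
        nn ((x.1.valMinAbs = -x.2.valMinAbs ∧ x.1.valMinAbs ≠ 0) ∧ Q x), nn (¬ Q x)]
    by_cases hY : Y x
    · rw [if_pos hY]
      linarith [nn (X x), nn ((x.1.valMinAbs = x.2.valMinAbs ∧ x.1.valMinAbs ≠ 0) ∧ Q x),
        nn ((x.1.valMinAbs = -x.2.valMinAbs ∧ x.1.valMinAbs ≠ 0) ∧ Q x), nn (¬ Q x)]
    by_cases hQ : Q x
    · have habs : |x.1.valMinAbs| = |x.2.valMinAbs| :=
        le_antisymm (not_lt.mp hX) (not_lt.mp hY)
      by_cases hz : x.1.valMinAbs = 0
      · have hz2 : x.2.valMinAbs = 0 := by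
          rw [hz, abs_zero] at habs
          exact abs_eq_zero.mp habs.symm
        have e1 : x.1 = 0 := (ZMod.valMinAbs_eq_zero x.1).mp hz
        have e2 : x.2 = 0 := (ZMod.valMinAbs_eq_zero x.2).mp hz2
        have e3 : x = 0 := Prod.ext e1 e2
        have e4 : g x ^ 2 = 0 := by rw [e3, h0]; norm_num
        rw [e4]
        simp
      · rcases abs_eq_abs.mp habs with h | h
        · rw [if_pos (show (x.1.valMinAbs = x.2.valMinAbs ∧ x.1.valMinAbs ≠ 0) ∧ Q x from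
            ⟨⟨h, hz⟩, hQ⟩)]
          linarith [nn (X x), nn (Y x),
            nn ((x.1.valMinAbs = -x.2.valMinAbs ∧ x.1.valMinAbs ≠ 0) ∧ Q x), nn (¬ Q x)]
        · rw [if_pos (show (x.1.valMinAbs = -x.2.valMinAbs ∧ x.1.valMinAbs ≠ 0) ∧ Q x from
            ⟨⟨h, hz⟩, hQ⟩)]
          linarith [nn (X x), nn (Y x),
            nn ((x.1.valMinAbs = x.2.valMinAbs ∧ x.1.valMinAbs ≠ 0) ∧ Q x), nn (¬ Q x)]
    · rw [if_pos hQ]
      linarith [nn (X x), nn (Y x),
        nn ((x.1.valMinAbs = x.2.valMinAbs ∧ x.1.valMinAbs ≠ 0) ∧ Q x),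
        nn ((x.1.valMinAbs = -x.2.valMinAbs ∧ x.1.valMinAbs ≠ 0) ∧ Q x)]
  have mX : 0 ≤ M g (X (m := m)) := Finset.sum_nonneg fun x _ => by
    split_ifs
    · exact sq_nonneg _
    · exact le_refl _
  have hWnn : 0 ≤ W := by rw [← hW]; positivity
  linarith

end Pool.Agent.Lib.MP_186ff7_lc.PCP
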