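import Pool.Agent.Lib.MP_186ff7_lc.PCP.Stmts
import Pool.Agent.Lib.MP_186ff7_lc.PCP.Words

/-!
# The PCP theorem: the powering theorem from the two moments
-/

set_option linter.unusedSectionVars false

namespace Pool.Agent.Lib.MP_186ff7_lc.PCP

open Finset

namespace Pow

section graph

variable {V D : Type} (G : PG V D Al)

theorem go_take_succ (v : V) (w : List D) (i : ℕ) (j : D) (h : w[i]? = some j) :
    G.go v (w.take (i + 1)) = G.nb j (G.go v (w.take i)) := by
  rw [List.take_add_one, h]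
  simp

/-- A hit violates the walk. -/
theorem wbad_of_hit (T : ℕ) (σ : V → Al) (Ω : V → List D → Al) (v : V) (w : List D) (l i : ℕ)
    (h : G.Hit T (fun v j => !G.R v j (σ v) (σ (G.nb j v))) σ Ω v w l i) :
    G.Wbad T Ω v w l := by
  obtain ⟨h1, h2, h3, ⟨j, hj, hF⟩, h4, h5⟩ := h
  refine ⟨i, j, hj, h1, h2, h3, ?_⟩
  rw [h4, h5, go_take_succ G v w i j hj]
  simpa using hF

theorem card_le_cnt (F : V → D → Bool) (w : List D) : ∀ v : V, ∀ s : Finset ℕ,
    (∀ i ∈ s, ∃ j, w[i]? = some j ∧ F (G.go v (w.take i)) j = true) → s.card ≤ G.cnt F v w := by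
  induction w with
  | nil =>
    intro v s h
    have : s = ∅ := by
      rw [Finset.eq_empty_iff_forall_notMem]
      intro i hi
      obtain ⟨j, hj, _⟩ := h i hi
      simp at hj
    rw [this]
    simp
  | cons j w ih =>
    intro v s h
    -- the part of `s` without `0`, shifted
    set s' : Finset ℕ := (s.erase 0).image Nat.pred with hs'
    have hcard : s'.card = (s.erase 0).card := by
      rw [hs']
      refine Finset.card_image_of_injOn ?_
      intro a ha b hb hab
      rw [Finset.mem_coe, Finset.mem_erase] at ha hb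
      exact Nat.pred_inj (Nat.pos_of_ne_zero ha.1) (Nat.pos_of_ne_zero hb.1) hab
    have h1 : s'.card ≤ G.cnt F (G.nb j v) w := by
      refine ih (G.nb j v) s' ?_
      intro i hi
      rw [hs', Finset.mem_image] at hi
      obtain ⟨a, ha, rfl⟩ := hi
      rw [Finset.mem_erase] at ha
      obtain ⟨b, rfl⟩ : ∃ b, a = b + 1 := ⟨a - 1, (Nat.succ_pred_eq_of_pos (Nat.pos_of_ne_zero ha.1)).symm⟩
      obtain ⟨j', hj', hF⟩ := h _ ha.2
      refine ⟨j', ?_, ?_⟩
      · simpa using hj'
      · simpa using hF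
    have h2 : G.cnt F v (j :: w) = (F v j).toNat + G.cnt F (G.nb j v) w := rfl
    rw [h2]
    by_cases h0 : 0 ∈ s
    · obtain ⟨j', hj', hF⟩ := h 0 h0
      have hj'' : j' = j := by simpa using hj'.symm
      subst hj''
      have hF' : F v j' = true := by simpa using hF
      rw [hF', ← Finset.card_erase_add_one h0, ← hcard]
      simp only [Bool.toNat_true]
      omega
    · rw [← Finset.erase_eq_of_notMem h0, ← hcard]
      omega

theorem hits_le_cnt (T : ℕ) (F : V → D → Bool) (σ : V → Al) (Ω : V → List D → Al) (v : V)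
    (w : List D) (l : ℕ) : G.hits T F σ Ω v w l ≤ G.cnt F v w := by
  classical
  unfold PG.hits
  refine card_le_cnt G F w v _ ?_
  intro i hi
  rw [Finset.mem_filter] at hi
  exact hi.2.2.2.2.1

end graph

section cs

variable {V D : Type} [Fintype V] [Fintype D]

/-- Cauchy-Schwarz for sums over walks. -/
theorem cauchy (k L : ℕ) (φ ψ : V → List D → ℕ → ℝ) :
    (∑ v, wsum k fun w => ∑ l ∈ range L, φ v w l * ψ v w l) ^ 2 ≤
      (∑ v, wsum k fun w => ∑ l ∈ range L, φ v w l ^ 2) *
        (∑ v, wsum k fun w => ∑ l ∈ range L, ψ v w l ^ 2) := by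
  classical
  have : Finite D := Finite.of_fintype D
  have : Finite {w : List D // w.length = k} := Set.Finite.to_subtype (List.finite_length_eq D k)
  have : Fintype {w : List D // w.length = k} := Fintype.ofFinite _
  have key : ∀ χ : V → List D → ℕ → ℝ, (∑ v, wsum k fun w => ∑ l ∈ range L, χ v w l) =
      ∑ q ∈ (univ : Finset V) ×ˢ (univ : Finset {w : List D // w.length = k}) ×ˢ range L,
        χ q.1 q.2.1.1 q.2.2 := by
    intro χ
    rw [Finset.sum_product]
    refine Finset.sum_congr rfl fun v _ => ?_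
    rw [wsum_eq_sum, Finset.sum_product]
  rw [key, key, key]
  exact Finset.sum_mul_sq_le_sq_mul_sq _ _ _

end cs

end Pow

open Classical in
theorem pow (h1 : StSecond) (h2 : StFirst) : StPow := by
  intro ρ hρ0 hρ1
  have hr : 0 < 1 - ρ := by linarith
  set M₀ : ℝ := 3 + 2 / (1 - ρ) with hM₀
  have hM₀3 : 3 ≤ M₀ := by
    have : 0 ≤ 2 / (1 - ρ) := by positivity
    linarith
  have hM₀p : 0 < M₀ := by linarith
  refine ⟨1 / (524288 * M₀), by positivity, ?_, ?_⟩
  · rw [div_le_one (by positivity)]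
    linarith
  intro V D _ _ _ _ G hG T hT Ω
  obtain ⟨σ, hσ⟩ := h2 V D G T hT Ω
  refine ⟨σ, ?_⟩
  set F : V → D → Bool := fun v j => !G.R v j (σ v) (σ (G.nb j v)) with hF
  have hFsymm : ∀ v j, F (G.nb j v) (G.inv j) = F v j := by
    intro v j
    simp only [hF]
    rw [G.nb_inv, G.R_inv]
  have hcardF : (univ.filter fun p : V × D => F p.1 p.2 = true).card = G.viol σ := by
    unfold PG.viol
    congr 1
    ext p
    simp only [hF, Finset.mem_filter, Finset.mem_univ, true_and, Bool.not_eq_true']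
  have hN : (0 : ℝ) < Fintype.card V := by exact_mod_cast Fintype.card_pos
  have hd : (0 : ℝ) < Fintype.card D := by exact_mod_cast Fintype.card_pos
  set N : ℝ := (Fintype.card V : ℝ) with hNdef
  set d : ℝ := (Fintype.card D : ℝ) with hddef
  set f : ℝ := (G.viol σ : ℝ) / (N * d) with hf
  have hf0 : 0 ≤ f := by positivity
  have hfN : (G.viol σ : ℝ) = f * (N * d) := by
    rw [hf]
    field_simp
  set L : ℕ := 2 * T - 1 with hL
  set S : ℝ := N * d ^ L with hS
  have hSpos : 0 < S := by positivity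
  have hL1 : 1 ≤ L := by omega
  have hLr : (1 : ℝ) ≤ L := by exact_mod_cast hL1
  have hTr : (1 : ℝ) ≤ T := by exact_mod_cast hT
  have hLT : (L : ℝ) ≤ 2 * T := by
    have : L ≤ 2 * T := by omega
    exact_mod_cast this
  -- the second moment
  have hsec := h1 V D Al G ρ hρ0 hρ1 hG F hFsymm L f (by rw [hcardF])
  -- the first moment
  have hfirst := hσ F
  rw [hcardF] at hfirst
  set B : ℝ := ∑ v, wsum L fun w => ∑ l ∈ Finset.range L,
      if G.Wbad T Ω v w l then (1 : ℝ) else 0 with hB
  have hB0 : 0 ≤ B := by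
    rw [hB]
    refine Finset.sum_nonneg fun v _ => wsum_nonneg fun w _ => Finset.sum_nonneg fun l _ => ?_
    split_ifs <;> norm_num
  set X : ℝ := ∑ v, wsum L fun w => ∑ l ∈ Finset.range L, (G.hits T F σ Ω v w l : ℝ) with hX
  have hXlow : f * S * (T : ℝ) ^ 2 / 256 ≤ X := by
    refine le_trans (le_of_eq ?_) hfirst
    rw [hfN, hS]
    have hLe : L = (2 * T - 2) + 1 := by omega
    rw [hLe, pow_succ]
    ring
  -- Cauchy-Schwarz
  have hcs : X ^ 2 ≤ B * (∑ v, wsum L fun w => ∑ l ∈ Finset.range L,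
      (G.hits T F σ Ω v w l : ℝ) ^ 2) := by
    have h3 := Pow.cauchy (V := V) (D := D) L L
      (fun v w l => if G.Wbad T Ω v w l then (1 : ℝ) else 0)
      (fun v w l => (G.hits T F σ Ω v w l : ℝ))
    have h4 : (∑ v, wsum L fun w => ∑ l ∈ Finset.range L,
        (if G.Wbad T Ω v w l then (1 : ℝ) else 0) * (G.hits T F σ Ω v w l : ℝ)) = X := by
      rw [hX]
      refine Finset.sum_congr rfl fun v _ => wsum_congr fun w _ => ?_
      refine Finset.sum_congr rfl fun l _ => ?_
      by_cases hw : G.Wbad T Ω v w l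
      · rw [if_pos hw, one_mul]
      · rw [if_neg hw, zero_mul]
        symm
        rw [Nat.cast_eq_zero]
        unfold PG.hits
        rw [Finset.card_eq_zero, Finset.filter_eq_empty_iff]
        intro i _ hi
        exact hw (Pow.wbad_of_hit G T σ Ω v w l i hi)
    have h5 : (∑ v, wsum L fun w => ∑ l ∈ Finset.range L,
        (if G.Wbad T Ω v w l then (1 : ℝ) else 0) ^ 2) = B := by
      rw [hB]
      refine Finset.sum_congr rfl fun v _ => wsum_congr fun w _ => ?_
      refine Finset.sum_congr rfl fun l _ => ?_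
      split_ifs <;> norm_num
    rw [h4, h5] at h3
    exact h3
  have hY : (∑ v, wsum L fun w => ∑ l ∈ Finset.range L, (G.hits T F σ Ω v w l : ℝ) ^ 2) ≤
      L * (S * (L * f + L ^ 2 * f ^ 2 + 2 * L * f / (1 - ρ))) := by
    have h6 : (∑ v, wsum L fun w => ∑ l ∈ Finset.range L, (G.hits T F σ Ω v w l : ℝ) ^ 2) ≤
        ∑ v, wsum L fun w => (L : ℝ) * (G.cnt F v w : ℝ) ^ 2 := by
      refine Finset.sum_le_sum fun v _ => wsum_le_wsum fun w _ => ?_
      calc ∑ l ∈ Finset.range L, (G.hits T F σ Ω v w l : ℝ) ^ 2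
          ≤ ∑ l ∈ Finset.range L, (G.cnt F v w : ℝ) ^ 2 := by
            refine Finset.sum_le_sum fun l _ => ?_
            have h7 : (G.hits T F σ Ω v w l : ℝ) ≤ G.cnt F v w := by
              exact_mod_cast Pow.hits_le_cnt G T F σ Ω v w l
            exact pow_le_pow_left₀ (Nat.cast_nonneg _) h7 2
        _ = (L : ℝ) * (G.cnt F v w : ℝ) ^ 2 := by
            rw [Finset.sum_const, Finset.card_range, nsmul_eq_mul]
    refine h6.trans ?_
    simp only [wsum_mul_left]
    rw [← Finset.mul_sum]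
    exact mul_le_mul_of_nonneg_left hsec (by positivity)
  have hXB : X ^ 2 ≤ B * (L * (S * (L * f + L ^ 2 * f ^ 2 + 2 * L * f / (1 - ρ)))) :=
    hcs.trans (mul_le_mul_of_nonneg_left hY hB0)
  -- the case `f = 0`
  rcases hf0.eq_or_lt with hz | hfpos
  · rw [← hz]
    rw [mul_zero, min_eq_left zero_le_one, mul_zero, zero_mul]
    exact hB0
  · set M : ℝ := 1 + L * f + 2 / (1 - ρ) with hM
    have hMpos : 0 < M := by
      have : 0 ≤ 2 / (1 - ρ) := by positivity
      have : 0 ≤ (L : ℝ) * f := by positivity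
      linarith
    have hYM : L * (S * (L * f + L ^ 2 * f ^ 2 + 2 * L * f / (1 - ρ))) =
        S * L ^ 2 * f * M := by
      rw [hM]
      ring
    rw [hYM] at hXB
    have hX0 : 0 ≤ f * S * (T : ℝ) ^ 2 / 256 := by positivity
    have hX2 : (f * S * (T : ℝ) ^ 2 / 256) ^ 2 ≤ B * (S * L ^ 2 * f * M) :=
      (pow_le_pow_left₀ hX0 hXlow 2).trans hXB
    have hmain : f * S * (T : ℝ) ^ 4 / 65536 ≤ B * (L ^ 2 * M) := by
      have hfS : 0 < f * S := by positivity
      refine le_of_mul_le_mul_left ?_ hfS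
      calc f * S * (f * S * (T : ℝ) ^ 4 / 65536) = (f * S * (T : ℝ) ^ 2 / 256) ^ 2 := by ring
        _ ≤ B * (S * L ^ 2 * f * M) := hX2
        _ = f * S * (B * (L ^ 2 * M)) := by ring
    have hT3 : (L : ℝ) ^ 3 ≤ 8 * (T : ℝ) ^ 3 := by
      calc (L : ℝ) ^ 3 ≤ (2 * T) ^ 3 := pow_le_pow_left₀ (by positivity) hLT 3
        _ = 8 * (T : ℝ) ^ 3 := by ring
    have hgoal : ∀ Q : ℝ, 0 ≤ Q → Q * (L ^ 2 * M) * (524288 * M₀) ≤ 8 * (f * S * (T : ℝ) ^ 4) * M₀ →
        Q ≤ B := by
      intro Q hQ h
      have hpos : (0 : ℝ) < L ^ 2 * M := by positivity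
      refine le_of_mul_le_mul_right ?_ hpos
      refine le_trans ?_ hmain
      have h8 : Q * (L ^ 2 * M) * 524288 ≤ 8 * (f * S * (T : ℝ) ^ 4) := by
        refine le_of_mul_le_mul_right ?_ hM₀p
        linarith
      linarith
    rcases le_total ((T : ℝ) * f) 1 with hTf | hTf
    · rw [min_eq_left hTf]
      refine hgoal _ (by positivity) ?_
      have hMle : M ≤ M₀ := by
        have : (L : ℝ) * f ≤ 2 := by nlinarith
        linarith
      have e1 : 1 / (524288 * M₀) * (T * f) * (N * d ^ L * (L : ℝ)) * (L ^ 2 * M) * (524288 * M₀)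
          = (T * f * S) * (L ^ 3 * M) := by
        rw [hS]
        field_simp
      rw [e1]
      calc (T * f * S) * (L ^ 3 * M) ≤ (T * f * S) * (8 * (T : ℝ) ^ 3 * M₀) := by
            refine mul_le_mul_of_nonneg_left ?_ (by positivity)
            exact mul_le_mul hT3 hMle hMpos.le (by positivity)
        _ = 8 * (f * S * (T : ℝ) ^ 4) * M₀ := by ring
    · rw [min_eq_right hTf]
      refine hgoal _ (by positivity) ?_
      have hMle : M ≤ T * f * M₀ := by
        have h9 : (L : ℝ) * f ≤ 2 * (T * f) := by nlinarith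
        have h10 : 2 / (1 - ρ) ≤ T * f * (2 / (1 - ρ)) := by
          have : 0 ≤ 2 / (1 - ρ) := by positivity
          nlinarith
        calc M ≤ T * f + 2 * (T * f) + T * f * (2 / (1 - ρ)) := by
              rw [hM]
              linarith
          _ = T * f * M₀ := by
              rw [hM₀]
              ring
      have e1 : 1 / (524288 * M₀) * 1 * (N * d ^ L * (L : ℝ)) * (L ^ 2 * M) * (524288 * M₀)
          = S * (L ^ 3 * M) := by
        rw [hS]
        field_simp
      rw [e1]
      calc S * (L ^ 3 * M) ≤ S * (8 * (T : ℝ) ^ 3 * (T * f * M₀)) := by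
            refine mul_le_mul_of_nonneg_left ?_ (by positivity)
            exact mul_le_mul hT3 hMle hMpos.le (by positivity)
        _ = 8 * (f * S * (T : ℝ) ^ 4) * M₀ := by ring

end Pool.Agent.Lib.MP_186ff7_lc.PCP
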