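import Pool.Agent.Lib.MP_186ff7_lc.PCP.Stmts
import Pool.Agent.Lib.MP_186ff7_lc.PCP.Slots

/-!
# Soundness of the graph of a constraint list
-/

namespace Pool.Agent.Lib.MP_186ff7_lc.PCP

open Finset

/-! ### The clouds -/

theorem unT_tor (m : ℕ) [NeZero m] (j : Fin 8) (y : ZMod m × ZMod m) :
    unT m (tor m j y) = torN m j (unT m y) := by
  refine castT_injOn (unT_mem m _) (torN_mem j (unT_mem m y)) ?_
  rw [castT_unT, castT_torN j (unT_mem m y), castT_unT]

/-- The edge expansion of the torus, for pairs of numbers. -/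
theorem cloud_edge {h : ℝ}
    (H : ∀ (m : ℕ) [NeZero m] (σ : ZMod m × ZMod m → Al), ∃ a : Al,
      h * (univ.filter fun x => σ x ≠ a).card ≤
        (univ.filter fun p : (ZMod m × ZMod m) × Fin 8 => σ p.1 ≠ σ (tor m p.2 p.1)).card)
    (h0 : 0 < h) (m : ℕ) (σ : ℕ × ℕ → Al) : ∃ a : Al,
    h * (((slots m).toFinset.filter fun p => σ p ≠ a).card : ℝ) ≤
      (((slots m).toFinset ×ˢ (univ : Finset (Fin 8))).filter
        fun q => σ q.1 ≠ σ (torN m q.2 q.1)).card := by
  classical
  rcases Nat.eq_zero_or_pos m with hm | hm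
  · subst hm
    refine ⟨0, ?_⟩
    have : (slots 0).toFinset = ∅ := by simp [slots]
    rw [this]
    simp
  · have : NeZero m := ⟨by omega⟩
    obtain ⟨a, ha⟩ := H m (fun y => σ (unT m y))
    refine ⟨a, ?_⟩
    have h1 : ((slots m).toFinset.filter fun p => σ p ≠ a).card ≤
        (univ.filter fun y : ZMod m × ZMod m => σ (unT m y) ≠ a).card := by
      refine Finset.card_le_card_of_injOn (castT m) ?_ ?_
      · intro p hp
        simp only [Finset.coe_filter, List.mem_toFinset, Set.mem_ofPred_eq, Finset.mem_univ,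
          true_and] at hp ⊢
        rw [unT_castT hp.1]
        exact hp.2
      · intro p hp q hq hpq
        simp only [Finset.coe_filter, List.mem_toFinset, Set.mem_ofPred_eq] at hp hq
        exact castT_injOn hp.1 hq.1 hpq
    have h2 : (univ.filter fun p : (ZMod m × ZMod m) × Fin 8 =>
        σ (unT m p.1) ≠ σ (unT m (tor m p.2 p.1))).card ≤
        (((slots m).toFinset ×ˢ (univ : Finset (Fin 8))).filter
          fun q => σ q.1 ≠ σ (torN m q.2 q.1)).card := by
      refine Finset.card_le_card_of_injOn (fun p => (unT m p.1, p.2)) ?_ ?_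
      · intro p hp
        simp only [Finset.coe_filter, Set.mem_ofPred_eq, Finset.mem_univ,
          true_and, Finset.mem_product, List.mem_toFinset, and_true] at hp ⊢
        rw [unT_tor] at hp
        exact ⟨unT_mem m _, hp⟩
      · intro p _ q _ hpq
        have h3 := Prod.mk.inj hpq
        refine Prod.ext ?_ h3.2
        rw [← castT_unT m p.1, ← castT_unT m q.1, h3.1]
    have h1' : (((slots m).toFinset.filter fun p => σ p ≠ a).card : ℝ) ≤
        ((univ.filter fun y : ZMod m × ZMod m => σ (unT m y) ≠ a).card : ℝ) := by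
      exact_mod_cast h1
    have h2' : ((univ.filter fun p : (ZMod m × ZMod m) × Fin 8 =>
        σ (unT m p.1) ≠ σ (unT m (tor m p.2 p.1))).card : ℝ) ≤
        ((((slots m).toFinset ×ˢ (univ : Finset (Fin 8))).filter
          fun q => σ q.1 ≠ σ (torN m q.2 q.1)).card : ℝ) := by
      exact_mod_cast h2
    exact (mul_le_mul_of_nonneg_left h1' h0.le).trans (ha.trans h2')

/-! ### Positions -/

theorem idxOf_pts_inj {I : Inst} {u u' : ℕ × ℕ × ℕ} (hu : u ∈ pts I) (hu' : u' ∈ pts I)
    (h : (pts I).idxOf u = (pts I).idxOf u') : u = u' := by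
  rw [← getD_idxOf hu (0, 0, 0), h, getD_idxOf hu']

theorem idxOf_pts_lt {I : Inst} {u : ℕ × ℕ × ℕ} (hu : u ∈ pts I) :
    (pts I).idxOf u < (pts I).length := List.idxOf_lt_length_of_mem hu

theorem sidePt_inj {I : Inst} {s s' : ℕ} (hs : s < (sides I).length) (hs' : s' < (sides I).length)
    (h : sidePt I s = sidePt I s') : s = s' := by
  have h1 := ptSide_sidePt hs
  rw [h, ptSide_sidePt hs'] at h1
  exact (List.cons.inj h1).1.symm

/-- The number of elements of a list with a property. -/
theorem countP_eq_card {α : Type} (l : List α) (p : α → Bool) (d : α) :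
    l.countP p = ((range l.length).filter fun i => p (l.getD i d) = true).card := by
  have h1 : l = (List.range l.length).map fun i => l.getD i d := by
    refine List.ext_getElem (by simp) fun i hi _ => ?_
    rw [List.getElem_map, List.getElem_range, List.getD_eq_getElem _ _ hi]
  conv_lhs => rw [h1]
  rw [List.countP_map, Finset.card_def, Finset.filter_val, ← Multiset.countP_eq_card_filter,
    Finset.range_val, Multiset.range, Multiset.coe_countP]
  refine List.countP_congr fun i _ => ?_
  simp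

/-! ### The violated edges -/

section
variable (I : Inst) (σ' : ℕ → Al)

/-- The violated edges of constraints. -/
def vio0 : Finset ℕ :=
  (range (nV I)).filter fun v => rl I (.inl ()) v (σ' v) (σ' (nb I (.inl ()) v)) = false

/-- The edges in the cloud of `x` whose ends have different letters. -/
def edg (x : ℕ) : Finset ((ℕ × ℕ) × Fin 8) :=
  ((slots (csz I x)).toFinset ×ˢ (univ : Finset (Fin 8))).filter fun q =>
    σ' ((pts I).idxOf (x, q.1)) ≠ σ' ((pts I).idxOf (x, torN (csz I x) q.2 q.1))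

/-- All violated edges. -/
def vioA : Finset (ℕ × Lb) :=
  (range (nV I) ×ˢ (univ : Finset Lb)).filter fun q =>
    rl I q.2 q.1 (σ' q.1) (σ' (nb I q.2 q.1)) = false

/-- The points whose letter is not the letter of their variable. -/
def disA (τ : ℕ → Al) : Finset (ℕ × ℕ × ℕ) :=
  (pts I).toFinset.filter fun u => σ' ((pts I).idxOf u) ≠ τ u.1

theorem vio_le : (vio0 I σ').card + ∑ x ∈ (sides I).toFinset, (edg I σ' x).card ≤
    (vioA I σ').card := by
  classical
  rw [← Finset.card_sigma, ← Finset.card_disjSum]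
  refine Finset.card_le_card_of_injOn
    (Sum.elim (fun v => (v, (.inl () : Lb)))
      (fun b : (_ : ℕ) × ((ℕ × ℕ) × Fin 8) =>
        ((pts I).idxOf (b.1, b.2.1), (.inr (.inl b.2.2) : Lb)))) ?_ ?_
  · intro q hq
    rw [Finset.mem_coe] at hq ⊢
    rcases q with v | b
    · rw [Finset.inl_mem_disjSum] at hq
      simp only [vio0, vioA, Sum.elim_inl, Finset.mem_filter, Finset.mem_product,
        Finset.mem_univ, and_true] at hq ⊢
      exact hq
    · rw [Finset.inr_mem_disjSum, Finset.mem_sigma] at hq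
      obtain ⟨hx, hb⟩ := hq
      simp only [edg, Finset.mem_filter, Finset.mem_product, Finset.mem_univ, and_true,
        List.mem_toFinset] at hx hb
      have hu : (b.1, b.2.1) ∈ pts I := mem_pts.2 ⟨hx, hb.1⟩
      have hlt := idxOf_pts_lt hu
      simp only [vioA, Sum.elim_inr, Finset.mem_filter, Finset.mem_product,
        Finset.mem_univ, and_true, Finset.mem_range]
      refine ⟨hlt.trans_le (length_pts_le I), ?_⟩
      simp only [rl, nb, if_pos hlt, getD_idxOf hu]
      rw [decide_eq_false_iff_not]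
      exact hb.2
  · intro q hq q' hq' h
    rw [Finset.mem_coe] at hq hq'
    rcases q with v | b <;> rcases q' with v' | b'
    · simp only [Sum.elim_inl, Prod.mk.injEq, and_true] at h
      rw [h]
    · simp at h
    · simp at h
    · rw [Finset.inr_mem_disjSum, Finset.mem_sigma] at hq hq'
      simp only [edg, Finset.mem_filter, Finset.mem_product, Finset.mem_univ, and_true,
        List.mem_toFinset] at hq hq'
      simp only [Sum.elim_inr, Prod.mk.injEq, Sum.inr.injEq, Sum.inl.injEq] at h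
      have hm : (b.1, b.2.1) ∈ pts I := mem_pts.2 ⟨hq.1, hq.2.1⟩
      have hm' : (b'.1, b'.2.1) ∈ pts I := mem_pts.2 ⟨hq'.1, hq'.2.1⟩
      have h1 : (b.1, b.2.1) = (b'.1, b'.2.1) := idxOf_pts_inj hm hm' h.1
      obtain ⟨x, p, j⟩ := b
      obtain ⟨x', p', j'⟩ := b'
      simp only [Prod.mk.injEq] at h1
      obtain ⟨h2, h3⟩ := h1
      have h4 := h.2
      simp only at h2 h3 h4
      subst h2 h3 h4
      rfl

theorem disA_le (τ : ℕ → Al) : (disA I σ' τ).card ≤ ∑ x ∈ (sides I).toFinset,
    ((slots (csz I x)).toFinset.filter fun p => σ' ((pts I).idxOf (x, p)) ≠ τ x).card := by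
  classical
  rw [Finset.card_eq_sum_card_fiberwise (f := fun u : ℕ × ℕ × ℕ => u.1)
    (t := (sides I).toFinset)]
  · refine Finset.sum_le_sum fun x _ => ?_
    refine Finset.card_le_card_of_injOn (fun u => u.2) ?_ ?_
    · intro u hu
      rw [Finset.mem_coe, Finset.mem_filter] at hu
      obtain ⟨hu, rfl⟩ := hu
      simp only [disA, Finset.mem_filter, List.mem_toFinset] at hu
      rw [Finset.mem_coe, Finset.mem_filter, List.mem_toFinset]
      exact ⟨(mem_pts.1 hu.1).2, hu.2⟩
    · intro u hu u' hu' h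
      rw [Finset.mem_coe, Finset.mem_filter] at hu hu'
      exact Prod.ext (hu.2.trans hu'.2.symm) h
  · intro u hu
    rw [Finset.mem_coe] at hu ⊢
    simp only [disA, Finset.mem_filter, List.mem_toFinset] at hu ⊢
    exact (mem_pts.1 hu.1).1

theorem viol_le (τ : ℕ → Al) : viol I τ ≤ (vio0 I σ').card + (disA I σ' τ).card := by
  classical
  rw [viol, countP_eq_card I _ (0, 0, top), ← Finset.card_disjSum]
  refine Finset.card_le_card_of_injOn (fun i =>
    if σ' ((pts I).idxOf (sidePt I (2 * i))) = τ (sidePt I (2 * i)).1 then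
      (if σ' ((pts I).idxOf (sidePt I (2 * i + 1))) = τ (sidePt I (2 * i + 1)).1 then
        Sum.inl ((pts I).idxOf (sidePt I (2 * i)))
      else Sum.inr (sidePt I (2 * i + 1)))
    else Sum.inr (sidePt I (2 * i))) ?_ ?_
  · intro i hi
    rw [Finset.mem_coe, Finset.mem_filter, Finset.mem_range] at hi
    obtain ⟨hi, hv⟩ := hi
    have hc : I[i]? = some (I.getD i (0, 0, top)) := by
      rw [List.getD_eq_getElem _ _ hi, List.getElem?_eq_getElem hi]
    set c := I.getD i (0, 0, top) with hcdef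
    have hs1 : 2 * i < (sides I).length := by rw [length_sides]; omega
    have hs2 : 2 * i + 1 < (sides I).length := by rw [length_sides]; omega
    obtain ⟨hx1, hx2⟩ := sides_getD I hc
    obtain ⟨hr1, hr2⟩ := srel_getD I hc
    obtain ⟨hp1, hp2⟩ := spar_getD I hi
    have hf1 : (sidePt I (2 * i)).1 = c.1 := hx1
    have hf2 : (sidePt I (2 * i + 1)).1 = c.2.1 := hx2
    have hm1 := sidePt_mem hs1
    have hm2 := sidePt_mem hs2
    rw [Finset.mem_coe]
    dsimp only
    split_ifs with h1 h2
    · rw [Finset.inl_mem_disjSum]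
      unfold vio0
      have hlt := idxOf_pts_lt hm1
      rw [Finset.mem_filter, Finset.mem_range]
      refine ⟨hlt.trans_le (length_pts_le I), ?_⟩
      have hrl : rl I (.inl ()) ((pts I).idxOf (sidePt I (2 * i))) = c.2.2 := by
        simp only [rl, if_pos hlt, getD_idxOf hm1, ptSide_sidePt hs1, hr1]
      have hnb : nb I (.inl ()) ((pts I).idxOf (sidePt I (2 * i))) =
          (pts I).idxOf (sidePt I (2 * i + 1)) := by
        simp only [nb, if_pos hlt, getD_idxOf hm1, ptSide_sidePt hs1, hp1]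
      rw [hrl, hnb, h1, h2, hf1, hf2]
      simpa using hv
    · rw [Finset.inr_mem_disjSum]
      unfold disA
      rw [Finset.mem_filter, List.mem_toFinset]
      exact ⟨hm2, h2⟩
    · rw [Finset.inr_mem_disjSum]
      unfold disA
      rw [Finset.mem_filter, List.mem_toFinset]
      exact ⟨hm1, h1⟩
  · intro i hi i' hi' h
    rw [Finset.mem_coe, Finset.mem_filter, Finset.mem_range] at hi hi'
    have hs1 : 2 * i < (sides I).length := by rw [length_sides]; omega
    have hs2 : 2 * i + 1 < (sides I).length := by rw [length_sides]; omega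
    have hs1' : 2 * i' < (sides I).length := by rw [length_sides]; omega
    have hs2' : 2 * i' + 1 < (sides I).length := by rw [length_sides]; omega
    dsimp only at h
    split_ifs at h
    · have h1 := idxOf_pts_inj (sidePt_mem hs1) (sidePt_mem hs1') (Sum.inl.inj h)
      have h2 := sidePt_inj hs1 hs1' h1
      omega
    · have h2 := sidePt_inj hs2 hs2' (Sum.inr.inj h)
      omega
    · have h2 := sidePt_inj hs2 hs1' (Sum.inr.inj h)
      omega
    · have h2 := sidePt_inj hs1 hs2' (Sum.inr.inj h)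
      omega
    · have h2 := sidePt_inj hs1 hs1' (Sum.inr.inj h)
      omega

end

theorem vioA_le (I : Inst) (G : PG (Fin (nV I)) Lb Al) (hG : Agree I G)
    (σ : Fin (nV I) → Al) :
    (vioA I fun v => if h : v < nV I then σ ⟨v, h⟩ else 0).card ≤ G.viol σ := by
  classical
  unfold PG.viol
  refine le_trans (Finset.card_le_card ?_)
    (Finset.card_image_le (f := fun p : Fin (nV I) × Lb => ((p.1 : ℕ), p.2)))
  intro q hq
  unfold vioA at hq
  rw [Finset.mem_filter, Finset.mem_product, Finset.mem_range] at hq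
  obtain ⟨⟨hq1, -⟩, hq2⟩ := hq
  rw [Finset.mem_image]
  refine ⟨(⟨q.1, hq1⟩, q.2), ?_, rfl⟩
  rw [Finset.mem_filter]
  refine ⟨Finset.mem_univ _, ?_⟩
  have h1 : ((G.nb q.2 ⟨q.1, hq1⟩ : Fin (nV I)) : ℕ) = nb I q.2 q.1 := hG.nb q.2 ⟨q.1, hq1⟩
  have h2 : nb I q.2 q.1 < nV I := by rw [← h1]; exact (G.nb q.2 ⟨q.1, hq1⟩).2
  have h3 : G.nb q.2 ⟨q.1, hq1⟩ = ⟨nb I q.2 q.1, h2⟩ := Fin.ext h1
  dsimp only at hq2
  rw [dif_pos hq1, dif_pos h2] at hq2
  rw [hG.rl]
  change rl I q.2 q.1 (σ ⟨q.1, hq1⟩) (σ (G.nb q.2 ⟨q.1, hq1⟩)) = false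
  rw [h3]
  exact hq2

/-- **Soundness of the graph of a constraint list.** -/
theorem preGap (h : StTorEdge) : StPreGap := by
  classical
  obtain ⟨h, h0, h1, H⟩ := h
  refine ⟨h, h0, fun I G hG σ => ?_⟩
  set σ' : ℕ → Al := fun v => if h : v < nV I then σ ⟨v, h⟩ else 0 with hσ'
  choose τ hτ using fun x => cloud_edge H h0 (csz I x) (fun p => σ' ((pts I).idxOf (x, p)))
  refine ⟨τ, ?_⟩
  have a1 := vio_le I σ'
  have a2 := disA_le I σ' τ
  have a3 := viol_le I σ' τ
  have a4 := vioA_le I G hG σ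
  have b : h * ((∑ x ∈ (sides I).toFinset,
      ((slots (csz I x)).toFinset.filter fun p => σ' ((pts I).idxOf (x, p)) ≠ τ x).card : ℕ) : ℝ) ≤
      ((∑ x ∈ (sides I).toFinset, (edg I σ' x).card : ℕ) : ℝ) := by
    rw [Nat.cast_sum, Nat.cast_sum, Finset.mul_sum]
    exact Finset.sum_le_sum fun x _ => hτ x
  have c0 : (0 : ℝ) ≤ ((vio0 I σ').card : ℝ) := Nat.cast_nonneg _
  have c1 : ((vio0 I σ').card : ℝ) + ((∑ x ∈ (sides I).toFinset, (edg I σ' x).card : ℕ) : ℝ) ≤
      (G.viol σ : ℝ) := by
    exact_mod_cast a1.trans a4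
  have c2 : (viol I τ : ℝ) ≤ ((vio0 I σ').card : ℝ) + ((∑ x ∈ (sides I).toFinset,
      ((slots (csz I x)).toFinset.filter fun p => σ' ((pts I).idxOf (x, p)) ≠ τ x).card : ℕ) :
        ℝ) := by
    exact_mod_cast a3.trans (Nat.add_le_add_left a2 _)
  calc h * (viol I τ : ℝ) ≤ h * (((vio0 I σ').card : ℝ) + ((∑ x ∈ (sides I).toFinset,
      ((slots (csz I x)).toFinset.filter fun p => σ' ((pts I).idxOf (x, p)) ≠ τ x).card : ℕ) :
        ℝ)) := mul_le_mul_of_nonneg_left c2 h0.le
    _ = h * ((vio0 I σ').card : ℝ) + h * ((∑ x ∈ (sides I).toFinset,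
      ((slots (csz I x)).toFinset.filter fun p => σ' ((pts I).idxOf (x, p)) ≠ τ x).card : ℕ) :
        ℝ) := by ring
    _ ≤ 1 * ((vio0 I σ').card : ℝ) +
        ((∑ x ∈ (sides I).toFinset, (edg I σ' x).card : ℕ) : ℝ) :=
        add_le_add (mul_le_mul_of_nonneg_right h1 c0) b
    _ ≤ _ := by rw [one_mul]; exact c1

end Pool.Agent.Lib.MP_186ff7_lc.PCP
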