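import Pool.Agent.Lib.MP_186ff7_lc.PCP.Stmts
import Pool.Agent.Lib.MP_186ff7_lc.PCP.Words

/-!
# The PCP theorem: the second moment of the number of edges of `F` on a random walk
-/

set_option linter.unusedSectionVars false

namespace Pool.Agent.Lib.MP_186ff7_lc.PCP

open Finset

namespace PG

variable {V D A : Type} [Fintype V] [Fintype D] (G : PG V D A) (F : V → D → Bool)

/-- The fraction of the labels at `v` that belong to `F`. -/
noncomputable def gF (F : V → D → Bool) (v : V) : ℝ :=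
  (∑ j, ((F v j).toNat : ℝ)) / Fintype.card D

/-- The mean number of edges of `F` on a random walk of length `L` from `v`. -/
noncomputable def mF : ℕ → V → ℝ
  | 0, _ => 0
  | L + 1, v => gF F v + G.avg (mF L) v

/-- The same for a function with mean zero. -/
noncomputable def hF (g : V → ℝ) : ℕ → V → ℝ
  | 0, _ => 0
  | L + 1, v => g v + G.avg (hF g L) v

private theorem avg_sum [Nonempty D] (f : V → ℝ) : ∑ v, G.avg f v = ∑ v, f v := by
  have hd : (Fintype.card D : ℝ) ≠ 0 := by exact_mod_cast Fintype.card_ne_zero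
  unfold avg
  rw [← Finset.sum_div, Finset.sum_comm]
  simp only [G.sum_nb]
  rw [Finset.sum_const, Finset.card_univ, nsmul_eq_mul]
  field_simp

private theorem avg_add (f g : V → ℝ) (v : V) :
    G.avg (fun u => f u + g u) v = G.avg f v + G.avg g v := by
  unfold avg
  rw [Finset.sum_add_distrib, add_div]

private theorem avg_const [Nonempty D] (c : ℝ) (v : V) : G.avg (fun _ => c) v = c := by
  have hd : (Fintype.card D : ℝ) ≠ 0 := by exact_mod_cast Fintype.card_ne_zero
  unfold avg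
  rw [Finset.sum_const, Finset.card_univ, nsmul_eq_mul]
  field_simp

/-- The first moment. -/
private theorem wsum_cnt [Nonempty D] (L : ℕ) (v : V) :
    wsum L (fun w => (G.cnt F v w : ℝ)) = (Fintype.card D : ℝ) ^ L * G.mF F L v := by
  have hd : (Fintype.card D : ℝ) ≠ 0 := by exact_mod_cast Fintype.card_ne_zero
  induction L generalizing v with
  | zero => simp [wsum, cnt, mF]
  | succ L ih =>
    simp only [wsum, cnt, Nat.cast_add, wsum_fun_add, wsum_const, ih, Finset.sum_add_distrib,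
      ← Finset.mul_sum]
    simp only [mF, gF, avg]
    rw [pow_succ]
    field_simp

/-- Splitting off the mean. -/
private theorem mF_eq [Nonempty D] (f : ℝ) (L : ℕ) (v : V) :
    G.mF F L v = L * f + G.hF (fun u => gF F u - f) L v := by
  induction L generalizing v with
  | zero => simp [mF, hF]
  | succ L ih =>
    have h1 : G.avg (G.mF F L) v = L * f + G.avg (G.hF (fun u => gF F u - f) L) v := by
      rw [show G.mF F L = fun u => (L * f) + G.hF (fun u => gF F u - f) L u from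
        funext fun u => ih u, G.avg_add, G.avg_const]
    simp only [mF, hF, h1]
    push_cast
    ring

private theorem hF_sum [Nonempty D] (g : V → ℝ) (hg : ∑ v, g v = 0) (L : ℕ) :
    ∑ v, G.hF g L v = 0 := by
  induction L with
  | zero => simp [hF]
  | succ L ih =>
    simp only [hF]
    rw [Finset.sum_add_distrib, G.avg_sum, ih, hg, add_zero]

private theorem hF_sq [Nonempty D] {ρ : ℝ} (h0 : 0 ≤ ρ) (h1 : ρ < 1) (hG : G.Contr ρ) (g : V → ℝ)
    (hg : ∑ v, g v = 0) (L : ℕ) :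
    ∑ v, G.hF g L v ^ 2 ≤ (∑ v, g v ^ 2) / (1 - ρ) ^ 2 := by
  have hX : 0 ≤ ∑ v, g v ^ 2 := Finset.sum_nonneg fun v _ => sq_nonneg _
  have hr : 0 < 1 - ρ := by linarith
  induction L with
  | zero =>
    simp only [hF]
    simp only [ne_eq, OfNat.ofNat_ne_zero, not_false_eq_true, zero_pow, Finset.sum_const_zero]
    positivity
  | succ L ih =>
    have hc := hG (G.hF g L) (G.hF_sum g hg L)
    rcases eq_or_lt_of_le h0 with h2 | h2
    · -- `ρ = 0`
      subst h2
      simp only [ne_eq, OfNat.ofNat_ne_zero, not_false_eq_true, zero_pow, zero_mul] at hc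
      have hz : ∀ v, G.avg (G.hF g L) v = 0 := by
        intro v
        have h3 : ∑ v, G.avg (G.hF g L) v ^ 2 = 0 :=
          le_antisymm hc (Finset.sum_nonneg fun v _ => sq_nonneg _)
        have h4 := (Finset.sum_eq_zero_iff_of_nonneg fun v _ => sq_nonneg _).1 h3 v
          (Finset.mem_univ v)
        exact pow_eq_zero_iff (two_ne_zero) |>.1 h4
      simp only [hF, hz, add_zero, sub_zero, one_pow, div_one]
      exact le_refl _
    · have h3 : ∀ a b : ℝ, (a + b) ^ 2 ≤ a ^ 2 / (1 - ρ) + b ^ 2 / ρ := by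
        intro a b
        have h4 : a ^ 2 / (1 - ρ) + b ^ 2 / ρ - (a + b) ^ 2 =
            (ρ * a - (1 - ρ) * b) ^ 2 / (ρ * (1 - ρ)) := by
          field_simp
          ring
        have h5 : 0 ≤ (ρ * a - (1 - ρ) * b) ^ 2 / (ρ * (1 - ρ)) := by positivity
        linarith
      have h4 : ∑ v, G.hF g (L + 1) v ^ 2 ≤
          (∑ v, g v ^ 2) / (1 - ρ) + (∑ v, G.avg (G.hF g L) v ^ 2) / ρ := by
        rw [Finset.sum_div, Finset.sum_div, ← Finset.sum_add_distrib]
        exact Finset.sum_le_sum fun v _ => h3 _ _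
      have h5 : (∑ v, G.avg (G.hF g L) v ^ 2) / ρ ≤ ρ * ((∑ v, g v ^ 2) / (1 - ρ) ^ 2) := by
        rw [div_le_iff₀ h2]
        have h6 := mul_le_mul_of_nonneg_left ih (sq_nonneg ρ)
        nlinarith [h6, hc]
      have h6 : (∑ v, g v ^ 2) / (1 - ρ) + ρ * ((∑ v, g v ^ 2) / (1 - ρ) ^ 2) =
          (∑ v, g v ^ 2) / (1 - ρ) ^ 2 := by
        field_simp
        ring
      linarith

private theorem hF_inner [Nonempty D] {ρ : ℝ} (h0 : 0 ≤ ρ) (h1 : ρ < 1) (hG : G.Contr ρ) (g : V → ℝ)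
    (hg : ∑ v, g v = 0) (L : ℕ) :
    ∑ v, g v * G.hF g L v ≤ (∑ v, g v ^ 2) / (1 - ρ) := by
  have hr : 0 < 1 - ρ := by linarith
  have h2 := G.hF_sq h0 h1 hG g hg L
  have h3 : ∀ a b : ℝ, a * b ≤ a ^ 2 / (2 * (1 - ρ)) + b ^ 2 * ((1 - ρ) / 2) := by
    intro a b
    have h4 : a ^ 2 / (2 * (1 - ρ)) + b ^ 2 * ((1 - ρ) / 2) - a * b =
        (a - (1 - ρ) * b) ^ 2 / (2 * (1 - ρ)) := by
      field_simp
      ring
    have h5 : 0 ≤ (a - (1 - ρ) * b) ^ 2 / (2 * (1 - ρ)) := by positivity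
    linarith
  have h4 : ∑ v, g v * G.hF g L v ≤
      (∑ v, g v ^ 2) / (2 * (1 - ρ)) + (∑ v, G.hF g L v ^ 2) * ((1 - ρ) / 2) := by
    rw [Finset.sum_div, Finset.sum_mul, ← Finset.sum_add_distrib]
    exact Finset.sum_le_sum fun v _ => h3 _ _
  have h5 : (∑ v, G.hF g L v ^ 2) * ((1 - ρ) / 2) ≤
      ((∑ v, g v ^ 2) / (1 - ρ) ^ 2) * ((1 - ρ) / 2) :=
    mul_le_mul_of_nonneg_right h2 (by positivity)
  have h6 : (∑ v, g v ^ 2) / (2 * (1 - ρ)) + ((∑ v, g v ^ 2) / (1 - ρ) ^ 2) * ((1 - ρ) / 2) =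
      (∑ v, g v ^ 2) / (1 - ρ) := by
    field_simp
    ring
  linarith

/-- Edges of `F` and a function of their ends. -/
private theorem sum_F_nb [Nonempty D] (hF : ∀ v j, F (G.nb j v) (G.inv j) = F v j) (m : V → ℝ) :
    ∑ v, ∑ j, ((F v j).toNat : ℝ) * m (G.nb j v) = Fintype.card D * ∑ v, gF F v * m v := by
  have hd : (Fintype.card D : ℝ) ≠ 0 := by exact_mod_cast Fintype.card_ne_zero
  rw [Finset.sum_comm]
  have h1 : ∀ j, ∑ v, ((F v j).toNat : ℝ) * m (G.nb j v) =
      ∑ v, ((F v (G.inv j)).toNat : ℝ) * m v := by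
    intro j
    rw [← G.sum_nb j fun v => ((F v (G.inv j)).toNat : ℝ) * m v]
    exact Finset.sum_congr rfl fun v _ => by rw [hF]
  simp only [h1]
  rw [G.sum_inv fun j => ∑ v, ((F v j).toNat : ℝ) * m v, Finset.sum_comm, Finset.mul_sum]
  refine Finset.sum_congr rfl fun v _ => ?_
  unfold gF
  rw [← Finset.sum_mul]
  field_simp

private theorem gF_nonneg (v : V) : 0 ≤ gF F v := by
  unfold gF
  positivity

private theorem gF_le_one [Nonempty D] (v : V) : gF F v ≤ 1 := by
  have hd : (0 : ℝ) < Fintype.card D := by exact_mod_cast Fintype.card_pos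
  unfold gF
  rw [div_le_one hd]
  calc (∑ j, ((F v j).toNat : ℝ)) ≤ ∑ _j : D, (1 : ℝ) :=
        Finset.sum_le_sum fun j _ => by exact_mod_cast Bool.toNat_le (F v j)
    _ = Fintype.card D := by rw [Finset.sum_const, Finset.card_univ, nsmul_eq_mul, mul_one]

private theorem sum_toNat :
    ∑ v, ∑ j, ((F v j).toNat : ℝ) =
      ((Finset.univ.filter fun p : V × D => F p.1 p.2 = true).card : ℝ) := by
  rw [← Fintype.sum_prod_type' (fun v j => ((F v j).toNat : ℝ)), Finset.card_filter]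
  push_cast
  refine Finset.sum_congr rfl fun p _ => ?_
  cases F p.1 p.2 <;> simp

end PG

theorem second : StSecond := by
  intro V D A _ _ _ _ G ρ h0 h1 hG F hF L f hf
  have hd : (0 : ℝ) < Fintype.card D := by exact_mod_cast Fintype.card_pos
  have hN : (0 : ℝ) < Fintype.card V := by exact_mod_cast Fintype.card_pos
  have hr : 0 < 1 - ρ := by linarith
  set N : ℝ := (Fintype.card V : ℝ) with hNdef
  set d : ℝ := (Fintype.card D : ℝ) with hddef
  have hcard : ∑ v, ∑ j, ((F v j).toNat : ℝ) = N * d * f := by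
    rw [PG.sum_toNat, hf]
    field_simp
  have hg : ∑ v, PG.gF F v = N * f := by
    unfold PG.gF
    rw [← Finset.sum_div, hcard, ← hddef]
    field_simp
  have hf0 : 0 ≤ f := by rw [hf]; positivity
  -- the bound of the correlations
  have hcor : ∀ L : ℕ, ∑ v, PG.gF F v * G.mF F L v ≤ N * (L * f ^ 2 + f / (1 - ρ)) := by
    intro L
    have hg0 : ∑ v, (PG.gF F v - f) = 0 := by
      rw [Finset.sum_sub_distrib, hg, Finset.sum_const, Finset.card_univ, nsmul_eq_mul, ← hNdef]
      ring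
    have h2 := G.hF_inner h0 h1 hG (fun u => PG.gF F u - f) hg0 L
    have h3 : ∑ v, (PG.gF F v - f) ^ 2 ≤ N * f := by
      have h4 : ∀ v, (PG.gF F v - f) ^ 2 ≤ PG.gF F v + (f ^ 2 - 2 * f * PG.gF F v) := by
        intro v
        have h5 := PG.gF_nonneg F v
        have h6 := PG.gF_le_one F v
        nlinarith [mul_nonneg h5 (sub_nonneg.2 h6)]
      calc ∑ v, (PG.gF F v - f) ^ 2 ≤ ∑ v, (PG.gF F v + (f ^ 2 - 2 * f * PG.gF F v)) :=
            Finset.sum_le_sum fun v _ => h4 v
        _ = N * f - N * f ^ 2 := by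
            rw [Finset.sum_add_distrib, Finset.sum_sub_distrib, ← Finset.mul_sum, hg,
              Finset.sum_const, Finset.card_univ, nsmul_eq_mul, ← hNdef]
            ring
        _ ≤ N * f := by nlinarith [mul_nonneg hN.le (sq_nonneg f)]
    have h4 : ∑ v, PG.gF F v * G.mF F L v =
        N * (L * f ^ 2) + ∑ v, (PG.gF F v - f) * G.hF (fun u => PG.gF F u - f) L v := by
      have h5 : ∀ v, PG.gF F v * G.mF F L v = (L * f) * PG.gF F v +
          (f * G.hF (fun u => PG.gF F u - f) L v +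
          (PG.gF F v - f) * G.hF (fun u => PG.gF F u - f) L v) := by
        intro v
        rw [G.mF_eq F f L v]
        ring
      simp only [h5]
      rw [Finset.sum_add_distrib, Finset.sum_add_distrib, ← Finset.mul_sum, ← Finset.mul_sum,
        hg, G.hF_sum _ hg0]
      ring
    have h5 : (∑ v, (PG.gF F v - f) ^ 2) / (1 - ρ) ≤ N * f / (1 - ρ) :=
      div_le_div_of_nonneg_right h3 hr.le
    rw [h4]
    calc N * (L * f ^ 2) + ∑ v, (PG.gF F v - f) * G.hF (fun u => PG.gF F u - f) L v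
        ≤ N * (L * f ^ 2) + N * f / (1 - ρ) := by linarith
      _ = N * (L * f ^ 2 + f / (1 - ρ)) := by ring
  -- the recursion
  have hrec : ∀ L : ℕ, ∑ v, wsum (L + 1) (fun w => (G.cnt F v w : ℝ) ^ 2) =
      d ^ L * (N * d * f) + 2 * d ^ (L + 1) * ∑ v, PG.gF F v * G.mF F L v +
        d * ∑ v, wsum L (fun w => (G.cnt F v w : ℝ) ^ 2) := by
    intro L
    have h2 : ∀ v j, wsum L (fun w => (G.cnt F v (j :: w) : ℝ) ^ 2) =
        d ^ L * ((F v j).toNat : ℝ) +
        (2 * d ^ L) * (((F v j).toNat : ℝ) * G.mF F L (G.nb j v)) +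
        wsum L (fun w => (G.cnt F (G.nb j v) w : ℝ) ^ 2) := by
      intro v j
      have h3 : ∀ w, (G.cnt F v (j :: w) : ℝ) ^ 2 = ((F v j).toNat : ℝ) +
          (2 * ((F v j).toNat : ℝ)) * (G.cnt F (G.nb j v) w : ℝ) +
          (G.cnt F (G.nb j v) w : ℝ) ^ 2 := by
        intro w
        have h4 : ((F v j).toNat : ℝ) ^ 2 = ((F v j).toNat : ℝ) := by cases F v j <;> simp
        simp only [PG.cnt, Nat.cast_add]
        linear_combination h4
      simp only [h3]
      rw [wsum_fun_add, wsum_fun_add, wsum_const, wsum_mul_left, G.wsum_cnt F]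
      ring
    simp only [wsum, h2, Finset.sum_add_distrib, ← Finset.mul_sum]
    rw [hcard, G.sum_F_nb F hF, Finset.sum_comm (f := fun v j =>
      wsum L (fun w => (G.cnt F (G.nb j v) w : ℝ) ^ 2))]
    have h5 : ∀ j, ∑ v, wsum L (fun w => (G.cnt F (G.nb j v) w : ℝ) ^ 2) =
        ∑ v, wsum L (fun w => (G.cnt F v w : ℝ) ^ 2) := fun j =>
      G.sum_nb j fun v => wsum L (fun w => (G.cnt F v w : ℝ) ^ 2)
    simp only [h5]
    rw [Finset.sum_const, Finset.card_univ, nsmul_eq_mul, ← hddef]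
    ring
  -- the induction
  have hmain : ∀ L : ℕ, ∑ v, wsum L (fun w => (G.cnt F v w : ℝ) ^ 2) ≤
      N * d ^ L * (L * f + (L : ℝ) * (L - 1) * f ^ 2 + 2 * L * f / (1 - ρ)) := by
    intro L
    induction L with
    | zero => simp [wsum, PG.cnt]
    | succ L ih =>
      rw [hrec]
      have h2 := hcor L
      have h3 : 2 * d ^ (L + 1) * ∑ v, PG.gF F v * G.mF F L v ≤
          2 * d ^ (L + 1) * (N * (L * f ^ 2 + f / (1 - ρ))) :=
        mul_le_mul_of_nonneg_left h2 (by positivity)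
      have h4 := mul_le_mul_of_nonneg_left ih hd.le
      have h5 : d ^ L * (N * d * f) + 2 * d ^ (L + 1) * (N * (L * f ^ 2 + f / (1 - ρ))) +
          d * (N * d ^ L * (L * f + (L : ℝ) * (L - 1) * f ^ 2 + 2 * L * f / (1 - ρ))) =
          N * d ^ (L + 1) * ((L + 1 : ℕ) * f + ((L + 1 : ℕ) : ℝ) * ((L + 1 : ℕ) - 1) * f ^ 2 +
            2 * (L + 1 : ℕ) * f / (1 - ρ)) := by
        push_cast
        ring
      linarith
  refine (hmain L).trans ?_
  refine mul_le_mul_of_nonneg_left ?_ (by positivity)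
  have h2 : (L : ℝ) * (L - 1) * f ^ 2 ≤ (L : ℝ) ^ 2 * f ^ 2 := by
    have : (0 : ℝ) ≤ L := Nat.cast_nonneg L
    nlinarith [mul_nonneg this (sq_nonneg f)]
  linarith

end Pool.Agent.Lib.MP_186ff7_lc.PCP
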