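import Pool.Agent.Lib.MP_186ff7_lc.PCP.Stmts
import Pool.Agent.Lib.MP_186ff7_lc.PCP.Slots

/-!
# The PCP theorem: the size of the graph, and completeness
-/

namespace Pool.Agent.Lib.MP_186ff7_lc.PCP

/-! ### The number of vertices -/

theorem occ_length (I : Inst) (x : ℕ) : (occ I x).length = (sides I).count x := by
  have h : sides I = (List.range (sides I).length).map fun s => (sides I).getD s 0 := by
    refine List.ext_getElem (by simp) fun i h1 h2 => ?_
    rw [List.getElem_map, List.getElem_range, List.getD_eq_getElem _ _ h1]
  unfold occ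
  conv_rhs => rw [h]
  rw [List.count, List.countP_map, List.countP_eq_length_filter]
  congr 1

theorem pts_length_le (I : Inst) : (pts I).length ≤ 8 * I.length := by
  unfold pts
  rw [List.length_flatMap]
  have h1 : ((sides I).dedup.map fun x => ((slots (csz I x)).map fun p => (x, p)).length).sum ≤
      ((sides I).dedup.map fun x => 4 * (sides I).count x).sum := by
    refine List.sum_le_sum fun x _ => ?_
    rw [List.length_map, length_slots, ← occ_length]
    exact rt_le _
  refine h1.trans ?_
  rw [List.sum_map_mul_left, List.sum_map_count_dedup_eq_length, length_sides]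
  omega

theorem pts_length_pos {I : Inst} (hI : I ≠ []) : 0 < (pts I).length := by
  have h0 : 0 < (sides I).length := by
    rw [length_sides]
    have := List.length_pos_of_ne_nil hI
    omega
  exact List.length_pos_of_mem (sidePt_mem h0)

theorem size : StSize := by
  intro I hI
  have h1 := rt_pos (pts_length_pos hI)
  refine ⟨Nat.mul_pos h1 h1, ?_⟩
  have h2 := rt_le (pts I).length
  have h3 := pts_length_le I
  unfold nV bsz
  omega

/-! ### Completeness -/

theorem spar_lt {I : Inst} {s : ℕ} (hs : s < (sides I).length) :
    (spar I).getD s 0 < (sides I).length := by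
  rw [length_sides] at hs ⊢
  rcases Nat.even_or_odd' s with ⟨i, rfl | rfl⟩
  · rw [(spar_getD I (show i < I.length by omega)).1]; omega
  · rw [(spar_getD I (show i < I.length by omega)).2]; omega

theorem preSat : StPreSat := by
  rintro I G hG ⟨τ, hτ⟩
  have hsat : ∀ c ∈ I, c.2.2 (τ c.1) (τ c.2.1) = true := by
    intro c hc
    have h := (List.countP_eq_zero.1 hτ) c hc
    simpa using h
  have hside : ∀ s, s < (sides I).length →
      (srel I).getD s top (τ ((sides I).getD s 0))
        (τ ((sides I).getD ((spar I).getD s 0) 0)) = true := by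
    intro s hs
    rw [length_sides] at hs
    rcases Nat.even_or_odd' s with ⟨i, rfl | rfl⟩
    · have hi : i < I.length := by omega
      have h1 := sides_getD I (List.getElem?_eq_getElem hi)
      have h2 := srel_getD I (List.getElem?_eq_getElem hi)
      have h3 := spar_getD I hi
      rw [h3.1, h1.1, h1.2, h2.1]
      exact hsat _ (List.getElem_mem _)
    · have hi : i < I.length := by omega
      have h1 := sides_getD I (List.getElem?_eq_getElem hi)
      have h2 := srel_getD I (List.getElem?_eq_getElem hi)
      have h3 := spar_getD I hi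
      rw [h3.2, h1.1, h1.2, h2.2]
      exact hsat _ (List.getElem_mem _)
  refine ⟨fun v => τ ((pts I).getD v (0, 0, 0)).1, ?_⟩
  unfold PG.viol
  rw [Finset.card_eq_zero, Finset.filter_eq_empty_iff]
  rintro ⟨v, j⟩ - h
  simp only at h
  rw [hG.rl, hG.nb] at h
  rcases j with j | j | j | j
  · simp only [rl, nb] at h
    by_cases hv : (v : ℕ) < (pts I).length
    · rw [if_pos hv, if_pos hv] at h
      have hmem := getD_mem hv (0, 0, 0)
      rcases hp : ptSide I ((pts I).getD v (0, 0, 0)) with _ | ⟨s, l⟩
      · rw [hp] at h
        simp [top] at h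
      · rw [hp] at h
        simp only at h
        obtain ⟨h1, h2, h3, h4⟩ := ptSide_eq (mem_pts.1 hmem).2 hp
        rw [getD_idxOf (sidePt_mem (spar_lt h1)), ← h2] at h
        have h5 := hside s h1
        change (srel I).getD s top (τ ((sides I).getD s 0))
          (τ ((sides I).getD ((spar I).getD s 0) 0)) = false at h
        rw [h5] at h
        exact absurd h (by decide)
    · rw [if_neg hv, if_neg hv] at h
      simp [top] at h
  · change decide (τ ((pts I).getD v (0, 0, 0)).1 =
      τ ((pts I).getD (nb I (.inr (.inl j)) v) (0, 0, 0)).1) = false at h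
    rw [decide_eq_false_iff_not] at h
    apply h
    simp only [nb]
    by_cases hv : (v : ℕ) < (pts I).length
    · rw [if_pos hv]
      have hmem := getD_mem hv (0, 0, 0)
      have hm := mem_pts.1 hmem
      have h6 : (((pts I).getD v (0, 0, 0)).1,
          torN (csz I ((pts I).getD v (0, 0, 0)).1) j ((pts I).getD v (0, 0, 0)).2) ∈ pts I := by
        rw [mem_pts]
        exact ⟨hm.1, torN_mem _ hm.2⟩
      rw [getD_idxOf h6]
    · rw [if_neg hv]
  · simp [rl, top] at h
  · simp [rl, top] at h

end Pool.Agent.Lib.MP_186ff7_lc.PCP
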