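import Pool.Agent.Lib.MP_186ff7_lc.PCP.Stmts
import Pool.Agent.Lib.MP_186ff7_lc.PCP.Words

/-!
# The PCP theorem: a random walk leaves a set
-/

set_option linter.unusedSectionVars false

namespace Pool.Agent.Lib.MP_186ff7_lc.PCP

open Finset

namespace StayAux

variable {V D A : Type} [Fintype V] [Fintype D]

open Classical in
/-- The probability that the walk stays in `S`. -/
noncomputable def hh (G : PG V D A) (S : Finset V) : ℕ → V → ℝ
  | 0, v => if v ∈ S then 1 else 0
  | k + 1, v => if v ∈ S then G.avg (hh G S k) v else 0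

lemma hh_supp (G : PG V D A) (S : Finset V) (k : ℕ) (v : V) (hv : v ∉ S) : hh G S k v = 0 := by
  cases k with
  | zero => simp [hh, hv]
  | succ k => simp [hh, hv]

open Classical in
lemma wsum_stay [Nonempty D] (G : PG V D A) (S : Finset V) (k : ℕ) (v : V) :
    wsum k (fun w => if ∀ i ≤ k, G.go v (w.take i) ∈ S then (1 : ℝ) else 0) =
      Fintype.card D ^ k * hh G S k v := by
  induction k generalizing v with
  | zero =>
    simp [wsum, hh]
  | succ k ih =>
    have hd : (Fintype.card D : ℝ) ≠ 0 := by exact_mod_cast Fintype.card_ne_zero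
    have h1 : ∀ (j : D) (w : List D),
        (if ∀ i ≤ k + 1, G.go v ((j :: w).take i) ∈ S then (1 : ℝ) else 0) =
        (if v ∈ S then 1 else 0) * (if ∀ i ≤ k, G.go (G.nb j v) (w.take i) ∈ S then (1 : ℝ) else 0)
        := by
      intro j w
      by_cases hv : v ∈ S
      · rw [if_pos hv, one_mul]
        refine if_congr ?_ rfl rfl
        constructor
        · intro h i hi
          have := h (i + 1) (by omega)
          simpa using this
        · intro h i hi
          cases i with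
          | zero => simpa using hv
          | succ i =>
            have := h i (by omega)
            simpa using this
      · rw [if_neg hv, zero_mul, if_neg]
        intro h
        have := h 0 (by omega)
        exact hv (by simpa using this)
    have h2 : wsum (k + 1) (fun w => if ∀ i ≤ k + 1, G.go v (w.take i) ∈ S then (1 : ℝ) else 0) =
        ∑ j, wsum k (fun w =>
          if ∀ i ≤ k + 1, G.go v ((j :: w).take i) ∈ S then (1 : ℝ) else 0) := rfl
    rw [h2]
    simp only [h1, wsum_mul_left, ih]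
    by_cases hv : v ∈ S
    · simp only [hv, if_true, one_mul, hh, PG.avg]
      rw [← Finset.mul_sum]
      field_simp
      ring
    · simp [hv, hh]

lemma sum_avg [Nonempty D] (G : PG V D A) (f : V → ℝ) : ∑ v, G.avg f v = ∑ v, f v := by
  have hd : (Fintype.card D : ℝ) ≠ 0 := by exact_mod_cast Fintype.card_ne_zero
  unfold PG.avg
  rw [← Finset.sum_div, Finset.sum_comm]
  simp only [G.sum_nb]
  rw [Finset.sum_const, Finset.card_univ, nsmul_eq_mul]
  field_simp

lemma avg_sub [Nonempty D] (G : PG V D A) (f : V → ℝ) (m : ℝ) (v : V) :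
    G.avg (fun u => f u - m) v = G.avg f v - m := by
  have hd : (Fintype.card D : ℝ) ≠ 0 := by exact_mod_cast Fintype.card_ne_zero
  unfold PG.avg
  rw [Finset.sum_sub_distrib, Finset.sum_const, Finset.card_univ, nsmul_eq_mul]
  field_simp

lemma contr_step [Nonempty V] [Nonempty D] (G : PG V D A) (ρ : ℝ) (h0 : 0 ≤ ρ) (h1 : ρ < 1)
    (hG : G.Contr ρ) (S : Finset V) (ε : ℝ) (hS : (S.card : ℝ) ≤ (1 - ε) * Fintype.card V)
    (f : V → ℝ) (hf : ∀ v, v ∉ S → f v = 0) :
    ∑ v, G.avg f v ^ 2 ≤ (1 - ε * (1 - ρ ^ 2)) * ∑ v, f v ^ 2 := by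
  have hN : (0 : ℝ) < Fintype.card V := by exact_mod_cast Fintype.card_pos
  set N : ℝ := ((Fintype.card V : ℕ) : ℝ) with hNdef
  set m : ℝ := (∑ v, f v) / N with hm
  have hsum : ∑ v, f v = N * m := by
    rw [hm]
    field_simp
  have h0sum : ∑ v, (f v - m) = 0 := by
    rw [Finset.sum_sub_distrib, Finset.sum_const, Finset.card_univ, nsmul_eq_mul, hsum]
    ring
  have hc := hG (fun v => f v - m) h0sum
  simp only [avg_sub] at hc
  have e1 : ∑ v, (G.avg f v - m) ^ 2 = ∑ v, G.avg f v ^ 2 - N * m ^ 2 := by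
    have : ∀ v, (G.avg f v - m) ^ 2 = G.avg f v ^ 2 - 2 * m * G.avg f v + m ^ 2 := by
      intro v
      ring
    simp only [this]
    rw [Finset.sum_add_distrib, Finset.sum_sub_distrib, ← Finset.mul_sum, sum_avg, hsum,
      Finset.sum_const, Finset.card_univ, nsmul_eq_mul]
    ring
  have e2 : ∑ v, (f v - m) ^ 2 = ∑ v, f v ^ 2 - N * m ^ 2 := by
    have : ∀ v, (f v - m) ^ 2 = f v ^ 2 - 2 * m * f v + m ^ 2 := by
      intro v
      ring
    simp only [this]
    rw [Finset.sum_add_distrib, Finset.sum_sub_distrib, ← Finset.mul_sum, hsum,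
      Finset.sum_const, Finset.card_univ, nsmul_eq_mul]
    ring
  rw [e1, e2] at hc
  have h3 : (∑ v, f v) ^ 2 ≤ S.card * ∑ v, f v ^ 2 := by
    have h4 : ∑ v, f v = ∑ v ∈ S, f v := by
      symm
      refine Finset.sum_subset (Finset.subset_univ _) fun v _ hv => hf v hv
    have h5 : ∑ v ∈ S, f v ^ 2 ≤ ∑ v, f v ^ 2 :=
      Finset.sum_le_sum_of_subset_of_nonneg (Finset.subset_univ _) fun v _ _ => sq_nonneg _
    rw [h4]
    refine (sq_sum_le_card_mul_sum_sq).trans ?_
    exact mul_le_mul_of_nonneg_left h5 (Nat.cast_nonneg _)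
  have hE : 0 ≤ ∑ v, f v ^ 2 := Finset.sum_nonneg fun v _ => sq_nonneg _
  have h6 : N * m ^ 2 ≤ (1 - ε) * ∑ v, f v ^ 2 := by
    rw [hsum] at h3
    have h7 : (N * m) ^ 2 ≤ ((1 - ε) * N) * ∑ v, f v ^ 2 :=
      h3.trans (mul_le_mul_of_nonneg_right hS hE)
    have h8 : N * (N * m ^ 2) ≤ N * ((1 - ε) * ∑ v, f v ^ 2) := by
      calc N * (N * m ^ 2) = (N * m) ^ 2 := by ring
        _ ≤ ((1 - ε) * N) * ∑ v, f v ^ 2 := h7
        _ = N * ((1 - ε) * ∑ v, f v ^ 2) := by ring
    exact le_of_mul_le_mul_left h8 hN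
  have hρ : 0 ≤ 1 - ρ ^ 2 := by nlinarith
  nlinarith [mul_le_mul_of_nonneg_left h6 hρ]

end StayAux

open StayAux in
theorem stay : StStay := by
  intro V D A _ _ _ _ G ρ h0 h1 hG S ε hε hS k
  have hN : (0 : ℝ) < Fintype.card V := by exact_mod_cast Fintype.card_pos
  have hε1 : ε ≤ 1 := by
    have : (0 : ℝ) ≤ (1 - ε) * Fintype.card V := (Nat.cast_nonneg _).trans hS
    by_contra hcon
    push Not at hcon
    nlinarith
  have hθ : 0 ≤ 1 - ε * (1 - ρ ^ 2) := by nlinarith [sq_nonneg ρ]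
  simp only [wsum_stay]
  rw [← Finset.mul_sum]
  have hE : ∀ k, ∑ v, hh G S k v ^ 2 ≤ Fintype.card V * (1 - ε * (1 - ρ ^ 2)) ^ k := by
    intro k
    induction k with
    | zero =>
      rw [pow_zero, mul_one]
      have : ∀ v ∈ (Finset.univ : Finset V), hh G S 0 v ^ 2 ≤ 1 := by
        intro v _
        simp only [hh]
        split_ifs <;> norm_num
      refine (Finset.sum_le_sum this).trans ?_
      simp
    | succ k ih =>
      have h2 : ∑ v, hh G S (k + 1) v ^ 2 ≤ ∑ v, G.avg (hh G S k) v ^ 2 := by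
        refine Finset.sum_le_sum fun v _ => ?_
        simp only [hh]
        split_ifs
        · exact le_rfl
        · simpa using sq_nonneg _
      refine h2.trans ((contr_step G ρ h0 h1 hG S ε hS _ (hh_supp G S k)).trans ?_)
      rw [pow_succ]
      calc (1 - ε * (1 - ρ ^ 2)) * ∑ v, hh G S k v ^ 2
          ≤ (1 - ε * (1 - ρ ^ 2)) * (Fintype.card V * (1 - ε * (1 - ρ ^ 2)) ^ k) :=
            mul_le_mul_of_nonneg_left ih hθ
        _ = _ := by ring
  have h3 : (∑ v, hh G S k v) ^ 2 ≤ Fintype.card V * ∑ v, hh G S k v ^ 2 := by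
    have := sq_sum_le_card_mul_sum_sq (s := (Finset.univ : Finset V)) (f := fun v => hh G S k v)
    rwa [Finset.card_univ] at this
  have h4 : (∑ v, hh G S k v) ^ 2 ≤ Fintype.card V * (Fintype.card V *
      (1 - ε * (1 - ρ ^ 2)) ^ k) :=
    h3.trans (mul_le_mul_of_nonneg_left (hE k) hN.le)
  calc ((Fintype.card D : ℝ) ^ k * ∑ v, hh G S k v) ^ 2
      = ((Fintype.card D : ℝ) ^ k) ^ 2 * (∑ v, hh G S k v) ^ 2 := by ring
    _ ≤ ((Fintype.card D : ℝ) ^ k) ^ 2 * (Fintype.card V * (Fintype.card V *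
      (1 - ε * (1 - ρ ^ 2)) ^ k)) := mul_le_mul_of_nonneg_left h4 (sq_nonneg _)
    _ = _ := by ring

end Pool.Agent.Lib.MP_186ff7_lc.PCP
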