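import Pool.Agent.Lib.MP_186ff7_lc.PCP.Stmts

/-!
# The tests of the long code (module Test)
-/

namespace Pool.Agent.Lib.MP_186ff7_lc.PCP

namespace TestM

open Finset

set_option linter.unusedSectionVars false

theorem chi_singleton {X : Type} (x : X) (f : X → Bool) : chi {x} f = f x := by
  unfold chi
  rw [Finset.filter_singleton]
  cases h : f x <;> simp

theorem chi_empty {X : Type} (f : X → Bool) : chi ∅ f = false := by
  unfold chi
  simp

theorem odd_filter {X : Type} [DecidableEq X] (s : Finset X) (f g : X → Bool) :
    chi s (fun x => f x ^^ g x) = (chi s f ^^ chi s g) := by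
  induction s using Finset.induction_on with
  | empty => simp [chi]
  | insert a s ha ih =>
    have key : ∀ f : X → Bool, chi (insert a s) f = (f a ^^ chi s f) := by
      intro f
      unfold chi
      rw [Finset.filter_insert]
      cases h : f a
      · simp
      · have hna : a ∉ s.filter fun x => f x = true := fun h' => ha (Finset.mem_filter.1 h').1
        simp only [if_true, Finset.card_insert_of_notMem hna, Nat.odd_add_one]
        by_cases ho : Odd (s.filter fun x => f x = true).card <;> simp [ho]
    rw [key, key, key, ih]
    generalize f a = a1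
    generalize g a = a2
    generalize chi s f = a3
    generalize chi s g = a4
    revert a1 a2 a3 a4
    decide

theorem chi_xor {X : Type} [DecidableEq X] (s : Finset X) (f g : X → Bool) :
    chi s (fun x => f x ^^ g x) = (chi s f ^^ chi s g) := odd_filter s f g

/-- `1` if `p` holds and `0` otherwise. -/
def ind (p : Prop) [Decidable p] : ℕ := if p then 1 else 0

theorem ind_le_one (p : Prop) [Decidable p] : ind p ≤ 1 := by
  unfold ind
  split_ifs <;> simp

theorem sum_ind {α : Type} [Fintype α] (p : α → Prop) [DecidablePred p] :
    ∑ a, ind (p a) = (Finset.univ.filter p).card := by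
  rw [Finset.card_filter]
  rfl

/-- Translation by `c` does not change a sum. -/
theorem sum_shift {X : Type} [Fintype X] [DecidableEq X] (c : X → Bool) (φ : (X → Bool) → ℕ) :
    ∑ h : X → Bool, φ (fun x => c x ^^ h x) = ∑ h, φ h := by
  have hinv : Function.Involutive fun (h : X → Bool) => fun x => c x ^^ h x := by
    intro h
    funext x
    simp
  exact Equiv.sum_comp hinv.toPerm φ

variable {S : Type} [Fintype S] [DecidableEq S]
variable (C : S → S → Bool) (au av : (S → Bool) → Bool) (A : (S × S → Bool) → Bool)

/-- The number of rejected tests of the kind `k`. -/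
def rej (k : Fin 6) : ℕ := ∑ f : S × S → Bool, ∑ g : S × S → Bool, ∑ h : S × S → Bool,
  ∑ e : S → Bool, ind (accept C au av A (k, f, g, h, e) = false)

theorem rej_le (k : Fin 6) :
    rej C au av A k ≤ (Finset.univ.filter fun t : Tst S => accept C au av A t = false).card := by
  rw [← sum_ind, Fintype.sum_prod_type]
  refine le_trans (le_of_eq ?_) (Finset.single_le_sum (f := fun k : Fin 6 =>
    ∑ q : (S × S → Bool) × (S × S → Bool) × (S × S → Bool) × (S → Bool),
      ind (accept C au av A (k, q) = false)) (fun _ _ => Nat.zero_le _) (Finset.mem_univ k))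
  rw [Fintype.sum_prod_type]
  refine Finset.sum_congr rfl fun f _ => ?_
  rw [Fintype.sum_prod_type]
  refine Finset.sum_congr rfl fun g _ => ?_
  rw [Fintype.sum_prod_type]

/-- The four sums of a constant. -/
theorem sum4_const (c : ℕ) : ∑ _f : S × S → Bool, ∑ _g : S × S → Bool, ∑ _h : S × S → Bool,
    ∑ _e : S → Bool, c = Fintype.card (S × S → Bool) * Fintype.card (S × S → Bool) *
      Fintype.card (S × S → Bool) * Fintype.card (S → Bool) * c := by
  simp only [Finset.sum_const, Finset.card_univ, smul_eq_mul]
  ring

theorem sum4_f (φ : (S × S → Bool) → ℕ) : ∑ f : S × S → Bool, ∑ _g : S × S → Bool,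
    ∑ _h : S × S → Bool, ∑ _e : S → Bool, φ f = Fintype.card (S × S → Bool) *
      Fintype.card (S × S → Bool) * Fintype.card (S → Bool) * ∑ f, φ f := by
  simp only [Finset.sum_const, Finset.card_univ, smul_eq_mul]
  rw [Finset.mul_sum]
  exact Finset.sum_congr rfl fun f _ => by ring

theorem sum4_g (φ : (S × S → Bool) → ℕ) : ∑ _f : S × S → Bool, ∑ g : S × S → Bool,
    ∑ _h : S × S → Bool, ∑ _e : S → Bool, φ g = Fintype.card (S × S → Bool) *
      Fintype.card (S × S → Bool) * Fintype.card (S → Bool) * ∑ f, φ f := by
  rw [Finset.sum_comm]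
  exact sum4_f φ

theorem sum4_fg (φ : (S × S → Bool) → (S × S → Bool) → ℕ) : ∑ f : S × S → Bool,
    ∑ g : S × S → Bool, ∑ _h : S × S → Bool, ∑ _e : S → Bool, φ f g =
      Fintype.card (S × S → Bool) * Fintype.card (S → Bool) * ∑ f, ∑ g, φ f g := by
  simp only [Finset.sum_const, Finset.card_univ, smul_eq_mul]
  rw [Finset.mul_sum]
  refine Finset.sum_congr rfl fun f _ => ?_
  rw [Finset.mul_sum]
  exact Finset.sum_congr rfl fun f _ => by ring

/-- A shifted argument. -/
theorem sum4_shift (φ : (S × S → Bool) → ℕ)
    (c : (S × S → Bool) → (S × S → Bool) → (S → Bool) → (S × S → Bool)) :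
    ∑ f : S × S → Bool, ∑ g : S × S → Bool, ∑ h : S × S → Bool, ∑ e : S → Bool,
      φ (fun x => c f g e x ^^ h x) = Fintype.card (S × S → Bool) *
      Fintype.card (S × S → Bool) * Fintype.card (S → Bool) * ∑ f, φ f := by
  have h1 : ∀ f g : S × S → Bool, ∑ h : S × S → Bool, ∑ e : S → Bool,
      φ (fun x => c f g e x ^^ h x) = Fintype.card (S → Bool) * ∑ f, φ f := by
    intro f g
    rw [Finset.sum_comm]
    simp only [sum_shift]
    rw [Finset.sum_const, Finset.card_univ, smul_eq_mul]
  simp only [h1, Finset.sum_const, Finset.card_univ, smul_eq_mul]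
  ring

theorem sum4_h (φ : (S × S → Bool) → ℕ) : ∑ _f : S × S → Bool, ∑ _g : S × S → Bool,
    ∑ h : S × S → Bool, ∑ _e : S → Bool, φ h = Fintype.card (S × S → Bool) *
      Fintype.card (S × S → Bool) * Fintype.card (S → Bool) * ∑ f, φ f := by
  have := sum4_shift φ (fun _ _ _ _ => false)
  simpa using this

theorem sum4_e (ψ : (S → Bool) → ℕ) : ∑ _f : S × S → Bool, ∑ _g : S × S → Bool,
    ∑ _h : S × S → Bool, ∑ e : S → Bool, ψ e = Fintype.card (S × S → Bool) *
      Fintype.card (S × S → Bool) * Fintype.card (S × S → Bool) * ∑ e, ψ e := by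
  simp only [Finset.sum_const, Finset.card_univ, smul_eq_mul]
  ring

theorem sum4_le {φ ψ : (S × S → Bool) → (S × S → Bool) → (S × S → Bool) → (S → Bool) → ℕ}
    (h : ∀ a b c d, φ a b c d ≤ ψ a b c d) :
    ∑ f : S × S → Bool, ∑ g : S × S → Bool, ∑ h : S × S → Bool, ∑ e : S → Bool, φ f g h e ≤
    ∑ f : S × S → Bool, ∑ g : S × S → Bool, ∑ h : S × S → Bool, ∑ e : S → Bool, ψ f g h e :=
  Finset.sum_le_sum fun _ _ => Finset.sum_le_sum fun _ _ => Finset.sum_le_sum fun _ _ =>
    Finset.sum_le_sum fun _ _ => h _ _ _ _

theorem acc0 (f g h : S × S → Bool) (e : S → Bool) : accept C au av A (0, f, g, h, e) =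
    !(A f ^^ A g ^^ A (fun x => f x ^^ g x)) := rfl

theorem acc1 (f g h : S × S → Bool) (e : S → Bool) : accept C au av A (1, f, g, h, e) =
    !((A f && A g) ^^ A (fun x => (f x && g x) ^^ h x) ^^ A h) := rfl

theorem acc2 (f g h : S × S → Bool) (e : S → Bool) : accept C au av A (2, f, g, h, e) =
    (A (fun x => !h x) ^^ A h) := rfl

theorem acc3 (f g h : S × S → Bool) (e : S → Bool) : accept C au av A (3, f, g, h, e) =
    !(A (fun x => (!C x.1 x.2) ^^ h x) ^^ A h) := rfl

theorem acc4 (f g h : S × S → Bool) (e : S → Bool) : accept C au av A (4, f, g, h, e) =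
    !(au e ^^ A (fun x => e x.1 ^^ h x) ^^ A h) := rfl

theorem acc5 (f g h : S × S → Bool) (e : S → Bool) : accept C au av A (5, f, g, h, e) =
    !(av e ^^ A (fun x => e x.2 ^^ h x) ^^ A h) := rfl

end TestM

open TestM in
theorem near (h : StHalf) : StNear := by
  intro S _ _ a x y hx hy
  by_contra hxy
  have h1 := h S {x} {y} (by simpa using hxy)
  simp only [chi_singleton] at h1
  unfold Near at hx hy
  have h2 : (Finset.univ.filter fun e : S → Bool => e x ≠ e y).card ≤
      (Finset.univ.filter fun e : S → Bool => a e ≠ e x).card +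
      (Finset.univ.filter fun e : S → Bool => a e ≠ e y).card := by
    refine le_trans (Finset.card_le_card ?_) (Finset.card_union_le _ _)
    intro e he
    simp only [Finset.mem_filter, Finset.mem_univ, true_and, Finset.mem_union] at he ⊢
    by_contra hc
    push Not at hc
    exact he (hc.1.symm.trans hc.2)
  omega

open TestM in
theorem test (h1 : StBLR) (h2 : StHalf) (h3 : StProd) : StTest := by
  intro S _ _ _ C au av A hR
  set R := (Finset.univ.filter fun t : Tst S => accept C au av A t = false).card with hRdef
  set n := Fintype.card (S × S → Bool) with hn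
  set m := Fintype.card (S → Bool) with hm
  have hn0 : 0 < n := Fintype.card_pos
  have hm0 : 0 < m := Fintype.card_pos
  have hcard : Fintype.card (Tst S) = 6 * (n * n * n * m) := by
    unfold Tst
    simp only [Fintype.card_prod, Fintype.card_fin]
    ring
  have hk : ∀ k, 32 * rej C au av A k < n * n * n * m := by
    intro k
    have := rej_le C au av A k
    rw [hcard] at hR
    omega
  obtain ⟨s, hs⟩ := h1 (S × S) A
  set d := (Finset.univ.filter fun f : S × S → Bool => A f ≠ chi s f).card with hd
  -- the set of places where `A` differs from `chi s`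
  have hbad : ∑ f : S × S → Bool, ind (A f ≠ chi s f) = d := sum_ind _
  set K := n * n * m with hK
  have hK0 : 0 < K := by positivity
  have hnK : n * n * n * m = n * K := by
    rw [hK]
    ring
  -- kind 0
  have hd32 : 32 * d < n := by
    have e1 : rej C au av A 0 = n * m * (Finset.univ.filter fun p : (S × S → Bool) × (S × S → Bool)
        => (A p.1 ^^ A p.2) ≠ A fun x => p.1 x ^^ p.2 x).card := by
      rw [← sum_ind, Fintype.sum_prod_type, ← sum4_fg]
      unfold rej
      refine Finset.sum_congr rfl fun f _ => Finset.sum_congr rfl fun g _ =>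
        Finset.sum_congr rfl fun h _ => Finset.sum_congr rfl fun e _ => ?_
      rw [acc0]
      generalize A f = a
      generalize A g = b
      generalize A (fun x => f x ^^ g x) = c
      cases a <;> cases b <;> cases c <;> rfl
    have e2 := hk 0
    rw [e1] at e2
    have e3 : 32 * (n * m * (d * n)) < n * n * n * m := by
      refine lt_of_le_of_lt ?_ e2
      gcongr
    have e4 : (n * n * m) * (32 * d) < (n * n * m) * n := by
      calc (n * n * m) * (32 * d) = 32 * (n * m * (d * n)) := by ring
        _ < n * n * n * m := e3
        _ = (n * n * m) * n := by ring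
    exact Nat.lt_of_mul_lt_mul_left e4
  have hdK : 32 * (d * K) ≤ n * K := by
    calc 32 * (d * K) = (32 * d) * K := by ring
      _ ≤ n * K := Nat.mul_le_mul_right _ hd32.le
  -- kind 1
  have hs1 : s.card ≤ 1 := by
    by_contra hc
    have e1 := h3 (S × S) s (by omega)
    rw [← sum_ind, Fintype.sum_prod_type] at e1
    have e2 : n * m * ∑ f, ∑ g, ind ((chi s f && chi s g) ≠ chi s fun x => f x && g x) ≤
        rej C au av A 1 + 4 * (d * K) := by
      rw [← sum4_fg]
      have e3 : rej C au av A 1 + 4 * (d * K) = ∑ f : S × S → Bool, ∑ g : S × S → Bool,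
          ∑ h : S × S → Bool, ∑ e : S → Bool,
          (ind (accept C au av A (1, f, g, h, e) = false) + ind (A f ≠ chi s f) +
            ind (A g ≠ chi s g) + ind (A (fun x => (f x && g x) ^^ h x) ≠
              chi s (fun x => (f x && g x) ^^ h x)) + ind (A h ≠ chi s h)) := by
        simp only [Finset.sum_add_distrib]
        rw [sum4_f (fun f => ind (A f ≠ chi s f)), sum4_g (fun f => ind (A f ≠ chi s f)),
          sum4_h (fun f => ind (A f ≠ chi s f)),
          sum4_shift (fun f => ind (A f ≠ chi s f)) (fun f g _ x => f x && g x), hbad]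
        unfold rej
        rw [hK]
        ring
      rw [e3]
      refine sum4_le fun f g h e => ?_
      rw [acc1]
      have e4 : chi s (fun x => (f x && g x) ^^ h x) = (chi s (fun x => f x && g x) ^^ chi s h) := by
        have := chi_xor s (fun x => f x && g x) h
        exact this
      rw [e4]
      generalize A f = a1
      generalize A g = a2
      generalize A (fun x => (f x && g x) ^^ h x) = a3
      generalize A h = a4
      generalize chi s f = b1
      generalize chi s g = b2
      generalize chi s (fun x => f x && g x) = b3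
      generalize chi s h = b4
      revert a1 a2 a3 a4 b1 b2 b3 b4
      decide
    have e5 := hk 1
    rw [hnK] at e5
    set P := ∑ f : S × S → Bool, ∑ g : S × S → Bool,
      ind ((chi s f && chi s g) ≠ chi s fun x => f x && g x) with hP
    have e6 : n * K ≤ 4 * (n * m * P) := by
      calc n * K = n * m * (n * n) := by
            rw [hK]
            ring
        _ ≤ n * m * (4 * P) := Nat.mul_le_mul_left _ e1
        _ = 4 * (n * m * P) := by ring
    have e7 : 0 < n * K := by positivity
    omega
  -- kind 2
  have hs2 : s ≠ ∅ := by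
    rintro rfl
    have e1 : n * K ≤ rej C au av A 2 + 2 * (d * K) := by
      have e3 : rej C au av A 2 + 2 * (d * K) = ∑ f : S × S → Bool, ∑ g : S × S → Bool,
          ∑ h : S × S → Bool, ∑ e : S → Bool,
          (ind (accept C au av A (2, f, g, h, e) = false) +
            ind (A (fun x => true ^^ h x) ≠ chi ∅ (fun x => true ^^ h x)) +
            ind (A h ≠ chi ∅ h)) := by
        simp only [Finset.sum_add_distrib]
        rw [sum4_h (fun f => ind (A f ≠ chi ∅ f)),
          sum4_shift (fun f => ind (A f ≠ chi ∅ f)) (fun _ _ _ _ => true), hbad]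
        unfold rej
        rw [hK]
        ring
      rw [e3]
      calc n * K = n * n * n * m * 1 := by rw [← hnK, mul_one]
        _ ≤ _ := by
          rw [← sum4_const 1]
          refine sum4_le fun f g h e => ?_
          rw [acc2, chi_empty, chi_empty]
          have e4 : (fun x => true ^^ h x) = fun x => !h x := by
            funext x
            simp
          rw [e4]
          generalize A (fun x => !h x) = a1
          generalize A h = a2
          revert a1 a2
          decide
    have e5 := hk 2
    rw [hnK] at e5
    have e7 : 0 < n * K := by positivity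
    omega
  obtain ⟨z, rfl⟩ : ∃ z, s = {z} := by
    have : s.card = 1 := by
      have := Finset.card_pos.2 (Finset.nonempty_iff_ne_empty.2 hs2)
      omega
    exact Finset.card_eq_one.1 this
  simp only [chi_singleton] at hbad
  refine ⟨z.1, z.2, ?_, ?_, ?_⟩
  · -- kind 3
    by_contra hC
    have e1 : n * K ≤ rej C au av A 3 + 2 * (d * K) := by
      have e3 : rej C au av A 3 + 2 * (d * K) = ∑ f : S × S → Bool, ∑ g : S × S → Bool,
          ∑ h : S × S → Bool, ∑ e : S → Bool,
          (ind (accept C au av A (3, f, g, h, e) = false) +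
            ind (A (fun x => (!C x.1 x.2) ^^ h x) ≠ ((!C z.1 z.2) ^^ h z)) +
            ind (A h ≠ h z)) := by
        simp only [Finset.sum_add_distrib]
        rw [sum4_h (fun f => ind (A f ≠ f z)),
          sum4_shift (fun f => ind (A f ≠ f z)) (fun _ _ _ x => !C x.1 x.2), hbad]
        unfold rej
        rw [hK]
        ring
      rw [e3]
      calc n * K = n * n * n * m * 1 := by rw [← hnK, mul_one]
        _ ≤ _ := by
          rw [← sum4_const 1]
          refine sum4_le fun f g h e => ?_
          rw [acc3]
          have e4 : C z.1 z.2 = false := by simpa using hC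
          rw [e4]
          generalize A (fun x => (!C x.1 x.2) ^^ h x) = a1
          generalize A h = a2
          generalize h z = a3
          revert a1 a2 a3
          decide
    have e5 := hk 3
    rw [hnK] at e5
    have e7 : 0 < n * K := by positivity
    omega
  · -- kind 4
    unfold Near
    rw [← sum_ind]
    have e1 : n * n * n * ∑ e : S → Bool, ind (au e ≠ e z.1) ≤
        rej C au av A 4 + 2 * (d * K) := by
      have e3 : rej C au av A 4 + 2 * (d * K) = ∑ f : S × S → Bool, ∑ g : S × S → Bool,
          ∑ h : S × S → Bool, ∑ e : S → Bool,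
          (ind (accept C au av A (4, f, g, h, e) = false) +
            ind (A (fun x => e x.1 ^^ h x) ≠ (e z.1 ^^ h z)) +
            ind (A h ≠ h z)) := by
        simp only [Finset.sum_add_distrib]
        rw [sum4_h (fun f => ind (A f ≠ f z)),
          sum4_shift (fun f => ind (A f ≠ f z)) (fun _ _ e x => e x.1), hbad]
        unfold rej
        rw [hK]
        ring
      rw [e3, ← sum4_e]
      refine sum4_le fun f g h e => ?_
      rw [acc4]
      generalize A (fun x => e x.1 ^^ h x) = a1
      generalize A h = a2
      generalize h z = a3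
      generalize au e = a4
      generalize e z.1 = a5
      revert a1 a2 a3 a4 a5
      decide
    have e5 := hk 4
    rw [hnK] at e5
    set U := ∑ e : S → Bool, ind (au e ≠ e z.1) with hU
    by_contra hc
    push Not at hc
    have e6 : n * K ≤ 4 * (n * n * n * U) := by
      calc n * K = n * n * n * m := hnK.symm
        _ ≤ n * n * n * (4 * U) := Nat.mul_le_mul_left _ hc
        _ = 4 * (n * n * n * U) := by ring
    have e7 : 0 < n * K := by positivity
    omega
  · -- kind 5
    unfold Near
    rw [← sum_ind]
    have e1 : n * n * n * ∑ e : S → Bool, ind (av e ≠ e z.2) ≤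
        rej C au av A 5 + 2 * (d * K) := by
      have e3 : rej C au av A 5 + 2 * (d * K) = ∑ f : S × S → Bool, ∑ g : S × S → Bool,
          ∑ h : S × S → Bool, ∑ e : S → Bool,
          (ind (accept C au av A (5, f, g, h, e) = false) +
            ind (A (fun x => e x.2 ^^ h x) ≠ (e z.2 ^^ h z)) +
            ind (A h ≠ h z)) := by
        simp only [Finset.sum_add_distrib]
        rw [sum4_h (fun f => ind (A f ≠ f z)),
          sum4_shift (fun f => ind (A f ≠ f z)) (fun _ _ e x => e x.2), hbad]
        unfold rej
        rw [hK]
        ring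
      rw [e3, ← sum4_e]
      refine sum4_le fun f g h e => ?_
      rw [acc5]
      generalize A (fun x => e x.2 ^^ h x) = a1
      generalize A h = a2
      generalize h z = a3
      generalize av e = a4
      generalize e z.2 = a5
      revert a1 a2 a3 a4 a5
      decide
    have e5 := hk 5
    rw [hnK] at e5
    set U := ∑ e : S → Bool, ind (av e ≠ e z.2) with hU
    by_contra hc
    push Not at hc
    have e6 : n * K ≤ 4 * (n * n * n * U) := by
      calc n * K = n * n * n * m := hnK.symm
        _ ≤ n * n * n * (4 * U) := Nat.mul_le_mul_left _ hc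
        _ = 4 * (n * n * n * U) := by ring
    have e7 : 0 < n * K := by positivity
    omega

end Pool.Agent.Lib.MP_186ff7_lc.PCP
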