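import Pool.Agent.Lib.MP_186ff7_lc.PCP.Stmts

/-!
# The spectral gap and the edge expansion of the torus
-/

namespace Pool.Agent.Lib.MP_186ff7_lc.PCP

open Finset

/-- The spectral gap follows from the ping-pong estimate for the absolute values of the Fourier
transform. -/
theorem torus (h1 : StPing) (h2 : StFou) : StTorus := by
  obtain ⟨c, hc, H⟩ := h1
  refine ⟨c, hc, fun m _ f hf => ?_⟩
  obtain ⟨g, g0, gz, gs, e1, e2, e3⟩ := h2 m f hf
  have h := H m g g0 gz
  rw [gs] at h
  have nn : ∀ j, 0 ≤ ∑ x, (f x - f (tor m j x)) ^ 2 := fun j =>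
    Finset.sum_nonneg fun x _ => sq_nonneg _
  rw [Fin.sum_univ_eight]
  have n1 := nn 1
  have n3 := nn 3
  have n5 := nn 5
  have n7 := nn 7
  linarith

/-- The estimate for one letter. -/
theorem torEdge_aux {η : ℝ} (hη : 0 < η)
    (H : ∀ (m : ℕ) [NeZero m] (f : ZMod m × ZMod m → ℝ),
      ∑ x, f x = 0 → η * ∑ x, f x ^ 2 ≤ ∑ j, ∑ x, (f x - f (tor m j x)) ^ 2)
    (m : ℕ) [NeZero m] (σ : ZMod m × ZMod m → Al) (a b : Al) (hab : b ≠ a)
    (hm : (univ.filter fun x => σ x = b).card ≤ (univ.filter fun x => σ x = a).card) :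
    η * (((univ.filter fun x => σ x = b).card : ℝ) / 2) ≤
      ∑ j, ∑ x, ((if σ x = b then (1 : ℝ) else 0) - (if σ (tor m j x) = b then 1 else 0)) ^ 2 := by
  classical
  set n : ℝ := ((univ.filter fun x => σ x = b).card : ℝ) with hn
  set N : ℝ := (Fintype.card (ZMod m × ZMod m) : ℝ) with hN
  have hNpos : 0 < N := by
    rw [hN]
    exact_mod_cast Fintype.card_pos
  have hn0 : 0 ≤ n := Nat.cast_nonneg _
  have h2n : 2 * n ≤ N := by
    have hd : Disjoint (univ.filter fun x => σ x = b) (univ.filter fun x => σ x = a) := by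
      rw [Finset.disjoint_filter]
      intro x _ h1 h2
      exact hab (h1.symm.trans h2)
    have h3 : ((univ.filter fun x => σ x = b) ∪ (univ.filter fun x => σ x = a)).card ≤
        Fintype.card (ZMod m × ZMod m) := Finset.card_le_univ _
    rw [Finset.card_union_of_disjoint hd] at h3
    have h4 : 2 * (univ.filter fun x => σ x = b).card ≤ Fintype.card (ZMod m × ZMod m) := by
      omega
    rw [hn, hN]
    exact_mod_cast h4
  have hs1 : ∑ x, (if σ x = b then (1 : ℝ) else 0) = n := by
    rw [Finset.sum_boole]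
  have hs2 : ∑ x, (if σ x = b then (1 : ℝ) else 0) ^ 2 = n := by
    rw [← hs1]
    refine Finset.sum_congr rfl fun x _ => ?_
    split_ifs <;> norm_num
  have hcard : ∀ c : ℝ, ∑ _x : ZMod m × ZMod m, c = N * c := by
    intro c
    rw [Finset.sum_const, nsmul_eq_mul, Finset.card_univ]
  have h0 : ∑ x : ZMod m × ZMod m, ((if σ x = b then (1 : ℝ) else 0) - n / N) = 0 := by
    rw [Finset.sum_sub_distrib, hs1, hcard]
    field_simp
    ring
  have h := H m (fun x => (if σ x = b then (1 : ℝ) else 0) - n / N) h0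
  have hsq : ∑ x : ZMod m × ZMod m, ((if σ x = b then (1 : ℝ) else 0) - n / N) ^ 2 =
      n - n * (n / N) := by
    have : ∀ x : ZMod m × ZMod m, ((if σ x = b then (1 : ℝ) else 0) - n / N) ^ 2 =
        (if σ x = b then (1 : ℝ) else 0) ^ 2 - 2 * (n / N) * (if σ x = b then (1 : ℝ) else 0) +
          (n / N) ^ 2 := fun x => by ring
    simp only [this]
    rw [Finset.sum_add_distrib, Finset.sum_sub_distrib, hs2, ← Finset.mul_sum, hs1, hcard]
    field_simp
    ring
  have hge : n / 2 ≤ n - n * (n / N) := by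
    have h5 : n / N ≤ 1 / 2 := by
      rw [div_le_div_iff₀ hNpos two_pos]
      linarith
    nlinarith
  calc η * (n / 2) ≤ η * (n - n * (n / N)) := mul_le_mul_of_nonneg_left hge hη.le
    _ = η * ∑ x : ZMod m × ZMod m, ((if σ x = b then (1 : ℝ) else 0) - n / N) ^ 2 := by rw [hsq]
    _ ≤ _ := h
    _ = _ := by
      refine Finset.sum_congr rfl fun j _ => Finset.sum_congr rfl fun x _ => ?_
      ring

/-- The edge expansion of the torus. -/
theorem torEdge (h : StTorus) : StTorEdge := by
  classical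
  obtain ⟨η, hη, H⟩ := h
  refine ⟨min (η / 4) 1, lt_min (by positivity) one_pos, min_le_right _ _, fun m _ σ => ?_⟩
  obtain ⟨a, -, ha⟩ := Finset.exists_max_image (univ : Finset Al)
    (fun b => (univ.filter fun x => σ x = b).card) ⟨0, Finset.mem_univ _⟩
  refine ⟨a, ?_⟩
  have hsum : ((univ.filter fun x => σ x ≠ a).card : ℝ) =
      ∑ b ∈ univ.filter (fun b => b ≠ a), ((univ.filter fun x => σ x = b).card : ℝ) := by
    rw [← Nat.cast_sum]
    congr 1
    rw [Finset.card_eq_sum_card_fiberwise (f := σ) (s := univ.filter fun x => σ x ≠ a)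
      (t := univ.filter fun b => b ≠ a)]
    · refine Finset.sum_congr rfl fun b hb => ?_
      rw [Finset.filter_filter]
      congr 1
      ext x
      simp only [Finset.mem_filter, Finset.mem_univ, true_and] at hb ⊢
      constructor
      · exact fun h => h.2
      · exact fun h => ⟨h ▸ hb, h⟩
    · intro x hx
      simp only [Finset.coe_filter, Finset.mem_univ, true_and, Set.mem_setOf_eq] at hx ⊢
      exact hx
  have hkey : ∀ b ∈ univ.filter (fun b => b ≠ a),
      η * (((univ.filter fun x => σ x = b).card : ℝ) / 2) ≤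
      ∑ j, ∑ x, ((if σ x = b then (1 : ℝ) else 0) -
        (if σ (tor m j x) = b then 1 else 0)) ^ 2 := fun b hb =>
    torEdge_aux hη H m σ a b (Finset.mem_filter.1 hb).2 (ha b (Finset.mem_univ _))
  have hle := Finset.sum_le_sum hkey
  have h1 : ∑ b ∈ univ.filter (fun b => b ≠ a), η * (((univ.filter fun x => σ x = b).card : ℝ) / 2)
      = η / 2 * ((univ.filter fun x => σ x ≠ a).card : ℝ) := by
    rw [hsum, Finset.mul_sum]
    refine Finset.sum_congr rfl fun b _ => ?_
    ring
  have hpt : ∀ (j : Fin 8) (x : ZMod m × ZMod m), ∑ b ∈ univ.filter (fun b => b ≠ a),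
      ((if σ x = b then (1 : ℝ) else 0) - (if σ (tor m j x) = b then 1 else 0)) ^ 2 ≤
      2 * (if σ x ≠ σ (tor m j x) then (1 : ℝ) else 0) := by
    intro j x
    by_cases hx : σ x = σ (tor m j x)
    · rw [hx]
      simp
    · rw [if_pos hx]
      calc ∑ b ∈ univ.filter (fun b => b ≠ a),
          ((if σ x = b then (1 : ℝ) else 0) - (if σ (tor m j x) = b then 1 else 0)) ^ 2
          ≤ ∑ b, ((if σ x = b then (1 : ℝ) else 0) - (if σ (tor m j x) = b then 1 else 0)) ^ 2 :=
            Finset.sum_le_sum_of_subset_of_nonneg (Finset.filter_subset _ _)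
              fun b _ _ => sq_nonneg _
        _ ≤ ∑ b, ((if σ x = b then (1 : ℝ) else 0) + (if σ (tor m j x) = b then 1 else 0)) := by
            refine Finset.sum_le_sum fun b _ => ?_
            split_ifs <;> norm_num
        _ = 2 * 1 := by
            rw [Finset.sum_add_distrib]
            simp
            norm_num
  have h2 : ∑ b ∈ univ.filter (fun b => b ≠ a), ∑ j, ∑ x, ((if σ x = b then (1 : ℝ) else 0) -
      (if σ (tor m j x) = b then 1 else 0)) ^ 2 ≤
      2 * ((univ.filter fun p : (ZMod m × ZMod m) × Fin 8 => σ p.1 ≠ σ (tor m p.2 p.1)).card :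
        ℝ) := by
    have h3 : ((univ.filter fun p : (ZMod m × ZMod m) × Fin 8 =>
        σ p.1 ≠ σ (tor m p.2 p.1)).card : ℝ) =
        ∑ j, ∑ x, (if σ x ≠ σ (tor m j x) then (1 : ℝ) else 0) := by
      rw [← Finset.sum_boole, Fintype.sum_prod_type, Finset.sum_comm]
    rw [h3, Finset.sum_comm, Finset.mul_sum]
    refine Finset.sum_le_sum fun j _ => ?_
    rw [Finset.sum_comm, Finset.mul_sum]
    exact Finset.sum_le_sum fun x _ => hpt j x
  rw [h1] at hle
  have h4 : η / 2 * ((univ.filter fun x => σ x ≠ a).card : ℝ) ≤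
      2 * ((univ.filter fun p : (ZMod m × ZMod m) × Fin 8 => σ p.1 ≠ σ (tor m p.2 p.1)).card :
        ℝ) := hle.trans h2
  have h5 : (0 : ℝ) ≤ ((univ.filter fun x => σ x ≠ a).card : ℝ) := Nat.cast_nonneg _
  calc min (η / 4) 1 * ((univ.filter fun x => σ x ≠ a).card : ℝ)
      ≤ η / 4 * ((univ.filter fun x => σ x ≠ a).card : ℝ) :=
        mul_le_mul_of_nonneg_right (min_le_left _ _) h5
    _ ≤ _ := by linarith

end Pool.Agent.Lib.MP_186ff7_lc.PCP
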