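import Pool.Agent.Lib.MP_186ff7_lc.PCP.Main
import Pool.Agent.Lib.MP_186ff7_lc.PCP.Amp
import Pool.Agent.Lib.MP_186ff7_lc.PCP.BLR
import Pool.Agent.Lib.MP_186ff7_lc.PCP.CNF
import Pool.Agent.Lib.MP_186ff7_lc.PCP.Comp
import Pool.Agent.Lib.MP_186ff7_lc.PCP.CompGap
import Pool.Agent.Lib.MP_186ff7_lc.PCP.Contr
import Pool.Agent.Lib.MP_186ff7_lc.PCP.Decide
import Pool.Agent.Lib.MP_186ff7_lc.PCP.FGGap
import Pool.Agent.Lib.MP_186ff7_lc.PCP.FGSat
import Pool.Agent.Lib.MP_186ff7_lc.PCP.First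
import Pool.Agent.Lib.MP_186ff7_lc.PCP.Fou
import Pool.Agent.Lib.MP_186ff7_lc.PCP.Frame
import Pool.Agent.Lib.MP_186ff7_lc.PCP.HalfProd
import Pool.Agent.Lib.MP_186ff7_lc.PCP.Num
import Pool.Agent.Lib.MP_186ff7_lc.PCP.PG
import Pool.Agent.Lib.MP_186ff7_lc.PCP.PTcnf
import Pool.Agent.Lib.MP_186ff7_lc.PCP.PTfg
import Pool.Agent.Lib.MP_186ff7_lc.PCP.Ping
import Pool.Agent.Lib.MP_186ff7_lc.PCP.Pow
import Pool.Agent.Lib.MP_186ff7_lc.PCP.PreGap
import Pool.Agent.Lib.MP_186ff7_lc.PCP.Renum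
import Pool.Agent.Lib.MP_186ff7_lc.PCP.Second
import Pool.Agent.Lib.MP_186ff7_lc.PCP.Size
import Pool.Agent.Lib.MP_186ff7_lc.PCP.Stay
import Pool.Agent.Lib.MP_186ff7_lc.PCP.Test
import Pool.Agent.Lib.MP_186ff7_lc.PCP.TorEdge

/-!
# The PCP theorem: assembly
-/

namespace Pool.Agent.Lib.MP_186ff7_lc.PCP

theorem torus_ok : StTorus := torus ping fou

theorem test_ok : StTest := test blr half prod

/-- One round doubles the gap. -/
theorem amp_all : StAmp :=
  amp_ok (pow second first) (contr torus_ok) size pg preSat (preGap (torEdge torus_ok)) compLen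
    compSat (compGap (near half) test_ok) renum_ok

/-- **If the independence number of graphs can be approximated in polynomial time within a factor
that is polylogarithmic in the number of vertices, then P = NP.** -/
theorem peqNP_of_polylog : PolylogApproximation → PeqNP :=
  main amp_all rounds_ok renum_ok fgSat (fgGap torus_ok stay) fgLen num cnf frame decide_ok
    (poly ptcnf (ptrounds rounds_ok) ptfg)

end Pool.Agent.Lib.MP_186ff7_lc.PCP
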