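import Pool.Agent.Lib.PTime.TM
import Pool.Agent.Lib.CookLevin.Main
import Pool.Agent.Lib.MP_186ff7_lc.Defs

/-!
# The PCP theorem: definitions

Constraint lists with an alphabet of 16 letters, permutation graphs, the powering, the tests of the
long code, and the programs. The mathematical statements of the modules are in `Stmts.lean`.
-/

namespace Pool.Agent.Lib.MP_186ff7_lc.PCP

open Pool.Agent.Lib.PT

/-! ### Lists of binary constraints -/

/-- The alphabet. -/
abbrev Al : Type := Fin 16

/-- The relations. -/
abbrev Rel : Type := Al → Al → Bool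

/-- A list of binary constraints: every constraint consists of two variables and a relation. -/
abbrev GInst (α : Type) : Type := List (α × α × Rel)

/-- The constraint lists whose variables are numbers. -/
abbrev Inst : Type := GInst ℕ

/-- The number of constraints that are violated by the assignment `σ`. -/
def viol {α : Type} (I : GInst α) (σ : α → Al) : ℕ :=
  I.countP fun c => !(c.2.2 (σ c.1) (σ c.2.1))

/-- Some assignment violates no constraint. -/
def Sat {α : Type} (I : GInst α) : Prop := ∃ σ : α → Al, viol I σ = 0

/-- Every assignment violates at least the fraction `δ` of the constraints. -/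
def Gap {α : Type} (δ : ℝ) (I : GInst α) : Prop := ∀ σ : α → Al, δ * I.length ≤ viol I σ

/-- The relation that is always true. -/
def top : Rel := fun _ _ => true

/-! ### Permutation graphs with constraints -/

/-- A graph in which every label `j` acts as a permutation `nb j` of the vertices, with inverse
`nb (inv j)`, and every edge has a constraint. -/
structure PG (V D A : Type) where
  nb : D → V → V
  inv : D → D
  R : V → D → A → A → Bool
  inv_inv : ∀ j, inv (inv j) = j
  nb_inv : ∀ j v, nb (inv j) (nb j v) = v
  R_inv : ∀ v j a b, R (nb j v) (inv j) b a = R v j a b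

namespace PG

variable {V D A : Type} (G : PG V D A)

/-- The number of pairs (vertex, label) whose constraint is violated. -/
def viol [Fintype V] [Fintype D] (σ : V → A) : ℕ :=
  (Finset.univ.filter fun p : V × D => G.R p.1 p.2 (σ p.1) (σ (G.nb p.2 p.1)) = false).card

/-- The averaging operator. -/
noncomputable def avg [Fintype D] (f : V → ℝ) (v : V) : ℝ :=
  (∑ j, f (G.nb j v)) / Fintype.card D

/-- The averaging operator contracts the functions with sum zero by the factor `ρ`. -/
def Contr [Fintype V] [Fintype D] (ρ : ℝ) : Prop :=
  ∀ f : V → ℝ, ∑ v, f v = 0 → ∑ v, G.avg f v ^ 2 ≤ ρ ^ 2 * ∑ v, f v ^ 2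

/-- The end of the walk `w` that starts at `v`. -/
def go (v : V) (w : List D) : V := w.foldl (fun v j => G.nb j v) v

/-- The labels of the reversed walk. -/
def rv (w : List D) : List D := (w.map G.inv).reverse

/-- The walk `w` that starts at `v`, of which the first `l + 1` edges are used, is violated by the
opinions `Ω` of its two ends: for some edge number `i` whose distances to the two ends are less than
`T`, the opinions about the ends of the edge violate the constraint. The opinion `Ω u x` of `u` is
about the end of the walk `x` from `u`. -/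
def Wbad (T : ℕ) (Ω : V → List D → A) (v : V) (w : List D) (l : ℕ) : Prop :=
  ∃ i j, w[i]? = some j ∧ i ≤ l ∧ i < T ∧ l - i < T ∧
    G.R (G.go v (w.take i)) j (Ω v (w.take i))
      (Ω (G.go v (w.take (l + 1))) (G.rv ((w.take (l + 1)).drop (i + 1)))) = false

/-- The number of edges of the walk `w` from `v` that belong to `F`. -/
def cnt (F : V → D → Bool) : V → List D → ℕ
  | _, [] => 0
  | v, j :: w => (F v j).toNat + cnt F (G.nb j v) w

/-- The edge number `i` of the walk `w` from `v`, of which the first `l + 1` edges are used, belongs
to `F`, its distances to the ends of the walk are less than `T`, and the opinions of both ends of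
the walk about the ends of the edge are those of `σ`. -/
def Hit (T : ℕ) (F : V → D → Bool) (σ : V → A) (Ω : V → List D → A) (v : V) (w : List D)
    (l i : ℕ) : Prop :=
  i ≤ l ∧ i < T ∧ l - i < T ∧ (∃ j, w[i]? = some j ∧ F (G.go v (w.take i)) j = true) ∧
    Ω v (w.take i) = σ (G.go v (w.take i)) ∧
    Ω (G.go v (w.take (l + 1))) (G.rv ((w.take (l + 1)).drop (i + 1))) =
      σ (G.go v (w.take (i + 1)))

open Classical in
/-- The number of hits. -/
noncomputable def hits (T : ℕ) (F : V → D → Bool) (σ : V → A) (Ω : V → List D → A) (v : V)
    (w : List D) (l : ℕ) : ℕ := ((Finset.range (2 * T - 1)).filter (G.Hit T F σ Ω v w l)).card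

end PG

/-- The sum of `φ` over all words of length `k`. -/
noncomputable def wsum {D : Type} [Fintype D] : ℕ → (List D → ℝ) → ℝ
  | 0, φ => φ []
  | k + 1, φ => ∑ j, wsum k fun w => φ (j :: w)

/-! ### The torus -/

/-- The eight steps on the torus. -/
def tor (m : ℕ) (j : Fin 8) (x : ZMod m × ZMod m) : ZMod m × ZMod m :=
  match j with
  | 0 => (x.1 + 2 * x.2, x.2)
  | 1 => (x.1 - 2 * x.2, x.2)
  | 2 => (x.1, x.2 + 2 * x.1)
  | 3 => (x.1, x.2 - 2 * x.1)
  | 4 => (x.1 + 1, x.2)
  | 5 => (x.1 - 1, x.2)
  | 6 => (x.1, x.2 + 1)
  | 7 => (x.1, x.2 - 1)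

/-- The inverse steps. -/
def torInv : Fin 8 → Fin 8 := ![1, 0, 3, 2, 5, 4, 7, 6]

/-- The eight steps on the torus, for pairs of numbers less than `m`. -/
def torN (m : ℕ) (j : Fin 8) (x : ℕ × ℕ) : ℕ × ℕ :=
  match j with
  | 0 => ((x.1 + 2 * x.2) % m, x.2)
  | 1 => ((x.1 + 2 * (m - x.2)) % m, x.2)
  | 2 => (x.1, (x.2 + 2 * x.1) % m)
  | 3 => (x.1, (x.2 + 2 * (m - x.1)) % m)
  | 4 => ((x.1 + 1) % m, x.2)
  | 5 => ((x.1 + (m - 1)) % m, x.2)
  | 6 => (x.1, (x.2 + 1) % m)
  | 7 => (x.1, (x.2 + (m - 1)) % m)

/-- The least `m` with `n ≤ m * m`. -/
def rt (n : ℕ) : ℕ := ((List.range (n + 1)).filter fun m => decide (n ≤ m * m)).headD 0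

/-- The pairs of numbers less than `m`. -/
def slots (m : ℕ) : List (ℕ × ℕ) :=
  (List.range m).flatMap fun p => (List.range m).map fun q => (p, q)

/-! ### The graph of a constraint list

Every constraint number `i` has the two sides `2 i` and `2 i + 1`. The sides of a variable `x`, with
some dummies, are the points of a torus, the cloud of `x`. All clouds together, with some more
dummies, are numbered and arranged in one large torus. -/

/-- The labels: the constraint, the eight steps in the cloud, the eight steps in the large torus,
and seventeen loops. -/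
abbrev Lb : Type := Unit ⊕ Fin 8 ⊕ Fin 8 ⊕ Fin 17

/-- The inverse labels. -/
def linv : Lb → Lb := Sum.map id (Sum.map torInv (Sum.map torInv id))

/-- The variables of the sides. -/
def sides (I : Inst) : List ℕ := I.flatMap fun c => [c.1, c.2.1]

/-- The relations seen from the sides. -/
def srel (I : Inst) : List Rel := I.flatMap fun c => [c.2.2, fun a b => c.2.2 b a]

/-- The partners of the sides. -/
def spar (I : Inst) : List ℕ := (List.range I.length).flatMap fun i => [2 * i + 1, 2 * i]

/-- The sides of the variable `x`. -/
def occ (I : Inst) (x : ℕ) : List ℕ :=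
  (List.range (sides I).length).filter fun s => decide ((sides I).getD s 0 = x)

/-- The side of the torus of the variable `x`. -/
def csz (I : Inst) (x : ℕ) : ℕ := rt (occ I x).length

/-- The points of the clouds. -/
def pts (I : Inst) : List (ℕ × ℕ × ℕ) :=
  (sides I).dedup.flatMap fun x => (slots (csz I x)).map fun p => (x, p)

/-- The side of the large torus. -/
def bsz (I : Inst) : ℕ := rt (pts I).length

/-- The number of vertices. -/
def nV (I : Inst) : ℕ := bsz I * bsz I

/-- The point of the side `s`. -/
def sidePt (I : Inst) (s : ℕ) : ℕ × ℕ × ℕ :=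
  ((sides I).getD s 0,
    (slots (csz I ((sides I).getD s 0))).getD ((occ I ((sides I).getD s 0)).idxOf s) (0, 0))

/-- The number of the side at the point `u`, if there is one (the list is empty otherwise). -/
def ptSide (I : Inst) (u : ℕ × ℕ × ℕ) : List ℕ :=
  ((occ I u.1).drop ((slots (csz I u.1)).idxOf u.2)).take 1

/-- The neighbour of the vertex `v` along the label `j`. -/
def nb (I : Inst) : Lb → ℕ → ℕ
  | .inl _, v => if v < (pts I).length then
      (match ptSide I ((pts I).getD v (0, 0, 0)) with
        | [] => v
        | s :: _ => (pts I).idxOf (sidePt I ((spar I).getD s 0)))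
      else v
  | .inr (.inl j), v => if v < (pts I).length then
      (pts I).idxOf (((pts I).getD v (0, 0, 0)).1,
        torN (csz I ((pts I).getD v (0, 0, 0)).1) j ((pts I).getD v (0, 0, 0)).2) else v
  | .inr (.inr (.inl j)), v => (slots (bsz I)).idxOf (torN (bsz I) j ((slots (bsz I)).getD v (0, 0)))
  | .inr (.inr (.inr _)), v => v

/-- The relation of the edge with label `j` at the vertex `v`. -/
def rl (I : Inst) : Lb → ℕ → Rel
  | .inl _, v => if v < (pts I).length then
      (match ptSide I ((pts I).getD v (0, 0, 0)) with
        | [] => top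
        | s :: _ => (srel I).getD s top)
      else top
  | .inr (.inl _), _ => fun a b => decide (a = b)
  | .inr (.inr (.inl _)), _ => top
  | .inr (.inr (.inr _)), _ => top

/-- The graph `G` is the graph of the constraint list `I`. -/
structure Agree (I : Inst) (G : PG (Fin (nV I)) Lb Al) : Prop where
  nb : ∀ j v, ((G.nb j v : Fin (nV I)) : ℕ) = nb I j v
  rl : ∀ v j, G.R v j = rl I j v
  inv : G.inv = linv

/-! ### The tests of the long code -/

/-- The random choices of a test: its kind, three functions on pairs and one function. -/
abbrev Tst (S : Type) : Type :=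
  Fin 6 × (S × S → Bool) × (S × S → Bool) × (S × S → Bool) × (S → Bool)

/-- The queries: a bit of the table of the first variable, of the table of the second variable, or
of the table of the constraint. -/
abbrev Qy (S : Type) : Type := (S → Bool) ⊕ (S → Bool) ⊕ (S × S → Bool)

/-- The first variable. -/
abbrev qu {S : Type} (e : S → Bool) : Qy S := .inl e
/-- The second variable. -/
abbrev qv {S : Type} (e : S → Bool) : Qy S := .inr (.inl e)
/-- The constraint. -/
abbrev qa {S : Type} (f : S × S → Bool) : Qy S := .inr (.inr f)

/-- The four queries of a test. -/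
def qry {S : Type} (C : S → S → Bool) : Tst S → Fin 4 → Qy S
  | (0, f, g, _, _) => ![qa f, qa g, qa fun x => f x ^^ g x, qa f]
  | (1, f, g, h, _) => ![qa f, qa g, qa fun x => (f x && g x) ^^ h x, qa h]
  | (2, _, _, h, _) => ![qa fun x => !h x, qa h, qa h, qa h]
  | (3, _, _, h, _) => ![qa fun x => (!C x.1 x.2) ^^ h x, qa h, qa h, qa h]
  | (4, _, _, h, e) => ![qu e, qa fun x => e x.1 ^^ h x, qa h, qa h]
  | (5, _, _, h, e) => ![qv e, qa fun x => e x.2 ^^ h x, qa h, qa h]

/-- The predicates of the tests. -/
def prd : Fin 6 → (Fin 4 → Bool) → Bool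
  | 0, b => !(b 0 ^^ b 1 ^^ b 2)
  | 1, b => !((b 0 && b 1) ^^ b 2 ^^ b 3)
  | 2, b => b 0 ^^ b 1
  | 3, b => !(b 0 ^^ b 1)
  | 4, b => !(b 0 ^^ b 1 ^^ b 2)
  | 5, b => !(b 0 ^^ b 1 ^^ b 2)

/-- The answer to a query. -/
def ans {S : Type} (au av : (S → Bool) → Bool) (A : (S × S → Bool) → Bool) : Qy S → Bool
  | .inl e => au e
  | .inr (.inl e) => av e
  | .inr (.inr f) => A f

/-- The test `t` accepts. -/
def accept {S : Type} (C : S → S → Bool) (au av : (S → Bool) → Bool) (A : (S × S → Bool) → Bool)
    (t : Tst S) : Bool := prd t.1 fun i => ans au av A (qry C t i)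

/-- The parity of the number of elements of `s` with `f x = true`. -/
def chi {X : Type} (s : Finset X) (f : X → Bool) : Bool :=
  decide (Odd (s.filter fun x => f x = true).card)

/-- The table `a` agrees with the long code of `x` in more than three quarters of all places. -/
def Near {S : Type} [Fintype S] [DecidableEq S] (a : (S → Bool) → Bool) (x : S) : Prop :=
  4 * (Finset.univ.filter fun e : S → Bool => a e ≠ e x).card < Fintype.card (S → Bool)

/-! ### The composition -/

instance (T : ℕ) : Finite {w : List Lb // w.length < T} :=
  Set.Finite.to_subtype (List.finite_length_lt Lb T)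

noncomputable instance (T : ℕ) : Fintype {w : List Lb // w.length < T} := Fintype.ofFinite _

instance (T : ℕ) : Finite {w : List Lb // w.length = T} :=
  Set.Finite.to_subtype (List.finite_length_eq Lb T)

noncomputable instance (T : ℕ) : Fintype {w : List Lb // w.length = T} := Fintype.ofFinite _

/-- The opinions of a vertex: a letter for every word of length less than `T`. -/
def Sg (T : ℕ) : Type := {w : List Lb // w.length < T} → Al

noncomputable instance (T : ℕ) : Fintype (Sg T) := by unfold Sg; infer_instance
noncomputable instance (T : ℕ) : DecidableEq (Sg T) := by unfold Sg; infer_instance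
instance (T : ℕ) : Inhabited (Sg T) := ⟨fun _ => (0 : Al)⟩

/-- The opinion about a word. -/
def Sg.get {T : ℕ} (x : Sg T) (w : List Lb) : Al := if h : w.length < T then x ⟨w, h⟩ else 0

/-- The walks: a word of length `2 T - 1` and the number (minus one) of edges that are used. -/
abbrev Wd (T : ℕ) : Type := {w : List Lb // w.length = 2 * T - 1} × Fin (2 * T - 1)

/-- The part of the walk that is used. -/
def Wd.used {T : ℕ} (w : Wd T) : List Lb := w.1.1.take (w.2 + 1)

/-- The relation between the opinions of the two ends of the walk `w`, when the relations along the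
walk are given. -/
noncomputable def cst {T : ℕ} (w : Wd T) (r : Fin (2 * T - 1) → Rel) (x y : Sg T) : Bool :=
  decide (∀ i : Fin (2 * T - 1), (i : ℕ) ≤ w.2 → (i : ℕ) < T → (w.2 : ℕ) - i < T →
    r i (x.get (w.1.1.take i)) (y.get (((w.used.drop (i + 1)).map linv).reverse)) = true)

/-- The variables of the composition are numbers with a code: a bit of the table of a vertex, a bit
of the table of a walk, or the test of a walk. -/
abbrev Code (T : ℕ) : Type :=
  (Sg T → Bool) ⊕ (Wd T × (Sg T × Sg T → Bool)) ⊕ (Wd T × Tst (Sg T))

/-- The variables of the composition. -/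
abbrev Nm (T : ℕ) : Type := ℕ × Code T

/-- The end of a walk. -/
def goN (I : Inst) (v : ℕ) (w : List Lb) : ℕ := w.foldl (fun v j => nb I j v) v

/-- The relations along a walk. -/
def rels (I : Inst) {T : ℕ} (v : ℕ) (w : Wd T) : Fin (2 * T - 1) → Rel := fun i =>
  rl I (w.1.1.get (i.cast w.1.2.symm)) (goN I v (w.1.1.take i))

/-- The variable of a query. -/
def qnm (I : Inst) {T : ℕ} (v : ℕ) (w : Wd T) : Qy (Sg T) → Nm T
  | .inl e => (v, .inl e)
  | .inr (.inl e) => (goN I v w.used, .inl e)
  | .inr (.inr f) => (v, .inr (.inl (w, f)))

/-- The bits of a letter. -/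
def bits (z : Al) : Fin 4 → Bool := fun i => z.val.testBit i

/-- The relation between a test and its query number `i`. -/
def zrel (k : Fin 6) (i : Fin 4) : Rel := fun z b => prd k (bits z) && (bits z i == b.val.testBit 0)

/-- All elements of a finite type. -/
noncomputable def allOf (α : Type) [Fintype α] : List α := (Finset.univ : Finset α).toList

/-- The composition. -/
noncomputable def comp (T : ℕ) (I : Inst) : GInst (Nm T) :=
  (List.range (nV I)).flatMap fun v => (allOf (Wd T)).flatMap fun w =>
    (allOf (Tst (Sg T))).flatMap fun t => (List.finRange 4).map fun i =>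
      ((v, .inr (.inr (w, t))), qnm I v w (qry (cst w (rels I v w)) t i), zrel t.1 i)

/-! ### Numbering the variables -/

/-- The names of the variables are replaced by numbers. -/
def renum {α : Type} [DecidableEq α] (I : GInst α) : Inst :=
  I.map fun c => ((I.flatMap fun c => [c.1, c.2.1]).idxOf c.1,
    (I.flatMap fun c => [c.1, c.2.1]).idxOf c.2.1, c.2.2)

open Classical in
/-- One round. -/
noncomputable def amp (T : ℕ) (I : Inst) : Inst := renum (comp T I)

/-- All rounds. -/
noncomputable def rounds (T : ℕ) (I : Inst) : Inst := (amp T)^[Nat.log 2 I.length + 1] I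

/-! ### The graph of the walks on the constraints

The constraints are arranged in a torus. The vertices of the graph are the walks of length `k` on
the torus (with eight steps and eight loops), together with letters for the two variables of every
constraint on the walk that satisfy the constraint; two vertices are adjacent if they give
different letters to the same variable. -/

/-- The labels of the walks: the eight steps and eight loops. -/
abbrev Lw : Type := Fin 8 ⊕ Fin 8

/-- The side of the torus of the constraints. -/
def ksz (I : Inst) : ℕ := rt I.length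

/-- The constraint at a point of the torus. -/
def conAt (I : Inst) (p : ℕ × ℕ) : ℕ × ℕ × Rel :=
  I.getD ((slots (ksz I)).idxOf p % I.length) (0, 0, top)

/-- One step of a walk. -/
def stW (m : ℕ) : Lw → ℕ × ℕ → ℕ × ℕ
  | .inl j, p => torN m j p
  | .inr _, p => p

/-- An entry: a point, the label of the step that leads to it, and two letters. -/
abbrev Ent : Type := (ℕ × ℕ) × Lw × Al × Al

/-- All entries at the point `p` with the label `j` whose letters satisfy the constraint. -/
def ents (I : Inst) (p : ℕ × ℕ) (j : Lw) : List Ent :=
  (List.finRange 16).flatMap fun a => ((List.finRange 16).filter fun b =>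
    (conAt I p).2.2 a b).map fun b => (p, j, a, b)

/-- The walks with one more step. The last point of the walk is the first entry of the list. -/
def ext (I : Inst) (L : List (List Ent)) : List (List Ent) :=
  L.flatMap fun x => (allLw).flatMap fun j =>
    (ents I (stW (ksz I) j (x.headD ((0, 0), .inr 0, 0, 0)).1) j).map fun e => e :: x
where
  /-- All labels. -/
  allLw : List Lw := (List.finRange 8).map Sum.inl ++ (List.finRange 8).map Sum.inr

/-- The walks of length zero. -/
def start (I : Inst) : List (List Ent) :=
  (slots (ksz I)).flatMap fun p => (ents I p (.inr 0)).map fun e => [e]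

/-- The letters of the variables on a walk. -/
def vals (I : Inst) (x : List Ent) : List (ℕ × Al) :=
  x.flatMap fun e => [((conAt I e.1).1, e.2.2.1), ((conAt I e.1).2.1, e.2.2.2)]

/-- Some variable has different letters in the two lists. -/
def clash (l l' : List (ℕ × Al)) : Bool :=
  l.any fun u => l'.any fun v => decide (u.1 = v.1) && !decide (u.2 = v.2)

/-- The vertices of the graph. -/
def fgV (I : Inst) (k : ℕ) : List (List Ent) :=
  ((ext I)^[k] (start I)).filter fun x => !clash (vals I x) (vals I x)

theorem clash_comm (l l' : List (ℕ × Al)) : clash l l' = clash l' l := by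
  rw [Bool.eq_iff_iff]
  simp only [clash, List.any_eq_true, Bool.and_eq_true, decide_eq_true_eq, Bool.not_eq_true']
  constructor
  · rintro ⟨u, hu, v, hv, h1, h2⟩
    exact ⟨v, hv, u, hu, h1.symm, by rw [decide_eq_false_iff_not] at h2 ⊢; exact Ne.symm h2⟩
  · rintro ⟨u, hu, v, hv, h1, h2⟩
    exact ⟨v, hv, u, hu, h1.symm, by rw [decide_eq_false_iff_not] at h2 ⊢; exact Ne.symm h2⟩

/-- The graph. -/
def fg (I : Inst) (k : ℕ) : Graph where
  n := (fgV I k).length
  graph :=
    { Adj := fun i j => clash (vals I ((fgV I k).get i)) (vals I ((fgV I k).get j)) = true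
      symm := ⟨fun i j h => by rw [clash_comm]; exact h⟩
      loopless := ⟨fun i h => by
        have h1 : (fgV I k).get i ∈ fgV I k := List.get_mem _ _
        unfold fgV at h1
        rw [List.mem_filter] at h1
        have h2 := h1.2
        unfold fgV at h
        rw [h] at h2
        exact absurd h2 (by decide)⟩ }

/-- The number of all walks. -/
def thr (I : Inst) (k : ℕ) : ℕ := ksz I * ksz I * 16 ^ k

/-- The length of the walks. -/
def klen (K : ℕ) (I : Inst) : ℕ := K * (Nat.log 2 (Nat.log 2 (ksz I * ksz I) + 2) + 1)

/-! ### Formulas -/

/-- The variables: the variables of the formula, and a variable for every literal of every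
clause. -/
abbrev Nc : Type := (Bool × ℕ) ⊕ (ℕ × ℕ)

/-- The letter of a literal consists of three bits: is an earlier literal of the clause true, is
this or an earlier literal true, and the value of the variable. -/
def rlit (first last sign : Bool) : Rel := fun z b =>
  decide (z.val.testBit 2 = b.val.testBit 0) &&
  decide (z.val.testBit 1 = (z.val.testBit 0 || decide (z.val.testBit 2 = sign))) &&
  (!first || !z.val.testBit 0) && (!last || z.val.testBit 1)

/-- Consecutive literals. -/
def rlink : Rel := fun z z' => decide (z.val.testBit 1 = z'.val.testBit 0)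

/-- The constraints of a clause. -/
def cnfC (i : ℕ) (C : List (Bool × Bool × ℕ)) : GInst Nc :=
  if C.length = 0 then [(.inr (0, 0), .inr (0, 0), fun _ _ => false)] else
  (List.range C.length).flatMap fun k =>
    [(.inr (i, k), .inl ((C.getD k (false, false, 0)).1, (C.getD k (false, false, 0)).2.2),
      rlit (decide (k = 0)) (decide (k + 1 = C.length)) (C.getD k (false, false, 0)).2.1),
     (.inr (i, k), .inr (i, k + 1), if k + 1 < C.length then rlink else top)]

/-- The constraints of a formula. -/
def ofCNF (φ : List (List (Bool × Bool × ℕ))) : GInst Nc :=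
  (.inr (0, 0), .inr (0, 0), top) ::
    (List.range φ.length).flatMap fun i => cnfC i (φ.getD i [])

/-- The instance of the formula after all rounds. -/
noncomputable def final (T : ℕ) (φ : List (List (Bool × Bool × ℕ))) : Inst :=
  rounds T (renum (ofCNF φ))

/-! ### P and NP -/

/-- The language `L` is decided in polynomial time by a Turing machine. -/
def InP {Γ : Type} (L : Set (List Γ)) : Prop :=
  ∃ d : List Γ → Bool,
    Nonempty (Turing.TM2ComputableInPolyTime (id : List Γ → List Γ) Computability.encodeBool d) ∧
    ∀ x, x ∈ L ↔ d x = true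

/-- **P = NP**: every language over a finite alphabet in the class NP is decided in polynomial
time. -/
def PeqNP : Prop := ∀ (Γ : Type) [Fintype Γ] (L : Set (List Γ)), CookLevin.InNP L → InP L

/-- A number and an object as a word. -/
def frE {β βΓ : Type} (eb : β → List βΓ) (p : ℕ × β) : List (Option βΓ) :=
  List.replicate p.1 none ++ (eb p.2).map some

end Pool.Agent.Lib.MP_186ff7_lc.PCP
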