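import Pool.Agent.Lib.MP_186ff7_lc.PCP.Stmts
import Pool.Agent.Lib.MP_186ff7_lc.PCP.Words

/-!
# The PCP theorem: the first moment of the number of hits
-/

namespace Pool.Agent.Lib.MP_186ff7_lc.PCP

set_option linter.unusedSectionVars false

open Finset

section first

variable {V D : Type} [Fintype V] [Fintype D] [Nonempty V] [Nonempty D] (G : PG V D Al)
  (Ω : V → List D → Al)

/-- The number of walks of length `p` from `u` whose other end has the opinion `a` about `u`. -/
noncomputable def fc (p : ℕ) (u : V) (a : Al) : ℝ :=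
  wsum p fun x => if Ω (G.go u x) (G.rv x) = a then (1 : ℝ) else 0

theorem fc_nonneg (p : ℕ) (u : V) (a : Al) : 0 ≤ fc G Ω p u a :=
  wsum_nonneg fun w _ => by split_ifs <;> norm_num

theorem fc_sum (p : ℕ) (u : V) : ∑ a, fc G Ω p u a = (Fintype.card D : ℝ) ^ p := by
  unfold fc
  rw [← wsum_sum]
  have h : (fun w : List D => ∑ a : Al, if Ω (G.go u w) (G.rv w) = a then (1 : ℝ) else 0) =
      fun _ => 1 := by
    funext w
    rw [Finset.sum_ite_eq Finset.univ]
    simp
  rw [h, wsum_const, mul_one]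

/-- The proportion. -/
noncomputable def fp (p : ℕ) (u : V) (a : Al) : ℝ := fc G Ω p u a / (Fintype.card D : ℝ) ^ p

theorem fp_nonneg (p : ℕ) (u : V) (a : Al) : 0 ≤ fp G Ω p u a :=
  div_nonneg (fc_nonneg G Ω p u a) (by positivity)

theorem fc_eq (p : ℕ) (u : V) (a : Al) :
    fc G Ω p u a = (Fintype.card D : ℝ) ^ p * fp G Ω p u a := by
  unfold fp
  have : ((Fintype.card D : ℝ)) ^ p ≠ 0 := by
    have : (Fintype.card D : ℝ) ≠ 0 := by exact_mod_cast Fintype.card_ne_zero
    positivity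
  field_simp

theorem fp_sum (p : ℕ) (u : V) : ∑ a, fp G Ω p u a = 1 := by
  unfold fp
  rw [← Finset.sum_div, fc_sum]
  have : ((Fintype.card D : ℝ)) ^ p ≠ 0 := by
    have : (Fintype.card D : ℝ) ≠ 0 := by exact_mod_cast Fintype.card_ne_zero
    positivity
  exact div_self this

/-- The most popular letter. -/
theorem plural (T : ℕ) (u : V) :
    ∃ a : Al, (T : ℝ) / 16 ≤ ∑ p ∈ Finset.range T, fp G Ω p u a := by
  by_contra h
  push Not at h
  have h1 : ∑ a : Al, ∑ p ∈ Finset.range T, fp G Ω p u a = T := by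
    rw [Finset.sum_comm]
    simp only [fp_sum]
    simp
  have h2 : ∑ a : Al, ∑ p ∈ Finset.range T, fp G Ω p u a < ∑ _a : Al, (T : ℝ) / 16 :=
    Finset.sum_lt_sum_of_nonempty Finset.univ_nonempty fun a _ => h a
  rw [h1] at h2
  simp at h2
  linarith

/-- The words are cut at the edge number `p`. -/
theorem wsum_cut (p s z : ℕ) (φ : List D → ℝ) :
    wsum (p + (s + z + 1)) φ =
      wsum p fun x => ∑ j, wsum s fun y => wsum z fun t => φ (x ++ j :: (y ++ t)) := by
  rw [wsum_add]
  congr 1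
  funext x
  simp only [wsum]
  refine Finset.sum_congr rfl fun j _ => ?_
  rw [wsum_add]

theorem hit_cut (T : ℕ) (F : V → D → Bool) (σ : V → Al) (v : V) (x y t : List D) (j : D)
    (hp : x.length < T) (hs : y.length < T) :
    G.Hit T F σ Ω v (x ++ j :: (y ++ t)) (x.length + y.length) x.length ↔
      Ω v x = σ (G.go v x) ∧ F (G.go v x) j = true ∧
        Ω (G.go (G.nb j (G.go v x)) y) (G.rv y) = σ (G.nb j (G.go v x)) := by
  have h1 : (x ++ j :: (y ++ t)).take x.length = x := by simp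
  have h2 : (x ++ j :: (y ++ t))[x.length]? = some j := by simp
  have h3 : (x ++ j :: (y ++ t)).take (x.length + y.length + 1) = x ++ j :: y := by
    rw [show x.length + y.length + 1 = (x ++ j :: y).length by
      rw [List.length_append, List.length_cons]; omega]
    rw [show x ++ j :: (y ++ t) = (x ++ j :: y) ++ t by simp]
    exact List.take_left
  have h4 : (x ++ j :: y).drop (x.length + 1) = y := by
    rw [show x.length + 1 = (x ++ [j]).length by simp]
    rw [show x ++ j :: y = (x ++ [j]) ++ y by simp]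
    rw [List.drop_left]
  have h5 : (x ++ j :: (y ++ t)).take (x.length + 1) = x ++ [j] := by
    rw [show x.length + 1 = (x ++ [j]).length by simp]
    rw [show x ++ j :: (y ++ t) = (x ++ [j]) ++ (y ++ t) by simp]
    rw [List.take_left]
  unfold PG.Hit
  rw [h1, h2, h3, h4, h5]
  simp only [PG.go_append, PG.go_cons, PG.go_nil]
  constructor
  · rintro ⟨-, -, -, ⟨i, hi, hF⟩, ha, hb⟩
    have : j = i := by simpa using hi
    subst this
    exact ⟨ha, hF, hb⟩
  · rintro ⟨ha, hF, hb⟩
    exact ⟨by omega, hp, by omega, ⟨j, rfl, hF⟩, ha, hb⟩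

open Classical in
/-- The number of hits at one place. -/
theorem hit_sum (T : ℕ) (F : V → D → Bool) (σ : V → Al) (p s : ℕ) (hp : p < T) (hs : s < T) :
    ∑ v, wsum (2 * T - 1) (fun w => if G.Hit T F σ Ω v w (p + s) p then (1 : ℝ) else 0) =
      (Fintype.card D : ℝ) ^ (2 * T - 2) * ∑ u, ∑ j, (if F u j = true then (1 : ℝ) else 0) *
        (fp G Ω p u (σ u) * fp G Ω s (G.nb j u) (σ (G.nb j u))) := by
  obtain ⟨z, hz⟩ : ∃ z, 2 * T - 2 = p + s + z := ⟨2 * T - 2 - p - s, by omega⟩
  have e1 : 2 * T - 1 = p + (s + z + 1) := by omega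
  obtain ⟨Φ, hΦ⟩ : ∃ Φ : V → List D → V → ℝ, Φ = fun v x u =>
      (if Ω v x = σ u then (1 : ℝ) else 0) * ∑ j, (if F u j = true then (1 : ℝ) else 0) *
          (fc G Ω s (G.nb j u) (σ (G.nb j u)) * (Fintype.card D : ℝ) ^ z) := ⟨_, rfl⟩
  have h1 : ∀ v, wsum (2 * T - 1) (fun w => if G.Hit T F σ Ω v w (p + s) p then (1 : ℝ) else 0) =
      wsum p fun x => Φ v x (G.go v x) := by
    intro v
    rw [e1, wsum_cut]
    refine wsum_congr fun x hx => ?_
    rw [hΦ]
    simp only
    rw [Finset.mul_sum]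
    refine Finset.sum_congr rfl fun j _ => ?_
    unfold fc
    rw [← wsum_mul_right, ← wsum_mul_left, ← wsum_mul_left]
    refine wsum_congr fun y hy => ?_
    rw [show ∀ c : ℝ, c * (Fintype.card D : ℝ) ^ z = wsum z (fun _ : List D => c) by
      intro c; rw [wsum_const]; ring]
    rw [← wsum_mul_left, ← wsum_mul_left]
    refine wsum_congr fun t _ => ?_
    have := hit_cut G Ω T F σ v x y t j (by omega) (by omega)
    rw [hx, hy] at this
    by_cases ha : Ω v x = σ (G.go v x)
    · by_cases hb : F (G.go v x) j = true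
      · by_cases hc : Ω (G.go (G.nb j (G.go v x)) y) (G.rv y) = σ (G.nb j (G.go v x))
        · rw [if_pos (this.2 ⟨ha, hb, hc⟩), if_pos ha, if_pos hb, if_pos hc]; norm_num
        · rw [if_neg (fun h => hc (this.1 h).2.2), if_neg hc]; ring
      · rw [if_neg (fun h => hb (this.1 h).2.1), if_neg hb]; ring
    · rw [if_neg (fun h => ha (this.1 h).1), if_neg ha]; ring
  rw [Finset.sum_congr rfl fun v _ => h1 v, G.reversal p Φ, Finset.mul_sum, hΦ]
  refine Finset.sum_congr rfl fun u _ => ?_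
  rw [wsum_mul_right]
  change fc G Ω p u (σ u) * _ = _
  rw [Finset.mul_sum, Finset.mul_sum]
  refine Finset.sum_congr rfl fun j _ => ?_
  rw [fc_eq, fc_eq, hz, pow_add, pow_add]
  ring

theorem swap4 (T : ℕ) (K : ℝ) (c : V → D → ℝ) (A : ℕ → V → ℝ) (B : ℕ → V → D → ℝ) :
    ∑ p ∈ Finset.range T, ∑ s ∈ Finset.range T, K * ∑ u, ∑ j, c u j * (A p u * B s u j) =
      K * ∑ u, ∑ j, c u j * ((∑ p ∈ Finset.range T, A p u) * ∑ s ∈ Finset.range T, B s u j) := by
  simp only [Finset.sum_mul_sum]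
  simp only [Finset.mul_sum]
  rw [Finset.sum_congr rfl fun p _ => Finset.sum_comm, Finset.sum_comm]
  refine Finset.sum_congr rfl fun u _ => ?_
  rw [Finset.sum_congr rfl fun p _ => Finset.sum_comm, Finset.sum_comm]

end first

open Classical in
theorem first : StFirst := by
  intro V D _ _ _ _ G T hT Ω
  choose σ hσ using plural G Ω T
  refine ⟨σ, fun F => ?_⟩
  -- the sum over the places
  have h1 : ∀ v w, ∑ p ∈ Finset.range T, ∑ s ∈ Finset.range T,
      (if G.Hit T F σ Ω v w (p + s) p then (1 : ℝ) else 0) ≤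
      ∑ l ∈ Finset.range (2 * T - 1), (G.hits T F σ Ω v w l : ℝ) := by
    intro v w
    have e1 : ∀ l, (G.hits T F σ Ω v w l : ℝ) =
        ∑ i ∈ Finset.range (2 * T - 1), if G.Hit T F σ Ω v w l i then (1 : ℝ) else 0 := by
      intro l
      unfold PG.hits
      rw [Finset.card_filter]
      push_cast
      rfl
    simp only [e1]
    rw [← Finset.sum_product', ← Finset.sum_product']
    let f : ℕ × ℕ → ℕ × ℕ := fun q => (q.1 + q.2, q.1)
    have hf : Set.InjOn f ((Finset.range T ×ˢ Finset.range T : Finset (ℕ × ℕ)) : Set (ℕ × ℕ)) := by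
      rintro ⟨a, b⟩ _ ⟨c, d⟩ _ h
      simp only [f, Prod.mk.injEq] at h
      ext <;> simp <;> omega
    calc ∑ x ∈ Finset.range T ×ˢ Finset.range T,
          (if G.Hit T F σ Ω v w (x.1 + x.2) x.1 then (1 : ℝ) else 0)
        = ∑ y ∈ (Finset.range T ×ˢ Finset.range T).image f,
          (if G.Hit T F σ Ω v w y.1 y.2 then (1 : ℝ) else 0) := by
          rw [Finset.sum_image hf]
      _ ≤ _ := by
          refine Finset.sum_le_sum_of_subset_of_nonneg ?_ fun _ _ _ => by split_ifs <;> norm_num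
          intro y hy
          rw [Finset.mem_image] at hy
          obtain ⟨x, hx, rfl⟩ := hy
          rw [Finset.mem_product, Finset.mem_range, Finset.mem_range] at hx ⊢
          simp only [f]
          omega
  have h2 : ∑ p ∈ Finset.range T, ∑ s ∈ Finset.range T, ∑ v, wsum (2 * T - 1) (fun w =>
      if G.Hit T F σ Ω v w (p + s) p then (1 : ℝ) else 0) ≤
      ∑ v, wsum (2 * T - 1) fun w => ∑ l ∈ Finset.range (2 * T - 1),
        (G.hits T F σ Ω v w l : ℝ) := by
    calc _ = ∑ v, wsum (2 * T - 1) fun w => ∑ p ∈ Finset.range T, ∑ s ∈ Finset.range T,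
          (if G.Hit T F σ Ω v w (p + s) p then (1 : ℝ) else 0) := by
          simp only [wsum_sum]
          rw [Finset.sum_congr rfl fun p _ => Finset.sum_comm, Finset.sum_comm]
      _ ≤ _ := Finset.sum_le_sum fun v _ => wsum_le_wsum fun w _ => h1 v w
  refine le_trans ?_ h2
  have h3 : ∀ p ∈ Finset.range T, ∀ s ∈ Finset.range T, ∑ v, wsum (2 * T - 1) (fun w =>
      if G.Hit T F σ Ω v w (p + s) p then (1 : ℝ) else 0) =
      (Fintype.card D : ℝ) ^ (2 * T - 2) * ∑ u, ∑ j, (if F u j = true then (1 : ℝ) else 0) *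
        (fp G Ω p u (σ u) * fp G Ω s (G.nb j u) (σ (G.nb j u))) := by
    intro p hp s hs
    exact hit_sum G Ω T F σ p s (Finset.mem_range.1 hp) (Finset.mem_range.1 hs)
  rw [Finset.sum_congr rfl fun p hp => Finset.sum_congr rfl fun s hs => h3 p hp s hs]
  have h4 : ∑ p ∈ Finset.range T, ∑ s ∈ Finset.range T,
      (Fintype.card D : ℝ) ^ (2 * T - 2) * ∑ u, ∑ j, (if F u j = true then (1 : ℝ) else 0) *
        (fp G Ω p u (σ u) * fp G Ω s (G.nb j u) (σ (G.nb j u))) =
      (Fintype.card D : ℝ) ^ (2 * T - 2) * ∑ u, ∑ j, (if F u j = true then (1 : ℝ) else 0) *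
        ((∑ p ∈ Finset.range T, fp G Ω p u (σ u)) *
          ∑ s ∈ Finset.range T, fp G Ω s (G.nb j u) (σ (G.nb j u))) :=
    swap4 T _ _ (fun p u => fp G Ω p u (σ u)) fun s u j => fp G Ω s (G.nb j u) (σ (G.nb j u))
  rw [h4]
  have h5 : ((Finset.univ.filter fun p : V × D => F p.1 p.2 = true).card : ℝ) =
      ∑ u, ∑ j, if F u j = true then (1 : ℝ) else 0 := by
    rw [Finset.card_filter]
    push_cast
    rw [Fintype.sum_prod_type]
  rw [h5, mul_comm (∑ u, ∑ j, if F u j = true then (1 : ℝ) else 0), mul_assoc]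
  refine mul_le_mul_of_nonneg_left ?_ (by positivity)
  rw [Finset.sum_mul]
  refine Finset.sum_le_sum fun u _ => ?_
  rw [Finset.sum_mul]
  refine Finset.sum_le_sum fun j _ => ?_
  refine mul_le_mul_of_nonneg_left ?_ (by split_ifs <;> norm_num)
  rw [pow_two]
  exact mul_le_mul (hσ u) (hσ _) (by positivity)
    (Finset.sum_nonneg fun p _ => fp_nonneg G Ω p u _)

end Pool.Agent.Lib.MP_186ff7_lc.PCP
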