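import Pool.Agent.Lib.MP_186ff7_lc.PCP.PTamp
import Pool.Agent.Lib.MP_186ff7_lc.PCP.Slots
import Pool.Agent.Lib.MP_186ff7_lc.Final

/-!
# Approximation of the independence number within polylogarithmic factors implies P = NP
-/

namespace Pool.Agent.Lib.MP_186ff7_lc.PCP

open Turing Pool.Agent.Lib.PT

theorem poly (h1 : StPTcnf) (h2 : StPTrounds) (h3 : StPTfg) : StPoly := by
  intro T ε₀ C e1 e2 e3 hA K
  obtain ⟨F, hF, h⟩ := h1
  refine ptime_tm' (F := fun w => frE Graph.encode (thr (rounds T (F w)) (klen K (rounds T (F w))),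
    fg (rounds T (F w)) (klen K (rounds T (F w))))) EncInj.inj
    ((h3 K).comp ((h2 T ε₀ C e1 e2 e3 hA).comp hF)) fun φ => ?_
  rw [h]
  rfl

/-- The empty graph. -/
def graph0 : Graph := ⟨0, ⊥⟩

theorem eq_graph0 (G : Graph) (h : G.n = 0) : G = graph0 := by
  obtain ⟨n, g⟩ := G
  simp only at h
  subst h
  unfold graph0
  congr 1
  ext u v
  exact u.elim0

theorem ksz_pos {I : Inst} (hI : I ≠ []) : 0 < ksz I := rt_pos (List.length_pos_of_ne_nil hI)

theorem log_one_two : Nat.log 2 (Nat.log 2 1 + 2) = 1 := by decide +kernel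

/-- The constant `K` is large. -/
theorem lt_two_pow_of_num {A K : ℕ} {θ : ℝ} (hθ : 1 / 2 ≤ θ)
    (hK : ∀ (M n k : ℕ), 1 ≤ M → k = K * (Nat.log 2 (Nat.log 2 M + 2) + 1) →
      n ≤ M * 16 ^ k * 256 ^ (k + 1) → ((A * (1 + Nat.log 2 n) ^ 3 : ℕ) : ℝ) ^ 2 * θ ^ k < 1) :
    A < 2 ^ K := by
  have h0 : ∀ k : ℕ, 1 ≤ 1 * 16 ^ k * 256 ^ (k + 1) := by
    intro k
    rw [one_mul]
    exact Nat.mul_pos (Nat.pow_pos (by norm_num)) (Nat.pow_pos (by norm_num))
  have h1 := hK 1 1 (K * (1 + 1)) le_rfl (by rw [log_one_two]) (h0 _)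
  rw [Nat.log_one_right, Nat.add_zero, one_pow, mul_one] at h1
  have h2 : (1 / 2 : ℝ) ^ (K * (1 + 1)) ≤ θ ^ (K * (1 + 1)) :=
    pow_le_pow_left₀ (by norm_num) hθ _
  have h3 : (A : ℝ) ^ 2 * (1 / 2) ^ (K * (1 + 1)) < 1 :=
    lt_of_le_of_lt (mul_le_mul_of_nonneg_left h2 (sq_nonneg _)) h1
  have hp : (0 : ℝ) < 2 ^ (K * (1 + 1)) := by positivity
  have h4 : (A : ℝ) < 2 ^ K := by
    rw [one_div, inv_pow, ← div_eq_mul_inv, div_lt_one hp, pow_mul] at h3
    norm_num only at h3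
    exact lt_of_pow_lt_pow_left₀ 2 (by positivity) h3
  exact_mod_cast h4

/-- **The main theorem**: if the independence number of graphs can be approximated in polynomial
time within a factor that is polylogarithmic in the number of vertices, then P = NP. -/
theorem main (hAmp : StAmp) (hR : StRounds) (hRe : StRenum) (hSat : StFGSat) (hGap : StFGGap)
    (hLen : StFGLen) (hNum : StNum) (hCNF : StCNF) (hFrame : StFrame) (hDec : StDecide)
    (hPoly : StPoly) : StMain := by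
  rintro ⟨C, a, hMa, ha⟩ Γ _ L hL
  obtain ⟨f, hMf, hf⟩ := CookLevin.cook_levin hL
  obtain ⟨T, ε₀, C', hT, hε0, hε1, hC', hA⟩ := hAmp
  obtain ⟨c, hc0, hc1, hG⟩ := hGap
  set θ : ℝ := max (1 - c * ε₀) (1 / 2) with hθ
  have hcε : 0 < c * ε₀ := mul_pos hc0 hε0
  have hθ0 : 0 ≤ θ := le_max_of_le_right (by norm_num)
  have hθ1 : θ < 1 := max_lt (by linarith) (by norm_num)
  obtain ⟨K, hK⟩ := hNum (C + a graph0 + 1) θ hθ0 hθ1
  have hMp := hPoly T ε₀ C' hε0 hε1 hC' hA K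
  have hMfr := hFrame Graph ℕ Sym Sym Graph.encode tally a hMa
  obtain ⟨M₁⟩ := hMf
  obtain ⟨M₂⟩ := hMp
  obtain ⟨M₃⟩ := hMfr
  obtain ⟨M₄⟩ := hDec
  obtain ⟨N₁⟩ := CookLevin.polyTime_comp M₁ M₂
  obtain ⟨N₂⟩ := CookLevin.polyTime_comp N₁ M₃
  obtain ⟨N₃⟩ := CookLevin.polyTime_comp N₂ M₄
  refine ⟨_, ⟨N₃⟩, fun x => ?_⟩
  rw [(hf x).2, ← hCNF (f x)]
  show _ ↔ decide (thr (final T (f x)) (klen K (final T (f x))) ≤
    a (fg (final T (f x)) (klen K (final T (f x))))) = true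
  rw [decide_eq_true_eq]
  set I₀ := ofCNF (f x) with hI₀
  set I := final T (f x) with hI
  have hIr : I = rounds T (renum I₀) := rfl
  have hI₀ne : I₀ ≠ [] := by rw [hI₀]; unfold ofCNF; simp
  obtain ⟨r1, r2, r3, r4⟩ := hRe Nc I₀
  have hJne : renum I₀ ≠ [] := by
    intro h
    rw [h] at r1
    exact hI₀ne (List.eq_nil_of_length_eq_zero r1.symm)
  obtain ⟨s1, s2, s3, s4⟩ := hR T ε₀ C' hε0 hε1 hC' hA (renum I₀) hJne
  rw [← hIr] at s1 s2 s3
  set k := klen K I with hk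
  have hM : 1 ≤ ksz I * ksz I := Nat.mul_pos (ksz_pos s1) (ksz_pos s1)
  have hthr : 0 < thr I k := Nat.mul_pos hM (Nat.pow_pos (by norm_num))
  constructor
  · intro h
    have h1 := hSat I k s1 (s2 (r3 h))
    refine h1.trans (ha _ ?_).1
    have h2 : (fg I k).graph.indepNum ≤ (fg I k).n := by
      obtain ⟨s, hs⟩ := (fg I k).graph.exists_isNIndepSet_indepNum
      rw [← hs.card_eq]
      exact (Finset.card_le_univ s).trans (by simp)
    omega
  · intro h
    by_contra hns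
    have hgap : Gap ε₀ I := by
      refine s3 ?_
      have hlen : (0 : ℝ) < I₀.length := by
        exact_mod_cast List.length_pos_of_ne_nil hI₀ne
      have g1 : Gap (1 / I₀.length) I₀ := by
        intro σ
        rw [one_div, inv_mul_cancel₀ hlen.ne']
        have h1 : viol I₀ σ ≠ 0 := fun h0 => hns ⟨σ, h0⟩
        exact_mod_cast Nat.one_le_iff_ne_zero.2 h1
      rintro ⟨σ, hσ⟩
      have h2 := r4 _ g1 σ
      rw [r1, hσ, one_div, inv_mul_cancel₀ hlen.ne'] at h2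
      norm_num at h2
    have hG' := hG I ε₀ k s1 hε0.le hε1 hgap
    have hpow : (1 - c * ε₀) ^ k ≤ θ ^ k := by
      refine pow_le_pow_left₀ ?_ (le_max_left _ _) k
      have := mul_le_mul hc1 hε1 hε0.le zero_le_one
      rw [one_mul] at this
      exact sub_nonneg.2 this
    rcases Nat.eq_zero_or_pos (fg I k).n with h0 | h0
    · rw [eq_graph0 _ h0] at h
      have h5 : C + a graph0 + 1 < 2 ^ K := lt_two_pow_of_num (le_max_right _ _) hK
      have h6 : 2 ^ K ≤ 16 ^ k := by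
        have h7 : K ≤ k := by
          rw [hk]
          unfold klen
          exact Nat.le_mul_of_pos_right _ (by omega)
        calc 2 ^ K ≤ 16 ^ K := Nat.pow_le_pow_left (by norm_num) K
          _ ≤ 16 ^ k := Nat.pow_le_pow_right (by norm_num) h7
      have h7 : 16 ^ k ≤ thr I k := by
        unfold thr
        exact Nat.le_mul_of_pos_left _ hM
      omega
    · have h1 := (ha _ h0).2
      have hn : (fg I k).n ≤ ksz I * ksz I * 16 ^ k * 256 ^ (k + 1) := by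
        refine le_trans ?_ (hLen I k)
        show (fgV I k).length ≤ _
        unfold fgV
        exact List.length_filter_le _ _
      have h2 := hK (ksz I * ksz I) (fg I k).n k hM (by rw [hk]; rfl) hn
      set n := (fg I k).n with hn'
      set α := (fg I k).graph.indepNum with hα
      have h3 : (thr I k : ℝ) ≤ ((C * (1 + Nat.log 2 n) ^ 3 : ℕ) : ℝ) * α := by
        exact_mod_cast h.trans h1
      have h4 : ((C * (1 + Nat.log 2 n) ^ 3 : ℕ) : ℝ) ≤
          (((C + a graph0 + 1) * (1 + Nat.log 2 n) ^ 3 : ℕ) : ℝ) := by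
        exact_mod_cast Nat.mul_le_mul_right _ (by omega)
      have h5 : (thr I k : ℝ) ≤ (((C + a graph0 + 1) * (1 + Nat.log 2 n) ^ 3 : ℕ) : ℝ) * α :=
        h3.trans (mul_le_mul_of_nonneg_right h4 (Nat.cast_nonneg _))
      set X : ℝ := (((C + a graph0 + 1) * (1 + Nat.log 2 n) ^ 3 : ℕ) : ℝ) with hX
      have hthr' : (0 : ℝ) < thr I k := by exact_mod_cast hthr
      have h6 : (thr I k : ℝ) ^ 2 ≤ X ^ 2 * α ^ 2 := by
        rw [← mul_pow]
        exact pow_le_pow_left₀ hthr'.le h5 2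
      have h7 : (α : ℝ) ^ 2 ≤ (thr I k : ℝ) ^ 2 * θ ^ k :=
        hG'.trans (mul_le_mul_of_nonneg_left hpow (sq_nonneg _))
      have h8 : (thr I k : ℝ) ^ 2 ≤ X ^ 2 * ((thr I k : ℝ) ^ 2 * θ ^ k) :=
        h6.trans (mul_le_mul_of_nonneg_left h7 (sq_nonneg _))
      have h9 : X ^ 2 * ((thr I k : ℝ) ^ 2 * θ ^ k) < (thr I k : ℝ) ^ 2 := by
        calc X ^ 2 * ((thr I k : ℝ) ^ 2 * θ ^ k) = (thr I k : ℝ) ^ 2 * (X ^ 2 * θ ^ k) := by ring
          _ < (thr I k : ℝ) ^ 2 * 1 := mul_lt_mul_of_pos_left h2 (pow_pos hthr' 2)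
          _ = _ := mul_one _
      exact absurd h8 (not_le.2 h9)

end Pool.Agent.Lib.MP_186ff7_lc.PCP
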