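import Pool.Agent.Lib.MP_186ff7_lc.PCP.PTStmts

/-!
# The numbering of the variables is computable in polynomial time
-/

namespace Pool.Agent.Lib.MP_186ff7_lc.PCP

open Turing Pool.Agent.Lib.PT

theorem ptime_renum {α : Type} [Enc α] [EncInj α] [DecidableEq α] :
    PTime (renum (α := α)) := by
  unfold renum
  have h0 : PTime fun I : GInst α => I.flatMap fun c => [c.1, c.2.1] :=
    PTime.flatMap (l := fun I : GInst α => I) (f := fun _ c => [c.1, c.2.1]) PTime.id
      (by fun_prop)
  refine PTime.map (l := fun I : GInst α => I)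
    (f := fun I c => ((I.flatMap fun c => [c.1, c.2.1]).idxOf c.1,
      (I.flatMap fun c => [c.1, c.2.1]).idxOf c.2.1, c.2.2)) PTime.id ?_
  have h1 : PTime fun p : GInst α × α × α × Rel => p.1.flatMap fun c => [c.1, c.2.1] :=
    h0.comp (by fun_prop)
  have h2 : PTime fun p : GInst α × α × α × Rel =>
      (p.1.flatMap fun c => [c.1, c.2.1]).idxOf p.2.1 := PTime.idxOf h1 (by fun_prop)
  have h3 : PTime fun p : GInst α × α × α × Rel =>
      (p.1.flatMap fun c => [c.1, c.2.1]).idxOf p.2.2.1 := PTime.idxOf h1 (by fun_prop)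
  fun_prop

end Pool.Agent.Lib.MP_186ff7_lc.PCP
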