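import Pool.Agent.Lib.MP_186ff7_lc.PCP.Stmts
import Pool.Agent.Lib.MP_186ff7_lc.Prog
import Pool.Agent.Lib.PTime.Fin

/-!
# The PCP theorem: the statements of the modules about polynomial time
-/

namespace Pool.Agent.Lib.MP_186ff7_lc.PCP

open Turing Pool.Agent.Lib.PT

noncomputable instance (T : ℕ) : Enc (Sg T) :=
  inferInstanceAs (Enc ({w : List Lb // w.length < T} → Al))

instance (T : ℕ) : EncInj (Sg T) :=
  inferInstanceAs (EncInj ({w : List Lb // w.length < T} → Al))

/-- A number for every symbol. -/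
def fcode : MP_c85d9c_lc.Sym → ℕ
  | .lit u b => (if u then 2 else 0) + if b then 1 else 0
  | .tick => 4
  | .stop => 5
  | .vert => 6
  | .edge => 7
  | .bit b => if b then 8 else 9

theorem fcode_injective : Function.Injective fcode := by
  have key : ∀ a b : MP_c85d9c_lc.Sym, fcode a = fcode b → a = b := by decide
  exact key

instance : Enc MP_c85d9c_lc.Sym := ⟨fun s => tr (fcode s)⟩

instance : EncInj MP_c85d9c_lc.Sym := ⟨fun _ _ h => fcode_injective (EncInj.inj (α := ℕ) h)⟩

/-- The graph of a constraint list. -/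
def StPTnb : Prop := PTime nV ∧ (∀ j, PTime fun p : Inst × ℕ => nb p.1 j p.2) ∧
  ∀ j, PTime fun p : Inst × ℕ => rl p.1 j p.2

/-- One round. -/
def StPTamp : Prop := ∀ T : ℕ, PTime (amp T)

/-- All rounds. -/
def StPTrounds : Prop := ∀ (T : ℕ) (ε₀ : ℝ) (C : ℕ), 0 < ε₀ → ε₀ ≤ 1 → 1 ≤ C → AmpOK T ε₀ C →
  PTime (rounds T)

/-- The constraint list of a formula. -/
def StPTcnf : Prop := ∃ F : List MP_c85d9c_lc.Sym → Inst, PTime F ∧
  ∀ φ : MP_c85d9c_lc.Formula, F (MP_c85d9c_lc.Formula.encode φ) = renum (ofCNF φ)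

/-- The graph of the walks on the constraints. -/
def StPTfg : Prop := ∀ K : ℕ, PTime fun I : Inst =>
  frE Graph.encode (thr I (klen K I), fg I (klen K I))

end Pool.Agent.Lib.MP_186ff7_lc.PCP
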