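import Pool.Agent.Lib.MP_186ff7_lc.PCP.PTnb
import Pool.Agent.Lib.MP_186ff7_lc.PCP.PTRenum

/-!
# One round, and all rounds, are computable in polynomial time
-/

namespace Pool.Agent.Lib.MP_186ff7_lc.PCP

open Turing Pool.Agent.Lib.PT

theorem ptime_goN (w : List Lb) : PTime fun p : Inst × ℕ => goN p.1 p.2 w := by
  induction w using List.reverseRecOn with
  | nil =>
    show PTime fun p : Inst × ℕ => p.2
    fun_prop
  | append_singleton w j ih =>
    have h : PTime fun p : Inst × ℕ => nb p.1 j (goN p.1 p.2 w) :=
      (ptime_nb j).comp (PTime.pair (by fun_prop) ih)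
    refine h.of_eq fun p => ?_
    unfold goN
    rw [List.foldl_append]
    rfl

theorem ptime_rels {T : ℕ} (w : Wd T) : PTime fun p : Inst × ℕ => rels p.1 p.2 w := by
  refine PTime.pi fun i => ?_
  show PTime fun p : Inst × ℕ => rl p.1 (w.1.1.get (i.cast w.1.2.symm))
    (goN p.1 p.2 (w.1.1.take i))
  exact (ptime_rl _).comp (PTime.pair (by fun_prop) (ptime_goN _))

theorem ptime_qnm {T : ℕ} (w : Wd T) (q : Qy (Sg T)) :
    PTime fun p : Inst × ℕ => qnm p.1 p.2 w q := by
  rcases q with e | e | f
  · show PTime fun p : Inst × ℕ => ((p.2, .inl e) : Nm T)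
    exact PTime.pair (by fun_prop) (PTime.const _)
  · show PTime fun p : Inst × ℕ => ((goN p.1 p.2 w.used, .inl e) : Nm T)
    exact PTime.pair (ptime_goN _) (PTime.const _)
  · show PTime fun p : Inst × ℕ => ((p.2, .inr (.inl (w, f))) : Nm T)
    exact PTime.pair (by fun_prop) (PTime.const _)

theorem ptime_comp (T : ℕ) : PTime (comp T) := by
  unfold comp
  refine PTime.flatMap (l := fun I : Inst => List.range (nV I))
    (f := fun I v => (allOf (Wd T)).flatMap fun w => (allOf (Tst (Sg T))).flatMap fun t =>
      (List.finRange 4).map fun i => (((v, .inr (.inr (w, t))), qnm I v w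
        (qry (cst w (rels I v w)) t i), zrel t.1 i) : Nm T × Nm T × Rel)) (by fun_prop) ?_
  refine PTime.flatMapConst _ fun w => PTime.flatMapConst _ fun t => PTime.mapConst _ fun i => ?_
  refine PTime.pair (PTime.pair (by fun_prop) (PTime.const _)) (PTime.pair ?_ (PTime.const _))
  have h1 : PTime fun p : Inst × ℕ => qry (cst w (rels p.1 p.2 w)) t i :=
    PTime.ofFinite (ptime_rels w) fun r => qry (cst w r) t i
  exact PTime.finCases h1 fun q => ptime_qnm w q

/-- **One round is computable in polynomial time.** -/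
theorem ptamp : StPTamp := fun T => by
  classical
  unfold amp
  exact ptime_renum.comp (ptime_comp T)

theorem amp_nil (T : ℕ) : amp T [] = [] := by
  have h1 : nV ([] : Inst) = 0 := by decide
  have h2 : comp T [] = [] := by
    unfold comp
    rw [h1]
    rfl
  unfold amp
  rw [h2]
  rfl

/-- **All rounds are computable in polynomial time.** -/
theorem ptrounds (hR : StRounds) : StPTrounds := by
  intro T ε₀ C h1 h2 h3 hA
  unfold rounds
  obtain ⟨M, hM⟩ := exists_sz_le Rel
  -- the size of a list of constraints with small numbers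
  have key : ∀ J : Inst, (∀ c ∈ J, c.1 < 2 * J.length ∧ c.2.1 < 2 * J.length) →
      sz J ≤ J.length * (8 * J.length + M + 4 + 1) + 1 := by
    intro J hJ
    refine sz_le_of_forall fun c hc => ?_
    obtain ⟨a, b, r⟩ := c
    obtain ⟨ha, hb⟩ := hJ _ hc
    simp only at ha hb
    rw [sz_mk, sz_mk, sz_nat, sz_nat]
    have := hM r
    omega
  have hlen : ∀ I : Inst, ∀ i ≤ Nat.log 2 I.length + 1,
      ((amp T)^[i] I).length ≤ I.length * (2 * I.length) ^ C := by
    intro I i hi
    rcases eq_or_ne I [] with rfl | hI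
    · have : (amp T)^[i] [] = [] := by
        clear hi
        induction i with
        | zero => rfl
        | succ i ih => rw [Function.iterate_succ_apply', ih, amp_nil]
      rw [this]
      simp
    · exact (hR T ε₀ C h1 h2 h3 hA I hI).2.2.2 i hi
  refine PTime.iterate (n := fun I : Inst => Nat.log 2 I.length + 1) (s := fun I => I)
    (f := fun _ J => amp T J) (by fun_prop) PTime.id ?_
    (B := fun I => sz I + ((sz I * (2 * sz I) ^ C) * (8 * (sz I * (2 * sz I) ^ C) + M + 4 + 1) + 1))
    ?_ ?_
  · exact (ptamp T).comp PTime.snd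
  · have hb : PB fun I : Inst => sz I * (2 * sz I) ^ C :=
      PB.sz.mul (((PB.const 2).mul PB.sz).pow C)
    exact PB.sz.add ((hb.mul (((((PB.const 8).mul hb).add (PB.const M)).add (PB.const 4)).add
      (PB.const 1))).add (PB.const 1))
  · intro I i hi
    rcases i with _ | i
    · show sz I ≤ _
      omega
    · have h4 : ((amp T)^[i + 1] I).length ≤ sz I * (2 * sz I) ^ C := by
        refine (hlen I (i + 1) hi).trans ?_
        have h5 := length_le_sz I
        exact Nat.mul_le_mul h5 (Nat.pow_le_pow_left (Nat.mul_le_mul_left 2 h5) C)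
      have h6 : ∀ c ∈ (amp T)^[i + 1] I, c.1 < 2 * ((amp T)^[i + 1] I).length ∧
          c.2.1 < 2 * ((amp T)^[i + 1] I).length := by
        rw [Function.iterate_succ_apply']
        rcases eq_or_ne ((amp T)^[i] I) [] with e | e
        · rw [e, amp_nil]
          simp
        · exact (hA _ e).2.2.2.2
      refine (key _ h6).trans ?_
      have h7 := Nat.mul_le_mul h4 (show 8 * ((amp T)^[i + 1] I).length + M + 4 + 1 ≤
        8 * (sz I * (2 * sz I) ^ C) + M + 4 + 1 by omega)
      omega

end Pool.Agent.Lib.MP_186ff7_lc.PCP
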