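import Pool.Agent.Lib.MP_186ff7_lc.PCP.PTStmts

/-!
# The neighbours in the graph of a constraint list are computable in polynomial time
-/

namespace Pool.Agent.Lib.MP_186ff7_lc.PCP

open Turing Pool.Agent.Lib.PT

section

variable {α : Type} [Enc α]

@[fun_prop] theorem ptime_rt {n : α → ℕ} (hn : PTime n) : PTime fun a => rt (n a) := by
  unfold rt
  refine PTime.headD ?_ (PTime.const 0)
  refine PTime.filter (l := fun a => List.range (n a + 1))
    (f := fun a m => decide (n a ≤ m * m)) (by fun_prop) ?_
  have h1 : PTime fun p : α × ℕ => n p.1 := hn.comp (by fun_prop)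
  fun_prop

@[fun_prop] theorem ptime_slots {m : α → ℕ} (hm : PTime m) : PTime fun a => slots (m a) := by
  unfold slots
  refine PTime.flatMap (l := fun a => List.range (m a))
    (f := fun a p => (List.range (m a)).map fun q => (p, q)) (by fun_prop) ?_
  have h1 : PTime fun p : α × ℕ => m p.1 := hm.comp (by fun_prop)
  exact PTime.map (l := fun p : α × ℕ => List.range (m p.1)) (f := fun p q => (p.2, q))
    (by fun_prop) (by fun_prop)

theorem ptime_torN {m : α → ℕ} {x : α → ℕ × ℕ} (hm : PTime m) (hx : PTime x) (j : Fin 8) :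
    PTime fun a => torN (m a) j (x a) := by
  fin_cases j
  · show PTime fun a => (((x a).1 + 2 * (x a).2) % m a, (x a).2)
    fun_prop
  · show PTime fun a => (((x a).1 + 2 * (m a - (x a).2)) % m a, (x a).2)
    fun_prop
  · show PTime fun a => ((x a).1, ((x a).2 + 2 * (x a).1) % m a)
    fun_prop
  · show PTime fun a => ((x a).1, ((x a).2 + 2 * (m a - (x a).1)) % m a)
    fun_prop
  · show PTime fun a => (((x a).1 + 1) % m a, (x a).2)
    fun_prop
  · show PTime fun a => (((x a).1 + (m a - 1)) % m a, (x a).2)
    fun_prop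
  · show PTime fun a => ((x a).1, ((x a).2 + 1) % m a)
    fun_prop
  · show PTime fun a => ((x a).1, ((x a).2 + (m a - 1)) % m a)
    fun_prop

@[fun_prop] theorem ptime_sides {I : α → Inst} (hI : PTime I) : PTime fun a => sides (I a) := by
  unfold sides
  refine PTime.flatMap (l := I) (f := fun _ c => [c.1, c.2.1]) hI ?_
  fun_prop

@[fun_prop] theorem ptime_srel {I : α → Inst} (hI : PTime I) : PTime fun a => srel (I a) := by
  unfold srel
  refine PTime.flatMap (l := I) (f := fun _ c => [c.2.2, fun a b => c.2.2 b a]) hI ?_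
  have h1 : PTime fun p : α × ℕ × ℕ × Rel => fun a b => p.2.2.2 b a :=
    PTime.ofFinite (g := fun p : α × ℕ × ℕ × Rel => p.2.2.2) (by fun_prop)
      fun r : Rel => fun a b => r b a
  exact PTime.cons (by fun_prop) (PTime.cons h1 (PTime.const _))

@[fun_prop] theorem ptime_spar {I : α → Inst} (hI : PTime I) : PTime fun a => spar (I a) := by
  unfold spar
  refine PTime.flatMap (l := fun a => List.range (I a).length)
    (f := fun _ i => [2 * i + 1, 2 * i]) (by fun_prop) ?_
  fun_prop

@[fun_prop] theorem ptime_occ {I : α → Inst} {x : α → ℕ} (hI : PTime I) (hx : PTime x) :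
    PTime fun a => occ (I a) (x a) := by
  unfold occ
  refine PTime.filter (l := fun a => List.range (sides (I a)).length)
    (f := fun a s => decide ((sides (I a)).getD s 0 = x a)) (by fun_prop) ?_
  have h1 : PTime fun p : α × ℕ => I p.1 := hI.comp (by fun_prop)
  have h2 : PTime fun p : α × ℕ => x p.1 := hx.comp (by fun_prop)
  fun_prop

@[fun_prop] theorem ptime_csz {I : α → Inst} {x : α → ℕ} (hI : PTime I) (hx : PTime x) :
    PTime fun a => csz (I a) (x a) := by
  unfold csz
  fun_prop

@[fun_prop] theorem ptime_pts {I : α → Inst} (hI : PTime I) : PTime fun a => pts (I a) := by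
  unfold pts
  refine PTime.flatMap (l := fun a => (sides (I a)).dedup)
    (f := fun a x => (slots (csz (I a) x)).map fun p => (x, p)) ?_ ?_
  · exact PTime.dedup (by fun_prop)
  · have h1 : PTime fun p : α × ℕ => I p.1 := hI.comp (by fun_prop)
    refine PTime.map (l := fun p : α × ℕ => slots (csz (I p.1) p.2)) (f := fun p q => (p.2, q))
      (by fun_prop) (by fun_prop)

@[fun_prop] theorem ptime_bsz {I : α → Inst} (hI : PTime I) : PTime fun a => bsz (I a) := by
  unfold bsz
  fun_prop

@[fun_prop] theorem ptime_nV' {I : α → Inst} (hI : PTime I) : PTime fun a => nV (I a) := by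
  unfold nV
  fun_prop

@[fun_prop] theorem ptime_sidePt {I : α → Inst} {s : α → ℕ} (hI : PTime I) (hs : PTime s) :
    PTime fun a => sidePt (I a) (s a) := by
  unfold sidePt
  have h1 : PTime fun a => (occ (I a) ((sides (I a)).getD (s a) 0)).idxOf (s a) :=
    PTime.idxOf (by fun_prop) hs
  fun_prop

@[fun_prop] theorem ptime_ptSide {I : α → Inst} {u : α → ℕ × ℕ × ℕ} (hI : PTime I)
    (hu : PTime u) : PTime fun a => ptSide (I a) (u a) := by
  unfold ptSide
  have h1 : PTime fun a => (slots (csz (I a) (u a).1)).idxOf (u a).2 :=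
    PTime.idxOf (by fun_prop) (by fun_prop)
  fun_prop

end

theorem ptime_nb (j : Lb) : PTime fun p : Inst × ℕ => nb p.1 j p.2 := by
  rcases j with j | j | j | j
  · -- the constraints
    unfold nb
    refine PTime.ite (p := fun p : Inst × ℕ => p.2 < (pts p.1).length) (by fun_prop) ?_
      (by fun_prop)
    refine PTime.listCases
      (l := fun p : Inst × ℕ => ptSide p.1 ((pts p.1).getD p.2 (0, 0, 0)))
      (f := fun p => p.2)
      (g := fun q => (pts q.1.1).idxOf (sidePt q.1.1 ((spar q.1.1).getD q.2.1 0)))
      (by fun_prop) (by fun_prop) ?_ (fun p h => by rw [h]) (fun p x t h => by rw [h])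
    exact PTime.idxOf (by fun_prop) (by fun_prop)
  · unfold nb
    refine PTime.ite (p := fun p : Inst × ℕ => p.2 < (pts p.1).length) (by fun_prop) ?_
      (by fun_prop)
    refine PTime.idxOf (by fun_prop) (PTime.pair (by fun_prop) ?_)
    exact ptime_torN (by fun_prop) (by fun_prop) j
  · unfold nb
    refine PTime.idxOf (by fun_prop) ?_
    exact ptime_torN (by fun_prop) (by fun_prop) j
  · unfold nb
    fun_prop

theorem ptime_rl (j : Lb) : PTime fun p : Inst × ℕ => rl p.1 j p.2 := by
  rcases j with j | j | j | j
  · unfold rl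
    refine PTime.ite (p := fun p : Inst × ℕ => p.2 < (pts p.1).length) (by fun_prop) ?_
      (PTime.const top)
    refine PTime.listCases
      (l := fun p : Inst × ℕ => ptSide p.1 ((pts p.1).getD p.2 (0, 0, 0)))
      (f := fun p => top)
      (g := fun q => (srel q.1.1).getD q.2.1 top)
      (by fun_prop) (PTime.const top) ?_ (fun p h => by rw [h]) (fun p x t h => by rw [h])
    exact PTime.getD (by fun_prop) (by fun_prop) (PTime.const top)
  · exact PTime.const _
  · exact PTime.const _
  · exact PTime.const _

/-- **The graph of a constraint list is computable in polynomial time.** -/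
theorem ptnb : StPTnb := ⟨ptime_nV' PTime.id, ptime_nb, ptime_rl⟩

end Pool.Agent.Lib.MP_186ff7_lc.PCP
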