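import Pool.Agent.Lib.MP_186ff7_lc.PCP.Stmts

/-!
# The PCP theorem: numbering the variables, and all rounds
-/

namespace Pool.Agent.Lib.MP_186ff7_lc.PCP

/-! ### Numbering the variables -/

section

variable {α : Type} [DecidableEq α]

/-- The names of the variables. -/
def names (I : GInst α) : List α := I.flatMap fun c => [c.1, c.2.1]

omit [DecidableEq α] in
theorem length_names (I : GInst α) : (names I).length = 2 * I.length := by
  unfold names
  induction I with
  | nil => rfl
  | cons c I ih => rw [List.flatMap_cons, List.length_append, ih]; simp; omega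

omit [DecidableEq α] in
theorem mem_names {I : GInst α} {c : α × α × Rel} (hc : c ∈ I) :
    c.1 ∈ names I ∧ c.2.1 ∈ names I := by
  unfold names
  constructor <;> rw [List.mem_flatMap] <;> exact ⟨c, hc, by simp⟩

theorem renum_eq (I : GInst α) :
    renum I = I.map fun c => ((names I).idxOf c.1, (names I).idxOf c.2.1, c.2.2) := rfl

theorem viol_renum (I : GInst α) (σ : ℕ → Al) :
    viol (renum I) σ = viol I fun x => σ ((names I).idxOf x) := by
  rw [renum_eq]
  unfold viol
  rw [List.countP_map]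
  rfl

theorem length_renum (I : GInst α) : (renum I).length = I.length := by
  rw [renum_eq, List.length_map]

theorem sat_renum {I : GInst α} (h : Sat I) : Sat (renum I) := by
  obtain ⟨σ, hσ⟩ := h
  refine ⟨fun i => ((names I)[i]?).elim 0 σ, ?_⟩
  rw [viol_renum]
  unfold viol at hσ ⊢
  rw [List.countP_eq_zero] at hσ ⊢
  intro c hc
  have h1 := hσ c hc
  obtain ⟨h2, h3⟩ := mem_names hc
  have h4 : ∀ x ∈ names I, ((names I)[(names I).idxOf x]?).elim 0 σ = σ x := by
    intro x hx
    rw [List.getElem?_eq_getElem (List.idxOf_lt_length_of_mem hx), List.getElem_idxOf]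
    rfl
  simp only [h4 _ h2, h4 _ h3]
  exact h1

end

theorem renum_ok : StRenum := by
  intro α _ I
  refine ⟨length_renum I, ?_, sat_renum, ?_⟩
  · intro c hc
    rw [renum_eq, List.mem_map] at hc
    obtain ⟨d, hd, rfl⟩ := hc
    obtain ⟨h2, h3⟩ := mem_names hd
    rw [← length_names]
    exact ⟨List.idxOf_lt_length_of_mem h2, List.idxOf_lt_length_of_mem h3⟩
  · intro δ h σ
    rw [viol_renum, length_renum]
    exact h _

/-! ### All rounds -/

theorem Gap.mono {α : Type} {I : GInst α} {δ δ' : ℝ} (h : Gap δ' I) (hd : δ ≤ δ') : Gap δ I := by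
  intro σ
  exact (mul_le_mul_of_nonneg_right hd (Nat.cast_nonneg _)).trans (h σ)

theorem iter_ok {T : ℕ} {ε₀ : ℝ} {C : ℕ} (hε : 0 < ε₀) (hA : AmpOK T ε₀ C) (I : Inst)
    (hI : I ≠ []) (i : ℕ) : (amp T)^[i] I ≠ [] ∧ ((amp T)^[i] I).length ≤ C ^ i * I.length ∧
    (Sat I → Sat ((amp T)^[i] I)) ∧
    (¬ Sat I → Gap (min (2 ^ i / I.length) ε₀) ((amp T)^[i] I)) := by
  induction i with
  | zero =>
    refine ⟨hI, by simp, fun h => h, fun h σ => ?_⟩
    have h0 : 0 < I.length := List.length_pos_of_ne_nil hI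
    have h1 : (1 : ℝ) ≤ viol I σ := by
      have : viol I σ ≠ 0 := fun h2 => h ⟨σ, h2⟩
      exact_mod_cast Nat.one_le_iff_ne_zero.2 this
    refine le_trans ?_ h1
    have h2 : (0 : ℝ) < I.length := by exact_mod_cast h0
    calc min (2 ^ 0 / (I.length : ℝ)) ε₀ * I.length ≤ (2 ^ 0 / (I.length : ℝ)) * I.length := by
          gcongr
          exact min_le_left _ _
      _ = 1 := by field_simp
  | succ i ih =>
    obtain ⟨h1, h2, h3, h4⟩ := ih
    obtain ⟨g1, g2, g3, g4, -⟩ := hA _ h1
    rw [Function.iterate_succ_apply']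
    refine ⟨g1, g2.trans ?_, fun h => g3 (h3 h), fun h => (g4 _ (h4 h)).mono ?_⟩
    · calc C * ((amp T)^[i] I).length ≤ C * (C ^ i * I.length) := Nat.mul_le_mul_left _ h2
        _ = C ^ (i + 1) * I.length := by ring
    · refine le_min ?_ (min_le_right _ _)
      rw [mul_min_of_nonneg _ _ (by norm_num : (0 : ℝ) ≤ 2)]
      refine min_le_min (le_of_eq ?_) (by linarith)
      rw [pow_succ]
      ring

theorem rounds_ok : StRounds := by
  intro T ε₀ C hε hε1 hC hA I hI
  have h0 : 0 < I.length := List.length_pos_of_ne_nil hI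
  obtain ⟨h1, -, h3, h4⟩ := iter_ok hε hA I hI (Nat.log 2 I.length + 1)
  refine ⟨h1, h3, fun h => (h4 h).mono ?_, fun i hi => ?_⟩
  · refine le_min ?_ le_rfl
    refine hε1.trans ?_
    rw [le_div_iff₀ (by exact_mod_cast h0), one_mul]
    exact_mod_cast (Nat.lt_pow_succ_log_self (by norm_num) I.length).le
  · refine (iter_ok hε hA I hI i).2.1.trans ?_
    rw [mul_comm]
    refine Nat.mul_le_mul_left _ ?_
    calc C ^ i ≤ (2 ^ C) ^ i := Nat.pow_le_pow_left (Nat.lt_two_pow_self).le _
      _ = (2 ^ i) ^ C := by rw [← pow_mul, ← pow_mul, mul_comm]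
      _ ≤ (2 * I.length) ^ C := by
        refine Nat.pow_le_pow_left ?_ _
        calc 2 ^ i ≤ 2 ^ (Nat.log 2 I.length + 1) := Nat.pow_le_pow_right (by norm_num) hi
          _ = 2 * 2 ^ Nat.log 2 I.length := by ring
          _ ≤ 2 * I.length := Nat.mul_le_mul_left _ (Nat.pow_log_le_self 2 h0.ne')

end Pool.Agent.Lib.MP_186ff7_lc.PCP
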